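import Mathlib

set_option autoImplicit false

/-! Abstract polyhedra (abstract polytopes of rank 3) from flag data. -/

namespace Q142.Abs3

/-- A flag: a maximal chain. -/
def IsFlag {P : Type} [PartialOrder P] (C : Set P) : Prop := IsMaxChain (· ≤ ·) C

/-- Two flags are adjacent if they differ in exactly one face. -/
def AdjFlag {P : Type} (X Y : Set P) : Prop := (X \ Y).ncard = 1 ∧ (Y \ X).ncard = 1

/-- `P` with rank function `rk` is an abstract polyhedron (abstract polytope of rank 3). -/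
structure IsPolyhedron (P : Type) [PartialOrder P] (rk : P → ℤ) : Prop where
  strictMono : StrictMono rk
  range_rk : Set.range rk = {-1, 0, 1, 2, 3}
  least : ∃ x : P, ∀ y, x ≤ y
  greatest : ∃ x : P, ∀ y, y ≤ x
  flag_card : ∀ C : Set P, IsFlag C → C.ncard = 5
  diamond : ∀ F G : P, F ≤ G → rk G = rk F + 2 →
    {H | rk H = rk F + 1 ∧ F ≤ H ∧ H ≤ G}.ncard = 2
  connected : ∀ Φ Ψ : Set P, IsFlag Φ → IsFlag Ψ →
    Relation.ReflTransGen (fun X Y => IsFlag Y ∧ Φ ∩ Ψ ⊆ Y ∧ AdjFlag X Y) Φ Ψ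

/-- Equivelar of type `{p, q}`: every 2-face is a `p`-gon (it has `p` vertices and `p` edges) and
every vertex-figure is a `q`-gon (every vertex is in `q` edges and `q` 2-faces). -/
def IsEquivelar (P : Type) [PartialOrder P] (rk : P → ℤ) (p q : ℕ) : Prop :=
  (∀ F : P, rk F = 2 → {v | rk v = 0 ∧ v ≤ F}.ncard = p ∧ {e | rk e = 1 ∧ e ≤ F}.ncard = p) ∧
  ∀ v : P, rk v = 0 → {e | rk e = 1 ∧ v ≤ e}.ncard = q ∧ {F | rk F = 2 ∧ v ≤ F}.ncard = q

/-- A duality: a bijection reversing the order. -/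
def IsDuality {P : Type} [PartialOrder P] (δ : P ≃ P) : Prop := ∀ F G : P, F ≤ G ↔ δ G ≤ δ F

/-- A polarity: a duality of period 2. -/
def IsPolarity {P : Type} [PartialOrder P] (δ : P ≃ P) : Prop :=
  IsDuality δ ∧ ∀ F, δ (δ F) = F

/-- The automorphism group is transitive on the faces of each rank. -/
def FullyTransitive (P : Type) [PartialOrder P] (rk : P → ℤ) : Prop :=
  ∀ F G : P, rk F = rk G → ∃ α : P ≃o P, α F = G

/-- Flag data: labels of the faces of a flag and the flag adjacencies. -/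
structure FlagData (T : Type) where
  /-- the label of the `i`-face of a flag -/
  lab : Fin 3 → T → ℕ
  /-- the `i`-adjacent flag -/
  r : Fin 3 → T → T

variable {T : Type}

/-- The conditions making flag data a polyhedron. -/
structure FlagData.Good (X : FlagData T) : Prop where
  ne : Nonempty T
  invol : ∀ i t, X.r i (X.r i t) = t
  lab_r : ∀ i j t, X.lab j (X.r i t) = X.lab j t ↔ i ≠ j
  uniq : ∀ i t t', (∀ j, j ≠ i → X.lab j t = X.lab j t') → t' = t ∨ t' = X.r i t
  comm : ∀ t t', X.lab 1 t = X.lab 1 t' →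
    t' = t ∨ t' = X.r 0 t ∨ t' = X.r 2 t ∨ t' = X.r 0 (X.r 2 t)
  conn : ∀ t t', Relation.ReflTransGen (fun a b => ∃ i, X.lab i t ≠ X.lab i t' ∧ b = X.r i a) t t'

/-- The faces. -/
inductive Fc (X : FlagData T)
  | bot : Fc X
  | mid (i : Fin 3) (a : Set.range (X.lab i)) : Fc X
  | top : Fc X

/-- rank -/
def rk (X : FlagData T) : Fc X → ℤ
  | Fc.bot => -1
  | Fc.mid i _ => (i : ℕ)
  | Fc.top => 3

/-- the flag `t` contains the face -/
def mem (X : FlagData T) (t : T) : Fc X → Prop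
  | Fc.bot => True
  | Fc.mid i a => X.lab i t = a
  | Fc.top => True

/-- the `i`-face of a flag -/
def fc (X : FlagData T) (i : Fin 3) (t : T) : Fc X := Fc.mid i ⟨X.lab i t, ⟨t, rfl⟩⟩

variable {X : FlagData T}

lemma mem_fc (i : Fin 3) (t : T) : mem X t (fc X i t) := rfl

lemma mem_fc_iff {i : Fin 3} {t t' : T} : mem X t' (fc X i t) ↔ X.lab i t' = X.lab i t := Iff.rfl

lemma fc_eq_iff {i : Fin 3} {t t' : T} : fc X i t = fc X i t' ↔ X.lab i t = X.lab i t' := by
  constructor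
  · intro h
    unfold fc at h
    simp only [Fc.mid.injEq, heq_eq_eq, true_and] at h
    exact congrArg Subtype.val h
  · intro h
    unfold fc
    congr 1
    exact Subtype.ext h

lemma mem_exists [Nonempty T] (x : Fc X) : ∃ t, mem X t x := by
  cases x with
  | bot => exact ⟨Classical.arbitrary T, trivial⟩
  | top => exact ⟨Classical.arbitrary T, trivial⟩
  | mid i a =>
    obtain ⟨a, t, rfl⟩ := a
    exact ⟨t, rfl⟩

lemma eq_fc {t : T} {i : Fin 3} {a : Set.range (X.lab i)} (h : mem X t (Fc.mid i a)) :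
    Fc.mid i a = fc X i t := by
  unfold fc
  congr 1
  exact Subtype.ext h.symm

lemma rk_cases (x : Fc X) :
    (x = Fc.bot ∧ rk X x = -1) ∨ (∃ a, x = Fc.mid 0 a ∧ rk X x = 0) ∨
    (∃ a, x = Fc.mid 1 a ∧ rk X x = 1) ∨ (∃ a, x = Fc.mid 2 a ∧ rk X x = 2) ∨
    (x = Fc.top ∧ rk X x = 3) := by
  cases x with
  | bot => left; exact ⟨rfl, rfl⟩
  | top => right; right; right; right; exact ⟨rfl, rfl⟩
  | mid i a =>
    fin_cases i
    · right; left; exact ⟨a, rfl, rfl⟩
    · right; right; left; exact ⟨a, rfl, rfl⟩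
    · right; right; right; left; exact ⟨a, rfl, rfl⟩

/-- two faces of equal rank in a flag are equal -/
lemma mem_unique {t : T} {x y : Fc X} (hx : mem X t x) (hy : mem X t y)
    (h : rk X x = rk X y) : x = y := by
  rcases rk_cases x with ⟨rfl, hx'⟩ | ⟨a, rfl, hx'⟩ | ⟨a, rfl, hx'⟩ | ⟨a, rfl, hx'⟩ | ⟨rfl, hx'⟩ <;>
  rcases rk_cases y with ⟨rfl, hy'⟩ | ⟨b, rfl, hy'⟩ | ⟨b, rfl, hy'⟩ | ⟨b, rfl, hy'⟩ | ⟨rfl, hy'⟩ <;>
  first
    | rfl
    | (exfalso; omega)
    | rw [eq_fc hx, eq_fc hy]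

/-- the order -/
def le (X : FlagData T) (x y : Fc X) : Prop :=
  x = y ∨ (rk X x < rk X y ∧ ∃ t, mem X t x ∧ mem X t y)

lemma le_mem [Nonempty T] {x y : Fc X} (h : le X x y) : ∃ t, mem X t x ∧ mem X t y := by
  rcases h with rfl | ⟨-, h⟩
  · obtain ⟨t, ht⟩ := mem_exists x
    exact ⟨t, ht, ht⟩
  · exact h

lemma le_of_mem {t : T} {x y : Fc X} (hx : mem X t x) (hy : mem X t y)
    (h : rk X x ≤ rk X y) : le X x y := by
  rcases eq_or_lt_of_le h with h' | h'
  · left; exact mem_unique hx hy h'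
  · right; exact ⟨h', t, hx, hy⟩

lemma FlagData.Good.lab_r0 (hX : X.Good) (t : T) : X.lab 1 (X.r 0 t) = X.lab 1 t ∧
    X.lab 2 (X.r 0 t) = X.lab 2 t :=
  ⟨(hX.lab_r 0 1 t).2 (by decide), (hX.lab_r 0 2 t).2 (by decide)⟩

lemma FlagData.Good.lab_r1 (hX : X.Good) (t : T) : X.lab 0 (X.r 1 t) = X.lab 0 t ∧
    X.lab 2 (X.r 1 t) = X.lab 2 t :=
  ⟨(hX.lab_r 1 0 t).2 (by decide), (hX.lab_r 1 2 t).2 (by decide)⟩

lemma FlagData.Good.lab_r2 (hX : X.Good) (t : T) : X.lab 0 (X.r 2 t) = X.lab 0 t ∧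
    X.lab 1 (X.r 2 t) = X.lab 1 t :=
  ⟨(hX.lab_r 2 0 t).2 (by decide), (hX.lab_r 2 1 t).2 (by decide)⟩

/-- a vertex on an edge and the edge on a face lie in a common flag -/
lemma FlagData.Good.three (hX : X.Good) {t t' : T} (h : X.lab 1 t = X.lab 1 t') :
    ∃ s, X.lab 0 s = X.lab 0 t ∧ X.lab 1 s = X.lab 1 t ∧ X.lab 2 s = X.lab 2 t' := by
  rcases hX.comm t t' h with rfl | rfl | rfl | rfl
  · exact ⟨t', rfl, rfl, rfl⟩
  · exact ⟨t, rfl, rfl, (hX.lab_r0 t).2.symm⟩
  · exact ⟨X.r 2 t, (hX.lab_r2 t).1, (hX.lab_r2 t).2, rfl⟩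
  · refine ⟨X.r 2 t, (hX.lab_r2 t).1, (hX.lab_r2 t).2, ?_⟩
    exact (hX.lab_r0 (X.r 2 t)).2.symm

lemma FlagData.Good.trans (hX : X.Good) {x y z : Fc X} (hxy : le X x y) (hyz : le X y z) :
    le X x z := by
  have := hX.ne
  rcases hxy with rfl | ⟨h1, t, ht, ht'⟩
  · exact hyz
  rcases hyz with rfl | ⟨h2, s, hs, hs'⟩
  · exact Or.inr ⟨h1, t, ht, ht'⟩
  right
  refine ⟨h1.trans h2, ?_⟩
  rcases rk_cases y with ⟨rfl, hy⟩ | ⟨a, rfl, hy⟩ | ⟨a, rfl, hy⟩ | ⟨a, rfl, hy⟩ | ⟨rfl, hy⟩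
  · rcases rk_cases x with ⟨rfl, hx⟩ | ⟨b, rfl, hx⟩ | ⟨b, rfl, hx⟩ | ⟨b, rfl, hx⟩ | ⟨rfl, hx⟩ <;>
      (exfalso; omega)
  · rcases rk_cases x with ⟨rfl, hx⟩ | ⟨b, rfl, hx⟩ | ⟨b, rfl, hx⟩ | ⟨b, rfl, hx⟩ | ⟨rfl, hx⟩
    · exact ⟨s, trivial, hs'⟩
    all_goals (exfalso; omega)
  · rcases rk_cases x with ⟨rfl, hx⟩ | ⟨b, rfl, hx⟩ | ⟨b, rfl, hx⟩ | ⟨b, rfl, hx⟩ | ⟨rfl, hx⟩
    · exact ⟨s, trivial, hs'⟩
    · rcases rk_cases z with ⟨rfl, hz⟩ | ⟨c, rfl, hz⟩ | ⟨c, rfl, hz⟩ | ⟨c, rfl, hz⟩ | ⟨rfl, hz⟩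
      · exfalso; omega
      · exfalso; omega
      · exfalso; omega
      · have h3 : X.lab 1 t = X.lab 1 s := by
          rw [show X.lab 1 t = a from ht', show X.lab 1 s = a from hs]
        obtain ⟨u, hu0, -, hu2⟩ := hX.three h3
        refine ⟨u, ?_, ?_⟩
        · show X.lab 0 u = b
          rw [hu0]; exact ht
        · show X.lab 2 u = c
          rw [hu2]; exact hs'
      · exact ⟨t, ht, trivial⟩
    all_goals (exfalso; omega)
  · rcases rk_cases z with ⟨rfl, hz⟩ | ⟨c, rfl, hz⟩ | ⟨c, rfl, hz⟩ | ⟨c, rfl, hz⟩ | ⟨rfl, hz⟩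
    · exfalso; omega
    · exfalso; omega
    · exfalso; omega
    · exfalso; omega
    · exact ⟨t, ht, trivial⟩
  · rcases rk_cases z with ⟨rfl, hz⟩ | ⟨c, rfl, hz⟩ | ⟨c, rfl, hz⟩ | ⟨c, rfl, hz⟩ | ⟨rfl, hz⟩ <;>
      (exfalso; omega)

/-- the face poset -/
@[reducible] def poset (hX : X.Good) : PartialOrder (Fc X) where
  le := le X
  le_refl x := Or.inl rfl
  le_trans x y z := hX.trans
  le_antisymm x y h1 h2 := by
    rcases h1 with h | ⟨h1, -⟩
    · exact h
    · rcases h2 with h | ⟨h2, -⟩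
      · exact h.symm
      · exact absurd h1 (not_lt.2 h2.le)

/-- the chain of a flag -/
def Ch (X : FlagData T) (t : T) : Set (Fc X) := {x | mem X t x}

lemma ch_eq (t : T) : Ch X t = {Fc.bot, fc X 0 t, fc X 1 t, fc X 2 t, Fc.top} := by
  ext x
  simp only [Ch, Set.mem_ofPred_eq, Set.mem_insert_iff, Set.mem_singleton_iff]
  constructor
  · intro h
    rcases rk_cases x with ⟨rfl, -⟩ | ⟨a, rfl, -⟩ | ⟨a, rfl, -⟩ | ⟨a, rfl, -⟩ | ⟨rfl, -⟩
    · left; rfl
    · right; left; exact eq_fc h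
    · right; right; left; exact eq_fc h
    · right; right; right; left; exact eq_fc h
    · right; right; right; right; rfl
  · rintro (rfl | rfl | rfl | rfl | rfl) <;> trivial

lemma ch_card (t : T) : (Ch X t).ncard = 5 := by
  classical
  have h1 : Set.InjOn (rk X) (Ch X t) := fun x hx y hy h => mem_unique hx hy h
  have h2 : rk X '' Ch X t = ((({-1, 0, 1, 2, 3} : Finset ℤ)) : Set ℤ) := by
    rw [ch_eq]
    simp only [Set.image_insert_eq, Set.image_singleton]
    simp [rk, fc]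
  rw [← h1.ncard_image, h2, Set.ncard_coe_finset]
  rfl

section order

variable (hX : X.Good)

lemma rk_lt {x y : Fc X} (h : (poset hX).lt x y) : rk X x < rk X y := by
  have h' := (@lt_iff_le_and_ne _ (poset hX) x y).1 h
  rcases h'.1 with h1 | h1
  · exact absurd h1 h'.2
  · exact h1.1

lemma rk_strictMono : @StrictMono _ _ (poset hX).toPreorder _ (rk X) := by
  intro x y h
  exact rk_lt hX h

lemma comparable {C : Set (Fc X)} (hC : @IsChain _ (poset hX).le C) {x y : Fc X} (hx : x ∈ C)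
    (hy : y ∈ C) : le X x y ∨ le X y x := by
  by_cases h : x = y
  · left; left; exact h
  · exact hC hx hy h

lemma chain_unique {C : Set (Fc X)} (hC : @IsChain _ (poset hX).le C) {x y : Fc X} (hx : x ∈ C)
    (hy : y ∈ C) (h : rk X x = rk X y) : x = y := by
  rcases comparable hX hC hx hy with h1 | h1
  · rcases h1 with h1 | ⟨h1, -⟩
    · exact h1
    · omega
  · rcases h1 with h1 | ⟨h1, -⟩
    · exact h1.symm
    · omega

lemma le_of_rk {C : Set (Fc X)} (hC : @IsChain _ (poset hX).le C) {x y : Fc X} (hx : x ∈ C)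
    (hy : y ∈ C) (h : rk X x < rk X y) : ∃ t, mem X t x ∧ mem X t y := by
  rcases comparable hX hC hx hy with h1 | h1
  · rcases h1 with h1 | ⟨-, h1⟩
    · rw [h1] at h; omega
    · exact h1
  · rcases h1 with h1 | ⟨h1, -⟩
    · rw [h1] at h; omega
    · omega

lemma ch_chain (t : T) : @IsChain _ (poset hX).le (Ch X t) := by
  intro x hx y hy _
  rcases le_total (rk X x) (rk X y) with h | h
  · left; exact le_of_mem hx hy h
  · right; exact le_of_mem hy hx h

/-- every chain lies in the chain of a flag -/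
lemma chain_sub {C : Set (Fc X)} (hC : @IsChain _ (poset hX).le C) :
    ∃ t, C ⊆ Ch X t := by
  have := hX.ne
  -- it suffices to hit the middle faces
  have key : ∀ t, (∀ i a, Fc.mid i a ∈ C → mem X t (Fc.mid i a)) → C ⊆ Ch X t := by
    intro t ht x hx
    cases x with
    | bot => trivial
    | top => trivial
    | mid i a => exact ht i a hx
  have huniq : ∀ i a b, Fc.mid (X := X) i a ∈ C → Fc.mid i b ∈ C → a = b := by
    intro i a b ha hb
    have h1 := chain_unique hX hC ha hb rfl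
    simpa using h1
  by_cases h0 : ∃ a, Fc.mid (X := X) 0 a ∈ C <;> by_cases h1 : ∃ a, Fc.mid (X := X) 1 a ∈ C <;>
    by_cases h2 : ∃ a, Fc.mid (X := X) 2 a ∈ C
  · obtain ⟨a, ha⟩ := h0
    obtain ⟨b, hb⟩ := h1
    obtain ⟨c, hc⟩ := h2
    obtain ⟨t, ht1, ht2⟩ := le_of_rk hX hC ha hb (by simp [rk])
    obtain ⟨s, hs1, hs2⟩ := le_of_rk hX hC hb hc (by simp [rk])
    have h3 : X.lab 1 t = X.lab 1 s := by
      rw [show X.lab 1 t = b from ht2, show X.lab 1 s = b from hs1]
    obtain ⟨u, hu0, hu1, hu2⟩ := hX.three h3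
    refine ⟨u, key u ?_⟩
    intro i d hd
    fin_cases i
    · have := huniq 0 _ _ ha hd
      subst this
      show X.lab 0 u = a
      rw [hu0]; exact ht1
    · have := huniq 1 _ _ hb hd
      subst this
      show X.lab 1 u = b
      rw [hu1]; exact ht2
    · have := huniq 2 _ _ hc hd
      subst this
      show X.lab 2 u = c
      rw [hu2]; exact hs2
  · obtain ⟨a, ha⟩ := h0
    obtain ⟨b, hb⟩ := h1
    push Not at h2
    obtain ⟨t, ht1, ht2⟩ := le_of_rk hX hC ha hb (by simp [rk])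
    refine ⟨t, key t ?_⟩
    intro i d hd
    fin_cases i
    · have := huniq 0 _ _ ha hd
      subst this; exact ht1
    · have := huniq 1 _ _ hb hd
      subst this; exact ht2
    · exact absurd hd (h2 d)
  · obtain ⟨a, ha⟩ := h0
    push Not at h1
    obtain ⟨c, hc⟩ := h2
    obtain ⟨t, ht1, ht2⟩ := le_of_rk hX hC ha hc (by simp [rk])
    refine ⟨t, key t ?_⟩
    intro i d hd
    fin_cases i
    · have := huniq 0 _ _ ha hd
      subst this; exact ht1
    · exact absurd hd (h1 d)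
    · have := huniq 2 _ _ hc hd
      subst this; exact ht2
  · obtain ⟨a, ha⟩ := h0
    push Not at h1 h2
    obtain ⟨t, ht⟩ := mem_exists (Fc.mid (X := X) 0 a)
    refine ⟨t, key t ?_⟩
    intro i d hd
    fin_cases i
    · have := huniq 0 _ _ ha hd
      subst this; exact ht
    · exact absurd hd (h1 d)
    · exact absurd hd (h2 d)
  · push Not at h0
    obtain ⟨b, hb⟩ := h1
    obtain ⟨c, hc⟩ := h2
    obtain ⟨t, ht1, ht2⟩ := le_of_rk hX hC hb hc (by simp [rk])
    refine ⟨t, key t ?_⟩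
    intro i d hd
    fin_cases i
    · exact absurd hd (h0 d)
    · have := huniq 1 _ _ hb hd
      subst this; exact ht1
    · have := huniq 2 _ _ hc hd
      subst this; exact ht2
  · push Not at h0 h2
    obtain ⟨b, hb⟩ := h1
    obtain ⟨t, ht⟩ := mem_exists (Fc.mid (X := X) 1 b)
    refine ⟨t, key t ?_⟩
    intro i d hd
    fin_cases i
    · exact absurd hd (h0 d)
    · have := huniq 1 _ _ hb hd
      subst this; exact ht
    · exact absurd hd (h2 d)
  · push Not at h0 h1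
    obtain ⟨c, hc⟩ := h2
    obtain ⟨t, ht⟩ := mem_exists (Fc.mid (X := X) 2 c)
    refine ⟨t, key t ?_⟩
    intro i d hd
    fin_cases i
    · exact absurd hd (h0 d)
    · exact absurd hd (h1 d)
    · have := huniq 2 _ _ hc hd
      subst this; exact ht
  · push Not at h0 h1 h2
    refine ⟨Classical.arbitrary T, key _ ?_⟩
    intro i d hd
    fin_cases i
    · exact absurd hd (h0 d)
    · exact absurd hd (h1 d)
    · exact absurd hd (h2 d)

lemma flag_iff (C : Set (Fc X)) : @IsFlag _ (poset hX) C ↔ ∃ t, C = Ch X t := by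
  constructor
  · intro hC
    obtain ⟨t, ht⟩ := chain_sub hX hC.1
    exact ⟨t, hC.2 (ch_chain hX t) ht⟩
  · rintro ⟨t, rfl⟩
    refine ⟨ch_chain hX t, ?_⟩
    intro D hD hsub
    obtain ⟨s, hs⟩ := chain_sub hX hD
    apply Set.Subset.antisymm hsub
    have hfin : (Ch X s).Finite := Set.finite_of_ncard_ne_zero (by rw [ch_card]; norm_num)
    have h1 : Ch X t = Ch X s :=
      Set.eq_of_subset_of_ncard_le (hsub.trans hs) (by rw [ch_card, ch_card]) hfin
    rw [h1]
    exact hs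

include hX in
/-- `Ch` determines the flag -/
lemma ch_inj {t s : T} (h : Ch X t = Ch X s) : t = s := by
  have hl : ∀ i, X.lab i t = X.lab i s := by
    intro i
    have h1 : fc X i s ∈ Ch X s := mem_fc i s
    rw [← h] at h1
    exact h1
  rcases hX.uniq 0 t s (fun j _ => hl j) with h1 | h1
  · exact h1.symm
  · exfalso
    have h2 := (hX.lab_r 0 0 t)
    rw [← h1] at h2
    have h3 := h2.1 (hl 0).symm
    exact h3 rfl

include hX in
lemma ch_adj (i : Fin 3) (t : T) : AdjFlag (Ch X t) (Ch X (X.r i t)) := by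
  have hne : X.lab i (X.r i t) ≠ X.lab i t := fun h => ((hX.lab_r i i t).1 h) rfl
  have hsame : ∀ j, j ≠ i → X.lab j (X.r i t) = X.lab j t :=
    fun j hj => (hX.lab_r i j t).2 (Ne.symm hj)
  have hdiff : ∀ t t' : T, (∀ j, j ≠ i → X.lab j t' = X.lab j t) → X.lab i t' ≠ X.lab i t →
      Ch X t \ Ch X t' = {fc X i t} := by
    intro t t' h1 h2
    ext x
    constructor
    · rintro ⟨hx, hx'⟩
      cases x with
      | bot => exact absurd trivial hx'
      | top => exact absurd trivial hx'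
      | mid j a =>
        by_cases hj : j = i
        · subst hj
          exact eq_fc hx
        · exfalso
          apply hx'
          show X.lab j t' = a
          rw [h1 j hj]
          exact hx
    · rintro rfl
      refine ⟨mem_fc i t, fun h => h2 ?_⟩
      exact h
  constructor
  · rw [hdiff t (X.r i t) hsame hne, Set.ncard_singleton]
  · rw [hdiff (X.r i t) t (fun j hj => (hsame j hj).symm) hne.symm, Set.ncard_singleton]

include hX in
/-- two flags through two comparable faces -/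
lemma sect (t : T) (i : Fin 3) (H : Fc X) (hH : rk X H = (i : ℕ)) (s : T) (hs : mem X s H)
    (hs0 : i ≠ 0 → mem X s (fc X (i - 1) t)) (hs2 : i ≠ 2 → mem X s (fc X (i + 1) t)) :
    H = fc X i t ∨ H = fc X i (X.r i t) := by
  have h1 : H = fc X i s := by
    refine mem_unique hs (mem_fc i s) ?_
    rw [hH]; rfl
  rw [h1]
  fin_cases i
  · have h3 : X.lab 1 t = X.lab 1 s := (hs2 (by decide)).symm
    rcases hX.comm t s h3 with rfl | rfl | rfl | rfl
    · left; rfl
    · right; rfl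
    · left
      exact fc_eq_iff.2 (hX.lab_r2 t).1
    · right
      refine fc_eq_iff.2 ?_
      -- commuting involutions: compare labels
      show X.lab 0 (X.r 0 (X.r 2 t)) = X.lab 0 (X.r 0 t)
      have h4 : X.lab 1 t = X.lab 1 (X.r 0 (X.r 2 t)) := by
        rw [(hX.lab_r0 _).1, (hX.lab_r2 t).2]
      rcases hX.comm (X.r 0 t) (X.r 0 (X.r 2 t)) (by
        rw [(hX.lab_r0 _).1, (hX.lab_r0 _).1, (hX.lab_r2 t).2]) with h5 | h5 | h5 | h5
      · rw [h5]
      · exfalso
        rw [hX.invol] at h5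
        have h6 := congrArg (X.lab 2) h5
        rw [(hX.lab_r0 _).2] at h6
        exact ((hX.lab_r 2 2 t).1 h6) rfl
      · rw [h5]; exact (hX.lab_r2 _).1
      · exfalso
        have h6 := congrArg (X.lab 0) h5
        have h7 := congrArg (X.r 0) h5
        rw [hX.invol, hX.invol] at h7
        have h8 := congrArg (X.lab 0) h7
        rw [(hX.lab_r2 _).1, (hX.lab_r2 _).1] at h8
        exact ((hX.lab_r 0 0 t).1 h8.symm) rfl
  · have h3 : X.lab 0 t = X.lab 0 s := (hs0 (by decide)).symm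
    have h4 : X.lab 2 t = X.lab 2 s := (hs2 (by decide)).symm
    rcases hX.uniq 1 t s (by
      intro j hj
      fin_cases j
      · exact h3
      · exact absurd rfl hj
      · exact h4) with rfl | rfl
    · left; rfl
    · right; rfl
  · have h3 : X.lab 1 t = X.lab 1 s := (hs0 (by decide)).symm
    rcases hX.comm t s h3 with rfl | rfl | rfl | rfl
    · left; rfl
    · left
      exact fc_eq_iff.2 (hX.lab_r0 t).2
    · right; rfl
    · right
      exact fc_eq_iff.2 (hX.lab_r0 _).2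

lemma rk_bounds (x : Fc X) : -1 ≤ rk X x ∧ rk X x ≤ 3 := by
  rcases rk_cases x with ⟨rfl, h⟩ | ⟨a, rfl, h⟩ | ⟨a, rfl, h⟩ | ⟨a, rfl, h⟩ | ⟨rfl, h⟩ <;>
    rw [h] <;> norm_num

include hX in
lemma bot_le (y : Fc X) : le X Fc.bot y := by
  have := hX.ne
  obtain ⟨t, ht⟩ := mem_exists y
  exact le_of_mem (t := t) trivial ht (rk_bounds y).1

include hX in
lemma le_top (y : Fc X) : le X y Fc.top := by
  have := hX.ne
  obtain ⟨t, ht⟩ := mem_exists y
  exact le_of_mem (t := t) ht trivial (rk_bounds y).2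

lemma fc_ne (i : Fin 3) (t : T) (hX : X.Good) : fc X i t ≠ fc X i (X.r i t) := by
  intro h
  exact ((hX.lab_r i i t).1 (fc_eq_iff.1 h).symm) rfl

/-- Good flag data give an abstract polyhedron. -/
theorem isPolyhedron : @IsPolyhedron (Fc X) (poset hX) (rk X) := by
  have hne := hX.ne
  let _ := poset hX
  refine ⟨rk_strictMono hX, ?_, ⟨Fc.bot, bot_le hX⟩, ⟨Fc.top, le_top hX⟩, ?_, ?_, ?_⟩
  · obtain ⟨t⟩ := hne
    ext z
    simp only [Set.mem_range, Set.mem_insert_iff, Set.mem_singleton_iff]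
    constructor
    · rintro ⟨x, rfl⟩
      rcases rk_cases x with ⟨rfl, h⟩ | ⟨a, rfl, h⟩ | ⟨a, rfl, h⟩ | ⟨a, rfl, h⟩ | ⟨rfl, h⟩ <;>
        rw [h] <;> norm_num
    · rintro (rfl | rfl | rfl | rfl | rfl)
      · exact ⟨Fc.bot, rfl⟩
      · exact ⟨fc X 0 t, rfl⟩
      · exact ⟨fc X 1 t, rfl⟩
      · exact ⟨fc X 2 t, rfl⟩
      · exact ⟨Fc.top, rfl⟩
  · intro C hC
    obtain ⟨t, rfl⟩ := (flag_iff hX C).1 hC
    exact ch_card t
  · intro F G hFG hr
    obtain ⟨t, htF, htG⟩ := le_mem (X := X) hFG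
    have main : ∀ i : Fin 3, rk X F + 1 = (i : ℕ) → mem X (X.r i t) F → mem X (X.r i t) G →
        (∀ H, rk X H = (i : ℕ) → le X F H → le X H G → ∃ s, mem X s H ∧
          (i ≠ 0 → mem X s (fc X (i - 1) t)) ∧ (i ≠ 2 → mem X s (fc X (i + 1) t))) →
        {H | rk X H = rk X F + 1 ∧ F ≤ H ∧ H ≤ G}.ncard = 2 := by
      intro i hi hrF hrG hs
      have : {H | rk X H = rk X F + 1 ∧ F ≤ H ∧ H ≤ G} = {fc X i t, fc X i (X.r i t)} := by
        ext H
        simp only [Set.mem_ofPred_eq, Set.mem_insert_iff, Set.mem_singleton_iff]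
        constructor
        · rintro ⟨h1, h2, h3⟩
          obtain ⟨s, hs1, hs2, hs3⟩ := hs H (by rw [h1, hi]) h2 h3
          exact sect hX t i H (by rw [h1, hi]) s hs1 hs2 hs3
        · have hrk : ∀ u, rk X (fc X i u) = (i : ℕ) := fun u => rfl
          rintro (rfl | rfl)
          · refine ⟨by rw [hrk, hi], le_of_mem htF (mem_fc i t) ?_, le_of_mem (mem_fc i t) htG ?_⟩
            · rw [hrk]; omega
            · rw [hrk]; omega
          · refine ⟨by rw [hrk, hi], le_of_mem hrF (mem_fc i _) ?_, le_of_mem (mem_fc i _) hrG ?_⟩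
            · rw [hrk]; omega
            · rw [hrk]; omega
      rw [this, Set.ncard_pair (fc_ne i t hX)]
    rcases rk_cases F with ⟨rfl, hF⟩ | ⟨a, rfl, hF⟩ | ⟨a, rfl, hF⟩ | ⟨a, rfl, hF⟩ | ⟨rfl, hF⟩
    · rcases rk_cases G with ⟨rfl, hG⟩ | ⟨b, rfl, hG⟩ | ⟨b, rfl, hG⟩ | ⟨b, rfl, hG⟩ | ⟨rfl, hG⟩ <;>
        try (exfalso; omega)
      refine main 0 (by rw [hF]; rfl) trivial ?_ ?_
      · show X.lab 1 (X.r 0 t) = b
        rw [(hX.lab_r0 t).1]; exact htG
      · intro H _ _ h2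
        obtain ⟨s, hs1, hs2⟩ := le_mem h2
        refine ⟨s, hs1, fun h => absurd rfl h, fun _ => ?_⟩
        show X.lab 1 s = X.lab 1 t
        rw [show X.lab 1 t = b from htG]
        exact hs2
    · rcases rk_cases G with ⟨rfl, hG⟩ | ⟨b, rfl, hG⟩ | ⟨b, rfl, hG⟩ | ⟨b, rfl, hG⟩ | ⟨rfl, hG⟩ <;>
        try (exfalso; omega)
      refine main 1 (by rw [hF]; rfl) ?_ ?_ ?_
      · show X.lab 0 (X.r 1 t) = a
        rw [(hX.lab_r1 t).1]; exact htF
      · show X.lab 2 (X.r 1 t) = b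
        rw [(hX.lab_r1 t).2]; exact htG
      · intro H h0 h1 h2
        obtain ⟨s, hs1, hs2⟩ := le_mem h1
        obtain ⟨s', hs1', hs2'⟩ := le_mem h2
        rcases rk_cases H with ⟨rfl, hH⟩ | ⟨c, rfl, hH⟩ | ⟨c, rfl, hH⟩ | ⟨c, rfl, hH⟩ |
          ⟨rfl, hH⟩ <;> try (exfalso; rw [hH] at h0; simp at h0; done)
        have h3 : X.lab 1 s = X.lab 1 s' := by
          rw [show X.lab 1 s = c from hs2, show X.lab 1 s' = c from hs1']
        obtain ⟨u, hu0, hu1, hu2⟩ := hX.three h3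
        refine ⟨u, ?_, fun _ => ?_, fun _ => ?_⟩
        · show X.lab 1 u = c
          rw [hu1]; exact hs2
        · show X.lab 0 u = X.lab 0 t
          rw [hu0, show X.lab 0 t = a from htF]; exact hs1
        · show X.lab 2 u = X.lab 2 t
          rw [hu2, show X.lab 2 t = b from htG]; exact hs2'
    · rcases rk_cases G with ⟨rfl, hG⟩ | ⟨b, rfl, hG⟩ | ⟨b, rfl, hG⟩ | ⟨b, rfl, hG⟩ | ⟨rfl, hG⟩ <;>
        try (exfalso; omega)
      refine main 2 (by rw [hF]; rfl) ?_ trivial ?_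
      · show X.lab 1 (X.r 2 t) = a
        rw [(hX.lab_r2 t).2]; exact htF
      · intro H _ h1 _
        obtain ⟨s, hs1, hs2⟩ := le_mem h1
        refine ⟨s, hs2, fun _ => ?_, fun h => absurd rfl h⟩
        show X.lab 1 s = X.lab 1 t
        rw [show X.lab 1 t = a from htF]
        exact hs1
    · rcases rk_cases G with ⟨rfl, hG⟩ | ⟨b, rfl, hG⟩ | ⟨b, rfl, hG⟩ | ⟨b, rfl, hG⟩ | ⟨rfl, hG⟩ <;>
        (exfalso; omega)
    · rcases rk_cases G with ⟨rfl, hG⟩ | ⟨b, rfl, hG⟩ | ⟨b, rfl, hG⟩ | ⟨b, rfl, hG⟩ | ⟨rfl, hG⟩ <;>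
        (exfalso; omega)
  · intro Φ Ψ hΦ hΨ
    obtain ⟨t, rfl⟩ := (flag_iff hX Φ).1 hΦ
    obtain ⟨t', rfl⟩ := (flag_iff hX Ψ).1 hΨ
    have hpath := hX.conn t t'
    have key : ∀ u, Relation.ReflTransGen
        (fun a b => ∃ i, X.lab i t ≠ X.lab i t' ∧ b = X.r i a) t u →
        (∀ j, X.lab j t = X.lab j t' → X.lab j u = X.lab j t) ∧
        Relation.ReflTransGen (fun (A B : Set (Fc X)) => IsFlag B ∧
          Ch X t ∩ Ch X t' ⊆ B ∧ AdjFlag A B) (Ch X t) (Ch X u) := by
      intro u hu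
      induction hu with
      | refl => exact ⟨fun j _ => rfl, Relation.ReflTransGen.refl⟩
      | tail hab hbc ih =>
        obtain ⟨i, hi, rfl⟩ := hbc
        rename_i b
        have hlab : ∀ j, X.lab j t = X.lab j t' → X.lab j (X.r i b) = X.lab j t := by
          intro j hj
          have hij : i ≠ j := by
            rintro rfl
            exact hi hj
          rw [(hX.lab_r i j b).2 hij]
          exact ih.1 j hj
        refine ⟨hlab, ih.2.tail ⟨(flag_iff hX _).2 ⟨_, rfl⟩, ?_, ch_adj hX i b⟩⟩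
        rintro x ⟨hx, hx'⟩
        cases x with
        | bot => trivial
        | top => trivial
        | mid j a =>
          show X.lab j (X.r i b) = a
          have h1 : X.lab j t = a := hx
          have h2 : X.lab j t' = a := hx'
          rw [hlab j (by rw [h1, h2]), h1]
    exact (key t' hpath).2

/-- counting faces incident with a face -/
lemma incident_ncard (i j : Fin 3) (hij : i ≠ j) (t : T) :
    {x : Fc X | rk X x = (i : ℕ) ∧ (le X x (fc X j t) ∨ le X (fc X j t) x)}.ncard =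
      (X.lab i '' {s | X.lab j s = X.lab j t}).ncard := by
  have himg : {x : Fc X | rk X x = (i : ℕ) ∧ (le X x (fc X j t) ∨ le X (fc X j t) x)} =
      (fun s => fc X i s) '' {s | X.lab j s = X.lab j t} := by
    ext x
    constructor
    · rintro ⟨h1, h2⟩
      have h3 : ∃ s, mem X s x ∧ mem X s (fc X j t) := by
        rcases h2 with h2 | h2
        · rcases h2 with h2 | ⟨-, h2⟩
          · rw [h2] at h1
            have h1' : ((j : ℕ) : ℤ) = ((i : ℕ) : ℤ) := h1
            exact absurd (Fin.ext (by exact_mod_cast h1')) (Ne.symm hij)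
          · exact h2
        · rcases h2 with h2 | ⟨-, s, h2, h3⟩
          · rw [← h2] at h1
            have h1' : ((j : ℕ) : ℤ) = ((i : ℕ) : ℤ) := h1
            exact absurd (Fin.ext (by exact_mod_cast h1')) (Ne.symm hij)
          · exact ⟨s, h3, h2⟩
      obtain ⟨s, hs1, hs2⟩ := h3
      exact ⟨s, hs2, (mem_unique hs1 (mem_fc i s) h1).symm⟩
    · rintro ⟨s, hs, rfl⟩
      refine ⟨rfl, ?_⟩
      rcases le_total (rk X (fc X i s)) (rk X (fc X j t)) with h | h
      · left; exact le_of_mem (t := s) (mem_fc i s) hs h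
      · right; exact le_of_mem (t := s) hs (mem_fc i s) h
  rw [himg]
  have h1 : X.lab i '' {s | X.lab j s = X.lab j t} =
      (fun x : Fc X => match x with | Fc.mid _ a => a.1 | _ => 0) ''
        ((fun s => fc X i s) '' {s | X.lab j s = X.lab j t}) := by
    rw [Set.image_image]
    rfl
  have h2 : Set.InjOn (fun x : Fc X => match x with | Fc.mid _ a => a.1 | _ => 0)
      ((fun s => fc X i s) '' {s | X.lab j s = X.lab j t}) := by
    rintro _ ⟨s, -, rfl⟩ _ ⟨s', -, rfl⟩ h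
    exact fc_eq_iff.2 h
  rw [h1, h2.ncard_image]

/-- equivelarity from the flag data -/
lemma isEquivelar (p q : ℕ)
    (h20 : ∀ t, (X.lab 0 '' {s | X.lab 2 s = X.lab 2 t}).ncard = p)
    (h21 : ∀ t, (X.lab 1 '' {s | X.lab 2 s = X.lab 2 t}).ncard = p)
    (h01 : ∀ t, (X.lab 1 '' {s | X.lab 0 s = X.lab 0 t}).ncard = q)
    (h02 : ∀ t, (X.lab 2 '' {s | X.lab 0 s = X.lab 0 t}).ncard = q) :
    @IsEquivelar (Fc X) (poset hX) (rk X) p q := by
  have := hX.ne
  let _ := poset hX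
  have hlt : ∀ x y : Fc X, rk X x < rk X y → (x ≤ y ↔ (le X x y ∨ le X y x)) := by
    intro x y hxy
    constructor
    · exact fun h => Or.inl h
    · rintro (h | h)
      · exact h
      · exfalso
        rcases h with h | ⟨h, -⟩
        · rw [h] at hxy; omega
        · omega
  constructor
  · intro F hF
    obtain ⟨t, ht⟩ := mem_exists F
    obtain rfl : F = fc X 2 t := mem_unique ht (mem_fc 2 t) (by rw [hF]; rfl)
    refine ⟨?_, ?_⟩
    · rw [← h20 t, ← incident_ncard 0 2 (by decide) t]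
      congr 1
      ext v
      simp only [Set.mem_ofPred_eq]
      constructor
      · rintro ⟨h1, h2⟩
        exact ⟨h1, (hlt v _ (by rw [h1, hF]; norm_num)).1 h2⟩
      · rintro ⟨h1, h2⟩
        have h1' : rk X v = 0 := h1
        exact ⟨h1, (hlt v _ (by rw [h1', hF]; norm_num)).2 h2⟩
    · rw [← h21 t, ← incident_ncard 1 2 (by decide) t]
      congr 1
      ext v
      simp only [Set.mem_ofPred_eq]
      constructor
      · rintro ⟨h1, h2⟩
        exact ⟨h1, (hlt v _ (by rw [h1, hF]; norm_num)).1 h2⟩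
      · rintro ⟨h1, h2⟩
        have h1' : rk X v = 1 := h1
        exact ⟨h1, (hlt v _ (by rw [h1', hF]; norm_num)).2 h2⟩
  · intro F hF
    obtain ⟨t, ht⟩ := mem_exists F
    obtain rfl : F = fc X 0 t := mem_unique ht (mem_fc 0 t) (by rw [hF]; rfl)
    refine ⟨?_, ?_⟩
    · rw [← h01 t, ← incident_ncard 1 0 (by decide) t]
      congr 1
      ext v
      simp only [Set.mem_ofPred_eq]
      constructor
      · rintro ⟨h1, h2⟩
        exact ⟨h1, ((hlt _ v (by rw [h1, hF]; norm_num)).1 h2).symm⟩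
      · rintro ⟨h1, h2⟩
        have h1' : rk X v = 1 := h1
        exact ⟨h1, (hlt _ v (by rw [h1', hF]; norm_num)).2 h2.symm⟩
    · rw [← h02 t, ← incident_ncard 2 0 (by decide) t]
      congr 1
      ext v
      simp only [Set.mem_ofPred_eq]
      constructor
      · rintro ⟨h1, h2⟩
        exact ⟨h1, ((hlt _ v (by rw [h1, hF]; norm_num)).1 h2).symm⟩
      · rintro ⟨h1, h2⟩
        have h1' : rk X v = 2 := h1
        exact ⟨h1, (hlt _ v (by rw [h1', hF]; norm_num)).2 h2.symm⟩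

include hX in
/-- maps commuting with the flag adjacencies up to a permutation respect the labels -/
lemma lab_map {σ : Fin 3 → Fin 3} (hσ : Function.Injective σ) {φ : T → T}
    (hφ : ∀ i t, φ (X.r i t) = X.r (σ i) (φ t)) {i : Fin 3} {t t' : T}
    (h : X.lab i t = X.lab i t') : X.lab (σ i) (φ t) = X.lab (σ i) (φ t') := by
  have key : ∀ u, Relation.ReflTransGen
      (fun a b => ∃ k, X.lab k t ≠ X.lab k t' ∧ b = X.r k a) t u →
      X.lab (σ i) (φ u) = X.lab (σ i) (φ t) := by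
    intro u hu
    induction hu with
    | refl => rfl
    | tail hab hbc ih =>
      obtain ⟨k, hk, rfl⟩ := hbc
      rename_i b
      have hki : σ k ≠ σ i := by
        intro h1
        have := hσ h1
        subst this
        exact hk h
      rw [hφ, (hX.lab_r (σ k) (σ i) _).2 hki, ih]
  exact (key t' (hX.conn t t')).symm

/-- the map on faces induced by an automorphism of the flag graph -/
noncomputable def am (φ : T → T) : Fc X → Fc X
  | Fc.bot => Fc.bot
  | Fc.mid i a => fc X i (φ a.2.choose)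
  | Fc.top => Fc.top

/-- the map on faces induced by a duality of the flag graph -/
noncomputable def dm (φ : T → T) : Fc X → Fc X
  | Fc.bot => Fc.top
  | Fc.mid i a => fc X (Fin.rev i) (φ a.2.choose)
  | Fc.top => Fc.bot

include hX in
lemma am_mem {φ : T → T} (hφ : ∀ i t, φ (X.r i t) = X.r i (φ t)) {t : T} {x : Fc X}
    (h : mem X t x) : mem X (φ t) (am φ x) := by
  cases x with
  | bot => trivial
  | top => trivial
  | mid i a =>
    show X.lab i (φ t) = X.lab i (φ a.2.choose)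
    apply lab_map hX (σ := id) Function.injective_id hφ
    rw [show X.lab i t = a from h]
    exact a.2.choose_spec.symm

lemma am_rk (φ : T → T) (x : Fc X) : rk X (am φ x) = rk X x := by
  cases x <;> rfl

include hX in
lemma dm_mem {φ : T → T} (hφ : ∀ i t, φ (X.r i t) = X.r (Fin.rev i) (φ t)) {t : T} {x : Fc X}
    (h : mem X t x) : mem X (φ t) (dm φ x) := by
  cases x with
  | bot => trivial
  | top => trivial
  | mid i a =>
    show X.lab (Fin.rev i) (φ t) = X.lab (Fin.rev i) (φ a.2.choose)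
    apply lab_map hX (σ := Fin.rev) Fin.rev_injective hφ
    rw [show X.lab i t = a from h]
    exact a.2.choose_spec.symm

lemma dm_rk (φ : T → T) (x : Fc X) : rk X (dm φ x) = 2 - rk X x := by
  rcases rk_cases x with ⟨rfl, h⟩ | ⟨a, rfl, h⟩ | ⟨a, rfl, h⟩ | ⟨a, rfl, h⟩ | ⟨rfl, h⟩ <;>
    rw [h] <;> rfl

/-- an automorphism of the flag graph induces an automorphism of the poset -/
theorem exists_aut {φ ψ : T → T} (h1 : ∀ t, ψ (φ t) = t) (h2 : ∀ t, φ (ψ t) = t)
    (hφ : ∀ i t, φ (X.r i t) = X.r i (φ t)) :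
    ∃ α : @OrderIso (Fc X) (Fc X) (poset hX).toLE (poset hX).toLE,
      ∀ i t, α (fc X i t) = fc X i (φ t) := by
  have := hX.ne
  let _ := poset hX
  have hψ : ∀ i t, ψ (X.r i t) = X.r i (ψ t) := by
    intro i t
    have h3 := hφ i (ψ t)
    rw [h2] at h3
    rw [← h3, h1]
  have hinv : ∀ (φ ψ : T → T), (∀ t, ψ (φ t) = t) → (∀ i t, φ (X.r i t) = X.r i (φ t)) →
      (∀ i t, ψ (X.r i t) = X.r i (ψ t)) → ∀ x : Fc X, am ψ (am φ x) = x := by
    intro φ ψ h1 hφ hψ x
    obtain ⟨t, ht⟩ := mem_exists x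
    have h4 := am_mem hX hψ (am_mem hX hφ ht)
    rw [h1] at h4
    exact mem_unique h4 ht (by rw [am_rk, am_rk])
  have hmono : ∀ (φ : T → T), (∀ i t, φ (X.r i t) = X.r i (φ t)) → ∀ x y : Fc X,
      le X x y → le X (am φ x) (am φ y) := by
    rintro φ hφ x y (rfl | ⟨h3, t, ht, ht'⟩)
    · left; rfl
    · right
      exact ⟨by rw [am_rk, am_rk]; exact h3, φ t, am_mem hX hφ ht, am_mem hX hφ ht'⟩
  refine ⟨⟨⟨am φ, am ψ, hinv φ ψ h1 hφ hψ, hinv ψ φ h2 hψ hφ⟩, ?_⟩, ?_⟩
  · intro x y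
    constructor
    · intro h
      have h3 := hmono ψ hψ _ _ h
      simp only [Equiv.coe_fn_mk] at h3
      rw [hinv φ ψ h1 hφ hψ, hinv φ ψ h1 hφ hψ] at h3
      exact h3
    · intro h
      exact hmono φ hφ x y h
  · intro i t
    have h4 : rk X (am φ (fc X i t)) = rk X (fc X i (φ t)) := am_rk φ _
    exact mem_unique (am_mem hX hφ (mem_fc i t)) (mem_fc i (φ t)) h4

/-- a duality of the flag graph induces a duality of the poset -/
theorem exists_duality {φ ψ : T → T} (h1 : ∀ t, ψ (φ t) = t) (h2 : ∀ t, φ (ψ t) = t)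
    (hφ : ∀ i t, φ (X.r i t) = X.r (Fin.rev i) (φ t)) :
    ∃ δ : Fc X ≃ Fc X, @IsDuality _ (poset hX) δ := by
  have := hX.ne
  let _ := poset hX
  have hψ : ∀ i t, ψ (X.r i t) = X.r (Fin.rev i) (ψ t) := by
    intro i t
    have h3 := hφ (Fin.rev i) (ψ t)
    rw [h2, Fin.rev_rev] at h3
    rw [← h3, h1]
  have hinv : ∀ (φ ψ : T → T), (∀ t, ψ (φ t) = t) →
      (∀ i t, φ (X.r i t) = X.r (Fin.rev i) (φ t)) →
      (∀ i t, ψ (X.r i t) = X.r (Fin.rev i) (ψ t)) → ∀ x : Fc X, dm ψ (dm φ x) = x := by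
    intro φ ψ h1 hφ hψ x
    obtain ⟨t, ht⟩ := mem_exists x
    have h4 := dm_mem hX hψ (dm_mem hX hφ ht)
    rw [h1] at h4
    exact mem_unique h4 ht (by rw [dm_rk, dm_rk]; ring)
  have hmono : ∀ (φ : T → T), (∀ i t, φ (X.r i t) = X.r (Fin.rev i) (φ t)) → ∀ x y : Fc X,
      le X x y → le X (dm φ y) (dm φ x) := by
    rintro φ hφ x y (rfl | ⟨h3, t, ht, ht'⟩)
    · left; rfl
    · right
      exact ⟨by rw [dm_rk, dm_rk]; omega, φ t, dm_mem hX hφ ht', dm_mem hX hφ ht⟩
  refine ⟨⟨dm φ, dm ψ, hinv φ ψ h1 hφ hψ, hinv ψ φ h2 hψ hφ⟩, ?_⟩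
  intro x y
  constructor
  · intro h
    exact hmono φ hφ x y h
  · intro h
    have h3 := hmono ψ hψ _ _ h
    simp only [Equiv.coe_fn_mk] at h3
    rw [hinv φ ψ h1 hφ hψ, hinv φ ψ h1 hφ hψ] at h3
    exact h3

/-- dualities reverse the rank -/
lemma duality_rk {δ : Fc X ≃ Fc X} (hδ : @IsDuality _ (poset hX) δ) (x : Fc X) :
    rk X (δ x) = 2 - rk X x := by
  have := hX.ne
  let _ := poset hX
  obtain ⟨t, ht⟩ := mem_exists x
  have hlt : ∀ y z : Fc X, rk X y < rk X z → le X y z → rk X (δ z) < rk X (δ y) := by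
    intro y z h h'
    have h1 : le X (δ z) (δ y) := (hδ y z).1 h'
    rcases h1 with h1 | h1
    · have h2 := δ.injective h1
      rw [h2] at h; omega
    · exact h1.1
  have a1 := hlt Fc.bot (fc X 0 t) (by simp [rk, fc]) (bot_le hX _)
  have a2 := hlt (fc X 0 t) (fc X 1 t) (by simp [rk, fc])
    (le_of_mem (mem_fc 0 t) (mem_fc 1 t) (by simp [rk, fc]))
  have a3 := hlt (fc X 1 t) (fc X 2 t) (by simp [rk, fc])
    (le_of_mem (mem_fc 1 t) (mem_fc 2 t) (by simp [rk, fc]))
  have a4 := hlt (fc X 2 t) Fc.top (by simp [rk, fc]) (le_top hX _)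
  have b1 := rk_bounds (δ Fc.top)
  have b2 := rk_bounds (δ (Fc.bot : Fc X))
  have hx : x ∈ Ch X t := ht
  rw [ch_eq] at hx
  simp only [Set.mem_insert_iff, Set.mem_singleton_iff] at hx
  have c0 : rk X (fc X 0 t) = 0 := rfl
  have c1 : rk X (fc X 1 t) = 1 := rfl
  have c2 : rk X (fc X 2 t) = 2 := rfl
  have cb : rk X (Fc.bot : Fc X) = -1 := rfl
  have ct : rk X (Fc.top : Fc X) = 3 := rfl
  rcases hx with rfl | rfl | rfl | rfl | rfl
  · rw [cb]; omega
  · rw [c0]; omega
  · rw [c1]; omega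
  · rw [c2]; omega
  · rw [ct]; omega

/-- A duality of the poset induces a duality of the flag graph; a polarity induces an involution. -/
theorem duality_flags {δ : Fc X ≃ Fc X} (hδ : @IsDuality _ (poset hX) δ) :
    ∃ D : T → T, (∀ i t, D (X.r i t) = X.r (Fin.rev i) (D t)) ∧
      ((∀ x, δ (δ x) = x) → ∀ t, D (D t) = t) := by
  have := hX.ne
  let _ := poset hX
  have hch : ∀ t, ∃ s, δ '' Ch X t ⊆ Ch X s := by
    intro t
    apply chain_sub hX
    rintro _ ⟨x, hx, rfl⟩ _ ⟨y, hy, rfl⟩ hne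
    have hxy : x ≠ y := fun h => hne (by rw [h])
    rcases ch_chain hX t hx hy hxy with h | h
    · right; exact (hδ x y).1 h
    · left; exact (hδ y x).1 h
  choose D hD using hch
  have hDmem : ∀ t x, mem X t x → mem X (D t) (δ x) := by
    intro t x hx
    exact hD t ⟨x, hx, rfl⟩
  have hfc : ∀ i t, δ (fc X i t) = fc X (Fin.rev i) (D t) := by
    intro i t
    refine mem_unique (hDmem t _ (mem_fc i t)) (mem_fc _ _) ?_
    rw [duality_rk hX hδ]
    show 2 - ((i : ℕ) : ℤ) = ((Fin.rev i : Fin 3) : ℕ)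
    fin_cases i <;> rfl
  refine ⟨D, ?_, ?_⟩
  · intro i t
    have hsame : ∀ j, j ≠ Fin.rev i → X.lab j (D t) = X.lab j (D (X.r i t)) := by
      intro j hj
      have h1 : Fin.rev j ≠ i := by
        intro h; apply hj; rw [← h, Fin.rev_rev]
      have h2 := hfc (Fin.rev j) t
      have h3 := hfc (Fin.rev j) (X.r i t)
      rw [Fin.rev_rev] at h2 h3
      have h4 : fc X (Fin.rev j) (X.r i t) = fc X (Fin.rev j) t :=
        fc_eq_iff.2 ((hX.lab_r i (Fin.rev j) t).2 h1.symm)
      rw [h4] at h3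
      exact fc_eq_iff.1 (h2.symm.trans h3)
    rcases hX.uniq (Fin.rev i) (D t) (D (X.r i t)) hsame with h | h
    · exfalso
      have h2 := hfc i t
      have h3 := hfc i (X.r i t)
      rw [h, ← h2] at h3
      exact fc_ne i t hX (δ.injective h3).symm
    · exact h
  · intro hinv t
    apply ch_inj hX
    ext x
    have key : ∀ x, mem X t x → mem X (D (D t)) x := by
      intro x hx
      have := hDmem _ _ (hDmem t x hx)
      rwa [hinv] at this
    constructor
    · intro hx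
      -- pick the face of the same rank in `Ch t`
      have hx' : mem X (D (D t)) x := hx
      rcases rk_cases x with ⟨rfl, h⟩ | ⟨a, rfl, h⟩ | ⟨a, rfl, h⟩ | ⟨a, rfl, h⟩ | ⟨rfl, h⟩
      · trivial
      · have h5 := mem_unique (key _ (mem_fc 0 t)) hx' (by rw [h]; rfl)
        rw [← h5]; exact mem_fc 0 t
      · have h5 := mem_unique (key _ (mem_fc 1 t)) hx' (by rw [h]; rfl)
        rw [← h5]; exact mem_fc 1 t
      · have h5 := mem_unique (key _ (mem_fc 2 t)) hx' (by rw [h]; rfl)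
        rw [← h5]; exact mem_fc 2 t
      · trivial
    · exact key x

end order

/-! ### Criteria for flag data -/

/-- alternating words -/
def alt (X : FlagData T) (a b : Fin 3) : ℕ → T → T
  | 0, t => t
  | k + 1, t => alt X b a k (X.r a t)

lemma alt_reach (X : FlagData T) {a b : Fin 3} {s : Set (Fin 3)} (ha : a ∈ s) (hb : b ∈ s)
    (k : ℕ) (t : T) :
    Relation.ReflTransGen (fun u v => ∃ i ∈ s, v = X.r i u) t (alt X a b k t) := by
  induction k generalizing a b t with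
  | zero => exact Relation.ReflTransGen.refl
  | succ k ih =>
    exact Relation.ReflTransGen.head ⟨a, ha, rfl⟩ (ih hb ha (X.r a t))

lemma reach_symm {X : FlagData T} (hinv : ∀ i t, X.r i (X.r i t) = t) {s : Set (Fin 3)} {t t' : T}
    (h : Relation.ReflTransGen (fun u v => ∃ i ∈ s, v = X.r i u) t t') :
    Relation.ReflTransGen (fun u v => ∃ i ∈ s, v = X.r i u) t' t := by
  induction h with
  | refl => exact Relation.ReflTransGen.refl
  | tail hab hbc ih =>
    obtain ⟨i, hi, rfl⟩ := hbc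
    exact Relation.ReflTransGen.head ⟨i, hi, (hinv i _).symm⟩ ih

/-- A criterion for flag data to be good. -/
theorem good_of (X : FlagData T) (hne : Nonempty T) (hinv : ∀ i t, X.r i (X.r i t) = t)
    (hlab : ∀ i j t, X.lab j (X.r i t) = X.lab j t ↔ i ≠ j)
    (huniq : ∀ t t', X.lab 0 t = X.lab 0 t' → X.lab 2 t = X.lab 2 t' → t' = t ∨ t' = X.r 1 t)
    (hcomm : ∀ t t', X.lab 1 t = X.lab 1 t' →
      t' = t ∨ t' = X.r 0 t ∨ t' = X.r 2 t ∨ t' = X.r 0 (X.r 2 t))
    (hc0 : ∀ t t', X.lab 0 t = X.lab 0 t' →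
      Relation.ReflTransGen (fun u v => ∃ i ∈ ({1, 2} : Set (Fin 3)), v = X.r i u) t t')
    (hc2 : ∀ t t', X.lab 2 t = X.lab 2 t' →
      Relation.ReflTransGen (fun u v => ∃ i ∈ ({0, 1} : Set (Fin 3)), v = X.r i u) t t')
    (hc : ∀ t t', Relation.ReflTransGen
      (fun u v => ∃ i ∈ (Set.univ : Set (Fin 3)), v = X.r i u) t t') : X.Good := by
  have hu : ∀ i t t', (∀ j, j ≠ i → X.lab j t = X.lab j t') → t' = t ∨ t' = X.r i t := by
    intro i t t' h
    fin_cases i
    · have h1 := h 1 (by decide)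
      have h2 := h 2 (by decide)
      rcases hcomm t t' h1 with h3 | h3 | h3 | h3
      · left; exact h3
      · right; exact h3
      · exfalso
        rw [h3] at h2
        exact ((hlab 2 2 t).1 h2.symm) rfl
      · exfalso
        rw [h3, (hlab 0 2 _).2 (by decide)] at h2
        exact ((hlab 2 2 t).1 h2.symm) rfl
    · exact huniq t t' (h 0 (by decide)) (h 2 (by decide))
    · have h1 := h 1 (by decide)
      have h0 := h 0 (by decide)
      rcases hcomm t t' h1 with h3 | h3 | h3 | h3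
      · left; exact h3
      · exfalso
        rw [h3] at h0
        exact ((hlab 0 0 t).1 h0.symm) rfl
      · right; exact h3
      · exfalso
        have h4 : X.lab 0 (X.r 0 (X.r 2 t)) = X.lab 0 (X.r 2 t) := by
          rw [h3] at h0
          rw [← h0, (hlab 2 0 t).2 (by decide)]
        exact ((hlab 0 0 _).1 h4) rfl
  refine ⟨hne, hinv, hlab, hu, hcomm, ?_⟩
  intro t t'
  have step1 : ∀ i, X.lab i t ≠ X.lab i t' → ∀ u, t' = X.r i u → u = t →
      Relation.ReflTransGen (fun a b => ∃ i, X.lab i t ≠ X.lab i t' ∧ b = X.r i a) t t' := by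
    rintro i hi u h1 rfl
    exact Relation.ReflTransGen.single ⟨i, hi, h1⟩
  have mono : ∀ s : Set (Fin 3), (∀ i ∈ s, X.lab i t ≠ X.lab i t') →
      Relation.ReflTransGen (fun u v => ∃ i ∈ s, v = X.r i u) t t' →
      Relation.ReflTransGen (fun a b => ∃ i, X.lab i t ≠ X.lab i t' ∧ b = X.r i a) t t' := by
    intro s hs h
    have hle : (fun u v => ∃ i ∈ s, v = X.r i u) ≤
        (fun a b => ∃ i, X.lab i t ≠ X.lab i t' ∧ b = X.r i a) := by
      rintro u v ⟨i, hi, rfl⟩
      exact ⟨i, hs i hi, rfl⟩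
    exact Relation.ReflTransGen.mono hle _ _ h
  have two : ∀ i, (∀ j, j ≠ i → X.lab j t = X.lab j t') →
      Relation.ReflTransGen (fun a b => ∃ i, X.lab i t ≠ X.lab i t' ∧ b = X.r i a) t t' := by
    intro i h
    rcases hu i t t' h with h1 | h1
    · rw [h1]
    · refine Relation.ReflTransGen.single ⟨i, ?_, h1⟩
      intro h2
      rw [h1] at h2
      exact ((hlab i i t).1 h2.symm) rfl
  by_cases h0 : X.lab 0 t = X.lab 0 t' <;> by_cases h1 : X.lab 1 t = X.lab 1 t' <;>
    by_cases h2 : X.lab 2 t = X.lab 2 t'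
  · exact two 0 (by intro j hj; fin_cases j; exacts [h0, h1, h2])
  · exact two 2 (by intro j hj; fin_cases j; exacts [h0, h1, absurd rfl hj])
  · exact two 1 (by intro j hj; fin_cases j; exacts [h0, absurd rfl hj, h2])
  · refine mono {1, 2} ?_ (hc0 t t' h0)
    rintro i (rfl | rfl)
    · exact h1
    · exact h2
  · exact two 0 (by intro j hj; fin_cases j; exacts [absurd rfl hj, h1, h2])
  · rcases hcomm t t' h1 with h3 | h3 | h3 | h3
    · rw [h3]
    · exact Relation.ReflTransGen.single ⟨0, h0, h3⟩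
    · exact Relation.ReflTransGen.single ⟨2, h2, h3⟩
    · exact (Relation.ReflTransGen.single ⟨2, h2, rfl⟩).tail ⟨0, h0, h3⟩
  · refine mono {0, 1} ?_ (hc2 t t' h2)
    rintro i (rfl | rfl)
    · exact h0
    · exact h1
  · refine mono Set.univ ?_ (hc t t')
    intro i _
    fin_cases i
    · exact h0
    · exact h1
    · exact h2

/-- maps intertwining the flag adjacencies are bijective on finite flag data -/
lemma intertwiner_bij [Finite T] {X : FlagData T} (hX : X.Good) {σ : Fin 3 → Fin 3}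
    (hσ : Function.Surjective σ) {φ : T → T} (hφ : ∀ i t, φ (X.r i t) = X.r (σ i) (φ t)) :
    Function.Bijective φ := by
  have hsurj : Function.Surjective φ := by
    intro y
    obtain ⟨t⟩ := hX.ne
    have key : ∀ u, Relation.ReflTransGen
        (fun a b => ∃ i, X.lab i (φ t) ≠ X.lab i y ∧ b = X.r i a) (φ t) u → ∃ x, φ x = u := by
      intro u hu
      induction hu with
      | refl => exact ⟨t, rfl⟩
      | tail hab hbc ih =>
        obtain ⟨i, -, rfl⟩ := hbc
        obtain ⟨x, rfl⟩ := ih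
        obtain ⟨j, rfl⟩ := hσ i
        exact ⟨X.r j x, hφ j x⟩
    exact key y (hX.conn (φ t) y)
  exact ⟨Finite.injective_iff_surjective.2 hsurj, hsurj⟩

end Q142.Abs3
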