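import Pool.Agent.Q17.ML2.Stm
import Pool.Agent.Q258.LQ.Split

/-! Project CA, job SPL: totally split primes are numerous, also in extensions that are not
normal. -/

set_option autoImplicit false

open NumberField Filter Topology

namespace Pool.Agent.Q142.CA

open Pool.Agent.Q17.ML2

theorem t_SPL : S_SPL := by
  classical
  intro K M _ _ _ _ _ hs
  let Ω := AlgebraicClosure M
  let N := IntermediateField.normalClosure K M Ω
  haveI : FiniteDimensional K N := inferInstance
  haveI : Normal K N := inferInstance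
  haveI : NumberField N := NumberField.of_module_finite K N
  haveI : IsGalois K N := { }
  have hN := Pool.Agent.TH857.J3095.splitSum K N
  apply hN
  set f : Ideal (𝓞 K) → ℝ := fun p => (1 : ℝ) / Ideal.absNorm p with hf
  have hf0 : ∀ p, 0 ≤ f p := fun p => by simp only [hf]; positivity
  have hs2 := (summable_subtype_iff_indicator (f := f) (s := {p : Ideal (𝓞 K) | p.IsPrime ∧ p ≠ ⊥ ∧
    Set.ncard (p.primesOver (𝓞 M)) = Module.finrank K M})).1 hs
  refine (summable_subtype_iff_indicator (f := f) (s := {p : Ideal (𝓞 K) | p.IsPrime ∧ p ≠ ⊥ ∧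
    Set.ncard (p.primesOver (𝓞 N)) = Module.finrank K N})).2 ?_
  refine Summable.of_nonneg_of_le (fun p => Set.indicator_nonneg (fun p _ => hf0 p) p)
    (fun p => ?_) hs2
  rw [Set.indicator_apply]
  split_ifs with hp
  · have hm : p ∈ {p : Ideal (𝓞 K) | p.IsPrime ∧ p ≠ ⊥ ∧
        Set.ncard (p.primesOver (𝓞 M)) = Module.finrank K M} :=
      ⟨hp.1, hp.2.1, Pool.Agent.Q258.LQ.Split.split_tower K M N p hp.1 hp.2.1 hp.2.2⟩
    rw [Set.indicator_of_mem hm f]
  · exact Set.indicator_nonneg (fun p _ => hf0 p) p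

end Pool.Agent.Q142.CA
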