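import Pool.Agent.Q17.ML2.Stm
import Pool.Agent.TH713.J3096

/-! Project CA, job SV: the sieve for all extensions (adapted from `TH713.J3096.sieve`). -/

set_option autoImplicit false

open NumberField Filter Topology

namespace Pool.Agent.Q142.CA

open Pool.Agent.Q17.ML2 Ideal Pool.Agent.TH713.J3096

theorem t_SV : S_SV := by
  intro h K M _ _ _ _ _
  obtain ⟨κ, hκ⟩ := dens_univ (M := M)
  have hκ0 := dens_nonneg hκ
  obtain ⟨c, hc⟩ : ∃ c : ℝ, c = (Module.finrank K M : ℝ) * (1/2) ^ Module.finrank K M := ⟨_, rfl⟩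
  have hfr : 0 < Module.finrank K M := Module.finrank_pos
  have hc0 : 0 < c := by
    rw [hc]
    have : (0:ℝ) < Module.finrank K M := by exact_mod_cast hfr
    positivity
  have hns := h K M
  rw [Metric.tendsto_atTop]
  intro ε hε
  have hex : ∃ Ps : Finset (Spl K M), κ / ε / c < ∑ p ∈ Ps, 1 / (absNorm p.1 : ℝ) := by
    by_contra hcon
    push Not at hcon
    exact hns (summable_of_sum_le (fun p => by positivity) hcon)
  obtain ⟨Ps, hPs⟩ := hex
  obtain ⟨A, d, hbad, hd, hdle, -⟩ := sieveFin K M κ hκ c hc Ps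
  obtain ⟨S, hS⟩ : ∃ S : ℝ, S = ∑ p ∈ Ps, 1 / (absNorm p.1 : ℝ) := ⟨_, rfl⟩
  rw [← hS] at hdle hPs
  have hdε : d < ε := by
    have h1 : κ / ε < c * S := by
      rw [div_lt_iff₀ hc0] at hPs
      linarith
    have h2 : κ < ε * (1 + c * S) := by
      rw [div_lt_iff₀ hε] at h1
      nlinarith
    have h3 : 1 + c * S ≤ Real.exp (c * S) := by
      have := Real.add_one_le_exp (c * S)
      linarith
    have h4 : κ < ε * Real.exp (c * S) := lt_of_lt_of_le h2 (mul_le_mul_of_nonneg_left h3 hε.le)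
    refine lt_of_le_of_lt hdle ?_
    rw [Real.exp_neg, ← div_eq_mul_inv, div_lt_iff₀ (Real.exp_pos _)]
    exact h4
  have hev : ∀ᶠ Z : ℝ in atTop, (cnt A Z : ℝ) / Z < ε := hd.eventually (gt_mem_nhds hdε)
  obtain ⟨Z0, hZ0⟩ := Filter.eventually_atTop.mp (hev.and (eventually_gt_atTop 0))
  refine ⟨Z0, fun Z hZ => ?_⟩
  obtain ⟨h1, h2⟩ := hZ0 Z hZ
  rw [Real.dist_eq, sub_zero, abs_of_nonneg (by positivity)]
  refine lt_of_le_of_lt ?_ h1
  apply div_le_div_of_nonneg_right _ h2.le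
  unfold cnt
  apply Nat.cast_le.mpr
  apply Set.ncard_le_ncard _ (Pool.Agent.TH713.J3096.fin A Z)
  rintro 𝔡 ⟨h3, h4⟩
  exact ⟨hbad h3, h3.1.ne_zero, h4⟩

end Pool.Agent.Q142.CA
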