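import Mathlib

/-!
Eulerian posets that agree with a polytope-like lattice outside one rank: the order-theoretic part.
-/

set_option autoImplicit false

namespace Pool.Agent.Q142.EP

/-- `ρ` is the rank function of the graded poset `Q`: the least element has rank `0` and `ρ`
increases by one along every covering relation. -/
structure IsRank {Q : Type*} [PartialOrder Q] [OrderBot Q] (ρ : Q → ℕ) : Prop where
  bot : ρ ⊥ = 0
  covBy : ∀ x y : Q, x ⋖ y → ρ y = ρ x + 1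

/-- `Q`, graded with rank function `ρ`, is Eulerian: every interval `[x, y]` with `x < y` has as
many elements of even rank as of odd rank. -/
def IsEulerian {Q : Type*} [PartialOrder Q] (ρ : Q → ℕ) : Prop :=
  ∀ x y : Q, x < y →
    {z : Q | x ≤ z ∧ z ≤ y ∧ Even (ρ z)}.ncard = {z : Q | x ≤ z ∧ z ≤ y ∧ Odd (ρ z)}.ncard

section ranked

variable {Q : Type*} [PartialOrder Q] [BoundedOrder Q] [Finite Q] {ρ : Q → ℕ}

lemma IsRank.lt (h : IsRank ρ) : ∀ x y : Q, x < y → ρ x < ρ y := by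
  intro x
  induction x using WellFoundedGT.induction with
  | ind x ih =>
    intro y hxy
    obtain ⟨z, hz, hzy⟩ := exists_covBy_le_of_lt hxy
    have h1 := h.covBy x z hz
    rcases hzy.lt_or_eq with h2 | h2
    · have := ih z hz.lt y h2
      omega
    · rw [← h2]
      omega

lemma IsRank.between (h : IsRank ρ) : ∀ x y : Q, x < y → ∀ k, ρ x < k → k < ρ y →
    ∃ z, x < z ∧ z < y ∧ ρ z = k := by
  intro x
  induction x using WellFoundedGT.induction with
  | ind x ih =>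
    intro y hxy k hk1 hk2
    obtain ⟨z, hz, hzy⟩ := exists_covBy_le_of_lt hxy
    have h1 := h.covBy x z hz
    rcases hzy.lt_or_eq with h2 | h2
    · by_cases hk : k = ρ z
      · exact ⟨z, hz.lt, h2, hk.symm⟩
      · obtain ⟨w, hw1, hw2, hw3⟩ := ih z hz.lt y h2 k (by omega) hk2
        exact ⟨w, hz.lt.trans hw1, hw2, hw3⟩
    · rw [← h2] at hk2
      omega

lemma IsRank.diamond (h : IsRank ρ) (hE : IsEulerian ρ) {x y : Q} (hxy : x < y)
    (hr : ρ y = ρ x + 2) :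
    {z : Q | x < z ∧ z < y}.ncard = 2 := by
  have h1 := hE x y hxy
  have hlt := h.lt
  -- the elements of the parity of `ρ x` are `x` and `y`
  have hmid : ∀ z, x < z → z < y → ρ z = ρ x + 1 := by
    intro z hz1 hz2
    have := hlt x z hz1
    have := hlt z y hz2
    omega
  rcases Nat.even_or_odd (ρ x) with he | ho
  · have e1 : {z : Q | x ≤ z ∧ z ≤ y ∧ Even (ρ z)} = {x, y} := by
      ext z
      simp only [Set.mem_ofPred_eq, Set.mem_insert_iff, Set.mem_singleton_iff]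
      constructor
      · rintro ⟨hz1, hz2, hz3⟩
        rcases hz1.lt_or_eq with h2 | h2
        · rcases hz2.lt_or_eq with h3 | h3
          · have := hmid z h2 h3
            rw [this] at hz3
            exact absurd he (by simpa [Nat.even_add_one] using hz3)
          · exact Or.inr h3
        · exact Or.inl h2.symm
      · rintro (rfl | rfl)
        · exact ⟨le_rfl, hxy.le, he⟩
        · refine ⟨hxy.le, le_rfl, ?_⟩
          rw [hr]
          exact he.add even_two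
    have e2 : {z : Q | x ≤ z ∧ z ≤ y ∧ Odd (ρ z)} = {z : Q | x < z ∧ z < y} := by
      ext z
      simp only [Set.mem_ofPred_eq]
      constructor
      · rintro ⟨hz1, hz2, hz3⟩
        refine ⟨lt_of_le_of_ne hz1 ?_, lt_of_le_of_ne hz2 ?_⟩
        · rintro rfl
          exact (Nat.not_even_iff_odd.mpr hz3) he
        · rintro rfl
          rw [hr] at hz3
          exact (Nat.not_even_iff_odd.mpr hz3) (he.add even_two)
      · rintro ⟨hz1, hz2⟩
        refine ⟨hz1.le, hz2.le, ?_⟩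
        rw [hmid z hz1 hz2]
        exact he.add_one
    rw [← e2, ← h1, e1, Set.ncard_pair hxy.ne]
  · have e1 : {z : Q | x ≤ z ∧ z ≤ y ∧ Odd (ρ z)} = {x, y} := by
      ext z
      simp only [Set.mem_ofPred_eq, Set.mem_insert_iff, Set.mem_singleton_iff]
      constructor
      · rintro ⟨hz1, hz2, hz3⟩
        rcases hz1.lt_or_eq with h2 | h2
        · rcases hz2.lt_or_eq with h3 | h3
          · have := hmid z h2 h3
            rw [this] at hz3
            exact absurd ho.add_one (Nat.not_even_iff_odd.mpr hz3)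
          · exact Or.inr h3
        · exact Or.inl h2.symm
      · rintro (rfl | rfl)
        · exact ⟨le_rfl, hxy.le, ho⟩
        · refine ⟨hxy.le, le_rfl, ?_⟩
          rw [hr]
          exact ho.add_even even_two
    have e2 : {z : Q | x ≤ z ∧ z ≤ y ∧ Even (ρ z)} = {z : Q | x < z ∧ z < y} := by
      ext z
      simp only [Set.mem_ofPred_eq]
      constructor
      · rintro ⟨hz1, hz2, hz3⟩
        refine ⟨lt_of_le_of_ne hz1 ?_, lt_of_le_of_ne hz2 ?_⟩
        · rintro rfl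
          exact (Nat.not_even_iff_odd.mpr ho) hz3
        · rintro rfl
          rw [hr] at hz3
          exact (Nat.not_even_iff_odd.mpr (ho.add_even even_two)) hz3
      · rintro ⟨hz1, hz2⟩
        refine ⟨hz1.le, hz2.le, ?_⟩
        rw [hmid z hz1 hz2]
        exact ho.add_one
    rw [← e2, h1, e1, Set.ncard_pair hxy.ne]

end ranked

/-- The properties of the face lattice of a polytope that we need. -/
structure Good {L : Type*} [PartialOrder L] [BoundedOrder L] (ρ : L → ℕ) : Prop where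
  bot : ρ ⊥ = 0
  mono : ∀ x y, x < y → ρ x < ρ y
  between : ∀ x y, x < y → ρ x + 1 < ρ y → ∃ z, x < z ∧ z < y
  diamond : ∀ x y, x < y → ρ y = ρ x + 2 →
    ∃ a b, a ≠ b ∧ ∀ z, (x < z ∧ z < y) ↔ (z = a ∨ z = b)
  inf : ∀ y y' : L, ∃ g, g ≤ y ∧ g ≤ y' ∧ ∀ x, x ≤ y → x ≤ y' → x ≤ g
  conn : ∀ x y, x < y → ρ x + 3 ≤ ρ y → ∀ c : L → Prop,
    (∀ a b, x < a → a < b → b < y → (c a ↔ c b)) →
    ∀ a b, x < a → a < y → x < b → b < y → (c a ↔ c b)
  noalt : ∀ x y, x < y → ρ y = ρ x + 4 → ∀ m : L → ℕ,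
    (∀ a f e e', x < a → f < y → ρ a = ρ x + 1 → ρ f = ρ x + 3 → a < e → e < f → a < e' →
      e' < f → e ≠ e' → m e + m e' = 2) →
    ∀ e, x < e → e < y → ρ e = ρ x + 2 → m e = 1

section good

variable {L : Type*} [PartialOrder L] [BoundedOrder L] [Finite L] {ρ : L → ℕ}

lemma Good.step_down (h : Good ρ) : ∀ y x : L, x < y → ∃ z, x ≤ z ∧ z < y ∧ ρ z + 1 = ρ y := by
  intro y x hxy
  obtain ⟨z, hz, hzy⟩ := exists_le_covBy_of_lt hxy
  refine ⟨z, hz, hzy.lt, ?_⟩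
  have h1 := h.mono z y hzy.lt
  by_contra hne
  obtain ⟨w, hw1, hw2⟩ := h.between z y hzy.lt (by omega)
  exact hzy.2 hw1 hw2

lemma Good.step_up (h : Good ρ) : ∀ x y : L, x < y → ∃ z, x < z ∧ z ≤ y ∧ ρ z = ρ x + 1 := by
  intro x y hxy
  obtain ⟨z, hz, hzy⟩ := exists_covBy_le_of_lt hxy
  refine ⟨z, hz.lt, hzy, ?_⟩
  have h1 := h.mono x z hz.lt
  by_contra hne
  obtain ⟨w, hw1, hw2⟩ := h.between x z hz.lt (by omega)
  exact hz.2 hw1 hw2

lemma Good.isRank (h : Good ρ) : IsRank ρ where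
  bot := h.bot
  covBy := by
    intro x y hxy
    obtain ⟨z, hz1, hz2, hz3⟩ := h.step_up x y hxy.lt
    rcases hz2.lt_or_eq with h2 | h2
    · exact absurd h2 (hxy.2 hz1)
    · rw [← h2, hz3]

/-- the coatoms of `[x, F]` are connected -/
lemma Good.coatoms (h : Good ρ) (n : ℕ) : ∀ x F : L, x < F → ρ F = ρ x + 2 + n → ∀ D : L → Prop,
    (∀ z a b, x ≤ z → z < a → z < b → a < F → b < F → ρ z + 2 = ρ F → D a → D b) →
    (∃ a, x < a ∧ a < F ∧ ρ a + 1 = ρ F ∧ D a) →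
    ∀ a, x < a → a < F → ρ a + 1 = ρ F → D a := by
  induction n using Nat.strong_induction_on with
  | _ n ih =>
    intro x F hxF hn D hcl hex a hxa haF hra
    obtain ⟨a0, ha0x, ha0F, ha0r, ha0D⟩ := hex
    rcases Nat.eq_zero_or_pos n with h0 | hpos
    · exact hcl x a0 a le_rfl ha0x hxa ha0F haF (by omega) ha0D
    · set c : L → Prop := fun H => ∀ a, H ≤ a → a < F → ρ a + 1 = ρ F → D a with hc
      have key : ∀ H, x < H → H < F → (∃ a, H ≤ a ∧ a < F ∧ ρ a + 1 = ρ F ∧ D a) → c H := by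
        intro H hxH hHF ⟨b, hb1, hb2, hb3, hb4⟩ b' hb1' hb2' hb3'
        rcases hb1.lt_or_eq with h1 | h1
        · rcases hb1'.lt_or_eq with h2 | h2
          · have hr1 := h.mono x H hxH
            have hr2 := h.mono H b h1
            obtain ⟨m, hm⟩ : ∃ m, ρ F = ρ H + 2 + m := ⟨ρ F - (ρ H + 2), by omega⟩
            refine ih m (by omega) H F hHF hm D ?_ ⟨b, h1, hb2, hb3, hb4⟩ b' h2 hb2' hb3'
            intro z u v hz
            exact hcl z u v (hxH.le.trans hz)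
          · have hr2 := h.mono H b h1
            rw [← h2] at hb3'
            omega
        · rcases hb1'.lt_or_eq with h2 | h2
          · have hr2 := h.mono H b' h2
            rw [← h1] at hb3
            omega
          · rw [← h2, h1]
            exact hb4
      have hconn := h.conn x F hxF (by omega) c (by
        intro u v hxu huv hvF
        constructor
        · intro hcu b hb
          exact hcu b (huv.le.trans hb)
        · intro hcv
          obtain ⟨z, hz1, hz2, hz3⟩ := h.step_down F v hvF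
          exact key u hxu (huv.trans hvF) ⟨z, huv.le.trans hz1, hz2, hz3, hcv z hz1 hz2 hz3⟩)
      have h1 : c a0 := key a0 ha0x ha0F ⟨a0, le_rfl, ha0F, ha0r, ha0D⟩
      exact (hconn a0 a ha0x ha0F hxa haF).mp h1 a le_rfl haF hra

/-- the atoms of `[F, y]` are connected -/
lemma Good.atoms (h : Good ρ) (n : ℕ) : ∀ F y : L, F < y → ρ y = ρ F + 2 + n → ∀ D : L → Prop,
    (∀ z a b, z ≤ y → F < a → F < b → a < z → b < z → ρ z = ρ F + 2 → D a → D b) →
    (∃ a, F < a ∧ a < y ∧ ρ a = ρ F + 1 ∧ D a) →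
    ∀ a, F < a → a < y → ρ a = ρ F + 1 → D a := by
  induction n using Nat.strong_induction_on with
  | _ n ih =>
    intro F y hFy hn D hcl hex a hFa hay hra
    obtain ⟨a0, ha0F, ha0y, ha0r, ha0D⟩ := hex
    rcases Nat.eq_zero_or_pos n with h0 | hpos
    · exact hcl y a0 a le_rfl ha0F hFa ha0y hay (by omega) ha0D
    · set c : L → Prop := fun H => ∀ a, a ≤ H → F < a → ρ a = ρ F + 1 → D a with hc
      have key : ∀ H, F < H → H < y → (∃ a, a ≤ H ∧ F < a ∧ ρ a = ρ F + 1 ∧ D a) → c H := by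
        intro H hFH hHy ⟨b, hb1, hb2, hb3, hb4⟩ b' hb1' hb2' hb3'
        rcases hb1.lt_or_eq with h1 | h1
        · rcases hb1'.lt_or_eq with h2 | h2
          · have hr1 := h.mono H y hHy
            have hr2 := h.mono b H h1
            obtain ⟨m, hm⟩ : ∃ m, ρ H = ρ F + 2 + m := ⟨ρ H - (ρ F + 2), by omega⟩
            refine ih m (by omega) F H hFH hm D ?_ ⟨b, hb2, h1, hb3, hb4⟩ b' hb2' h2 hb3'
            intro z u v hz
            exact hcl z u v (hz.trans hHy.le)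
          · have hr2 := h.mono b H h1
            rw [h2] at hb3'
            omega
        · rcases hb1'.lt_or_eq with h2 | h2
          · have hr2 := h.mono b' H h2
            rw [h1] at hb3
            omega
          · rw [h2, ← h1]
            exact hb4
      have hconn := h.conn F y hFy (by omega) c (by
        intro u v hFu huv hvy
        constructor
        · intro hcu
          obtain ⟨z, hz1, hz2, hz3⟩ := h.step_up F u hFu
          exact key v (hFu.trans huv) hvy ⟨z, hz2.trans huv.le, hz1, hz3, hcu z hz2 hz1 hz3⟩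
        · intro hcv b hb
          exact hcv b (hb.trans huv.le))
      have h1 : c a0 := key a0 ha0F ha0y ⟨a0, le_rfl, ha0F, ha0r, ha0D⟩
      exact (hconn a0 a ha0F ha0y hFa hay).mp h1 a le_rfl hFa hra

end good

/-! ### The main argument -/

set_option linter.unusedSectionVars false

section main

variable {Q L : Type*} [PartialOrder Q] [BoundedOrder Q] [Finite Q] [PartialOrder L]
  [BoundedOrder L] [Finite L] {ρ : Q → ℕ} {σ : L → ℕ} {r : ℕ}

/-- `x` (not of rank `r + 1`) lies below `q` -/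
def bel (φ : {q : Q // ρ q ≠ r + 1} ≃o {F : L // σ F ≠ r + 1}) (x : L) (q : Q) : Prop :=
  ∃ h : σ x ≠ r + 1, (φ.symm ⟨x, h⟩).1 < q

/-- `y` (not of rank `r + 1`) lies above `q` -/
def abv (φ : {q : Q // ρ q ≠ r + 1} ≃o {F : L // σ F ≠ r + 1}) (y : L) (q : Q) : Prop :=
  ∃ h : σ y ≠ r + 1, q < (φ.symm ⟨y, h⟩).1

variable (φ : {q : Q // ρ q ≠ r + 1} ≃o {F : L // σ F ≠ r + 1})

lemma symm_lt {x y : L} (hx : σ x ≠ r + 1) (hy : σ y ≠ r + 1) :
    (φ.symm ⟨x, hx⟩).1 < (φ.symm ⟨y, hy⟩).1 ↔ x < y := by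
  rw [Subtype.coe_lt_coe, φ.symm.lt_iff_lt]
  exact Iff.rfl

lemma rank_symm (hφ : ∀ q, σ (φ q).1 = ρ q.1) {x : L} (hx : σ x ≠ r + 1) :
    ρ (φ.symm ⟨x, hx⟩).1 = σ x := by
  rw [← hφ, φ.apply_symm_apply]

lemma rank_top (hρ : IsRank ρ) (hφ : ∀ q, σ (φ q).1 = ρ q.1) (hr2 : r + 3 ≤ σ ⊤) :
    ρ ⊤ = σ ⊤ := by
  have h1 : σ (⊤ : L) ≠ r + 1 := by omega
  have h2 := rank_symm φ hφ h1
  have h3 : (φ.symm ⟨⊤, h1⟩).1 = ⊤ := by
    by_contra hne
    have h4 : (φ.symm ⟨⊤, h1⟩).1 < (⊤ : Q) := lt_of_le_of_ne le_top hne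
    have h5 := hρ.lt _ _ h4
    have h6 : ρ (⊤ : Q) ≠ r + 1 := by omega
    have h7 : (⟨⊤, h6⟩ : {q : Q // ρ q ≠ r + 1}) ≤ φ.symm ⟨⊤, h1⟩ := by
      rw [φ.le_symm_apply]
      exact (le_top : (φ ⟨⊤, h6⟩).1 ≤ ⊤)
    exact absurd (lt_of_lt_of_le h4 h7) (lt_irrefl _)
  rw [← h2, h3]

omit [Finite Q] in
lemma two_of_ncard {s : Set Q} (h : s.ncard = 2) : ∃ a b, a ∈ s ∧ b ∈ s ∧ a ≠ b ∧
    ∀ z ∈ s, z = a ∨ z = b := by
  obtain ⟨a, b, hab, rfl⟩ := Set.ncard_eq_two.mp h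
  exact ⟨a, b, by simp, by simp, hab, by simp⟩

lemma dpair_down (hρ : IsRank ρ) (hE : IsEulerian ρ) (hφ : ∀ q, σ (φ q).1 = ρ q.1) {z q : Q}
    (hz : z < q) (hr : ρ q = ρ z + 2) (hq : ρ q = r + 1) :
    ∃ X1 X2 : L, X1 ≠ X2 ∧ σ X1 = r ∧ σ X2 = r ∧ bel φ X1 q ∧ bel φ X2 q ∧
      (∀ h, z < (φ.symm ⟨X1, h⟩).1) ∧ (∀ h, z < (φ.symm ⟨X2, h⟩).1) := by
  obtain ⟨x1, x2, hx1, hx2, hx12, -⟩ := two_of_ncard (hρ.diamond hE hz hr)
  have rx1 : ρ x1 = r := by
    have h1 := hρ.lt _ _ hx1.1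
    have h2 := hρ.lt _ _ hx1.2
    omega
  have rx2 : ρ x2 = r := by
    have h1 := hρ.lt _ _ hx2.1
    have h2 := hρ.lt _ _ hx2.2
    omega
  have n1 : ρ x1 ≠ r + 1 := by omega
  have n2 : ρ x2 ≠ r + 1 := by omega
  have e1 : φ.symm ⟨(φ ⟨x1, n1⟩).1, (φ ⟨x1, n1⟩).2⟩ = ⟨x1, n1⟩ := φ.symm_apply_apply _
  have e2 : φ.symm ⟨(φ ⟨x2, n2⟩).1, (φ ⟨x2, n2⟩).2⟩ = ⟨x2, n2⟩ := φ.symm_apply_apply _
  refine ⟨(φ ⟨x1, n1⟩).1, (φ ⟨x2, n2⟩).1, ?_, ?_, ?_, ⟨(φ ⟨x1, n1⟩).2, ?_⟩,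
    ⟨(φ ⟨x2, n2⟩).2, ?_⟩, fun h => ?_, fun h => ?_⟩
  · intro h
    apply hx12
    have h1 := φ.injective (Subtype.ext h)
    exact congrArg Subtype.val h1
  · rw [hφ]; exact rx1
  · rw [hφ]; exact rx2
  · rw [e1]; exact hx1.2
  · rw [e2]; exact hx2.2
  · rw [e1]; exact hx1.1
  · rw [e2]; exact hx2.1

lemma dpair_up (hρ : IsRank ρ) (hE : IsEulerian ρ) (hφ : ∀ q, σ (φ q).1 = ρ q.1) {z q : Q}
    (hz : q < z) (hr : ρ z = ρ q + 2) (hq : ρ q = r + 1) :
    ∃ X1 X2 : L, X1 ≠ X2 ∧ σ X1 = r + 2 ∧ σ X2 = r + 2 ∧ abv φ X1 q ∧ abv φ X2 q ∧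
      (∀ h, (φ.symm ⟨X1, h⟩).1 < z) ∧ (∀ h, (φ.symm ⟨X2, h⟩).1 < z) := by
  obtain ⟨x1, x2, hx1, hx2, hx12, -⟩ := two_of_ncard (hρ.diamond hE hz hr)
  have rx1 : ρ x1 = r + 2 := by
    have h1 := hρ.lt _ _ hx1.1
    have h2 := hρ.lt _ _ hx1.2
    omega
  have rx2 : ρ x2 = r + 2 := by
    have h1 := hρ.lt _ _ hx2.1
    have h2 := hρ.lt _ _ hx2.2
    omega
  have n1 : ρ x1 ≠ r + 1 := by omega
  have n2 : ρ x2 ≠ r + 1 := by omega
  have e1 : φ.symm ⟨(φ ⟨x1, n1⟩).1, (φ ⟨x1, n1⟩).2⟩ = ⟨x1, n1⟩ := φ.symm_apply_apply _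
  have e2 : φ.symm ⟨(φ ⟨x2, n2⟩).1, (φ ⟨x2, n2⟩).2⟩ = ⟨x2, n2⟩ := φ.symm_apply_apply _
  refine ⟨(φ ⟨x1, n1⟩).1, (φ ⟨x2, n2⟩).1, ?_, ?_, ?_, ⟨(φ ⟨x1, n1⟩).2, ?_⟩,
    ⟨(φ ⟨x2, n2⟩).2, ?_⟩, fun h => ?_, fun h => ?_⟩
  · intro h
    apply hx12
    have h1 := φ.injective (Subtype.ext h)
    exact congrArg Subtype.val h1
  · rw [hφ]; exact rx1
  · rw [hφ]; exact rx2
  · rw [e1]; exact hx1.1
  · rw [e2]; exact hx2.1
  · rw [e1]; exact hx1.2
  · rw [e2]; exact hx2.2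

lemma bel_lt_abv {x y : L} {q : Q} (h1 : bel φ x q) (h2 : abv φ y q) : x < y := by
  obtain ⟨h1, h2'⟩ := h1
  obtain ⟨h3, h4⟩ := h2
  exact (symm_lt φ h1 h3).mp (h2'.trans h4)

/-- choosing among two pairs -/
lemma pick {α : Type*} {a1 a2 u1 u2 b : α} (h1 : u1 = a1 ∨ u1 = a2) (h2 : u2 = a1 ∨ u2 = a2)
    (h3 : b = a1 ∨ b = a2) (hne : u1 ≠ u2) : b = u1 ∨ b = u2 := by
  rcases h1 with rfl | rfl
  · rcases h3 with rfl | rfl
    · exact Or.inl rfl
    · rcases h2 with rfl | rfl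
      · exact absurd rfl hne
      · exact Or.inr rfl
  · rcases h3 with rfl | rfl
    · rcases h2 with rfl | rfl
      · exact Or.inr rfl
      · exact absurd rfl hne
    · exact Or.inl rfl

lemma exists_below (hρ : IsRank ρ) (hr1 : 1 ≤ r) (q : Q) (hq : ρ q = r + 1) :
    ∃ z, z < q ∧ ρ z = r - 1 := by
  have hb : (⊥ : Q) < q := by
    rw [bot_lt_iff_ne_bot]
    rintro rfl
    rw [hρ.bot] at hq
    omega
  rcases Nat.lt_or_ge 1 r with h1 | h1
  · obtain ⟨z, _, hz2, hz3⟩ := hρ.between ⊥ q hb (r - 1) (by rw [hρ.bot]; omega) (by omega)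
    exact ⟨z, hz2, hz3⟩
  · exact ⟨⊥, hb, by rw [hρ.bot]; omega⟩

lemma exists_above (hρ : IsRank ρ) (hr2 : r + 3 ≤ ρ ⊤) (q : Q) (hq : ρ q = r + 1) :
    ∃ w, q < w ∧ ρ w = r + 3 := by
  have hb : q < (⊤ : Q) := by
    rw [lt_top_iff_ne_top]
    rintro rfl
    omega
  rcases Nat.lt_or_ge (r + 3) (ρ (⊤ : Q)) with h1 | h1
  · obtain ⟨z, hz1, _, hz3⟩ := hρ.between q ⊤ hb (r + 3) (by omega) h1
    exact ⟨z, hz1, hz3⟩
  · exact ⟨⊤, hb, by omega⟩

lemma claimA (hρ : IsRank ρ) (hE : IsEulerian ρ) (hσ : Good σ) (hr1 : 1 ≤ r) (hr2 : r + 3 ≤ σ ⊤)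
    (hφ : ∀ q, σ (φ q).1 = ρ q.1) (q : Q) (hq : ρ q = r + 1) :
    ∃ F : L, σ F = r + 1 ∧ (∀ x, σ x = r → (bel φ x q ↔ x < F)) ∧
      (∀ y, σ y = r + 2 → (abv φ y q ↔ F < y)) := by
  have htop := rank_top φ hρ hφ hr2
  obtain ⟨z, hzq, hzr⟩ := exists_below hρ hr1 q hq
  obtain ⟨w, hqw, hwr⟩ := exists_above hρ (by omega) q hq
  obtain ⟨X1, X2, nX, sX1, sX2, bX1, bX2, -, -⟩ := dpair_down φ hρ hE hφ hzq (by omega) hq
  obtain ⟨Y1, Y2, nY, sY1, sY2, aY1, aY2, -, -⟩ := dpair_up φ hρ hE hφ hqw (by omega) hq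
  obtain ⟨F, hF1, hF2, hF3⟩ := hσ.inf Y1 Y2
  have hX1F : X1 ≤ F := hF3 _ (bel_lt_abv φ bX1 aY1).le (bel_lt_abv φ bX1 aY2).le
  have hX2F : X2 ≤ F := hF3 _ (bel_lt_abv φ bX2 aY1).le (bel_lt_abv φ bX2 aY2).le
  -- two distinct rank `r` elements below `g` force rank `≥ r + 1`
  have hge : ∀ g : L, X1 ≤ g → X2 ≤ g → r + 1 ≤ σ g := by
    intro g h1 h2
    rcases h1.lt_or_eq with h3 | h3
    · have := hσ.mono _ _ h3
      omega
    · rcases h2.lt_or_eq with h4 | h4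
      · have := hσ.mono _ _ h4
        omega
      · exact absurd (h3.trans h4.symm) nX
  have hle : ∀ (k : ℕ) (g y y' : L), y ≠ y' → σ y = k → σ y' = k → g ≤ y → g ≤ y' → σ g < k := by
    intro k g y y' hne h1 h2 h3 h4
    rcases h3.lt_or_eq with h5 | h5
    · have := hσ.mono _ _ h5
      omega
    · rcases h4.lt_or_eq with h6 | h6
      · have := hσ.mono _ _ h6
        omega
      · exact absurd (h5.symm.trans h6) hne
  have sF : σ F = r + 1 := by
    have h1 := hge F hX1F hX2F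
    have h2 := hle (r + 2) F Y1 Y2 nY sY1 sY2 hF1 hF2
    omega
  have down1 : ∀ x, σ x = r → bel φ x q → x < F := by
    intro x hx hb
    have h1 : x ≤ F := hF3 x (bel_lt_abv φ hb aY1).le (bel_lt_abv φ hb aY2).le
    refine lt_of_le_of_ne h1 ?_
    rintro rfl
    omega
  have up1 : ∀ y, σ y = r + 2 → abv φ y q → F < y := by
    intro y hy ha
    have h1 : F ≤ y := by
      by_cases hyY : y = Y1
      · rw [hyY]; exact hF1
      · obtain ⟨g, hg1, hg2, hg3⟩ := hσ.inf y Y1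
        have hX1g : X1 ≤ g := hg3 _ (bel_lt_abv φ bX1 ha).le (bel_lt_abv φ bX1 aY1).le
        have hX2g : X2 ≤ g := hg3 _ (bel_lt_abv φ bX2 ha).le (bel_lt_abv φ bX2 aY1).le
        have sg : σ g = r + 1 := by
          have h1 := hge g hX1g hX2g
          have h2 := hle (r + 2) g y Y1 hyY hy sY1 hg1 hg2
          omega
        have hFg : F = g := by
          by_contra hne
          obtain ⟨k, hk1, hk2, hk3⟩ := hσ.inf F g
          have h1 := hge k (hk3 _ hX1F hX1g) (hk3 _ hX2F hX2g)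
          have h2 := hle (r + 1) k F g hne sF sg hk1 hk2
          omega
        rw [hFg]; exact hg1
    refine lt_of_le_of_ne h1 ?_
    rintro rfl
    omega
  refine ⟨F, sF, fun x hx => ⟨down1 x hx, ?_⟩, fun y hy => ⟨up1 y hy, ?_⟩⟩
  · -- all coatoms of `F` lie below `q`
    intro hxF
    have hbF : (⊥ : L) < F := by
      rw [bot_lt_iff_ne_bot]
      rintro rfl
      rw [hσ.bot] at sF
      omega
    have hbx : ∀ x : L, σ x = r → (⊥ : L) < x := by
      intro x hx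
      rw [bot_lt_iff_ne_bot]
      rintro rfl
      rw [hσ.bot] at hx
      omega
    have hbr := hσ.bot
    refine hσ.coatoms (r - 1) ⊥ F hbF (by omega) (fun x => bel φ x q) ?_
      ⟨X1, hbx _ sX1, down1 _ sX1 bX1, by omega, bX1⟩ x (hbx x hx) hxF (by omega)
    intro z' a b _ hza hzb haF hbF' hzr' hDa
    have sz : σ z' = r - 1 := by omega
    have hz'ne : σ z' ≠ r + 1 := by omega
    obtain ⟨hane, haq⟩ := hDa
    have hzq' : (φ.symm ⟨z', hz'ne⟩).1 < q := ((symm_lt φ hz'ne hane).mpr hza).trans haq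
    have rz' : ρ (φ.symm ⟨z', hz'ne⟩).1 = r - 1 := by rw [rank_symm φ hφ]; exact sz
    obtain ⟨U1, U2, nU, sU1, sU2, bU1, bU2, zU1, zU2⟩ :=
      dpair_down φ hρ hE hφ hzq' (by omega) hq
    obtain ⟨a1, a2, ha12, haa⟩ := hσ.diamond z' F (hza.trans haF) (by omega)
    have g1 := (haa U1).mp ⟨(symm_lt φ hz'ne (by omega)).mp (zU1 (by omega)), down1 _ sU1 bU1⟩
    have g2 := (haa U2).mp ⟨(symm_lt φ hz'ne (by omega)).mp (zU2 (by omega)), down1 _ sU2 bU2⟩
    have g3 := (haa _).mp ⟨hzb, hbF'⟩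
    rcases pick g1 g2 g3 nU with h | h
    · rw [h]; exact bU1
    · rw [h]; exact bU2
  · -- all elements covering `F` lie above `q`
    intro hFy
    have hFt : F < (⊤ : L) := by
      rw [lt_top_iff_ne_top]
      rintro rfl
      omega
    have hyt : ∀ y : L, σ y = r + 2 → y < (⊤ : L) := by
      intro y hy
      rw [lt_top_iff_ne_top]
      rintro rfl
      omega
    refine hσ.atoms (σ (⊤ : L) - (r + 3)) F ⊤ hFt (by omega) (fun y => abv φ y q) ?_
      ⟨Y1, up1 _ sY1 aY1, hyt _ sY1, by omega, aY1⟩ y hFy (hyt y hy) (by omega)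
    intro z' a b _ hFa hFb haz hbz hzr' hDa
    have sz : σ z' = r + 3 := by omega
    have hz'ne : σ z' ≠ r + 1 := by omega
    obtain ⟨hane, haq⟩ := hDa
    have hzq' : q < (φ.symm ⟨z', hz'ne⟩).1 := haq.trans ((symm_lt φ hane hz'ne).mpr haz)
    have rz' : ρ (φ.symm ⟨z', hz'ne⟩).1 = r + 3 := by rw [rank_symm φ hφ]; exact sz
    obtain ⟨U1, U2, nU, sU1, sU2, bU1, bU2, zU1, zU2⟩ :=
      dpair_up φ hρ hE hφ hzq' (by omega) hq
    obtain ⟨a1, a2, ha12, haa⟩ := hσ.diamond F z' (hFa.trans haz) (by omega)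
    have g1 := (haa U1).mp ⟨up1 _ sU1 bU1, (symm_lt φ (by omega) hz'ne).mp (zU1 (by omega))⟩
    have g2 := (haa U2).mp ⟨up1 _ sU2 bU2, (symm_lt φ (by omega) hz'ne).mp (zU2 (by omega))⟩
    have g3 := (haa _).mp ⟨hFb, hbz⟩
    rcases pick g1 g2 g3 nU with h | h
    · rw [h]; exact bU1
    · rw [h]; exact bU2

theorem main (hρ : IsRank ρ) (hE : IsEulerian ρ) (hσ : Good σ) (hr1 : 1 ≤ r) (hr2 : r + 3 ≤ σ ⊤)
    (hφ : ∀ q, σ (φ q).1 = ρ q.1) :
    ∃ Φ : Q ≃o L, ∀ q : {q : Q // ρ q ≠ r + 1}, Φ q.1 = (φ q).1 := by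
  classical
  have hA := claimA φ hρ hE hσ hr1 hr2 hφ
  choose! G hG1 hG2 hG3 using hA
  have htop := rank_top φ hρ hφ hr2
  set m : L → ℕ := fun F => {q : Q | ρ q = r + 1 ∧ G q = F}.ncard with hm
  -- the two middle elements of a diamond
  have hdia : ∀ x y F1 F2, σ x = r → σ y = r + 2 → x < y → F1 ≠ F2 →
      (∀ z, (x < z ∧ z < y) ↔ (z = F1 ∨ z = F2)) → m F1 + m F2 = 2 := by
    intro x y F1 F2 hx hy hxy hne hF
    have hxn : σ x ≠ r + 1 := by omega
    have hyn : σ y ≠ r + 1 := by omega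
    have h1 : (φ.symm ⟨x, hxn⟩).1 < (φ.symm ⟨y, hyn⟩).1 := (symm_lt φ hxn hyn).mpr hxy
    have h2 := hρ.diamond hE h1 (by rw [rank_symm φ hφ, rank_symm φ hφ]; omega)
    have h3 : {z : Q | (φ.symm ⟨x, hxn⟩).1 < z ∧ z < (φ.symm ⟨y, hyn⟩).1} =
        {q : Q | ρ q = r + 1 ∧ G q = F1} ∪ {q : Q | ρ q = r + 1 ∧ G q = F2} := by
      ext q
      simp only [Set.mem_ofPred_eq, Set.mem_union]
      constructor
      · rintro ⟨h4, h5⟩
        have h6 := hρ.lt _ _ h4
        have h7 := hρ.lt _ _ h5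
        rw [rank_symm φ hφ] at h6 h7
        have hq : ρ q = r + 1 := by omega
        have h8 := (hG2 q hq x hx).mp ⟨hxn, h4⟩
        have h9 := (hG3 q hq y hy).mp ⟨hyn, h5⟩
        rcases (hF _).mp ⟨h8, h9⟩ with h | h
        · exact Or.inl ⟨hq, h⟩
        · exact Or.inr ⟨hq, h⟩
      · intro h
        have hq : ρ q = r + 1 := by
          rcases h with h | h <;> exact h.1
        have h4 : G q = F1 ∨ G q = F2 := by
          rcases h with h | h
          · exact Or.inl h.2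
          · exact Or.inr h.2
        obtain ⟨h5, h6⟩ := (hF _).mpr h4
        obtain ⟨_, h7⟩ := (hG2 q hq x hx).mpr h5
        obtain ⟨_, h8⟩ := (hG3 q hq y hy).mpr h6
        exact ⟨h7, h8⟩
    rw [h3, Set.ncard_union_eq ?_ (Set.toFinite _) (Set.toFinite _)] at h2
    · exact h2
    · rw [Set.disjoint_left]
      rintro q ⟨_, h4⟩ ⟨_, h5⟩
      exact hne (h4.symm.trans h5)
  have hσr := hσ.isRank
  have hm1 : ∀ F, σ F = r + 1 → m F = 1 := by
    intro F hF
    obtain ⟨z, hzF, hzr⟩ : ∃ z, z < F ∧ σ z = r - 1 := by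
      have hb : (⊥ : L) < F := by
        rw [bot_lt_iff_ne_bot]
        rintro rfl
        rw [hσ.bot] at hF
        omega
      rcases Nat.lt_or_ge 1 r with h1 | h1
      · obtain ⟨z, _, hz2, hz3⟩ := hσr.between ⊥ F hb (r - 1) (by rw [hσ.bot]; omega) (by omega)
        exact ⟨z, hz2, hz3⟩
      · exact ⟨⊥, hb, by rw [hσ.bot]; omega⟩
    obtain ⟨w, hFw, hwr⟩ : ∃ w, F < w ∧ σ w = r + 3 := by
      have hb : F < (⊤ : L) := by
        rw [lt_top_iff_ne_top]
        rintro rfl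
        omega
      rcases Nat.lt_or_ge (r + 3) (σ (⊤ : L)) with h1 | h1
      · obtain ⟨z, hz1, _, hz3⟩ := hσr.between F ⊤ hb (r + 3) (by omega) h1
        exact ⟨z, hz1, hz3⟩
      · exact ⟨⊤, hb, by omega⟩
    refine hσ.noalt z w (hzF.trans hFw) (by omega) m ?_ F hzF hFw (by omega)
    intro a f e e' _ _ hra hrf hae hef hae' hef' hne
    obtain ⟨a1, a2, ha12, haa⟩ := hσ.diamond a f (hae.trans hef) (by omega)
    have h1 := (haa e).mp ⟨hae, hef⟩
    have h2 := (haa e').mp ⟨hae', hef'⟩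
    have h3 := hdia a f a1 a2 (by omega) (by omega) (hae.trans hef) ha12 haa
    rcases h1 with h1 | h1 <;> rcases h2 with h2 | h2
    · exact absurd (h1.trans h2.symm) hne
    · rw [h1, h2]; exact h3
    · rw [h1, h2, add_comm]; exact h3
    · exact absurd (h1.trans h2.symm) hne
  -- the isomorphism
  set Φ : Q → L := fun q => if h : ρ q ≠ r + 1 then (φ ⟨q, h⟩).1 else G q with hΦ
  have hΦ1 : ∀ (q : Q) (h : ρ q ≠ r + 1), Φ q = (φ ⟨q, h⟩).1 := by
    intro q h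
    simp only [hΦ, dif_pos h]
  have hΦ2 : ∀ (q : Q), ρ q = r + 1 → Φ q = G q := by
    intro q h
    have : ¬ (ρ q ≠ r + 1) := fun h' => h' h
    simp only [hΦ, dif_neg this]
  have hinj : ∀ q q', ρ q = r + 1 → ρ q' = r + 1 → G q = G q' → q = q' := by
    intro q q' hq hq' he
    have h1 := hm1 (G q) (hG1 q hq)
    obtain ⟨u, hu⟩ := Set.ncard_eq_one.mp h1
    have h2 : q ∈ {q' : Q | ρ q' = r + 1 ∧ G q' = G q} := ⟨hq, rfl⟩
    have h3 : q' ∈ {q' : Q | ρ q' = r + 1 ∧ G q' = G q} := ⟨hq', he.symm⟩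
    rw [hu] at h2 h3
    exact (Set.mem_singleton_iff.mp h2).trans (Set.mem_singleton_iff.mp h3).symm
  have hle : ∀ q q', Φ q ≤ Φ q' ↔ q ≤ q' := by
    intro q q'
    by_cases hq : ρ q = r + 1
    · by_cases hq' : ρ q' = r + 1
      · rw [hΦ2 q hq, hΦ2 q' hq']
        constructor
        · intro h
          rcases h.lt_or_eq with h1 | h1
          · have := hσ.mono _ _ h1
            rw [hG1 q hq, hG1 q' hq'] at this
            omega
          · exact (hinj q q' hq hq' h1).le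
        · intro h
          rcases h.lt_or_eq with h1 | h1
          · have := hρ.lt _ _ h1
            omega
          · rw [h1]
      · rw [hΦ2 q hq, hΦ1 q' hq']
        constructor
        · intro h
          have h1 : G q < (φ ⟨q', hq'⟩).1 := by
            refine lt_of_le_of_ne h ?_
            intro he
            have h2 := hG1 q hq
            rw [he] at h2
            exact (φ ⟨q', hq'⟩).2 h2
          obtain ⟨y, hy1, hy2, hy3⟩ := hσ.step_up _ _ h1
          rw [hG1 q hq] at hy3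
          obtain ⟨hyn, h3⟩ := (hG3 q hq y (by omega)).mpr hy1
          have h4 : (φ.symm ⟨y, hyn⟩) ≤ ⟨q', hq'⟩ := by
            rw [φ.symm_apply_le]
            exact hy2
          exact h3.le.trans h4
        · intro h
          have h1 : q < q' := by
            refine lt_of_le_of_ne h ?_
            rintro rfl
            exact hq' hq
          obtain ⟨v, hv1, hv2⟩ := exists_covBy_le_of_lt h1
          have hv3 := hρ.covBy q v hv1
          have hvn : ρ v ≠ r + 1 := by omega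
          have h2 : φ.symm ⟨(φ ⟨v, hvn⟩).1, (φ ⟨v, hvn⟩).2⟩ = ⟨v, hvn⟩ := φ.symm_apply_apply _
          have h3 : G q < (φ ⟨v, hvn⟩).1 := by
            rw [← hG3 q hq _ (by rw [hφ]; show ρ v = r + 2; omega)]
            exact ⟨(φ ⟨v, hvn⟩).2, by rw [h2]; exact hv1.lt⟩
          have h4 : φ ⟨v, hvn⟩ ≤ φ ⟨q', hq'⟩ := by
            rw [φ.le_iff_le]
            exact hv2
          exact h3.le.trans h4
    · by_cases hq' : ρ q' = r + 1
      · rw [hΦ1 q hq, hΦ2 q' hq']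
        constructor
        · intro h
          have h1 : (φ ⟨q, hq⟩).1 < G q' := by
            refine lt_of_le_of_ne h ?_
            intro he
            have h2 := hG1 q' hq'
            rw [← he] at h2
            exact (φ ⟨q, hq⟩).2 h2
          obtain ⟨x, hx1, hx2, hx3⟩ := hσ.step_down _ _ h1
          rw [hG1 q' hq'] at hx3
          obtain ⟨hxn, h3⟩ := (hG2 q' hq' x (by omega)).mpr hx2
          have h4 : ⟨q, hq⟩ ≤ (φ.symm ⟨x, hxn⟩) := by
            rw [φ.le_symm_apply]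
            exact hx1
          exact (show q ≤ (φ.symm ⟨x, hxn⟩).1 from h4).trans h3.le
        · intro h
          have h1 : q < q' := by
            refine lt_of_le_of_ne h ?_
            rintro rfl
            exact hq hq'
          obtain ⟨v, hv1, hv2⟩ := exists_le_covBy_of_lt h1
          have hv3 := hρ.covBy v q' hv2
          have hvn : ρ v ≠ r + 1 := by omega
          have h2 : φ.symm ⟨(φ ⟨v, hvn⟩).1, (φ ⟨v, hvn⟩).2⟩ = ⟨v, hvn⟩ := φ.symm_apply_apply _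
          have h3 : (φ ⟨v, hvn⟩).1 < G q' := by
            rw [← hG2 q' hq' _ (by rw [hφ]; show ρ v = r; omega)]
            exact ⟨(φ ⟨v, hvn⟩).2, by rw [h2]; exact hv2.lt⟩
          have h4 : φ ⟨q, hq⟩ ≤ φ ⟨v, hvn⟩ := by
            rw [φ.le_iff_le]
            exact hv1
          exact (show (φ ⟨q, hq⟩).1 ≤ (φ ⟨v, hvn⟩).1 from h4).trans h3.le
      · rw [hΦ1 q hq, hΦ1 q' hq', Subtype.coe_le_coe, φ.le_iff_le]
        exact Iff.rfl
  have hsurj : Function.Surjective Φ := by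
    intro F
    by_cases hF : σ F = r + 1
    · have h1 := hm1 F hF
      obtain ⟨u, hu⟩ := Set.ncard_eq_one.mp h1
      have h2 : u ∈ {q' : Q | ρ q' = r + 1 ∧ G q' = F} := by rw [hu]; exact Set.mem_singleton u
      exact ⟨u, by rw [hΦ2 u h2.1]; exact h2.2⟩
    · refine ⟨(φ.symm ⟨F, hF⟩).1, ?_⟩
      rw [hΦ1 _ (φ.symm ⟨F, hF⟩).2]
      have : (⟨(φ.symm ⟨F, hF⟩).1, (φ.symm ⟨F, hF⟩).2⟩ : {q : Q // ρ q ≠ r + 1}) =
        φ.symm ⟨F, hF⟩ := rfl
      rw [this, φ.apply_symm_apply]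
  exact ⟨RelIso.ofSurjective (OrderEmbedding.ofMapLEIff Φ hle) hsurj, fun q => hΦ1 q.1 q.2⟩

end main

end Pool.Agent.Q142.EP
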