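import Mathlib

/-!
Banchoff-type counting in an interval of length four.
-/

set_option autoImplicit false

namespace Pool.Agent.Q142.EP

section

variable {L : Type*} [PartialOrder L]

/-- the order-theoretic facts used in the counting argument -/
structure Base (ρ : L → ℕ) : Prop where
  mono : ∀ x y, x < y → ρ x < ρ y
  diamond : ∀ x y, x < y → ρ y = ρ x + 2 →
    ∃ a b, a ≠ b ∧ ∀ z, (x < z ∧ z < y) ↔ (z = a ∨ z = b)
  inf : ∀ y y' : L, ∃ g, g ≤ y ∧ g ≤ y' ∧ ∀ x, x ≤ y → x ≤ y' → x ≤ g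

variable {ρ : L → ℕ}

/-- the other middle element of a diamond -/
lemma Base.other (h : Base ρ) {x y e : L} (hx : x < e) (hy : e < y) (hr : ρ y = ρ x + 2) :
    ∃ e', e' ≠ e ∧ x < e' ∧ e' < y ∧ ∀ z, x < z → z < y → z = e ∨ z = e' := by
  obtain ⟨a, b, hab, h1⟩ := h.diamond x y (hx.trans hy) hr
  rcases (h1 e).mp ⟨hx, hy⟩ with rfl | rfl
  · exact ⟨b, hab.symm, ((h1 b).mpr (Or.inr rfl)).1, ((h1 b).mpr (Or.inr rfl)).2,
      fun z hz1 hz2 => (h1 z).mp ⟨hz1, hz2⟩⟩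
  · exact ⟨a, hab, ((h1 a).mpr (Or.inl rfl)).1, ((h1 a).mpr (Or.inl rfl)).2,
      fun z hz1 hz2 => ((h1 z).mp ⟨hz1, hz2⟩).symm⟩

/-- two distinct elements of rank `k` cannot be below two distinct elements of rank `k + 1` -/
lemma Base.square (h : Base ρ) {e e' f f' : L} (he : ρ e = ρ e') (hf : ρ f = ρ f')
    (hef : ρ f = ρ e + 1) (h1 : e < f) (h2 : e < f') (h3 : e' < f) (h4 : e' < f') :
    e = e' ∨ f = f' := by
  by_contra hcon
  push Not at hcon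
  obtain ⟨g, hg1, hg2, hg3⟩ := h.inf f f'
  have h5 := hg3 e h1.le h2.le
  have h6 := hg3 e' h3.le h4.le
  have h7 : ρ g < ρ f := by
    rcases hg1.lt_or_eq with h8 | h8
    · exact h.mono _ _ h8
    · rcases hg2.lt_or_eq with h9 | h9
      · have := h.mono _ _ h9
        omega
      · exact absurd (h8.symm.trans h9) hcon.2
  rcases h5.lt_or_eq with h8 | h8
  · have := h.mono _ _ h8
    omega
  · rcases h6.lt_or_eq with h9 | h9
    · have := h.mono _ _ h9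
      omega
    · exact hcon.1 (h8.trans h9.symm)

variable (m : L → ℕ) (x y : L)

/-- the alternation hypothesis -/
def Alt (ρ : L → ℕ) : Prop :=
  ∀ a f e e', x < a → f < y → ρ a = ρ x + 1 → ρ f = ρ x + 3 → a < e → e < f → a < e' →
      e' < f → e ≠ e' → m e + m e' = 2

/-- corners at which the edges have `m ≠ 1` -/
def Cor (ρ : L → ℕ) (a f : L) : Prop :=
  x < a ∧ f < y ∧ ρ a = ρ x + 1 ∧ ρ f = ρ x + 3 ∧ ∃ e, a < e ∧ e < f ∧ m e ≠ 1

variable {m x y}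

lemma Base.rk_mid (h : Base ρ) {a e f : L} (h1 : a < e) (h2 : e < f) (h3 : ρ f = ρ a + 2) :
    ρ e = ρ a + 1 := by
  have h4 := h.mono _ _ h1
  have h5 := h.mono _ _ h2
  omega

/-- every edge of a corner has `m ≠ 1` -/
lemma Cor.all (hm : Alt m x y ρ) {a f : L}
    (hc : Cor m x y ρ a f) {e : L} (h1 : a < e) (h2 : e < f) : m e ≠ 1 := by
  obtain ⟨c1, c2, c3, c4, e0, c5, c6, c7⟩ := hc
  by_cases he : e = e0
  · rw [he]; exact c7
  · have h3 := hm a f e e0 c1 c2 c3 c4 h1 h2 c5 c6 he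
    omega

/-- at least four corners at each vertex -/
lemma four_at_vertex (h : Base ρ) (hr : ρ y = ρ x + 4) (hm : Alt m x y ρ) {a f : L}
    (hc : Cor m x y ρ a f) :
    ∃ f1 f2 f3 f4, f1 ≠ f2 ∧ f1 ≠ f3 ∧ f1 ≠ f4 ∧ f2 ≠ f3 ∧ f2 ≠ f4 ∧ f3 ≠ f4 ∧
      Cor m x y ρ a f1 ∧ Cor m x y ρ a f2 ∧ Cor m x y ρ a f3 ∧ Cor m x y ρ a f4 := by
  obtain ⟨c1, c2, c3, c4, e, c5, c6, c7⟩ := hc
  have re : ρ e = ρ x + 2 := by
    have := h.rk_mid c5 c6 (by omega)
    omega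
  -- `f1 = f`, `f2` the other face at `e`
  obtain ⟨f2, hf2, hef2, hf2y, -⟩ := h.other c6 c2 (by omega)
  have rf2 : ρ f2 = ρ x + 3 := by
    have := h.rk_mid hef2 hf2y (by omega)
    omega
  obtain ⟨e1, he1, hae1, he1f, he1all⟩ := h.other c5 c6 (by omega)
  obtain ⟨e2, he2, hae2, he2f, he2all⟩ := h.other c5 hef2 (by omega)
  have re1 : ρ e1 = ρ x + 2 := by
    have := h.rk_mid hae1 he1f (by omega)
    omega
  have re2 : ρ e2 = ρ x + 2 := by
    have := h.rk_mid hae2 he2f (by omega)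
    omega
  have m1 := hm a f e e1 c1 c2 c3 c4 c5 c6 hae1 he1f he1.symm
  have m2 := hm a f2 e e2 c1 hf2y c3 rf2 c5 hef2 hae2 he2f he2.symm
  have e12 : e1 ≠ e2 := by
    intro h0
    rw [← h0] at he2f
    rcases h.square (re.trans re1.symm) (c4.trans rf2.symm) (by omega) c6 hef2 he1f he2f with h1 | h1
    · exact he1 h1.symm
    · exact hf2 h1.symm
  have he1y : e1 < y := he1f.trans c2
  have he2y : e2 < y := he2f.trans hf2y
  obtain ⟨f3, hf3, he1f3, hf3y, -⟩ := h.other he1f c2 (by omega)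
  obtain ⟨f4, hf4, he2f4, hf4y, -⟩ := h.other he2f hf2y (by omega)
  have rf3 : ρ f3 = ρ x + 3 := by
    have := h.rk_mid he1f3 hf3y (by omega)
    omega
  have rf4 : ρ f4 = ρ x + 3 := by
    have := h.rk_mid he2f4 hf4y (by omega)
    omega
  have h32 : f3 ≠ f2 := by
    rintro rfl
    rcases he2all e1 hae1 he1f3 with h1 | h1
    · exact he1 h1
    · exact e12 h1
  have h41 : f4 ≠ f := by
    rintro rfl
    rcases he1all e2 hae2 he2f4 with h1 | h1
    · exact he2 h1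
    · exact e12 h1.symm
  have h34 : f3 ≠ f4 := by
    rintro rfl
    have h1 := hm a f3 e1 e2 c1 hf3y c3 rf3 hae1 he1f3 hae2 he2f4 e12
    omega
  refine ⟨f, f2, f3, f4, hf2.symm, hf3.symm, h41.symm, h32.symm, hf4.symm, h34,
    ⟨c1, c2, c3, c4, e, c5, c6, c7⟩, ⟨c1, hf2y, c3, rf2, e, c5, hef2, c7⟩,
    ⟨c1, hf3y, c3, rf3, e1, hae1, he1f3, by omega⟩,
    ⟨c1, hf4y, c3, rf4, e2, hae2, he2f4, by omega⟩⟩

/-- at least four corners in each face -/
lemma four_in_face (h : Base ρ) (hm : Alt m x y ρ) {a f : L}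
    (hc : Cor m x y ρ a f) :
    ∃ a1 a2 a3 a4, a1 ≠ a2 ∧ a1 ≠ a3 ∧ a1 ≠ a4 ∧ a2 ≠ a3 ∧ a2 ≠ a4 ∧ a3 ≠ a4 ∧
      Cor m x y ρ a1 f ∧ Cor m x y ρ a2 f ∧ Cor m x y ρ a3 f ∧ Cor m x y ρ a4 f := by
  obtain ⟨c1, c2, c3, c4, e, c5, c6, c7⟩ := hc
  have re : ρ e = ρ x + 2 := by
    have := h.rk_mid c5 c6 (by omega)
    omega
  obtain ⟨a2, ha2, hxa2, ha2e, -⟩ := h.other c1 c5 (by omega)
  have ra2 : ρ a2 = ρ x + 1 := by
    have := h.rk_mid hxa2 ha2e (by omega)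
    omega
  obtain ⟨e1, he1, hae1, he1f, he1all⟩ := h.other c5 c6 (by omega)
  obtain ⟨e2, he2, hae2, he2f, he2all⟩ := h.other ha2e c6 (by omega)
  have re1 : ρ e1 = ρ x + 2 := by
    have := h.rk_mid hae1 he1f (by omega)
    omega
  have re2 : ρ e2 = ρ x + 2 := by
    have := h.rk_mid hae2 he2f (by omega)
    omega
  have m1 := hm a f e e1 c1 c2 c3 c4 c5 c6 hae1 he1f he1.symm
  have m2 := hm a2 f e e2 hxa2 c2 ra2 c4 ha2e c6 hae2 he2f he2.symm
  have e12 : e1 ≠ e2 := by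
    intro h0
    rw [← h0] at hae2
    rcases h.square (c3.trans ra2.symm) (re.trans re1.symm) (by omega) c5 hae1 ha2e hae2 with h1 | h1
    · exact ha2 h1.symm
    · exact he1 h1.symm
  obtain ⟨a3, ha3, hxa3, ha3e1, -⟩ := h.other c1 hae1 (by omega)
  obtain ⟨a4, ha4, hxa4, ha4e2, -⟩ := h.other hxa2 hae2 (by omega)
  have ra3 : ρ a3 = ρ x + 1 := by
    have := h.rk_mid hxa3 ha3e1 (by omega)
    omega
  have ra4 : ρ a4 = ρ x + 1 := by
    have := h.rk_mid hxa4 ha4e2 (by omega)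
    omega
  have h32 : a3 ≠ a2 := by
    rintro rfl
    rcases he2all e1 ha3e1 he1f with h1 | h1
    · exact he1 h1
    · exact e12 h1
  have h41 : a4 ≠ a := by
    rintro rfl
    rcases he1all e2 ha4e2 he2f with h1 | h1
    · exact he2 h1
    · exact e12 h1.symm
  have h34 : a3 ≠ a4 := by
    rintro rfl
    have h1 := hm a3 f e1 e2 hxa3 c2 ra3 c4 ha3e1 he1f ha4e2 he2f e12
    omega
  refine ⟨a, a2, a3, a4, ha2.symm, ha3.symm, h41.symm, h32.symm, ha4.symm, h34,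
    ⟨c1, c2, c3, c4, e, c5, c6, c7⟩, ⟨hxa2, c2, ra2, c4, e, ha2e, c6, c7⟩,
    ⟨hxa3, c2, ra3, c4, e1, ha3e1, he1f, by omega⟩,
    ⟨hxa4, c2, ra4, c4, e2, ha4e2, he2f, by omega⟩⟩

/-- the counting argument -/
theorem noalt_of [Finite L] (h : Base ρ) (hr : ρ y = ρ x + 4) (lam : L → ℝ)
    (mixed : L → L → Prop)
    (hinj : ∀ a b, x < a → a < y → ρ a = ρ x + 1 → x < b → b < y → ρ b = ρ x + 1 →
      lam a = lam b → a = b)
    (hface : ∀ a f, x < a → a < f → f < y → ρ a = ρ x + 1 → ρ f = ρ x + 3 → ¬ mixed a f →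
      (∀ b, x < b → b < f → ρ b = ρ x + 1 → lam a ≤ lam b) ∨
        (∀ b, x < b → b < f → ρ b = ρ x + 1 → lam b ≤ lam a))
    (hvert : ∀ a f1 f2 f3, x < a → ρ a = ρ x + 1 → a < f1 → a < f2 → a < f3 → f1 < y → f2 < y →
      f3 < y → ρ f1 = ρ x + 3 → ρ f2 = ρ x + 3 → ρ f3 = ρ x + 3 → mixed a f1 → mixed a f2 →
      mixed a f3 → f1 = f2 ∨ f1 = f3 ∨ f2 = f3)
    (hmixed : ∀ a f, mixed a f → ∃ e b, a < e ∧ e < f ∧ b < e ∧ x < b ∧ ρ b = ρ x + 1 ∧
      lam a < lam b)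
    (hm : Alt m x y ρ) : ∀ e, x < e → e < y → ρ e = ρ x + 2 → m e = 1 := by
  classical
  have := Fintype.ofFinite L
  intro e0 hxe0 he0y re0
  by_contra hne
  obtain ⟨a0, _, _, ha0⟩ := h.diamond x e0 hxe0 re0
  obtain ⟨hxa0, ha0e⟩ := (ha0 a0).mpr (Or.inl rfl)
  obtain ⟨f0, _, _, hf0⟩ := h.diamond e0 y he0y (by omega)
  obtain ⟨he0f, hf0y⟩ := (hf0 f0).mpr (Or.inl rfl)
  have ra0 : ρ a0 = ρ x + 1 := h.rk_mid hxa0 ha0e (by omega)
  have rf0 : ρ f0 = ρ x + 3 := by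
    have := h.rk_mid he0f hf0y (by omega)
    omega
  set K : Finset (L × L) := Finset.univ.filter (fun p => Cor m x y ρ p.1 p.2) with hK
  have hKmem : ∀ a f, (a, f) ∈ K ↔ Cor m x y ρ a f := by
    intro a f
    simp [hK]
  have h0 : (a0, f0) ∈ K := (hKmem _ _).mpr ⟨hxa0, hf0y, ra0, rf0, e0, ha0e, he0f, hne⟩
  set V := K.image Prod.fst with hV
  set F := K.image Prod.snd with hF
  have hVK : 4 * V.card ≤ K.card := by
    apply Finset.mul_card_image_le_card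
    intro a ha
    obtain ⟨⟨a', f⟩, hp, rfl⟩ := Finset.mem_image.mp ha
    obtain ⟨f1, f2, f3, f4, h12, h13, h14, h23, h24, h34, k1, k2, k3, k4⟩ :=
      four_at_vertex h hr hm ((hKmem _ _).mp hp)
    have hsub : ({(a', f1), (a', f2), (a', f3), (a', f4)} : Finset (L × L)) ⊆
        K.filter (fun p => p.1 = a') := by
      intro p hp
      simp only [Finset.mem_insert, Finset.mem_singleton] at hp
      rw [Finset.mem_filter]
      rcases hp with rfl | rfl | rfl | rfl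
      · exact ⟨(hKmem _ _).mpr k1, rfl⟩
      · exact ⟨(hKmem _ _).mpr k2, rfl⟩
      · exact ⟨(hKmem _ _).mpr k3, rfl⟩
      · exact ⟨(hKmem _ _).mpr k4, rfl⟩
    refine le_trans (le_of_eq ?_) (Finset.card_le_card hsub)
    rw [Finset.card_insert_of_notMem, Finset.card_insert_of_notMem, Finset.card_insert_of_notMem,
      Finset.card_singleton]
    · simp [h34]
    · simp [h23, h24]
    · simp [h12, h13, h14]
  have hFK : 4 * F.card ≤ K.card := by
    apply Finset.mul_card_image_le_card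
    intro f hf
    obtain ⟨⟨a, f'⟩, hp, rfl⟩ := Finset.mem_image.mp hf
    obtain ⟨a1, a2, a3, a4, h12, h13, h14, h23, h24, h34, k1, k2, k3, k4⟩ :=
      four_in_face h hm ((hKmem _ _).mp hp)
    have hsub : ({(a1, f'), (a2, f'), (a3, f'), (a4, f')} : Finset (L × L)) ⊆
        K.filter (fun p => p.2 = f') := by
      intro p hp
      simp only [Finset.mem_insert, Finset.mem_singleton] at hp
      rw [Finset.mem_filter]
      rcases hp with rfl | rfl | rfl | rfl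
      · exact ⟨(hKmem _ _).mpr k1, rfl⟩
      · exact ⟨(hKmem _ _).mpr k2, rfl⟩
      · exact ⟨(hKmem _ _).mpr k3, rfl⟩
      · exact ⟨(hKmem _ _).mpr k4, rfl⟩
    refine le_trans (le_of_eq ?_) (Finset.card_le_card hsub)
    rw [Finset.card_insert_of_notMem, Finset.card_insert_of_notMem, Finset.card_insert_of_notMem,
      Finset.card_singleton]
    · simp [h34]
    · simp [h23, h24]
    · simp [h12, h13, h14]
  -- a highest vertex
  have hVne : V.Nonempty := ⟨a0, Finset.mem_image.mpr ⟨_, h0, rfl⟩⟩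
  obtain ⟨at', hat, hatmax⟩ := Finset.exists_max_image V lam hVne
  set Km := K.filter (fun p => mixed p.1 p.2) with hKm
  set Kn := K.filter (fun p => ¬ mixed p.1 p.2) with hKn
  have hsum : Km.card + Kn.card = K.card := Finset.card_filter_add_card_filter_not _
  have hKm1 : Km.card ≤ 2 * (Km.image Prod.fst).card := by
    apply Finset.card_le_mul_card_image
    intro a _
    by_contra hcon
    push Not at hcon
    obtain ⟨⟨a1, f1⟩, ⟨a2, f2⟩, ⟨a3, f3⟩, p1, p2, p3, n12, n13, n23⟩ := Finset.two_lt_card_iff.mp hcon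
    rw [Finset.mem_filter, hKm, Finset.mem_filter, hKmem] at p1 p2 p3
    obtain ⟨⟨p1, q1⟩, r1⟩ := p1
    obtain ⟨⟨p2, q2⟩, r2⟩ := p2
    obtain ⟨⟨p3, q3⟩, r3⟩ := p3
    simp only at r1 r2 r3 q1 q2 q3
    subst r1
    subst r2
    subst r3
    obtain ⟨g1, g1e, g1m⟩ := p1.2.2.2.2
    obtain ⟨g2, g2e, g2m⟩ := p2.2.2.2.2
    obtain ⟨g3, g3e, g3m⟩ := p3.2.2.2.2
    rcases hvert a3 f1 f2 f3 p1.1 p1.2.2.1 (g1e.trans g1m.1) (g2e.trans g2m.1) (g3e.trans g3m.1)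
      p1.2.1 p2.2.1 p3.2.1 p1.2.2.2.1 p2.2.2.2.1 p3.2.2.2.1 q1 q2 q3 with h1 | h1 | h1
    · exact n12 (by rw [h1])
    · exact n13 (by rw [h1])
    · exact n23 (by rw [h1])
  have hKm2 : (Km.image Prod.fst).card + 1 ≤ V.card := by
    have hsub : Km.image Prod.fst ⊆ V.erase at' := by
      intro a ha
      obtain ⟨⟨a', f⟩, hp, rfl⟩ := Finset.mem_image.mp ha
      rw [hKm, Finset.mem_filter] at hp
      rw [Finset.mem_erase]
      refine ⟨?_, Finset.mem_image.mpr ⟨_, hp.1, rfl⟩⟩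
      intro heq
      simp only at heq
      subst heq
      obtain ⟨e, b, h1, h2, h3, h4, h5, h6⟩ := hmixed _ _ hp.2
      have hc := (hKmem _ _).mp hp.1
      have hb : (b, f) ∈ K := (hKmem _ _).mpr
        ⟨h4, hc.2.1, h5, hc.2.2.2.1, e, h3, h2, Cor.all hm hc h1 h2⟩
      have := hatmax b (Finset.mem_image.mpr ⟨_, hb, rfl⟩)
      linarith
    have h1 := Finset.card_le_card hsub
    rw [Finset.card_erase_of_mem hat] at h1
    have h2 : 0 < V.card := Finset.card_pos.mpr hVne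
    omega
  have hKn1 : Kn.card ≤ 2 * (Kn.image Prod.snd).card := by
    apply Finset.card_le_mul_card_image
    intro f _
    by_contra hcon
    push Not at hcon
    obtain ⟨⟨a1, f1⟩, ⟨a2, f2⟩, ⟨a3, f3⟩, p1, p2, p3, n12, n13, n23⟩ := Finset.two_lt_card_iff.mp hcon
    rw [Finset.mem_filter, hKn, Finset.mem_filter, hKmem] at p1 p2 p3
    obtain ⟨⟨p1, q1⟩, r1⟩ := p1
    obtain ⟨⟨p2, q2⟩, r2⟩ := p2
    obtain ⟨⟨p3, q3⟩, r3⟩ := p3
    simp only at r1 r2 r3 q1 q2 q3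
    subst r1
    subst r2
    subst r3
    obtain ⟨g1, g1e, g1m⟩ := p1.2.2.2.2
    obtain ⟨g2, g2e, g2m⟩ := p2.2.2.2.2
    obtain ⟨g3, g3e, g3m⟩ := p3.2.2.2.2
    have l1 := g1e.trans g1m.1
    have l2 := g2e.trans g2m.1
    have l3 := g3e.trans g3m.1
    have i12 : lam a1 ≠ lam a2 := fun hh => n12 (by
      rw [hinj a1 a2 p1.1 (l1.trans p1.2.1) p1.2.2.1 p2.1 (l2.trans p1.2.1) p2.2.2.1 hh])
    have i13 : lam a1 ≠ lam a3 := fun hh => n13 (by
      rw [hinj a1 a3 p1.1 (l1.trans p1.2.1) p1.2.2.1 p3.1 (l3.trans p1.2.1) p3.2.2.1 hh])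
    have i23 : lam a2 ≠ lam a3 := fun hh => n23 (by
      rw [hinj a2 a3 p2.1 (l2.trans p1.2.1) p2.2.2.1 p3.1 (l3.trans p1.2.1) p3.2.2.1 hh])
    have w1 := hface a1 f3 p1.1 l1 p1.2.1 p1.2.2.1 p1.2.2.2.1 q1
    have w2 := hface a2 f3 p2.1 l2 p1.2.1 p2.2.2.1 p1.2.2.2.1 q2
    have w3 := hface a3 f3 p3.1 l3 p1.2.1 p3.2.2.1 p1.2.2.2.1 q3
    have v1 : ∀ (P : L → Prop), (∀ b, x < b → b < f3 → ρ b = ρ x + 1 → P b) → P a1 ∧ P a2 ∧ P a3 :=
      fun P hP => ⟨hP a1 p1.1 l1 p1.2.2.1, hP a2 p2.1 l2 p2.2.2.1, hP a3 p3.1 l3 p3.2.2.1⟩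
    rcases w1 with w1 | w1 <;> rcases w2 with w2 | w2 <;> rcases w3 with w3 | w3 <;>
    · have s1 := v1 _ w1
      have s2 := v1 _ w2
      have s3 := v1 _ w3
      first
      | exact i12 (le_antisymm s1.2.1 s2.1)
      | exact i12 (le_antisymm s2.1 s1.2.1)
      | exact i13 (le_antisymm s1.2.2 s3.1)
      | exact i13 (le_antisymm s3.1 s1.2.2)
      | exact i23 (le_antisymm s2.2.2 s3.2.1)
      | exact i23 (le_antisymm s3.2.1 s2.2.2)
  have hKn2 : (Kn.image Prod.snd).card ≤ F.card :=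
    Finset.card_le_card (Finset.image_subset_image (Finset.filter_subset _ _))
  omega

end

end Pool.Agent.Q142.EP
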