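import Mathlib

/-!
Faces of vector configurations (the linear-algebra side of face lattices of polytopes).
-/

set_option autoImplicit false

namespace Pool.Agent.Q142.EP

open Module Submodule

lemma pos_left_of_mul {a b : ℝ} (h : 0 < a * b) (hb : 0 ≤ b) : 0 < a := by
  by_contra hcon
  push Not at hcon
  have := mul_nonneg (neg_nonneg.mpr hcon) hb
  linarith

section cfg

variable {ι W : Type*} [AddCommGroup W] [Module ℝ W]

/-- `F` is a face of the part `w` of the configuration `v` -/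
def Fc (v : ι → W) (w F : Set ι) : Prop :=
  ∃ f : W →ₗ[ℝ] ℝ, (∀ i ∈ w, 0 ≤ f (v i)) ∧ F = {i | i ∈ w ∧ f (v i) = 0}

/-- the rank of a part of the configuration -/
noncomputable def rk (v : ι → W) (F : Set ι) : ℕ := finrank ℝ (span ℝ (v '' F))

variable {v : ι → W} {w F G : Set ι}

lemma Fc.subset (h : Fc v w F) : F ⊆ w := by
  obtain ⟨f, _, rfl⟩ := h
  exact fun i hi => hi.1

lemma Fc.self : Fc v w w := ⟨0, by simp, by simp⟩

lemma Fc.inter (h : Fc v w F) (h' : Fc v w G) : Fc v w (F ∩ G) := by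
  obtain ⟨f, hf, rfl⟩ := h
  obtain ⟨g, hg, rfl⟩ := h'
  refine ⟨f + g, fun i hi => ?_, ?_⟩
  · have := hf i hi
    have := hg i hi
    simp only [LinearMap.add_apply]
    linarith
  · ext i
    simp only [Set.mem_inter_iff, Set.mem_ofPred_eq, LinearMap.add_apply]
    constructor
    · rintro ⟨⟨h1, h2⟩, _, h3⟩
      exact ⟨h1, by rw [h2, h3, add_zero]⟩
    · rintro ⟨h1, h2⟩
      have h3 := hf i h1
      have h4 := hg i h1
      exact ⟨⟨h1, by linarith⟩, h1, by linarith⟩

lemma vanish_span {f : W →ₗ[ℝ] ℝ} (hf : ∀ i ∈ F, f (v i) = 0) {x : W}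
    (hx : x ∈ span ℝ (v '' F)) : f x = 0 := by
  have h : span ℝ (v '' F) ≤ LinearMap.ker f := by
    rw [span_le]
    rintro _ ⟨i, hi, rfl⟩
    exact hf i hi
  exact h hx

lemma Fc.mem_of_span (h : Fc v w F) {i : ι} (hi : i ∈ w) (hs : v i ∈ span ℝ (v '' F)) :
    i ∈ F := by
  obtain ⟨f, _, rfl⟩ := h
  exact ⟨hi, vanish_span (fun j hj => hj.2) hs⟩

lemma Fc.restrict (h : Fc v w F) (hFG : F ⊆ G) (hGw : G ⊆ w) : Fc v G F := by
  obtain ⟨f, hf, rfl⟩ := h
  refine ⟨f, fun i hi => hf i (hGw hi), ?_⟩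
  ext i
  constructor
  · intro hi
    exact ⟨hFG hi, hi.2⟩
  · rintro ⟨h1, h2⟩
    exact ⟨hGw h1, h2⟩

lemma Fc.trans [Finite ι] (hG : Fc v w G) (hF : Fc v G F) : Fc v w F := by
  obtain ⟨g, hg, rfl⟩ := hG
  obtain ⟨f, hf, rfl⟩ := hF
  obtain ⟨K0, hK0⟩ := (Set.finite_range (fun i => -f (v i) / g (v i))).bddAbove
  set K := max (K0 + 1) 0 with hK
  have hKpos : 0 ≤ K := le_max_right _ _
  have key : ∀ i ∈ w, 0 < g (v i) → 0 < f (v i) + K * g (v i) := by
    intro i _ hgi
    have h1 : -f (v i) / g (v i) ≤ K0 := hK0 ⟨i, rfl⟩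
    have h2 : -f (v i) / g (v i) < K := by
      have : K0 + 1 ≤ K := le_max_left _ _
      linarith
    rw [div_lt_iff₀ hgi] at h2
    linarith
  refine ⟨f + K • g, fun i hi => ?_, ?_⟩
  · simp only [LinearMap.add_apply, LinearMap.smul_apply, smul_eq_mul]
    rcases (hg i hi).lt_or_eq with h1 | h1
    · exact (key i hi h1).le
    · rw [← h1, mul_zero, add_zero]
      exact hf i ⟨hi, h1.symm⟩
  · ext i
    simp only [Set.mem_ofPred_eq, LinearMap.add_apply, LinearMap.smul_apply, smul_eq_mul]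
    constructor
    · rintro ⟨⟨h1, h2⟩, h3⟩
      exact ⟨h1, by rw [h2, h3]; ring⟩
    · rintro ⟨h1, h2⟩
      rcases (hg i h1).lt_or_eq with h3 | h3
      · have := key i h1 h3
        linarith
      · rw [← h3, mul_zero, add_zero] at h2
        exact ⟨⟨h1, h3.symm⟩, h2⟩

variable [FiniteDimensional ℝ W]

lemma rk_mono (h : F ⊆ G) : rk v F ≤ rk v G := finrank_mono (span_mono (Set.image_mono h))

lemma Fc.rk_lt (hF : Fc v w F) (hFG : F ⊆ G) (hG : G ⊆ w) (hne : F ≠ G) : rk v F < rk v G := by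
  apply finrank_lt_finrank_of_lt
  refine lt_of_le_of_ne (span_mono (Set.image_mono hFG)) ?_
  intro h
  apply hne
  apply Set.Subset.antisymm hFG
  intro i hi
  apply hF.mem_of_span (hG hi)
  rw [h]
  exact subset_span ⟨i, hi, rfl⟩

omit [FiniteDimensional ℝ W] in
lemma exists_of_rk_pos (h : 0 < rk v F) : ∃ i ∈ F, v i ≠ 0 := by
  by_contra hcon
  push Not at hcon
  have h1 : span ℝ (v '' F) = ⊥ := by
    rw [eq_bot_iff, span_le]
    rintro _ ⟨i, hi, rfl⟩
    exact hcon i hi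
  unfold rk at h
  rw [h1, finrank_bot] at h
  exact lt_irrefl _ h

lemma rk_pos {i : ι} (hi : i ∈ F) (hv : v i ≠ 0) : 0 < rk v F := by
  unfold rk
  rw [finrank_pos_iff]
  exact ⟨⟨⟨v i, subset_span ⟨i, hi, rfl⟩⟩, 0, fun h => hv (congrArg Subtype.val h)⟩⟩

lemma ker_finrank {U : Submodule ℝ W} (g : W →ₗ[ℝ] ℝ) (hg : ∃ u ∈ U, g u ≠ 0) :
    finrank ℝ (LinearMap.ker (g.domRestrict U)) + 1 = finrank ℝ U := by
  have h1 := LinearMap.finrank_range_add_finrank_ker (g.domRestrict U)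
  have h2 : LinearMap.range (g.domRestrict U) = ⊤ := by
    rw [LinearMap.range_eq_top]
    obtain ⟨u, hu, hgu⟩ := hg
    intro c
    refine ⟨(c / g u) • ⟨u, hu⟩, ?_⟩
    rw [map_smul, LinearMap.domRestrict_apply, smul_eq_mul]
    field_simp
  rw [h2, finrank_top, finrank_self] at h1
  omega

lemma two_dim {U : Submodule ℝ W} (hU : finrank ℝ U = 2) (h : W →ₗ[ℝ] ℝ)
    (hh : ∃ u ∈ U, h u ≠ 0) :
    ∃ u0 ∈ U, u0 ≠ 0 ∧ h u0 = 0 ∧ ∀ u ∈ U, h u = 0 → ∃ c : ℝ, c • u0 = u := by
  have h1 := ker_finrank h hh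
  rw [hU] at h1
  have h2 : finrank ℝ (LinearMap.ker (h.domRestrict U)) = 1 := by omega
  obtain ⟨⟨⟨u0, hu0⟩, hk⟩, hne, hall⟩ := finrank_eq_one_iff'.mp h2
  refine ⟨u0, hu0, ?_, ?_, ?_⟩
  · rintro rfl
    apply hne
    rfl
  · exact hk
  · intro u hu hhu
    obtain ⟨c, hc⟩ := hall ⟨⟨u, hu⟩, hhu⟩
    refine ⟨c, ?_⟩
    have := congrArg (fun x => x.1.1) hc
    exact this

/-- rank two configurations have exactly two faces of rank one, and they generate -/
lemma diamond_cfg [Finite ι] {h : W →ₗ[ℝ] ℝ} (hp : ∀ i ∈ w, v i ≠ 0 → 0 < h (v i))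
    (hr : rk v w = 2) :
    ∃ F1 F2, Fc v w F1 ∧ Fc v w F2 ∧ F1 ≠ F2 ∧ rk v F1 = 1 ∧ rk v F2 = 1 ∧
      (∀ F, Fc v w F → rk v F = 1 → F = F1 ∨ F = F2) ∧
      ∀ i ∈ F1, v i ≠ 0 → ∀ j ∈ F2, v j ≠ 0 → ∀ k ∈ w, ∃ a b : ℝ, 0 ≤ a ∧ 0 ≤ b ∧
        v k = a • v i + b • v j := by
  obtain ⟨k0, hk0, hvk0⟩ := exists_of_rk_pos (v := v) (F := w) (by omega)
  have hU : finrank ℝ (span ℝ (v '' w)) = 2 := hr
  obtain ⟨u0, hu0, hu0ne, hhu0, hall⟩ := two_dim hU h
    ⟨v k0, subset_span ⟨k0, hk0, rfl⟩, (hp k0 hk0 hvk0).ne'⟩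
  obtain ⟨g, hg⟩ := Module.exists_dual_forall_apply_ne_zero (K := ℝ) (fun _ : Unit => u0)
    (fun _ => hu0ne)
  have hg0 : g u0 ≠ 0 := hg ()
  have hinj : ∀ u ∈ span ℝ (v '' w), h u = 0 → g u = 0 → u = 0 := by
    intro u hu h1 h2
    obtain ⟨c, rfl⟩ := hall u hu h1
    rw [map_smul, smul_eq_mul] at h2
    rcases mul_eq_zero.mp h2 with h3 | h3
    · rw [h3, zero_smul]
    · exact absurd h3 hg0
  set N : Set ι := {k | k ∈ w ∧ v k ≠ 0} with hN
  have hNfin : N.Finite := Set.toFinite _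
  have hNne : N.Nonempty := ⟨k0, hk0, hvk0⟩
  set s : ι → ℝ := fun k => g (v k) / h (v k) with hs
  obtain ⟨i1, hi1, hmin⟩ := Set.exists_min_image N s hNfin hNne
  obtain ⟨i2, hi2, hmax⟩ := Set.exists_max_image N s hNfin hNne
  have hgs : ∀ k ∈ N, g (v k) = s k * h (v k) := by
    intro k hk
    have := (hp k hk.1 hk.2).ne'
    simp only [hs]
    field_simp
  have hlt : s i1 < s i2 := by
    refine lt_of_le_of_ne (hmin i2 hi2) ?_
    intro heq
    have h1 : ∀ k ∈ w, (g - s i1 • h) (v k) = 0 := by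
      intro k hk
      by_cases hvk : v k = 0
      · rw [hvk, map_zero]
      · have h2 := hmin k ⟨hk, hvk⟩
        have h3 := hmax k ⟨hk, hvk⟩
        have h4 : s k = s i1 := by linarith
        rw [LinearMap.sub_apply, LinearMap.smul_apply, hgs k ⟨hk, hvk⟩, h4, smul_eq_mul, sub_self]
    have h2 := vanish_span h1 hu0
    rw [LinearMap.sub_apply, LinearMap.smul_apply, hhu0, smul_zero, sub_zero] at h2
    exact hg0 h2
  set f1 : W →ₗ[ℝ] ℝ := g - s i1 • h with hf1
  set f2 : W →ₗ[ℝ] ℝ := s i2 • h - g with hf2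
  have hf1v : ∀ k ∈ N, f1 (v k) = (s k - s i1) * h (v k) := by
    intro k hk
    rw [hf1, LinearMap.sub_apply, LinearMap.smul_apply, hgs k hk, smul_eq_mul]
    ring
  have hf2v : ∀ k ∈ N, f2 (v k) = (s i2 - s k) * h (v k) := by
    intro k hk
    rw [hf2, LinearMap.sub_apply, LinearMap.smul_apply, hgs k hk, smul_eq_mul]
    ring
  have hf1n : ∀ k ∈ w, 0 ≤ f1 (v k) := by
    intro k hk
    by_cases hvk : v k = 0
    · rw [hvk, map_zero]
    · rw [hf1v k ⟨hk, hvk⟩]
      exact mul_nonneg (by linarith [hmin k ⟨hk, hvk⟩]) (hp k hk hvk).le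
  have hf2n : ∀ k ∈ w, 0 ≤ f2 (v k) := by
    intro k hk
    by_cases hvk : v k = 0
    · rw [hvk, map_zero]
    · rw [hf2v k ⟨hk, hvk⟩]
      exact mul_nonneg (by linarith [hmax k ⟨hk, hvk⟩]) (hp k hk hvk).le
  have hFc1 : Fc v w {i | i ∈ w ∧ f1 (v i) = 0} := ⟨f1, hf1n, rfl⟩
  have hFc2 : Fc v w {i | i ∈ w ∧ f2 (v i) = 0} := ⟨f2, hf2n, rfl⟩
  have hi1F : i1 ∈ {i | i ∈ w ∧ f1 (v i) = 0} := ⟨hi1.1, by rw [hf1v i1 hi1]; ring⟩
  have hi2F : i2 ∈ {i | i ∈ w ∧ f2 (v i) = 0} := ⟨hi2.1, by rw [hf2v i2 hi2]; ring⟩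
  have hi2F1 : i2 ∉ {i | i ∈ w ∧ f1 (v i) = 0} := by
    rintro ⟨_, h1⟩
    rw [hf1v i2 hi2] at h1
    have h2 := hp i2 hi2.1 hi2.2
    rcases mul_eq_zero.mp h1 with h3 | h3
    · linarith
    · linarith
  have hi1F2 : i1 ∉ {i | i ∈ w ∧ f2 (v i) = 0} := by
    rintro ⟨_, h1⟩
    rw [hf2v i1 hi1] at h1
    have h2 := hp i1 hi1.1 hi1.2
    rcases mul_eq_zero.mp h1 with h3 | h3
    · linarith
    · linarith
  have hr1 : rk v {i | i ∈ w ∧ f1 (v i) = 0} = 1 := by
    have h1 := hFc1.rk_lt (G := w) hFc1.subset subset_rfl (by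
      intro he
      exact hi2F1 (by rw [he]; exact hi2.1))
    have h2 := rk_pos hi1F hi1.2
    omega
  have hr2 : rk v {i | i ∈ w ∧ f2 (v i) = 0} = 1 := by
    have h1 := hFc2.rk_lt (G := w) hFc2.subset subset_rfl (by
      intro he
      exact hi1F2 (by rw [he]; exact hi1.1))
    have h2 := rk_pos hi2F hi2.2
    omega
  refine ⟨_, _, hFc1, hFc2, ?_, hr1, hr2, ?_, ?_⟩
  · intro he
    apply hi1F2
    rw [← he]
    exact hi1F
  · rintro F ⟨f, hf, rfl⟩ hF1
    obtain ⟨k, hk, hvk⟩ := exists_of_rk_pos (v := v) (F := {i | i ∈ w ∧ f (v i) = 0}) (by omega)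
    -- write `f = a h + b g` on the span
    set b : ℝ := f u0 / g u0 with hb
    set a : ℝ := (f (v k0) - b * g (v k0)) / h (v k0) with ha
    have hhk0 : h (v k0) ≠ 0 := (hp k0 hk0 hvk0).ne'
    have hfab : ∀ u ∈ span ℝ (v '' w), f u = a * h u + b * g u := by
      intro u hu
      have h1 : h (u - (h u / h (v k0)) • v k0) = 0 := by
        rw [map_sub, map_smul, smul_eq_mul]
        field_simp
        ring
      obtain ⟨c, hc⟩ := hall _ (sub_mem hu (smul_mem _ _ (subset_span ⟨k0, hk0, rfl⟩))) h1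
      have h2 : u = c • u0 + (h u / h (v k0)) • v k0 := by
        rw [hc]
        abel
      have h3 : f u = c * f u0 + (h u / h (v k0)) * f (v k0) := by
        conv_lhs => rw [h2]
        simp only [map_add, map_smul, smul_eq_mul]
      have h4 : g u = c * g u0 + (h u / h (v k0)) * g (v k0) := by
        conv_lhs => rw [h2]
        simp only [map_add, map_smul, smul_eq_mul]
      rw [h3, h4, ha, hb]
      field_simp
      ring
    have hfk : ∀ j ∈ N, f (v j) = (a + b * s j) * h (v j) := by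
      intro j hj
      rw [hfab _ (subset_span ⟨j, hj.1, rfl⟩), hgs j hj]
      ring
    have hkz : a + b * s k = 0 := by
      have h1 := hk.2
      rw [hfk k ⟨hk.1, hvk⟩] at h1
      rcases mul_eq_zero.mp h1 with h2 | h2
      · exact h2
      · exact absurd h2 (hp k hk.1 hvk).ne'
    have hge : ∀ j ∈ N, 0 ≤ a + b * s j := by
      intro j hj
      have h1 := hf j hj.1
      rw [hfk j hj] at h1
      exact nonneg_of_mul_nonneg_left h1 (hp j hj.1 hj.2)
    have hb0 : b ≠ 0 := by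
      intro hb0
      rw [hb0, zero_mul, add_zero] at hkz
      have h1 : {i | i ∈ w ∧ f (v i) = 0} = w := by
        ext j
        simp only [Set.mem_ofPred_eq, and_iff_left_iff_imp]
        intro hj
        rw [hfab _ (subset_span ⟨j, hj, rfl⟩), hkz, hb0]
        ring
      rw [h1] at hF1
      omega
    rcases lt_or_gt_of_ne hb0 with hneg | hpos
    · right
      have hsk : s k = s i2 := by
        apply le_antisymm (hmax k ⟨hk.1, hvk⟩)
        have h1 := hge i2 hi2
        nlinarith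
      ext j
      simp only [Set.mem_ofPred_eq]
      apply and_congr_right
      intro hj
      by_cases hvj : v j = 0
      · rw [hvj, map_zero, map_zero]
      · rw [hfk j ⟨hj, hvj⟩, hf2v j ⟨hj, hvj⟩, ← hsk]
        have h1 : a + b * s j = (-b) * (s k - s j) := by linarith
        rw [h1]
        have h2 := (hp j hj hvj).ne'
        constructor
        · intro h3
          rcases mul_eq_zero.mp h3 with h4 | h4
          · rcases mul_eq_zero.mp h4 with h5 | h5
            · exact absurd (neg_eq_zero.mp h5) hb0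
            · rw [h5, zero_mul]
          · exact absurd h4 h2
        · intro h3
          rw [mul_assoc, h3, mul_zero]
    · left
      have hsk : s k = s i1 := by
        apply le_antisymm _ (hmin k ⟨hk.1, hvk⟩)
        have h1 := hge i1 hi1
        nlinarith
      ext j
      simp only [Set.mem_ofPred_eq]
      apply and_congr_right
      intro hj
      by_cases hvj : v j = 0
      · rw [hvj, map_zero, map_zero]
      · rw [hfk j ⟨hj, hvj⟩, hf1v j ⟨hj, hvj⟩, ← hsk]
        have h1 : a + b * s j = b * (s j - s k) := by linarith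
        rw [h1]
        have h2 := (hp j hj hvj).ne'
        constructor
        · intro h3
          rcases mul_eq_zero.mp h3 with h4 | h4
          · rcases mul_eq_zero.mp h4 with h5 | h5
            · exact absurd h5 hb0
            · rw [h5, zero_mul]
          · exact absurd h4 h2
        · intro h3
          rw [mul_assoc, h3, mul_zero]
  · intro i hi hvi j hj hvj k hk
    have hfi2 : 0 < f2 (v i) := by
      refine lt_of_le_of_ne (hf2n i hi.1) ?_
      intro h1
      have h2 := hi.2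
      have h3 : (f1 + f2) (v i) = 0 := by rw [LinearMap.add_apply, h2, ← h1, add_zero]
      have h4 : (f1 + f2) (v i) = (s i2 - s i1) * h (v i) := by
        rw [hf1, hf2]
        simp only [LinearMap.add_apply, LinearMap.sub_apply, LinearMap.smul_apply, smul_eq_mul]
        ring
      rw [h4] at h3
      have h5 := mul_pos (sub_pos.mpr hlt) (hp i hi.1 hvi)
      linarith
    have hfj1 : 0 < f1 (v j) := by
      refine lt_of_le_of_ne (hf1n j hj.1) ?_
      intro h1
      have h2 := hj.2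
      have h3 : (f1 + f2) (v j) = 0 := by rw [LinearMap.add_apply, h2, ← h1, add_zero]
      have h4 : (f1 + f2) (v j) = (s i2 - s i1) * h (v j) := by
        rw [hf1, hf2]
        simp only [LinearMap.add_apply, LinearMap.sub_apply, LinearMap.smul_apply, smul_eq_mul]
        ring
      rw [h4] at h3
      have h5 := mul_pos (sub_pos.mpr hlt) (hp j hj.1 hvj)
      linarith
    refine ⟨f2 (v k) / f2 (v i), f1 (v k) / f1 (v j), div_nonneg (hf2n k hk) hfi2.le,
      div_nonneg (hf1n k hk) hfj1.le, ?_⟩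
    rw [← sub_eq_zero]
    set u := v k - ((f2 (v k) / f2 (v i)) • v i + (f1 (v k) / f1 (v j)) • v j) with hu
    have huU : u ∈ span ℝ (v '' w) :=
      sub_mem (subset_span ⟨k, hk, rfl⟩) (add_mem (smul_mem _ _ (subset_span ⟨i, hi.1, rfl⟩))
        (smul_mem _ _ (subset_span ⟨j, hj.1, rfl⟩)))
    have e1 : f1 u = 0 := by
      rw [hu]
      simp only [map_sub, map_add, map_smul, smul_eq_mul, hi.2, mul_zero, zero_add]
      field_simp
      ring
    have e2 : f2 u = 0 := by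
      rw [hu]
      simp only [map_sub, map_add, map_smul, smul_eq_mul, hj.2, mul_zero, add_zero]
      field_simp
      ring
    have e3 : (s i2 - s i1) * h u = 0 := by
      have : (f1 + f2) u = (s i2 - s i1) * h u := by
        rw [hf1, hf2]
        simp only [LinearMap.add_apply, LinearMap.sub_apply, LinearMap.smul_apply, smul_eq_mul]
        ring
      rw [← this, LinearMap.add_apply, e1, e2, add_zero]
    have e4 : h u = 0 := by
      rcases mul_eq_zero.mp e3 with h1 | h1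
      · linarith
      · exact h1
    have e5 : g u = 0 := by
      have : f1 u = g u - s i1 * h u := by
        rw [hf1]
        simp only [LinearMap.sub_apply, LinearMap.smul_apply, smul_eq_mul]
      rw [this, e4, mul_zero, sub_zero] at e1
      exact e1
    exact hinj u huU e4 e5

/-- gradedness -/
lemma between_cfg [Finite ι] {h : W →ₗ[ℝ] ℝ} (hp : ∀ i ∈ w, v i ≠ 0 → 0 < h (v i))
    (hr : 2 ≤ rk v w) : ∃ F, Fc v w F ∧ F ≠ w ∧ 0 < rk v F := by
  obtain ⟨k0, hk0, hvk0⟩ := exists_of_rk_pos (v := v) (F := w) (by omega)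
  have h1 := ker_finrank (U := span ℝ (v '' w)) h
    ⟨v k0, subset_span ⟨k0, hk0, rfl⟩, (hp k0 hk0 hvk0).ne'⟩
  have h2 : finrank ℝ (span ℝ (v '' w)) = rk v w := rfl
  have h3 : 0 < finrank ℝ (LinearMap.ker (h.domRestrict (span ℝ (v '' w)))) := by omega
  rw [finrank_pos_iff_exists_ne_zero] at h3
  obtain ⟨⟨⟨u0, hu0⟩, hk⟩, hne⟩ := h3
  have hhu0 : h u0 = 0 := hk
  have hu0ne : u0 ≠ 0 := by
    rintro rfl
    exact hne rfl
  obtain ⟨g, hg⟩ := Module.exists_dual_forall_apply_ne_zero (K := ℝ) (fun _ : Unit => u0)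
    (fun _ => hu0ne)
  have hg0 : g u0 ≠ 0 := hg ()
  set N : Set ι := {k | k ∈ w ∧ v k ≠ 0} with hN
  have hNfin : N.Finite := Set.toFinite _
  have hNne : N.Nonempty := ⟨k0, hk0, hvk0⟩
  set s : ι → ℝ := fun k => g (v k) / h (v k) with hs
  obtain ⟨i1, hi1, hmin⟩ := Set.exists_min_image N s hNfin hNne
  set f1 : W →ₗ[ℝ] ℝ := g - s i1 • h with hf1
  have hf1v : ∀ k ∈ N, f1 (v k) = (s k - s i1) * h (v k) := by
    intro k hk
    have h4 := (hp k hk.1 hk.2).ne'
    have h5 : g (v k) = s k * h (v k) := by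
      simp only [hs]
      field_simp
    rw [hf1, LinearMap.sub_apply, LinearMap.smul_apply, h5, smul_eq_mul]
    ring
  refine ⟨{i | i ∈ w ∧ f1 (v i) = 0}, ⟨f1, ?_, rfl⟩, ?_, rk_pos (i := i1) ⟨hi1.1, ?_⟩ hi1.2⟩
  · intro k hk
    by_cases hvk : v k = 0
    · rw [hvk, map_zero]
    · rw [hf1v k ⟨hk, hvk⟩]
      exact mul_nonneg (by linarith [hmin k ⟨hk, hvk⟩]) (hp k hk hvk).le
  · intro he
    have h4 : ∀ k ∈ w, f1 (v k) = 0 := by
      intro k hk
      rw [← he] at hk
      exact hk.2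
    have h5 := vanish_span h4 hu0
    rw [hf1, LinearMap.sub_apply, LinearMap.smul_apply, hhu0, smul_zero, sub_zero] at h5
    exact hg0 h5
  · rw [hf1v i1 hi1]
    ring

lemma two_le_rk {h g : W →ₗ[ℝ] ℝ} {i j : ι} (hi : i ∈ F) (hj : j ∈ F) (h1 : 0 < h (v i))
    (h2 : 0 < h (v j)) (h3 : g (v i) < 0) (h4 : 0 < g (v j)) : 2 ≤ rk v F := by
  have hvi : v i ≠ 0 := by
    intro h0
    rw [h0, map_zero] at h1
    exact lt_irrefl _ h1
  have h5 := rk_pos hi hvi
  by_contra hcon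
  have h6 : rk v F = 1 := by omega
  obtain ⟨⟨u, hu⟩, hne, hall⟩ := finrank_eq_one_iff'.mp h6
  obtain ⟨c1, hc1⟩ := hall ⟨v i, subset_span ⟨i, hi, rfl⟩⟩
  obtain ⟨c2, hc2⟩ := hall ⟨v j, subset_span ⟨j, hj, rfl⟩⟩
  have e1 : c1 • u = v i := congrArg Subtype.val hc1
  have e2 : c2 • u = v j := congrArg Subtype.val hc2
  rw [← e1, map_smul, smul_eq_mul] at h1 h3
  rw [← e2, map_smul, smul_eq_mul] at h2 h4
  have k1 := mul_pos h1 h2
  have k2 := mul_pos (neg_pos.mpr h3) h4
  have k3 : 0 < (c1 * c2) * (h u) ^ 2 := by nlinarith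
  have k4 : 0 < -(c1 * c2) * (g u) ^ 2 := by nlinarith
  have k5 : 0 < c1 * c2 := pos_left_of_mul k3 (sq_nonneg _)
  have k6 : 0 < -(c1 * c2) := pos_left_of_mul k4 (sq_nonneg _)
  linarith

/-- a plane through the apex meets at most two edges of a polygonal cone -/
lemma crossing_cfg {h g : W →ₗ[ℝ] ℝ} (hp : ∀ i ∈ w, v i ≠ 0 → 0 < h (v i))
    (hr : rk v w = 3) {f : Fin 3 → Set ι} (hf : ∀ k, Fc v w (f k)) (hfr : ∀ k, rk v (f k) = 2)
    (hfd : Function.Injective f) {i j : Fin 3 → ι} (hi : ∀ k, i k ∈ f k) (hj : ∀ k, j k ∈ f k)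
    (hgi : ∀ k, g (v (i k)) < 0) (hgj : ∀ k, 0 < g (v (j k))) : False := by
  have hvi : ∀ k, v (i k) ≠ 0 := by
    intro k h0
    have := hgi k
    rw [h0, map_zero] at this
    exact lt_irrefl _ this
  have hvj : ∀ k, v (j k) ≠ 0 := by
    intro k h0
    have := hgj k
    rw [h0, map_zero] at this
    exact lt_irrefl _ this
  have hiw : ∀ k, i k ∈ w := fun k => (hf k).subset (hi k)
  have hjw : ∀ k, j k ∈ w := fun k => (hf k).subset (hj k)
  set x : Fin 3 → W := fun k => g (v (j k)) • v (i k) - g (v (i k)) • v (j k) with hx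
  have hgx : ∀ k, g (x k) = 0 := by
    intro k
    simp only [hx, map_sub, map_smul, smul_eq_mul]
    ring
  set U := span ℝ (v '' w) with hU
  have hxU : ∀ k, x k ∈ U := fun k =>
    sub_mem (smul_mem _ _ (subset_span ⟨_, hiw k, rfl⟩)) (smul_mem _ _ (subset_span ⟨_, hjw k, rfl⟩))
  have h1 := ker_finrank (U := U) g ⟨v (j 0), subset_span ⟨_, hjw 0, rfl⟩, (hgj 0).ne'⟩
  have h2 : finrank ℝ U = 3 := hr
  have h3 : finrank ℝ (LinearMap.ker (g.domRestrict U)) = 2 := by omega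
  set X : Fin 3 → LinearMap.ker (g.domRestrict U) := fun k => ⟨⟨x k, hxU k⟩, hgx k⟩ with hX
  have h4 : ¬ LinearIndependent ℝ X := by
    intro hli
    have := hli.fintype_card_le_finrank
    rw [h3, Fintype.card_fin] at this
    omega
  rw [Fintype.not_linearIndependent_iff] at h4
  obtain ⟨α, hα, k0, hk0⟩ := h4
  have h5 : ∑ k, α k • x k = 0 := by
    have := congrArg (fun y => (y.1.1 : W)) hα
    simpa [hX] using this
  choose c hc1 hc2 using hf
  have hcx : ∀ a, c a (x a) = 0 := by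
    intro a
    have e1 := hi a
    have e2 := hj a
    rw [hc2 a] at e1 e2
    simp only [hx, map_sub, map_smul, e1.2, e2.2, smul_zero, sub_zero]
  have hcpos : ∀ a b, a ≠ b → 0 < c a (x b) := by
    intro a b hab
    have e1 := hc1 a (i b) (hiw b)
    have e2 := hc1 a (j b) (hjw b)
    have e3 := hgi b
    have e4 := hgj b
    have e5 : c a (x b) = g (v (j b)) * c a (v (i b)) + (-g (v (i b))) * c a (v (j b)) := by
      simp only [hx, map_sub, map_smul, smul_eq_mul]
      ring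
    rw [e5]
    have e6 := mul_nonneg e4.le e1
    have e7 := mul_nonneg (neg_pos.mpr e3).le e2
    rcases e6.lt_or_eq with e8 | e8
    · linarith
    rcases e7.lt_or_eq with e9 | e9
    · linarith
    exfalso
    have e10 : c a (v (i b)) = 0 := by
      rcases mul_eq_zero.mp e8.symm with h6 | h6
      · linarith
      · exact h6
    have e11 : c a (v (j b)) = 0 := by
      rcases mul_eq_zero.mp e9.symm with h6 | h6
      · linarith
      · exact h6
    have hFa : Fc v w (f a) := ⟨c a, hc1 a, hc2 a⟩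
    have hFb : Fc v w (f b) := ⟨c b, hc1 b, hc2 b⟩
    have hia : i b ∈ f a := by rw [hc2 a]; exact ⟨hiw b, e10⟩
    have hja : j b ∈ f a := by rw [hc2 a]; exact ⟨hjw b, e11⟩
    have h6 : 2 ≤ rk v (f a ∩ f b) :=
      two_le_rk (h := h) (g := g) (i := i b) (j := j b) ⟨hia, hi b⟩ ⟨hja, hj b⟩
        (hp _ (hiw b) (hvi b)) (hp _ (hjw b) (hvj b)) e3 e4
    have hab' := hFa.inter hFb
    have h7 : f a ∩ f b = f a := by
      by_contra hne
      have := hab'.rk_lt Set.inter_subset_left hFa.subset hne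
      rw [hfr a] at this
      omega
    have h8 : f a ∩ f b = f b := by
      by_contra hne
      have := hab'.rk_lt Set.inter_subset_right hFb.subset hne
      rw [hfr b] at this
      omega
    exact hab (hfd (h7.symm.trans h8))
  have hrel : ∀ a, ∑ k, α k * c a (x k) = 0 := by
    intro a
    have := congrArg (c a) h5
    rw [map_sum, map_zero] at this
    simpa using this
  have r0 := hrel 0
  have r1 := hrel 1
  have r2 := hrel 2
  rw [Fin.sum_univ_three] at r0 r1 r2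
  rw [hcx, mul_zero, zero_add] at r0
  rw [hcx, mul_zero, add_zero] at r1
  rw [hcx, mul_zero, add_zero] at r2
  have p01 := hcpos 0 1 (by decide)
  have p02 := hcpos 0 2 (by decide)
  have p10 := hcpos 1 0 (by decide)
  have p12 := hcpos 1 2 (by decide)
  have p20 := hcpos 2 0 (by decide)
  have p21 := hcpos 2 1 (by decide)
  have opp : ∀ {s t p q : ℝ}, 0 < p → 0 < q → s * p + t * q = 0 → s * t ≤ 0 ∧ (s = 0 ↔ t = 0) := by
    intro s t p q hp hq hst
    have e1 : s = -t * (q / p) := by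
      field_simp
      linarith
    constructor
    · rw [e1]
      have := div_pos hq hp
      nlinarith [sq_nonneg t]
    · constructor
      · intro h0
        rw [h0, zero_mul, zero_add] at hst
        rcases mul_eq_zero.mp hst with h9 | h9
        · exact h9
        · linarith
      · intro h0
        rw [h0, zero_mul, add_zero] at hst
        rcases mul_eq_zero.mp hst with h9 | h9
        · exact h9
        · linarith
  obtain ⟨q0, z0⟩ := opp p01 p02 r0
  obtain ⟨q1, z1⟩ := opp p10 p12 r1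
  obtain ⟨q2, z2⟩ := opp p20 p21 r2
  have hz : α 2 = 0 := by
    by_contra hne
    have n1 : α 1 ≠ 0 := fun h => hne (z0.mp h)
    have n0 : α 0 ≠ 0 := fun h => hne (z1.mp h)
    have k1 : 0 < (α 1) ^ 2 := by positivity
    have k2 : 0 < (α 2) ^ 2 := by positivity
    have k0 : 0 < (α 0) ^ 2 := by positivity
    have m1 : α 1 * α 2 < 0 := lt_of_le_of_ne q0 (mul_ne_zero n1 hne)
    have m2 : α 0 * α 2 < 0 := lt_of_le_of_ne q1 (mul_ne_zero n0 hne)
    have m3 := mul_pos_of_neg_of_neg m1 m2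
    have m4 : α 1 * α 2 * (α 0 * α 2) = (α 0 * α 1) * (α 2) ^ 2 := by ring
    rw [m4] at m3
    have m5 : 0 < α 0 * α 1 := pos_left_of_mul m3 (sq_nonneg _)
    linarith
  have hz1 : α 1 = 0 := z0.mpr hz
  have hz0 : α 0 = 0 := z1.mpr hz
  fin_cases k0
  · exact hk0 hz0
  · exact hk0 hz1
  · exact hk0 hz

/-- the proper part of the face lattice of a configuration of rank at least three is connected -/
lemma conn_cfg [Finite ι] {h : W →ₗ[ℝ] ℝ} (hp : ∀ i ∈ w, v i ≠ 0 → 0 < h (v i))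
    (hr : 3 ≤ rk v w) (c : Set ι → Prop)
    (hc : ∀ F G, Fc v w F → Fc v w G → F ⊆ G → 0 < rk v F → G ≠ w → (c F ↔ c G))
    {F0 F1 : Set ι} (h0 : Fc v w F0) (h0r : 0 < rk v F0) (h0w : F0 ≠ w) (h1 : Fc v w F1)
    (h1r : 0 < rk v F1) (h1w : F1 ≠ w) (hc0 : c F0) : c F1 := by
  by_contra hc1
  have hcc : ∀ F G i, Fc v w F → Fc v w G → F ≠ w → G ≠ w → i ∈ F → i ∈ G → v i ≠ 0 →
      (c F ↔ c G) := by
    intro F G i hF hG hFw hGw hiF hiG hvi
    have h2 := hF.inter hG
    have h3 : 0 < rk v (F ∩ G) := rk_pos ⟨hiF, hiG⟩ hvi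
    rw [← hc _ F h2 hF Set.inter_subset_left h3 hFw, ← hc _ G h2 hG Set.inter_subset_right h3 hGw]
  obtain ⟨f0, hf0, hF0⟩ := id h0
  obtain ⟨f1, hf1, hF1⟩ := id h1
  set U := span ℝ (v '' w) with hU
  have hUr : 3 ≤ finrank ℝ U := hr
  -- a vector killed by `f0` and `f1`
  obtain ⟨u0, hu0U, hu0ne, hu00, hu01⟩ : ∃ u0 ∈ U, u0 ≠ 0 ∧ f0 u0 = 0 ∧ f1 u0 = 0 := by
    have h2 : finrank ℝ (ℝ × ℝ) < finrank ℝ U := by
      rw [finrank_prod, finrank_self]
      omega
    have h3 := LinearMap.ker_ne_bot_of_finrank_lt (f := (f0.prod f1).domRestrict U) h2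
    obtain ⟨⟨u0, hu0⟩, hk, hne⟩ := (Submodule.ne_bot_iff _).mp h3
    have h4 : (f0 u0, f1 u0) = (0, 0) := hk
    rw [Prod.mk.injEq] at h4
    refine ⟨u0, hu0, ?_, h4.1, h4.2⟩
    rintro rfl
    exact hne rfl
  set N : Set ι := {k | k ∈ w ∧ v k ≠ 0} with hN
  have hNfin : N.Finite := Set.toFinite _
  obtain ⟨k0, hk0, hvk0⟩ := exists_of_rk_pos (v := v) (F := w) (by omega)
  have hNne : N.Nonempty := ⟨k0, hk0, hvk0⟩
  -- a positive functional not vanishing at `u0`
  obtain ⟨h', hp', hh'⟩ : ∃ h' : W →ₗ[ℝ] ℝ, (∀ i ∈ w, v i ≠ 0 → 0 < h' (v i)) ∧ h' u0 ≠ 0 := by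
    by_cases hh : h u0 = 0
    · obtain ⟨μ, hμ⟩ := Module.exists_dual_forall_apply_ne_zero (K := ℝ) (fun _ : Unit => u0)
        (fun _ => hu0ne)
      have hμ0 : μ u0 ≠ 0 := hμ ()
      obtain ⟨K0, hK0⟩ := (Set.finite_range (fun i => -μ (v i) / h (v i))).bddAbove
      set K := max (K0 + 1) 1 with hK
      refine ⟨K • h + μ, ?_, ?_⟩
      · intro i hi hvi
        have hhi := hp i hi hvi
        have h1 : -μ (v i) / h (v i) ≤ K0 := hK0 ⟨i, rfl⟩
        have h2 : -μ (v i) / h (v i) < K := by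
          have : K0 + 1 ≤ K := le_max_left _ _
          linarith
        rw [div_lt_iff₀ hhi] at h2
        simp only [LinearMap.add_apply, LinearMap.smul_apply, smul_eq_mul]
        linarith
      · simp only [LinearMap.add_apply, LinearMap.smul_apply, hh, smul_zero, zero_add]
        exact hμ0
    · exact ⟨h, hp, hh⟩
  set φ : ℝ → ι → ℝ := fun t i => ((1 - t) * f0 (v i) + t * f1 (v i)) / h' (v i) with hφ
  -- the face of minimizers
  have hmin : ∀ t ∈ Set.Icc (0 : ℝ) 1, ∀ i ∈ N, (∀ j ∈ N, φ t i ≤ φ t j) →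
      ∃ F, Fc v w F ∧ F ≠ w ∧ ∀ k ∈ N, (∀ j ∈ N, φ t k ≤ φ t j) → k ∈ F := by
    intro t ht i hi him
    set lam := φ t i with hlam
    set ft : W →ₗ[ℝ] ℝ := (1 - t) • f0 + t • f1 - lam • h' with hft
    have hftv : ∀ k ∈ N, ft (v k) = (φ t k - lam) * h' (v k) := by
      intro k hk
      have h2 := (hp' k hk.1 hk.2).ne'
      simp only [hft, hφ, LinearMap.sub_apply, LinearMap.add_apply, LinearMap.smul_apply,
        smul_eq_mul]
      field_simp
    refine ⟨{k | k ∈ w ∧ ft (v k) = 0}, ⟨ft, ?_, rfl⟩, ?_, ?_⟩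
    · intro k hk
      by_cases hvk : v k = 0
      · rw [hvk, map_zero]
      · rw [hftv k ⟨hk, hvk⟩]
        exact mul_nonneg (by linarith [him k ⟨hk, hvk⟩]) (hp' k hk hvk).le
    · intro he
      have h2 : ∀ k ∈ w, ft (v k) = 0 := by
        intro k hk
        rw [← he] at hk
        exact hk.2
      have h3 := vanish_span h2 hu0U
      have h4 : lam = 0 := by
        simp only [hft, LinearMap.sub_apply, LinearMap.add_apply, LinearMap.smul_apply, hu00, hu01,
          smul_eq_mul, mul_zero, add_zero, zero_sub, neg_eq_zero] at h3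
        rcases mul_eq_zero.mp h3 with h5 | h5
        · exact h5
        · exact absurd h5 hh'
      have h5 : ∀ k ∈ w, (1 - t) * f0 (v k) + t * f1 (v k) = 0 := by
        intro k hk
        have := h2 k hk
        simp only [hft, h4, zero_smul, sub_zero, LinearMap.add_apply, LinearMap.smul_apply,
          smul_eq_mul] at this
        exact this
      rcases ht.1.lt_or_eq with h6 | h6
      · apply h1w
        rw [hF1]
        ext k
        simp only [Set.mem_ofPred_eq, and_iff_left_iff_imp]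
        intro hk
        have h7 := h5 k hk
        have h8 := mul_nonneg (sub_nonneg.mpr ht.2) (hf0 k hk)
        have h9 := mul_nonneg h6.le (hf1 k hk)
        have h10 : t * f1 (v k) = 0 := by linarith
        rcases mul_eq_zero.mp h10 with h11 | h11
        · linarith
        · exact h11
      · apply h0w
        rw [hF0]
        ext k
        simp only [Set.mem_ofPred_eq, and_iff_left_iff_imp]
        intro hk
        have h7 := h5 k hk
        rw [← h6] at h7
        linarith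
    · intro k hk hkm
      refine ⟨hk.1, ?_⟩
      rw [hftv k hk]
      have h2 := hkm i hi
      have h3 := him k hk
      have h4 : φ t k = lam := le_antisymm h2 h3
      rw [h4, sub_self, zero_mul]
  set A : Set ι := {i | i ∈ N ∧ ∃ F, Fc v w F ∧ F ≠ w ∧ i ∈ F ∧ c F} with hA
  set B : Set ι := {i | i ∈ N ∧ ∃ F, Fc v w F ∧ F ≠ w ∧ i ∈ F ∧ ¬ c F} with hB
  have hcl : ∀ T : Set ι, IsClosed {t : ℝ | ∃ i ∈ T, ∀ j ∈ N, φ t i ≤ φ t j} := by
    intro T
    have h2 : {t : ℝ | ∃ i ∈ T, ∀ j ∈ N, φ t i ≤ φ t j} =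
        ⋃ i ∈ T, ⋂ j ∈ N, {t : ℝ | φ t i ≤ φ t j} := by
      ext t
      simp
    rw [h2]
    apply Set.Finite.isClosed_biUnion (Set.toFinite T)
    intro i _
    apply isClosed_biInter
    intro j _
    apply isClosed_le
    · simp only [hφ]
      fun_prop
    · simp only [hφ]
      fun_prop
  have hpre : IsPreconnected (Set.Icc (0 : ℝ) 1) := isPreconnected_Icc
  rw [isPreconnected_closed_iff] at hpre
  obtain ⟨t, ht, ⟨i, hiA, him⟩, ⟨j, hjB, hjm⟩⟩ := hpre _ _ (hcl A) (hcl B) (by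
    intro t ht
    obtain ⟨i, hi, him⟩ := Set.exists_min_image N (φ t) hNfin hNne
    obtain ⟨F, hF, hFw, hFm⟩ := hmin t ht i hi him
    by_cases hcF : c F
    · exact Or.inl ⟨i, ⟨hi, F, hF, hFw, hFm i hi him, hcF⟩, him⟩
    · exact Or.inr ⟨i, ⟨hi, F, hF, hFw, hFm i hi him, hcF⟩, him⟩) (by
    obtain ⟨i, hi, hvi⟩ := exists_of_rk_pos h0r
    refine ⟨0, ⟨le_rfl, zero_le_one⟩, i, ⟨⟨h0.subset hi, hvi⟩, F0, h0, h0w, hi, hc0⟩, ?_⟩
    intro j hj
    rw [hF0] at hi
    simp only [hφ, sub_zero, one_mul, zero_mul, add_zero, hi.2, zero_div]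
    exact div_nonneg (hf0 j hj.1) (hp' j hj.1 hj.2).le) (by
    obtain ⟨i, hi, hvi⟩ := exists_of_rk_pos h1r
    refine ⟨1, ⟨zero_le_one, le_rfl⟩, i, ⟨⟨h1.subset hi, hvi⟩, F1, h1, h1w, hi, hc1⟩, ?_⟩
    intro j hj
    rw [hF1] at hi
    simp only [hφ, sub_self, one_mul, zero_mul, zero_add, hi.2, zero_div]
    exact div_nonneg (hf1 j hj.1) (hp' j hj.1 hj.2).le)
  obtain ⟨F, hF, hFw, hFm⟩ := hmin t ht i hiA.1 him
  have hiF := hFm i hiA.1 him
  have hjF := hFm j hjB.1 hjm
  obtain ⟨FA, hFA, hFAw, hiFA, hcA⟩ := hiA.2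
  obtain ⟨FB, hFB, hFBw, hjFB, hcB⟩ := hjB.2
  have e1 := (hcc FA F i hFA hF hFAw hFw hiFA hiF hiA.1.2).mp hcA
  have e2 := (hcc FB F j hFB hF hFBw hFw hjFB hjF hjB.1.2).mpr e1
  exact hcB e2

end cfg

end Pool.Agent.Q142.EP
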