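import Pool.Agent.Q142.EP1
import Pool.Agent.Q142.EP2
import Pool.Agent.Q142.EP3

/-!
The lattice of faces of a pointed vector configuration satisfies `Good`.
-/

set_option autoImplicit false
set_option linter.unusedSectionVars false

namespace Pool.Agent.Q142.EP

open Module Submodule

section lat

variable {ι W : Type*} [AddCommGroup W] [Module ℝ W]

/-- the configuration is acyclic and has no zero vectors -/
def Ptd (v : ι → W) : Prop := ∃ h : W →ₗ[ℝ] ℝ, ∀ i, 0 < h (v i)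

/-- the lattice of faces of a configuration -/
def CFace (v : ι → W) : Type _ := {F : Set ι // Fc v Set.univ F}

instance (v : ι → W) : PartialOrder (CFace v) :=
  inferInstanceAs (PartialOrder {F : Set ι // Fc v Set.univ F})

lemma fc_empty {v : ι → W} (h : Ptd v) : Fc v Set.univ ∅ := by
  obtain ⟨h, hh⟩ := h
  refine ⟨h, fun i _ => (hh i).le, ?_⟩
  ext i
  simp [(hh i).ne']

instance (v : ι → W) [h : Fact (Ptd v)] : BoundedOrder (CFace v) where
  top := ⟨Set.univ, Fc.self⟩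
  le_top := fun F => Set.subset_univ F.1
  bot := ⟨∅, fc_empty h.out⟩
  bot_le := fun F => Set.empty_subset F.1

instance [Finite ι] (v : ι → W) : Finite (CFace v) :=
  inferInstanceAs (Finite {F : Set ι // Fc v Set.univ F})

/-- the rank function on the lattice of faces -/
noncomputable def crk (v : ι → W) (F : CFace v) : ℕ := rk v F.1

variable {v : ι → W} {X Y F w : Set ι}

lemma mkQ_eq_zero (hX : Fc v Set.univ X) (i : ι) :
    (span ℝ (v '' X)).mkQ (v i) = 0 ↔ i ∈ X := by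
  rw [mkQ_apply, Quotient.mk_eq_zero]
  exact ⟨fun h => hX.mem_of_span (Set.mem_univ i) h, fun h => subset_span ⟨i, h, rfl⟩⟩

lemma local_pos (hX : Fc v Set.univ X) : ∃ h' : (W ⧸ span ℝ (v '' X)) →ₗ[ℝ] ℝ,
    ∀ i, i ∉ X → 0 < h' ((span ℝ (v '' X)).mkQ (v i)) := by
  obtain ⟨f, hf, hfX⟩ := id hX
  have hker : span ℝ (v '' X) ≤ LinearMap.ker f := by
    rw [span_le]
    rintro _ ⟨i, hi, rfl⟩
    rw [hfX] at hi
    exact hi.2
  refine ⟨(span ℝ (v '' X)).liftQ f hker, fun i hi => ?_⟩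
  rw [mkQ_apply, liftQ_apply]
  refine lt_of_le_of_ne (hf i (Set.mem_univ i)) ?_
  intro h
  apply hi
  rw [hfX]
  exact ⟨Set.mem_univ i, h.symm⟩

/-- faces of the quotient configuration -/
lemma fc_quot (hXw : X ⊆ w) :
    Fc (fun i => (span ℝ (v '' X)).mkQ (v i)) w F ↔ Fc v w F ∧ X ⊆ F := by
  constructor
  · rintro ⟨f, hf, rfl⟩
    refine ⟨⟨f ∘ₗ (span ℝ (v '' X)).mkQ, hf, rfl⟩, fun i hi => ⟨hXw hi, ?_⟩⟩
    have : (span ℝ (v '' X)).mkQ (v i) = 0 := by
      rw [mkQ_apply, Quotient.mk_eq_zero]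
      exact subset_span ⟨i, hi, rfl⟩
    show f ((span ℝ (v '' X)).mkQ (v i)) = 0
    rw [this, map_zero]
  · rintro ⟨⟨f, hf, rfl⟩, hXF⟩
    have hker : span ℝ (v '' X) ≤ LinearMap.ker f := by
      rw [span_le]
      rintro _ ⟨i, hi, rfl⟩
      exact (hXF hi).2
    exact ⟨(span ℝ (v '' X)).liftQ f hker, fun i hi => hf i hi, rfl⟩

variable [FiniteDimensional ℝ W]

lemma rk_quot (hXF : X ⊆ F) :
    rk (fun i => (span ℝ (v '' X)).mkQ (v i)) F + rk v X = rk v F := by
  unfold rk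
  set N := span ℝ (v '' X) with hN
  set S := span ℝ (v '' F) with hS
  have hNS : N ≤ S := span_mono (Set.image_mono hXF)
  have h1 : span ℝ ((fun i => N.mkQ (v i)) '' F) = LinearMap.range (N.mkQ.domRestrict S) := by
    rw [LinearMap.range_domRestrict, hS, map_span, ← Set.image_comp]
    rfl
  have h2 := LinearMap.finrank_range_add_finrank_ker (N.mkQ.domRestrict S)
  have h3 : LinearMap.ker (N.mkQ.domRestrict S) = comap S.subtype N := by
    ext x
    simp only [LinearMap.mem_ker, LinearMap.domRestrict_apply, mkQ_apply, Quotient.mk_eq_zero,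
      mem_comap, subtype_apply]
  rw [h1, ← h2, h3, (comapSubtypeEquivOfLe hNS).finrank_eq]

/-- rank is strictly monotone on faces -/
lemma crk_mono (F G : CFace v) (h : F < G) : crk v F < crk v G := by
  apply F.2.rk_lt h.1 (Set.subset_univ _)
  intro he
  exact h.2 (le_of_eq he.symm)

lemma cface_inf (F G : CFace v) : ∃ g : CFace v, g ≤ F ∧ g ≤ G ∧ ∀ x : CFace v, x ≤ F → x ≤ G →
    x ≤ g :=
  ⟨⟨F.1 ∩ G.1, F.2.inter G.2⟩, Set.inter_subset_left, Set.inter_subset_right,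
    fun _ h1 h2 => Set.subset_inter h1 h2⟩

/-- the faces between two faces, in the quotient -/
lemma fc_local [Finite ι] (x y : CFace v) (hxy : x ≤ y) (F : Set ι) :
    Fc (fun i => (span ℝ (v '' x.1)).mkQ (v i)) y.1 F ↔
      Fc v Set.univ F ∧ x.1 ⊆ F ∧ F ⊆ y.1 := by
  rw [fc_quot hxy]
  constructor
  · rintro ⟨h1, h2⟩
    exact ⟨y.2.trans h1, h2, h1.subset⟩
  · rintro ⟨h1, h2, h3⟩
    exact ⟨h1.restrict h3 (Set.subset_univ _), h2⟩

lemma local_hp (x : CFace v) : ∃ h' : (W ⧸ span ℝ (v '' x.1)) →ₗ[ℝ] ℝ,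
    ∀ (w : Set ι), ∀ i ∈ w, (span ℝ (v '' x.1)).mkQ (v i) ≠ 0 →
      0 < h' ((span ℝ (v '' x.1)).mkQ (v i)) := by
  obtain ⟨h', hh'⟩ := local_pos x.2
  exact ⟨h', fun w i _ hi => hh' i (fun h => hi ((mkQ_eq_zero x.2 i).mpr h))⟩

lemma lt_of_rk {x y : CFace v} (h : x ≤ y) (hr : crk v x ≠ crk v y) : x < y :=
  lt_of_le_of_ne h (fun he => hr (by rw [he]))

lemma cface_between [Finite ι] (x y : CFace v) (hxy : x < y) (hr : crk v x + 1 < crk v y) :
    ∃ z, x < z ∧ z < y := by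
  obtain ⟨h', hh'⟩ := local_hp x
  have h1 := rk_quot (v := v) (X := x.1) (F := y.1) hxy.le
  unfold crk at hr
  obtain ⟨F, hF, hFy, hFr⟩ := between_cfg (hh' y.1) (by omega)
  rw [fc_local x y hxy.le] at hF
  have h2 := rk_quot (v := v) (X := x.1) (F := F) hF.2.1
  refine ⟨⟨F, hF.1⟩, lt_of_rk hF.2.1 (by unfold crk; simp only; omega),
    lt_of_le_of_ne hF.2.2 ?_⟩
  intro he
  exact hFy (congrArg Subtype.val he)

lemma cface_diamond [Finite ι] (x y : CFace v) (hxy : x < y) (hr : crk v y = crk v x + 2) :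
    ∃ a b, a ≠ b ∧ ∀ z, (x < z ∧ z < y) ↔ (z = a ∨ z = b) := by
  obtain ⟨h', hh'⟩ := local_hp x
  have h1 := rk_quot (v := v) (X := x.1) (F := y.1) hxy.le
  have hr' : rk v y.1 = rk v x.1 + 2 := hr
  obtain ⟨F1, F2, hF1, hF2, hne, hr1, hr2, hall, -⟩ := diamond_cfg (hh' y.1) (by omega)
  rw [fc_local x y hxy.le] at hF1 hF2
  have h2 := rk_quot (v := v) (X := x.1) (F := F1) hF1.2.1
  have h3 := rk_quot (v := v) (X := x.1) (F := F2) hF2.2.1
  refine ⟨⟨F1, hF1.1⟩, ⟨F2, hF2.1⟩, fun he => hne (congrArg Subtype.val he), fun z => ?_⟩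
  constructor
  · rintro ⟨hz1, hz2⟩
    have h4 := rk_quot (v := v) (X := x.1) (F := z.1) hz1.le
    have h5 := crk_mono _ _ hz1
    have h6 := crk_mono _ _ hz2
    unfold crk at h5 h6
    rcases hall z.1 ((fc_local x y hxy.le z.1).mpr ⟨z.2, hz1.le, hz2.le⟩) (by omega) with h | h
    · exact Or.inl (Subtype.ext h)
    · exact Or.inr (Subtype.ext h)
  · rintro (rfl | rfl)
    · exact ⟨lt_of_rk hF1.2.1 (by unfold crk; simp only; omega),
        lt_of_rk hF1.2.2 (by unfold crk; simp only; omega)⟩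
    · exact ⟨lt_of_rk hF2.2.1 (by unfold crk; simp only; omega),
        lt_of_rk hF2.2.2 (by unfold crk; simp only; omega)⟩

lemma cface_conn [Finite ι] (x y : CFace v) (hxy : x < y) (hr : crk v x + 3 ≤ crk v y)
    (c : CFace v → Prop) (hc : ∀ a b, x < a → a < b → b < y → (c a ↔ c b)) :
    ∀ a b, x < a → a < y → x < b → b < y → (c a ↔ c b) := by
  obtain ⟨h', hh'⟩ := local_hp x
  have h1 := rk_quot (v := v) (X := x.1) (F := y.1) hxy.le
  have hr' : rk v x.1 + 3 ≤ rk v y.1 := hr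
  have key : ∀ a b, x < a → a < y → x < b → b < y → c a → c b := by
    intro a b hxa hay hxb hby hca
    have h2 := rk_quot (v := v) (X := x.1) (F := a.1) hxa.le
    have h3 := rk_quot (v := v) (X := x.1) (F := b.1) hxb.le
    have h4 := crk_mono _ _ hxa
    have h5 := crk_mono _ _ hxb
    unfold crk at h4 h5
    obtain ⟨hb, hcb⟩ := conn_cfg (hh' y.1) (by omega)
      (fun F => ∃ hF : Fc v Set.univ F, c ⟨F, hF⟩) (by
        intro F G hF hG hFG hFr hGy
        rw [fc_local x y hxy.le] at hF hG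
        have h6 := rk_quot (v := v) (X := x.1) (F := F) hF.2.1
        have hxF : x < ⟨F, hF.1⟩ := lt_of_rk hF.2.1 (by unfold crk; simp only; omega)
        have hGy' : (⟨G, hG.1⟩ : CFace v) < y := lt_of_le_of_ne hG.2.2
          (fun he => hGy (congrArg Subtype.val he))
        by_cases hFG' : F = G
        · rw [hFG']
        · have hlt : (⟨F, hF.1⟩ : CFace v) < ⟨G, hG.1⟩ := lt_of_le_of_ne hFG
            (fun he => hFG' (congrArg Subtype.val he))
          have h7 := hc _ _ hxF hlt hGy'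
          constructor
          · rintro ⟨_, h8⟩
            exact ⟨hG.1, h7.mp h8⟩
          · rintro ⟨_, h8⟩
            exact ⟨hF.1, h7.mpr h8⟩)
      ((fc_local x y hxy.le a.1).mpr ⟨a.2, hxa.le, hay.le⟩) (by omega)
      (fun he => hay.ne (Subtype.ext he))
      ((fc_local x y hxy.le b.1).mpr ⟨b.2, hxb.le, hby.le⟩) (by omega)
      (fun he => hby.ne (Subtype.ext he)) ⟨a.2, hca⟩
    exact hcb
  intro a b h2 h3 h4 h5
  exact ⟨key a b h2 h3 h4 h5, key b a h4 h5 h2 h3⟩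

lemma cface_base [Finite ι] : Base (crk v) where
  mono := crk_mono
  diamond := cface_diamond
  inf := cface_inf

/-- two vertices over `x` sharing a point outside `x` are equal -/
lemma vert_eq {x a b : CFace v} (hxa : x < a) (hxb : x < b) (ha : crk v a = crk v x + 1)
    (hb : crk v b = crk v x + 1) {i : ι} (hia : i ∈ a.1) (hib : i ∈ b.1) (hix : i ∉ x.1) :
    a = b := by
  obtain ⟨g, hg1, hg2, hg3⟩ := cface_inf a b
  have hxg : x ≤ g := hg3 x hxa.le hxb.le
  have hxg' : x < ⟨a.1 ∩ b.1, a.2.inter b.2⟩ := by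
    refine lt_of_le_of_ne (Set.subset_inter hxa.le hxb.le) ?_
    intro he
    apply hix
    rw [he]
    exact ⟨hia, hib⟩
  have h1 := crk_mono _ _ hxg'
  have h2 : (⟨a.1 ∩ b.1, a.2.inter b.2⟩ : CFace v) = a := by
    by_contra hne
    have := crk_mono _ _ (lt_of_le_of_ne (Set.inter_subset_left : a.1 ∩ b.1 ⊆ a.1) hne :
      (⟨a.1 ∩ b.1, a.2.inter b.2⟩ : CFace v) < a)
    omega
  have h3 : (⟨a.1 ∩ b.1, a.2.inter b.2⟩ : CFace v) = b := by
    by_contra hne
    have := crk_mono _ _ (lt_of_le_of_ne (Set.inter_subset_right : a.1 ∩ b.1 ⊆ b.1) hne :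
      (⟨a.1 ∩ b.1, a.2.inter b.2⟩ : CFace v) < b)
    omega
  exact h2.symm.trans h3

/-- proportionality in a rank one configuration -/
lemma ratio {V : Type*} [AddCommGroup V] [Module ℝ V] {u : ι → V} {G : Set ι} (hr : rk u G = 1)
    (h l : V →ₗ[ℝ] ℝ) {i j : ι} (hi : i ∈ G) (hj : j ∈ G) (hhi : 0 < h (u i))
    (hhj : 0 < h (u j)) : l (u i) / h (u i) = l (u j) / h (u j) := by
  obtain ⟨⟨z, hz⟩, hne, hall⟩ := finrank_eq_one_iff'.mp hr
  obtain ⟨c1, hc1⟩ := hall ⟨u i, subset_span ⟨i, hi, rfl⟩⟩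
  obtain ⟨c2, hc2⟩ := hall ⟨u j, subset_span ⟨j, hj, rfl⟩⟩
  have e1 : c1 • z = u i := congrArg Subtype.val hc1
  have e2 : c2 • z = u j := congrArg Subtype.val hc2
  rw [← e1, map_smul, smul_eq_mul] at hhi
  rw [← e2, map_smul, smul_eq_mul] at hhj
  rw [← e1, ← e2, map_smul, map_smul, map_smul, map_smul, smul_eq_mul, smul_eq_mul, smul_eq_mul,
    smul_eq_mul]
  have n1 : c1 ≠ 0 := left_ne_zero_of_mul hhi.ne'
  have n2 : c2 ≠ 0 := left_ne_zero_of_mul hhj.ne'
  have n3 : h z ≠ 0 := right_ne_zero_of_mul hhi.ne'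
  field_simp

/-- Banchoff data -/
lemma cface_noalt [Finite ι] (x y : CFace v) (hxy : x < y) (hr : crk v y = crk v x + 4)
    (m : CFace v → ℕ) (hm : Alt m x y (crk v)) :
    ∀ e, x < e → e < y → crk v e = crk v x + 2 → m e = 1 := by
  classical
  obtain ⟨h', hh'0⟩ := local_pos x.2
  set q : ι → W ⧸ span ℝ (v '' x.1) := fun i => (span ℝ (v '' x.1)).mkQ (v i) with hq
  have hh' : ∀ i, i ∉ x.1 → 0 < h' (q i) := hh'0
  have hq0 : ∀ i, q i = 0 ↔ i ∈ x.1 := fun i => mkQ_eq_zero x.2 i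
  -- a generic functional
  obtain ⟨ℓ, hℓ⟩ := Module.exists_dual_forall_apply_ne_zero (K := ℝ)
    (fun p : {p : ι × ι // h' (q p.2) • q p.1 - h' (q p.1) • q p.2 ≠ 0} =>
      h' (q p.1.2) • q p.1.1 - h' (q p.1.1) • q p.1.2) (fun p => p.2)
  set lam : CFace v → ℝ := fun F =>
    if H : ∃ i, i ∈ F.1 ∧ i ∉ x.1 then ℓ (q H.choose) / h' (q H.choose) else 0 with hlam
  have hlamv : ∀ F : CFace v, x < F → crk v F = crk v x + 1 → ∀ i ∈ F.1, i ∉ x.1 →
      ℓ (q i) = lam F * h' (q i) := by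
    intro F hxF hF i hi hix
    have H : ∃ i, i ∈ F.1 ∧ i ∉ x.1 := ⟨i, hi, hix⟩
    have h1 : lam F = ℓ (q H.choose) / h' (q H.choose) := by
      simp only [hlam, dif_pos H]
    have h2 : rk q F.1 + rk v x.1 = rk v F.1 := rk_quot hxF.le
    have h3 : rk q F.1 = 1 := by
      have hF' : rk v F.1 = rk v x.1 + 1 := hF
      omega
    have h4 := ratio h3 h' ℓ hi H.choose_spec.1 (hh' i hix) (hh' _ H.choose_spec.2)
    rw [h1, ← h4]
    have := (hh' i hix).ne'
    field_simp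
  have hexi : ∀ F : CFace v, x < F → ∃ i, i ∈ F.1 ∧ i ∉ x.1 := by
    intro F hxF
    by_contra hcon
    push Not at hcon
    exact hxF.2 hcon
  have hinj : ∀ a b, x < a → a < y → crk v a = crk v x + 1 → x < b → b < y →
      crk v b = crk v x + 1 → lam a = lam b → a = b := by
    intro a b hxa _ ra hxb _ rb hab
    obtain ⟨i, hia, hix⟩ := hexi a hxa
    obtain ⟨j, hjb, hjx⟩ := hexi b hxb
    have e1 := hlamv a hxa ra i hia hix
    have e2 := hlamv b hxb rb j hjb hjx
    have h1 : h' (q j) • q i - h' (q i) • q j = 0 := by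
      by_contra hne
      apply hℓ ⟨(i, j), hne⟩
      simp only [map_sub, map_smul, smul_eq_mul, e1, e2, hab]
      ring
    have hj' := (hh' j hjx).ne'
    have h2 : q i = (h' (q i) / h' (q j)) • q j := by
      have h3 : h' (q j) • q i = h' (q i) • q j := sub_eq_zero.mp h1
      rw [div_eq_inv_mul, mul_smul, ← h3, smul_smul, inv_mul_cancel₀ hj', one_smul]
    have h3 : q i ∈ span ℝ (q '' b.1) := by
      rw [h2]
      exact smul_mem _ _ (subset_span ⟨j, hjb, rfl⟩)
    have h4 : Fc q Set.univ b.1 := (fc_quot (Set.subset_univ _)).mpr ⟨b.2, hxb.le⟩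
    have hib := h4.mem_of_span (Set.mem_univ i) h3
    exact vert_eq hxa hxb ra rb hia hib hix
  set mixed : CFace v → CFace v → Prop := fun a f => ∃ e b e' b', a < e ∧ e < f ∧ b < e ∧ x < b ∧
    crk v b = crk v x + 1 ∧ lam a < lam b ∧ a < e' ∧ e' < f ∧ b' < e' ∧ x < b' ∧
    crk v b' = crk v x + 1 ∧ lam b' < lam a with hmixed
  -- the functional `ℓ - lam a h'` pulled back to `W`
  set G0 : CFace v → W →ₗ[ℝ] ℝ := fun a =>
    (ℓ - lam a • h') ∘ₗ (span ℝ (v '' x.1)).mkQ with hG0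
  have hG0v : ∀ (a b : CFace v), x < b → crk v b = crk v x + 1 → ∀ i ∈ b.1, i ∉ x.1 →
      G0 a (v i) = (lam b - lam a) * h' (q i) := by
    intro a b hxb rb i hi hix
    have e1 := hlamv b hxb rb i hi hix
    have : G0 a (v i) = ℓ (q i) - lam a * h' (q i) := rfl
    rw [this, e1]
    ring
  have hG0ker : ∀ a : CFace v, x < a → crk v a = crk v x + 1 →
      span ℝ (v '' a.1) ≤ LinearMap.ker (G0 a) := by
    intro a hxa ra
    rw [span_le]
    rintro _ ⟨i, hi, rfl⟩
    by_cases hix : i ∈ x.1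
    · have h1 : q i = 0 := (hq0 i).mpr hix
      show (ℓ - lam a • h') (q i) = 0
      rw [h1, map_zero]
    · show G0 a (v i) = 0
      rw [hG0v a a hxa ra i hi hix]
      ring
  refine noalt_of cface_base hr lam mixed hinj ?_ ?_ ?_ hm
  · -- a non-mixed corner is extreme
    intro a f hxa haf hfy ra rf hnm
    obtain ⟨h2', hh2⟩ := local_hp a
    have hrk := rk_quot (v := v) (X := a.1) (F := f.1) haf.le
    have hrf : rk v f.1 = rk v x.1 + 3 := rf
    have hra : rk v a.1 = rk v x.1 + 1 := ra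
    obtain ⟨E1, E2, hE1, hE2, hE12, rE1, rE2, -, hcone⟩ := diamond_cfg (hh2 f.1) (by omega)
    rw [fc_local a f haf.le] at hE1 hE2
    set e1 : CFace v := ⟨E1, hE1.1⟩ with he1
    set e2 : CFace v := ⟨E2, hE2.1⟩ with he2
    have k1 := rk_quot (v := v) (X := a.1) (F := E1) hE1.2.1
    have k2 := rk_quot (v := v) (X := a.1) (F := E2) hE2.2.1
    have re1 : crk v e1 = crk v x + 2 := by
      show rk v E1 = rk v x.1 + 2
      omega
    have re2 : crk v e2 = crk v x + 2 := by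
      show rk v E2 = rk v x.1 + 2
      omega
    have hae1 : a < e1 := lt_of_rk hE1.2.1 (by omega)
    have hae2 : a < e2 := lt_of_rk hE2.2.1 (by omega)
    have he1f : e1 < f := lt_of_rk hE1.2.2 (by omega)
    have he2f : e2 < f := lt_of_rk hE2.2.2 (by omega)
    have hB := cface_base (v := v)
    obtain ⟨b1, hb1, hxb1, hb1e, -⟩ := hB.other hxa hae1 (by omega)
    obtain ⟨b2, hb2, hxb2, hb2e, -⟩ := hB.other hxa hae2 (by omega)
    have rb1 : crk v b1 = crk v x + 1 := hB.rk_mid hxb1 hb1e (by omega)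
    have rb2 : crk v b2 = crk v x + 1 := hB.rk_mid hxb2 hb2e (by omega)
    have hby1 : b1 < y := (hb1e.trans he1f).trans hfy
    have hby2 : b2 < y := (hb2e.trans he2f).trans hfy
    have hay : a < y := haf.trans hfy
    have hl1 : lam a ≠ lam b1 := fun h => hb1 (hinj a b1 hxa hay ra hxb1 hby1 rb1 h).symm
    have hl2 : lam a ≠ lam b2 := fun h => hb2 (hinj a b2 hxa hay ra hxb2 hby2 rb2 h).symm
    obtain ⟨i1, hi1, hi1x⟩ := hexi b1 hxb1
    obtain ⟨i2, hi2, hi2x⟩ := hexi b2 hxb2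
    have hi1a : i1 ∉ a.1 := fun h => hb1 (vert_eq hxb1 hxa rb1 ra hi1 h hi1x)
    have hi2a : i2 ∉ a.1 := fun h => hb2 (vert_eq hxb2 hxa rb2 ra hi2 h hi2x)
    -- the functional on the quotient by `a`
    set g := (span ℝ (v '' a.1)).liftQ (G0 a) (hG0ker a hxa ra) with hg
    have hgv : ∀ i, g ((span ℝ (v '' a.1)).mkQ (v i)) = G0 a (v i) := fun i => rfl
    have g1 : G0 a (v i1) = (lam b1 - lam a) * h' (q i1) := hG0v a b1 hxb1 rb1 i1 hi1 hi1x
    have g2 : G0 a (v i2) = (lam b2 - lam a) * h' (q i2) := hG0v a b2 hxb2 rb2 i2 hi2 hi2x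
    have p1 := hh' i1 hi1x
    have p2 := hh' i2 hi2x
    have hcone' : ∀ k ∈ f.1, ∃ α β : ℝ, 0 ≤ α ∧ 0 ≤ β ∧
        G0 a (v k) = α * G0 a (v i1) + β * G0 a (v i2) := by
      intro k hk
      obtain ⟨α, β, hα, hβ, hk'⟩ := hcone i1 (hb1e.le hi1)
        (fun h => hi1a ((mkQ_eq_zero a.2 i1).mp h)) i2 (hb2e.le hi2)
        (fun h => hi2a ((mkQ_eq_zero a.2 i2).mp h)) k hk
      refine ⟨α, β, hα, hβ, ?_⟩
      rw [← hgv k, hk', map_add, map_smul, map_smul, hgv, hgv, smul_eq_mul, smul_eq_mul]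
    rcases lt_or_gt_of_ne hl1 with l1 | l1 <;> rcases lt_or_gt_of_ne hl2 with l2 | l2
    · left
      intro b hxb hbf rb
      obtain ⟨k, hk, hkx⟩ := hexi b hxb
      obtain ⟨α, β, hα, hβ, hk'⟩ := hcone' k (hbf.le hk)
      rw [hG0v a b hxb rb k hk hkx, g1, g2] at hk'
      have p3 := hh' k hkx
      have h5 : 0 ≤ (lam b - lam a) * h' (q k) := by
        rw [hk']
        have := mul_pos (sub_pos.mpr l1) p1
        have := mul_pos (sub_pos.mpr l2) p2
        positivity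
      have := nonneg_of_mul_nonneg_left h5 p3
      linarith
    · exfalso
      exact hnm ⟨e1, b1, e2, b2, hae1, he1f, hb1e, hxb1, rb1, l1, hae2, he2f, hb2e, hxb2, rb2, l2⟩
    · exfalso
      exact hnm ⟨e2, b2, e1, b1, hae2, he2f, hb2e, hxb2, rb2, l2, hae1, he1f, hb1e, hxb1, rb1, l1⟩
    · right
      intro b hxb hbf rb
      obtain ⟨k, hk, hkx⟩ := hexi b hxb
      obtain ⟨α, β, hα, hβ, hk'⟩ := hcone' k (hbf.le hk)
      rw [hG0v a b hxb rb k hk hkx, g1, g2] at hk'
      have p3 := hh' k hkx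
      have h5 : 0 ≤ (lam a - lam b) * h' (q k) := by
        have e1 : (lam a - lam b) * h' (q k) = α * ((lam a - lam b1) * h' (q i1)) +
            β * ((lam a - lam b2) * h' (q i2)) := by linarith
        rw [e1]
        have := mul_pos (sub_pos.mpr l1) p1
        have := mul_pos (sub_pos.mpr l2) p2
        positivity
      have := nonneg_of_mul_nonneg_left h5 p3
      linarith
  · -- at most two mixed corners at a vertex
    intro a f1 f2 f3 hxa ra haf1 haf2 haf3 hf1y hf2y hf3y rf1 rf2 rf3 m1 m2 m3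
    by_contra hcon
    push Not at hcon
    obtain ⟨h2', hh2⟩ := local_hp a
    have hay := haf1.trans hf1y
    have hrk := rk_quot (v := v) (X := a.1) (F := y.1) hay.le
    have hry : rk v y.1 = rk v x.1 + 4 := hr
    have hra : rk v a.1 = rk v x.1 + 1 := ra
    set g := (span ℝ (v '' a.1)).liftQ (G0 a) (hG0ker a hxa ra) with hg
    have hgv : ∀ i, g ((span ℝ (v '' a.1)).mkQ (v i)) = G0 a (v i) := fun i => rfl
    have hpick : ∀ f, a < f → f < y → crk v f = crk v x + 3 → mixed a f →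
        ∃ i j, i ∈ f.1 ∧ j ∈ f.1 ∧ G0 a (v i) < 0 ∧ 0 < G0 a (v j) ∧
          rk (fun i => (span ℝ (v '' a.1)).mkQ (v i)) f.1 = 2 ∧
          Fc (fun i => (span ℝ (v '' a.1)).mkQ (v i)) y.1 f.1 := by
      intro f haf hfy rf hmf
      obtain ⟨e, b, e', b', c1, c2, c3, c4, c5, c6, d1, d2, d3, d4, d5, d6⟩ := hmf
      obtain ⟨j, hj, hjx⟩ := hexi b c4
      obtain ⟨i, hi, hix⟩ := hexi b' d4
      refine ⟨i, j, (d3.trans d2).le hi, (c3.trans c2).le hj, ?_, ?_, ?_, ?_⟩
      · rw [hG0v a b' d4 d5 i hi hix]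
        exact mul_neg_of_neg_of_pos (by linarith) (hh' i hix)
      · rw [hG0v a b c4 c5 j hj hjx]
        exact mul_pos (by linarith) (hh' j hjx)
      · have h5 := rk_quot (v := v) (X := a.1) (F := f.1) haf.le
        have h6 : rk v f.1 = rk v x.1 + 3 := rf
        omega
      · exact (fc_local a y hay.le f.1).mpr ⟨f.2, haf.le, hfy.le⟩
    obtain ⟨i1, j1, s1, t1, u1, w1, r1, z1⟩ := hpick f1 haf1 hf1y rf1 m1
    obtain ⟨i2, j2, s2, t2, u2, w2, r2, z2⟩ := hpick f2 haf2 hf2y rf2 m2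
    obtain ⟨i3, j3, s3, t3, u3, w3, r3, z3⟩ := hpick f3 haf3 hf3y rf3 m3
    have n12 : f1.1 ≠ f2.1 := fun h => hcon.1 (Subtype.ext h)
    have n13 : f1.1 ≠ f3.1 := fun h => hcon.2.1 (Subtype.ext h)
    have n23 : f2.1 ≠ f3.1 := fun h => hcon.2.2 (Subtype.ext h)
    refine crossing_cfg (g := g) (hh2 y.1) (by omega) (f := ![f1.1, f2.1, f3.1]) ?_ ?_ ?_
      (i := ![i1, i2, i3]) (j := ![j1, j2, j3]) ?_ ?_ ?_ ?_
    · intro k
      fin_cases k
      · exact z1
      · exact z2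
      · exact z3
    · intro k
      fin_cases k
      · exact r1
      · exact r2
      · exact r3
    · intro k l hkl
      fin_cases k <;> fin_cases l
      · rfl
      · exact absurd hkl n12
      · exact absurd hkl n13
      · exact absurd hkl.symm n12
      · rfl
      · exact absurd hkl n23
      · exact absurd hkl.symm n13
      · exact absurd hkl.symm n23
      · rfl
    · intro k
      fin_cases k
      · exact s1
      · exact s2
      · exact s3
    · intro k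
      fin_cases k
      · exact t1
      · exact t2
      · exact t3
    · intro k
      fin_cases k
      · exact u1
      · exact u2
      · exact u3
    · intro k
      fin_cases k
      · exact w1
      · exact w2
      · exact w3
  · intro a f hmf
    obtain ⟨e, b, e', b', c1, c2, c3, c4, c5, c6, -⟩ := hmf
    exact ⟨e, b, c1, c2, c3, c4, c5, c6⟩

theorem good_cface [Finite ι] [Fact (Ptd v)] : Good (crk v) where
  bot := by
    show rk v ∅ = 0
    unfold rk
    rw [Set.image_empty, span_empty, finrank_bot]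
  mono := crk_mono
  between := cface_between
  diamond := cface_diamond
  inf := cface_inf
  conn := cface_conn
  noalt := cface_noalt

end lat

/-- transfer along an order isomorphism -/
theorem Good.transfer {L L' : Type*} [PartialOrder L] [BoundedOrder L] [PartialOrder L']
    [BoundedOrder L'] {ρ : L → ℕ} {ρ' : L' → ℕ} (Θ : L ≃o L') (h : ∀ x, ρ' (Θ x) = ρ x)
    (hg : Good ρ') : Good ρ where
  bot := by rw [← h, OrderIso.map_bot, hg.bot]
  mono := by
    intro x y hxy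
    rw [← h, ← h]
    exact hg.mono _ _ (Θ.lt_iff_lt.mpr hxy)
  between := by
    intro x y hxy hr
    rw [← h, ← h] at hr
    obtain ⟨z, hz1, hz2⟩ := hg.between _ _ (Θ.lt_iff_lt.mpr hxy) hr
    exact ⟨Θ.symm z, by rw [Θ.lt_symm_apply]; exact hz1, by rw [Θ.symm_apply_lt]; exact hz2⟩
  diamond := by
    intro x y hxy hr
    rw [← h, ← h] at hr
    obtain ⟨a, b, hab, hall⟩ := hg.diamond _ _ (Θ.lt_iff_lt.mpr hxy) hr
    refine ⟨Θ.symm a, Θ.symm b, fun he => hab (Θ.symm.injective he), fun z => ?_⟩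
    rw [← Θ.lt_iff_lt, ← Θ.lt_iff_lt, hall, Θ.eq_symm_apply, Θ.eq_symm_apply]
  inf := by
    intro y y'
    obtain ⟨g, hg1, hg2, hg3⟩ := hg.inf (Θ y) (Θ y')
    refine ⟨Θ.symm g, by rw [Θ.symm_apply_le]; exact hg1, by rw [Θ.symm_apply_le]; exact hg2,
      fun x hx hx' => ?_⟩
    rw [Θ.le_symm_apply]
    exact hg3 _ (Θ.le_iff_le.mpr hx) (Θ.le_iff_le.mpr hx')
  conn := by
    intro x y hxy hr c hc a b h1 h2 h3 h4
    rw [← h, ← h] at hr
    have := hg.conn _ _ (Θ.lt_iff_lt.mpr hxy) hr (fun z => c (Θ.symm z)) (by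
      intro u w hu huw hw
      exact hc _ _ (by rw [Θ.lt_symm_apply]; exact hu) (Θ.symm.lt_iff_lt.mpr huw)
        (by rw [Θ.symm_apply_lt]; exact hw)) (Θ a) (Θ b) (Θ.lt_iff_lt.mpr h1)
      (Θ.lt_iff_lt.mpr h2) (Θ.lt_iff_lt.mpr h3) (Θ.lt_iff_lt.mpr h4)
    simpa using this
  noalt := by
    intro x y hxy hr m hm e h1 h2 h3
    rw [← h, ← h] at hr
    have := hg.noalt _ _ (Θ.lt_iff_lt.mpr hxy) hr (fun z => m (Θ.symm z)) (by
      intro a f u u' k1 k2 k3 k4 k5 k6 k7 k8 k9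
      refine hm (Θ.symm a) (Θ.symm f) (Θ.symm u) (Θ.symm u') (by rw [Θ.lt_symm_apply]; exact k1)
        (by rw [Θ.symm_apply_lt]; exact k2) ?_ ?_ (Θ.symm.lt_iff_lt.mpr k5)
        (Θ.symm.lt_iff_lt.mpr k6) (Θ.symm.lt_iff_lt.mpr k7) (Θ.symm.lt_iff_lt.mpr k8)
        (fun he => k9 (Θ.symm.injective he))
      · rw [← h, Θ.apply_symm_apply, k3, h]
      · rw [← h, Θ.apply_symm_apply, k4, h]) (Θ e) (Θ.lt_iff_lt.mpr h1) (Θ.lt_iff_lt.mpr h2)
      (by rw [h, h]; exact h3)
    simpa using this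

end Pool.Agent.Q142.EP
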