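import Mathlib
import Pool.Agent.Q142.Expl

set_option autoImplicit false

/-!
The face lattice of an explicit polytope as the lattice of closed sets of its incidence relation.
-/

namespace Q142

variable {n N m : ℕ}

/-- An integral list of valid inequalities `A k · v ≤ b k` with equality exactly on the points
with indices in `I k`, which is complete: every face that misses a point is contained in one of
the `I k` missing that point. -/
structure CCert (x : Fin N → Fin n → ℤ) (A : Fin m → Fin n → ℤ) (b : Fin m → ℤ)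
    (I : Fin m → Finset (Fin N)) : Prop where
  on : ∀ k, ∀ j ∈ I k, ∑ c, A k c * x j c = b k
  off : ∀ k, ∀ j ∉ I k, ∑ c, A k c * x j c < b k
  closed : ∀ F, IsExposed ℝ (poly (pt x)) F → ∀ j, pt x j ∉ F →
    ∃ k, (∀ i, pt x i ∈ F → i ∈ I k) ∧ j ∉ I k

variable {x : Fin N → Fin n → ℤ} {A : Fin m → Fin n → ℤ} {b : Fin m → ℤ}
  {I : Fin m → Finset (Fin N)}

/-- the incidence relation -/
def Inc (I : Fin m → Finset (Fin N)) : Fin N → Fin m → Prop := fun j k => j ∈ I k

lemma CCert.isExtent (h : CCert x A b I) {F : Set (Sp n)} (hF : IsExposed ℝ (poly (pt x)) F) :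
    Order.IsExtent (Inc I) {j | pt x j ∈ F} := by
  rw [Order.isExtent_iff]
  apply Set.Subset.antisymm _ (subset_lowerPolar_upperPolar _ _)
  intro j hj
  by_contra hjF
  obtain ⟨k, h1, h2⟩ := h.closed F hF j hjF
  rw [mem_lowerPolar_iff] at hj
  exact h2 (hj (fun i hi => h1 i hi))

/-- the concept of a face -/
def CCert.con (h : CCert x A b I) (F : faces (poly (pt x))) : Concept (Fin N) (Fin m) (Inc I) :=
  Concept.ofIsExtent _ _ (h.isExtent F.2)

lemma CCert.con_le (h : CCert x A b I) (F G : faces (poly (pt x))) :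
    h.con F ≤ h.con G ↔ F ≤ G := by
  rw [← Concept.extent_subset_extent_iff]
  have h1 := subset_iff (pt x) F.2 G.2
  constructor
  · intro h2
    exact h1.2 h2
  · intro h2 j hj
    exact h1.1 h2 j hj

lemma CCert.con_surj (h : CCert x A b I) : Function.Surjective h.con := by
  classical
  intro c
  let s : Finset (Fin N) := Finset.univ.filter fun j => j ∈ c.extent
  let l : StrongDual ℝ (Sp n) := ∑ k ∈ Finset.univ.filter (fun k => k ∈ c.intent), lin (A k)
  let M : ℝ := ∑ k ∈ Finset.univ.filter (fun k => k ∈ c.intent), (b k : ℝ)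
  have hl : ∀ j, l (pt x j) = ∑ k ∈ Finset.univ.filter (fun k => k ∈ c.intent),
      ((∑ c, A k c * x j c : ℤ) : ℝ) := by
    intro j
    simp only [l]
    rw [sum_apply]
    exact Finset.sum_congr rfl fun k _ => lin_pt _ _ _
  obtain ⟨h1, h2⟩ := exposed_of_functional (pt x) s l M (by
    intro j hj
    rw [hl]
    apply Finset.sum_congr rfl
    intro k hk
    have hk' : k ∈ c.intent := by simpa using hk
    have hj' : j ∈ c.extent := by simpa [s] using hj
    have := c.rel_extent_intent hj' hk'
    rw [h.on k j this]) (by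
    intro j hj
    rw [hl]
    have hj' : j ∉ c.extent := by simpa [s] using hj
    rw [← c.lowerPolar_intent, mem_lowerPolar_iff] at hj'
    push Not at hj'
    obtain ⟨k, hk, hk'⟩ := hj'
    apply Finset.sum_lt_sum
    · intro i _
      by_cases hji : j ∈ I i
      · rw [h.on i j hji]
      · exact_mod_cast (h.off i j hji).le
    · refine ⟨k, by simpa using hk, ?_⟩
      exact_mod_cast h.off k j hk')
  refine ⟨⟨_, h1⟩, ?_⟩
  apply Concept.ext
  ext j
  show pt x j ∈ hull (pt x) s ↔ j ∈ c.extent
  rw [← mem_ind, h2]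
  simp [s]

/-- The face lattice is the concept lattice of the incidence relation. -/
noncomputable def CCert.iso (h : CCert x A b I) :
    faces (poly (pt x)) ≃o Concept (Fin N) (Fin m) (Inc I) :=
  RelIso.ofSurjective (OrderEmbedding.ofMapLEIff h.con h.con_le) h.con_surj

/-- Duality of face lattices via transposed incidences. -/
theorem CCert.dual {n' : ℕ} (h : CCert x A b I) {y : Fin m → Fin n' → ℤ}
    {A' : Fin N → Fin n' → ℤ} {b' : Fin N → ℤ} {J : Fin N → Finset (Fin m)}
    (h' : CCert y A' b' J) (hIJ : ∀ j k, j ∈ I k ↔ k ∈ J j) :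
    Nonempty (faces (poly (pt x)) ≃o (faces (poly (pt y)))ᵒᵈ) := by
  have hs : Inc I = Function.swap (Inc J) := by
    funext j k
    exact propext (hIJ j k)
  have e1 := h.iso
  rw [hs] at e1
  exact ⟨e1.trans (Concept.swapEquiv.symm.trans h'.iso.symm.dual)⟩

/-- The nonnegative function on the points defined by a nonempty face. -/
lemma face_gap (x : Fin N → Fin n → ℤ) {F : Set (Sp n)} (hF : IsExposed ℝ (poly (pt x)) F)
    (hne : F.Nonempty) :
    ∃ (a : Fin n → ℝ) (M : ℝ), (∀ j, 0 ≤ M - ∑ c, a c * x j c) ∧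
      ∀ j, pt x j ∈ F ↔ M - ∑ c, a c * x j c = 0 := by
  obtain ⟨l, M, h1, h2, h3⟩ := face_data hF hne
  have hl : ∀ j, l (pt x j) = ∑ c, l (EuclideanSpace.single c 1) * x j c := by
    intro j
    have h4 : pt x j = ∑ c, (x j c : ℝ) • (EuclideanSpace.single c (1 : ℝ) : Sp n) := by
      ext i
      simp [pt, Pi.single_apply]
    conv_lhs => rw [h4]
    rw [map_sum]
    apply Finset.sum_congr rfl
    intro c _
    rw [map_smul, smul_eq_mul, mul_comm]
  refine ⟨fun c => l (EuclideanSpace.single c 1), M, ?_, ?_⟩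
  · intro j
    rw [← hl]
    have := h1 _ (mem_poly (pt x) j)
    linarith
  · intro j
    rw [← hl]
    constructor
    · intro hj
      rw [h2] at hj
      rw [hj.2, sub_self]
    · intro hj
      rw [h2]
      exact ⟨mem_poly _ _, by linarith⟩

/-- Completeness certificate for a simple polytope: at each point `v`, the facets `κ v k` and the
neighbours `nb v k`. -/
theorem closed_of_simple {r : ℕ} (nb : Fin N → Fin r → Fin N) (κ : Fin N → Fin r → Fin m)
    (mu : Fin N → Fin r → ℤ) (D : Fin N → ℤ)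
    (on : ∀ k, ∀ j ∈ I k, ∑ c, A k c * x j c = b k)
    (off : ∀ k, ∀ j ∉ I k, ∑ c, A k c * x j c < b k)
    (hempty : ∀ j, ∃ k, j ∉ I k)
    (hD : ∀ v, 0 < D v) (hmu : ∀ v k, 0 < mu v k)
    (hid : ∀ v j c, D v * (x j c - x v c) =
      ∑ k, mu v k * (b (κ v k) - ∑ c', A (κ v k) c' * x j c') * (x (nb v k) c - x v c)) :
    CCert x A b I := by
  refine ⟨on, off, ?_⟩
  intro F hF j hj
  rcases F.eq_empty_or_nonempty with he | hne
  · obtain ⟨k, hk⟩ := hempty j
    refine ⟨k, ?_, hk⟩
    intro i hi
    rw [he] at hi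
    exact absurd hi (Set.notMem_empty _)
  obtain ⟨v, hv⟩ := nonempty_ind (pt x) hF hne
  obtain ⟨a, M, h1, h2⟩ := face_gap x hF hne
  have hv0 := (h2 v).1 hv
  have key : ∀ j, (D v : ℝ) * (M - ∑ c, a c * x j c) =
      ∑ k, (mu v k : ℝ) * ((b (κ v k) - ∑ c', A (κ v k) c' * x j c' : ℤ) : ℝ) *
        (M - ∑ c, a c * x (nb v k) c) := by
    intro j
    have h3 : (D v : ℝ) * (M - ∑ c, a c * x j c) = - ∑ c, a c * ((D v * (x j c - x v c) : ℤ) : ℝ) := by
      have h4 : M = ∑ c, a c * x v c := by linarith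
      rw [h4]
      push_cast
      rw [← Finset.sum_sub_distrib, Finset.mul_sum, ← Finset.sum_neg_distrib]
      apply Finset.sum_congr rfl
      intro c _
      ring
    rw [h3]
    have h5 : ∀ k, (M - ∑ c, a c * x (nb v k) c) = - ∑ c, a c * ((x (nb v k) c - x v c : ℤ) : ℝ) := by
      intro k
      have h4 : M = ∑ c, a c * x v c := by linarith
      rw [h4]
      push_cast
      rw [← Finset.sum_sub_distrib, ← Finset.sum_neg_distrib]
      apply Finset.sum_congr rfl
      intro c _
      ring
    simp only [h5, hid]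
    simp only [Int.cast_sum, Int.cast_mul, mul_neg, Finset.sum_neg_distrib, Finset.mul_sum]
    rw [Finset.sum_comm]
    congr 1
    apply Finset.sum_congr rfl
    intro k _
    apply Finset.sum_congr rfl
    intro c _
    ring
  have hgap : ∀ k i, 0 ≤ ((b k - ∑ c', A k c' * x i c' : ℤ) : ℝ) := by
    intro k i
    by_cases hi : i ∈ I k
    · rw [on k i hi]
      simp
    · have := off k i hi
      exact_mod_cast (by omega : (0 : ℤ) ≤ b k - ∑ c', A k c' * x i c')
  have hterm : ∀ i k, 0 ≤ (mu v k : ℝ) * ((b (κ v k) - ∑ c', A (κ v k) c' * x i c' : ℤ) : ℝ) *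
        (M - ∑ c, a c * x (nb v k) c) := by
    intro i k
    have := hmu v k
    exact mul_nonneg (mul_nonneg (by exact_mod_cast this.le) (hgap _ _)) (h1 _)
  have hDv : (0 : ℝ) < D v := by exact_mod_cast hD v
  have hjpos : 0 < M - ∑ c, a c * x j c := by
    rcases (h1 j).lt_or_eq with h | h
    · exact h
    · exact absurd ((h2 j).2 h.symm) hj
  have hsum : 0 < ∑ k, (mu v k : ℝ) * ((b (κ v k) - ∑ c', A (κ v k) c' * x j c' : ℤ) : ℝ) *
        (M - ∑ c, a c * x (nb v k) c) := by
    rw [← key j]
    exact mul_pos hDv hjpos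
  obtain ⟨k, -, hk⟩ : ∃ k ∈ Finset.univ, 0 < (mu v k : ℝ) *
      ((b (κ v k) - ∑ c', A (κ v k) c' * x j c' : ℤ) : ℝ) * (M - ∑ c, a c * x (nb v k) c) := by
    by_contra hcon
    push Not at hcon
    exact absurd (Finset.sum_nonpos hcon) (not_le.2 hsum)
  have hk1 : 0 < M - ∑ c, a c * x (nb v k) c := by
    rcases (h1 (nb v k)).lt_or_eq with h | h
    · exact h
    · rw [← h, mul_zero] at hk
      exact absurd hk (lt_irrefl _)
  refine ⟨κ v k, ?_, ?_⟩
  · intro i hi
    by_contra hik
    have h6 := key i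
    rw [(h2 i).1 hi, mul_zero] at h6
    have h7 := (Finset.sum_eq_zero_iff_of_nonneg (fun k _ => hterm i k)).1 h6.symm k
      (Finset.mem_univ _)
    have h8 : 0 < (mu v k : ℝ) := by exact_mod_cast hmu v k
    have h9 : (0 : ℝ) < ((b (κ v k) - ∑ c', A (κ v k) c' * x i c' : ℤ) : ℝ) := by
      have := off (κ v k) i hik
      exact_mod_cast (by omega : (0 : ℤ) < b (κ v k) - ∑ c', A (κ v k) c' * x i c')
    exact absurd h7 (mul_pos (mul_pos h8 h9) hk1).ne'
  · intro hjk
    rw [on (κ v k) j hjk] at hk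
    simp at hk

/-- Completeness certificate through affine dependencies: the index sets `T i` are contained in
no face but the whole polytope. -/
theorem closed_of_nonfaces {r : ℕ} (T : Fin r → Finset (Fin N)) (u : Fin r → Fin N → ℤ)
    (on : ∀ k, ∀ j ∈ I k, ∑ c, A k c * x j c = b k)
    (off : ∀ k, ∀ j ∉ I k, ∑ c, A k c * x j c < b k)
    (hsum : ∀ i, ∑ j, u i j = 0) (hx : ∀ i c, ∑ j, u i j * x j c = 0)
    (hT : ∀ i j, j ∉ T i → 0 < u i j)
    (hcomb : ∀ Z : Finset (Fin N), (∀ i, ¬ T i ⊆ Z) → ∀ j, j ∉ Z → ∃ k, Z ⊆ I k ∧ j ∉ I k) :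
    CCert x A b I := by
  classical
  refine ⟨on, off, ?_⟩
  intro F hF j hj
  have hZ : ∀ i, ¬ T i ⊆ ind (pt x) F := by
    intro i hi
    by_cases hTe : F = ∅
    · -- all indices of `T i` are absent: `T i` is empty, impossible by summation
      have hTi : T i = ∅ := by
        apply Finset.eq_empty_of_forall_notMem
        intro k hk
        have := (mem_ind _ _ _).1 (hi hk)
        rw [hTe] at this
        exact this
      have h1 : 0 < ∑ j, u i j := by
        apply Finset.sum_pos
        · intro k _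
          apply hT i k
          rw [hTi]
          exact Finset.notMem_empty _
        · exact ⟨j, Finset.mem_univ _⟩
      rw [hsum i] at h1
      exact absurd h1 (lt_irrefl _)
    have hne : F.Nonempty := Set.nonempty_iff_ne_empty.2 hTe
    obtain ⟨a, M, h1, h2⟩ := face_gap x hF hne
    have h3 : ∑ k, (u i k : ℝ) * (M - ∑ c, a c * x k c) = 0 := by
      have h4 : ∑ k, (u i k : ℝ) * (M - ∑ c, a c * x k c) =
          M * ((∑ k, u i k : ℤ) : ℝ) - ∑ c, a c * ((∑ k, u i k * x k c : ℤ) : ℝ) := by
        push_cast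
        simp only [mul_sub, Finset.sum_sub_distrib, Finset.mul_sum]
        congr 1
        · apply Finset.sum_congr rfl
          intro k _
          ring
        · rw [Finset.sum_comm]
          apply Finset.sum_congr rfl
          intro c _
          apply Finset.sum_congr rfl
          intro k _
          ring
      rw [h4, hsum i]
      simp only [hx i]
      simp
    have h5 : ∀ k ∈ Finset.univ, 0 ≤ (u i k : ℝ) * (M - ∑ c, a c * x k c) := by
      intro k _
      by_cases hk : k ∈ T i
      · rw [(h2 k).1 ((mem_ind _ _ _).1 (hi hk)), mul_zero]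
      · exact mul_nonneg (by exact_mod_cast (hT i k hk).le) (h1 k)
    have h6 := (Finset.sum_eq_zero_iff_of_nonneg h5).1 h3 j (Finset.mem_univ _)
    by_cases hjT : j ∈ T i
    · exact hj ((mem_ind _ _ _).1 (hi hjT))
    · have h7 : (0 : ℝ) < u i j := by exact_mod_cast hT i j hjT
      rcases mul_eq_zero.1 h6 with h | h
      · exact absurd h h7.ne'
      · exact hj ((h2 j).2 h)
  obtain ⟨k, hk1, hk2⟩ := hcomb (ind (pt x) F) hZ j (fun h => hj ((mem_ind _ _ _).1 h))
  exact ⟨k, fun i hi => hk1 ((mem_ind _ _ _).2 hi), hk2⟩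

/-- the vertices are among the given points -/
lemma vertex_eq (x : Fin N → Fin n → ℤ) {v : Sp n} (hv : v ∈ vertices (poly (pt x))) :
    ∃ j, v = pt x j := by
  obtain ⟨k, hk⟩ := nonempty_ind (pt x) hv (Set.singleton_nonempty v)
  exact ⟨k, (Set.mem_singleton_iff.1 hk).symm⟩

end Q142
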