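import Mathlib
import Pool.Agent.Q142.Expl

set_option autoImplicit false

namespace Q142

variable {m : ℕ}

lemma polytope_convex {P : Set (Sp m)} (h : IsPolytope P) : Convex ℝ P := by
  obtain ⟨S, rfl⟩ := h
  exact convex_convexHull ℝ _

lemma vs_union (A B : Set (Sp m)) {a0 b0 : Sp m} (ha : a0 ∈ A) (hb : b0 ∈ B) :
    vectorSpan ℝ (convexHull ℝ (A ∪ B)) ≤
      vectorSpan ℝ A ⊔ vectorSpan ℝ B ⊔ Submodule.span ℝ {b0 - a0} := by
  rw [← direction_affineSpan, affineSpan_convexHull, direction_affineSpan]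
  set W := vectorSpan ℝ A ⊔ vectorSpan ℝ B ⊔ Submodule.span ℝ {b0 - a0} with hW
  have hA : ∀ y ∈ A, y - a0 ∈ W := by
    intro y hy
    exact Submodule.mem_sup_left (Submodule.mem_sup_left (vsub_mem_vectorSpan ℝ hy ha))
  have hd : b0 - a0 ∈ W := Submodule.mem_sup_right (Submodule.mem_span_singleton_self _)
  have hB : ∀ y ∈ B, y - a0 ∈ W := by
    intro y hy
    have h1 : y - b0 ∈ W :=
      Submodule.mem_sup_left (Submodule.mem_sup_right (vsub_mem_vectorSpan ℝ hy hb))
    have : y - a0 = (y - b0) + (b0 - a0) := by abel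
    rw [this]
    exact W.add_mem h1 hd
  have hAB : ∀ y ∈ A ∪ B, y - a0 ∈ W := by
    rintro y (hy | hy)
    · exact hA y hy
    · exact hB y hy
  unfold vectorSpan
  rw [Submodule.span_le]
  rintro v ⟨y, hy, z, hz, rfl⟩
  have h1 : (y - a0) - (z - a0) ∈ W := W.sub_mem (hAB y hy) (hAB z hz)
  have h2 : (y - a0) - (z - a0) = y - z := by abel
  rw [h2] at h1
  exact h1

/-- In a free join, functionals on the two factors can be prescribed independently. -/
lemma join_functional {A B : Set (Sp m)} {a0 b0 : Sp m} (ha : a0 ∈ A) (hb : b0 ∈ B)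
    (hd : dim (convexHull ℝ (A ∪ B)) = dim A + dim B + 1) (l : StrongDual ℝ (Sp m)) (M : ℝ) :
    ∃ l' : StrongDual ℝ (Sp m), (∀ y ∈ A, l' y = l' a0) ∧
      ∀ y ∈ B, l' y - l' a0 = l y - M := by
  set WA := vectorSpan ℝ A
  set WB := vectorSpan ℝ B
  let Φ : (WA × WB) × ℝ →ₗ[ℝ] Sp m :=
    LinearMap.coprod (LinearMap.coprod WA.subtype WB.subtype)
      (LinearMap.toSpanSingleton ℝ (Sp m) (b0 - a0))
  have hrange : vectorSpan ℝ (convexHull ℝ (A ∪ B)) ≤ LinearMap.range Φ := by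
    refine (vs_union A B ha hb).trans ?_
    apply sup_le (sup_le _ _) _
    · intro v hv
      exact ⟨((⟨v, hv⟩, 0), 0), by simp [Φ]⟩
    · intro v hv
      exact ⟨((0, ⟨v, hv⟩), 0), by simp [Φ]⟩
    · rw [Submodule.span_singleton_le_iff_mem]
      exact ⟨((0, 0), 1), by simp [Φ]⟩
  have hfr : Module.finrank ℝ ((WA × WB) × ℝ) ≤ Module.finrank ℝ (LinearMap.range Φ) := by
    have h1 := Submodule.finrank_mono hrange
    have h2 : Module.finrank ℝ ((WA × WB) × ℝ) = dim A + dim B + 1 := by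
      rw [Module.finrank_prod, Module.finrank_prod, Module.finrank_self]
      rfl
    rw [h2, ← hd]
    exact h1
  have hinj : LinearMap.ker Φ = ⊥ := by
    have h1 := LinearMap.finrank_range_add_finrank_ker Φ
    have h2 : Module.finrank ℝ (LinearMap.ker Φ) = 0 := by omega
    exact Submodule.finrank_eq_zero.1 h2
  obtain ⟨g, hg⟩ := LinearMap.exists_leftInverse_of_injective Φ hinj
  have hg' : ∀ w, g (Φ w) = w := fun w => by
    have := congrArg (fun f : ((WA × WB) × ℝ) →ₗ[ℝ] ((WA × WB) × ℝ) => f w) hg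
    simpa using this
  let f : (WA × WB) × ℝ →ₗ[ℝ] ℝ :=
    LinearMap.coprod (LinearMap.coprod 0 (l.toLinearMap ∘ₗ WB.subtype))
      (LinearMap.toSpanSingleton ℝ ℝ (l b0 - M))
  let L : Sp m →ₗ[ℝ] ℝ := f ∘ₗ g
  refine ⟨LinearMap.toContinuousLinearMap L, ?_, ?_⟩
  · intro y hy
    have h1 : y - a0 = Φ ((⟨y - a0, vsub_mem_vectorSpan ℝ hy ha⟩, 0), 0) := by simp [Φ]
    have h2 : L (y - a0) = 0 := by
      show f (g (y - a0)) = 0
      rw [h1, hg']
      simp [f]
    rw [map_sub] at h2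
    show L y = L a0
    linarith
  · intro y hy
    have h1 : y - a0 = Φ ((0, ⟨y - b0, vsub_mem_vectorSpan ℝ hy hb⟩), 1) := by simp [Φ]
    have h2 : L (y - a0) = l y - M := by
      show f (g (y - a0)) = l y - M
      rw [h1, hg']
      simp [f]
    show L y - L a0 = l y - M
    rw [← map_sub, h2]

section join

variable {A B : Set (Sp m)} (hA : Convex ℝ A) (hB : Convex ℝ B) (hAne : A.Nonempty)
  (hBne : B.Nonempty) (hd : dim (convexHull ℝ (A ∪ B)) = dim A + dim B + 1)

include hAne hBne hd in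
lemma join_sep : ∃ (l : StrongDual ℝ (Sp m)) (c : ℝ), (∀ y ∈ A, l y = c) ∧ ∀ y ∈ B, l y < c := by
  obtain ⟨a0, ha⟩ := hAne
  obtain ⟨b0, hb⟩ := hBne
  obtain ⟨l', h1, h2⟩ := join_functional ha hb hd 0 1
  refine ⟨l', l' a0, h1, fun y hy => ?_⟩
  have := h2 y hy
  simp at this
  linarith

include hAne hBne hd in
lemma join_disj : ∀ y, y ∈ A → y ∉ B := by
  obtain ⟨l, c, h1, h2⟩ := join_sep hAne hBne hd
  intro y hy hy'
  have := h1 y hy
  have := h2 y hy'
  linarith

include hA hAne hBne hd in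
lemma join_exposed_left : IsExposed ℝ (convexHull ℝ (A ∪ B)) A := by
  obtain ⟨l, c, h1, h2⟩ := join_sep hAne hBne hd
  have hle : ∀ y ∈ convexHull ℝ (A ∪ B), l y ≤ c := by
    apply le_on_hull
    rintro y (hy | hy)
    · exact (h1 y hy).le
    · exact (h2 y hy).le
  have hexp := exposed_le _ l c hle
  have hne : {x | x ∈ convexHull ℝ (A ∪ B) ∧ l x = c}.Nonempty := by
    obtain ⟨a0, ha⟩ := hAne
    exact ⟨a0, subset_convexHull ℝ _ (Or.inl ha), h1 a0 ha⟩
  obtain ⟨-, -, -, -, h3⟩ := face_data hexp hne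
  have h4 : (A ∪ B) ∩ {x | x ∈ convexHull ℝ (A ∪ B) ∧ l x = c} = A := by
    ext y
    constructor
    · rintro ⟨hy | hy, -, hy'⟩
      · exact hy
      · exact absurd hy' (h2 y hy).ne
    · intro hy
      exact ⟨Or.inl hy, subset_convexHull ℝ _ (Or.inl hy), h1 y hy⟩
  rw [h4, hA.convexHull_eq] at h3
  rw [h3] at hexp
  exact hexp

include hAne hBne hd in
/-- An exposed face of a free join containing neither factor is not a coatom. -/
lemma join_not_coatom {F : Set (Sp m)} (hF : IsExposed ℝ (convexHull ℝ (A ∪ B)) F)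
    (hFne : F.Nonempty) (hAF : ¬ A ⊆ F) (hBF : ¬ B ⊆ F) :
    ∃ G, IsExposed ℝ (convexHull ℝ (A ∪ B)) G ∧ F ⊆ G ∧ G ≠ F ∧ G ≠ convexHull ℝ (A ∪ B) := by
  obtain ⟨l, M, h1, h2, h3⟩ := face_data hF hFne
  obtain ⟨a0, ha⟩ := hAne
  obtain ⟨b0, hb⟩ := hBne
  obtain ⟨l', h4, h5⟩ := join_functional ha hb hd l M
  have hle : ∀ y ∈ convexHull ℝ (A ∪ B), l' y ≤ l' a0 := by
    apply le_on_hull
    rintro y (hy | hy)
    · exact (h4 y hy).le
    · have h6 := h5 y hy
      have h7 := h1 y (subset_convexHull ℝ _ (Or.inr hy))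
      linarith
  refine ⟨{x | x ∈ convexHull ℝ (A ∪ B) ∧ l' x = l' a0}, exposed_le _ l' _ hle, ?_, ?_, ?_⟩
  · rw [h3]
    apply convexHull_min
    · rintro y ⟨hy, hyF⟩
      refine ⟨subset_convexHull ℝ _ hy, ?_⟩
      rcases hy with hy | hy
      · exact h4 y hy
      · have h6 := h5 y hy
        rw [h2] at hyF
        rw [hyF.2] at h6
        linarith
    · intro x hx y hy a b ha hb hab
      refine ⟨(convex_convexHull ℝ _) hx.1 hy.1 ha hb hab, ?_⟩
      rw [map_add, map_smul, map_smul, hx.2, hy.2, ← add_smul, hab, one_smul]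
  · intro heq
    apply hAF
    intro y hy
    rw [← heq]
    exact ⟨subset_convexHull ℝ _ (Or.inl hy), h4 y hy⟩
  · intro heq
    apply hBF
    intro y hy
    have hy' : y ∈ convexHull ℝ (A ∪ B) := subset_convexHull ℝ _ (Or.inr hy)
    have h6 : l' y = l' a0 := by
      rw [← heq] at hy'
      exact hy'.2
    have h7 := h5 y hy
    rw [h2]
    refine ⟨hy', ?_⟩
    linarith

end join

/-- `P` is (combinatorially) a free join: its face lattice is isomorphic to the face lattice of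
`conv (A ∪ B)`, where `A`, `B` are nonempty polytopes in some `ℝ^m` whose affine hulls are
independent, i.e. `dim conv (A ∪ B) = dim A + dim B + 1`. -/
def IsFreeJoin {n : ℕ} (P : Set (Sp n)) : Prop :=
  ∃ (m : ℕ) (A B : Set (Sp m)), IsPolytope A ∧ A.Nonempty ∧ IsPolytope B ∧ B.Nonempty ∧
    dim (convexHull ℝ (A ∪ B)) = dim A + dim B + 1 ∧
    Nonempty (faces P ≃o faces (convexHull ℝ (A ∪ B)))

/-- A polytope given with facet certificates is not a free join if the complements of the facets'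
vertex sets form a connected hypergraph. -/
theorem FCert.not_freeJoin {n N m : ℕ} {x : Fin N → Fin n → ℤ} {A : Fin m → Fin n → ℤ}
    {b : Fin m → ℤ} {I : Fin m → Finset (Fin N)} (h : FCert x A b I) 
    (hvert : ∀ i, IsExposed ℝ (poly (pt x)) {pt x i})
    (hconn : ∀ χ : Fin N → Prop, (∀ k i j, i ∉ I k → j ∉ I k → (χ i ↔ χ j)) → ∀ i j, χ i ↔ χ j) :
    ¬ IsFreeJoin (poly (pt x)) := by
  rintro ⟨d, Q1, Q2, hQ1, hQ1ne, hQ2, hQ2ne, hd, ⟨e⟩⟩
  set J := convexHull ℝ (Q1 ∪ Q2) with hJ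
  have hd' : dim (convexHull ℝ (Q2 ∪ Q1)) = dim Q2 + dim Q1 + 1 := by
    rw [Set.union_comm, hd]; omega
  have hE1 : IsExposed ℝ J Q1 :=
    join_exposed_left (polytope_convex hQ1) hQ1ne hQ2ne hd
  have hE2 : IsExposed ℝ J Q2 := by
    have := join_exposed_left (polytope_convex hQ2) hQ2ne hQ1ne hd'
    rwa [Set.union_comm] at this
  -- bottom
  have hbotP : (∅ : Set (Sp n)) ∈ faces (poly (pt x)) := isExposed_empty
  have hbotJ : (∅ : Set (Sp d)) ∈ faces J := isExposed_empty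
  have hebot : e ⟨∅, hbotP⟩ = ⟨∅, hbotJ⟩ := by
    apply le_antisymm
    · rw [← e.le_symm_apply]
      exact Set.empty_subset _
    · exact Set.empty_subset _
  have hne : ∀ F : faces (poly (pt x)), F.1.Nonempty → (e F).1.Nonempty := by
    intro F hF
    rw [Set.nonempty_iff_ne_empty]
    intro h1
    have h2 : e F = e ⟨∅, hbotP⟩ := by
      rw [hebot]
      exact Subtype.ext h1
    have h3 := e.injective h2
    rw [h3] at hF
    exact Set.not_nonempty_empty hF
  have hne' : ∀ G : faces J, G.1.Nonempty → (e.symm G).1.Nonempty := by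
    intro G hG
    rw [Set.nonempty_iff_ne_empty]
    intro h1
    have h2 : e.symm G = e.symm ⟨∅, hbotJ⟩ := by
      rw [← hebot, e.symm_apply_apply]
      exact Subtype.ext h1
    have h3 := e.symm.injective h2
    rw [h3] at hG
    exact Set.not_nonempty_empty hG
  -- top
  have htopP : poly (pt x) ∈ faces (poly (pt x)) := IsExposed.refl _
  have htopJ : J ∈ faces J := IsExposed.refl _
  have hetop : e ⟨poly (pt x), htopP⟩ = ⟨J, htopJ⟩ := by
    apply le_antisymm
    · exact IsExposed.subset (e ⟨poly (pt x), htopP⟩).2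
    · rw [← e.symm_apply_le]
      exact IsExposed.subset (e.symm ⟨J, htopJ⟩).2
  -- each facet contains one of the factors
  set A' := e.symm ⟨Q1, hE1⟩ with hA'
  set B' := e.symm ⟨Q2, hE2⟩ with hB'
  have hfacet : ∀ k, A'.1 ⊆ hull (pt x) (I k) ∨ B'.1 ⊆ hull (pt x) (I k) := by
    intro k
    by_contra hcon
    push Not at hcon
    let Fk : faces (poly (pt x)) := ⟨hull (pt x) (I k), (h.exposed k).1⟩
    have h1 : ¬ Q1 ⊆ (e Fk).1 := by
      intro h2
      apply hcon.1
      have h3 : (⟨Q1, hE1⟩ : faces J) ≤ e Fk := h2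
      rw [← e.symm_apply_le] at h3
      exact h3
    have h1' : ¬ Q2 ⊆ (e Fk).1 := by
      intro h2
      apply hcon.2
      have h3 : (⟨Q2, hE2⟩ : faces J) ≤ e Fk := h2
      rw [← e.symm_apply_le] at h3
      exact h3
    obtain ⟨G, hG, hFG, hG1, hG2⟩ :=
      join_not_coatom hQ1ne hQ2ne hd (e Fk).2 (hne Fk (h.nonempty k)) h1 h1'
    have h4 : Fk ≤ e.symm ⟨G, hG⟩ := by
      rw [e.le_symm_apply]
      exact hFG
    rcases h.coatom k (e.symm ⟨G, hG⟩).2 h4 with h5 | h5
    · apply hG1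
      have h6 : e.symm ⟨G, hG⟩ = Fk := Subtype.ext h5
      rw [← h6, e.apply_symm_apply]
    · apply hG2
      have h6 : e.symm ⟨G, hG⟩ = ⟨poly (pt x), htopP⟩ := Subtype.ext h5
      have h7 := congrArg e h6
      rw [e.apply_symm_apply, hetop] at h7
      exact congrArg Subtype.val h7
  -- each vertex lies in exactly one factor
  have hv : ∀ i, (pt x i ∈ A'.1 ∨ pt x i ∈ B'.1) ∧ ¬ (pt x i ∈ A'.1 ∧ pt x i ∈ B'.1) := by
    intro i
    let Vi : faces (poly (pt x)) := ⟨{pt x i}, hvert i⟩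
    have hVi : (e Vi).1.Nonempty := hne Vi ⟨_, rfl⟩
    have hmem : ∀ (G : faces J), (e Vi).1 ⊆ G.1 ↔ pt x i ∈ (e.symm G).1 := by
      intro G
      have h1 : (e Vi).1 ⊆ G.1 ↔ e Vi ≤ G := Iff.rfl
      rw [h1, ← e.le_symm_apply]
      exact Set.singleton_subset_iff
    have hatom : ∀ (G : faces J), G.1.Nonempty → G.1 ⊆ (e Vi).1 → G = e Vi := by
      intro G hGne hG
      have h1 : e.symm G ≤ Vi := by
        rw [e.symm_apply_le]
        exact hG
      have h2 : (e.symm G).1 ⊆ {pt x i} := h1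
      rcases Set.subset_singleton_iff_eq.1 h2 with h3 | h3
      · exact absurd (hne' G hGne) (by rw [h3]; exact Set.not_nonempty_empty)
      · have h4 : e.symm G = Vi := Subtype.ext h3
        rw [← h4, e.apply_symm_apply]
    constructor
    · obtain ⟨-, -, -, -, h3⟩ := face_data (e Vi).2 hVi
      have h4 : ((Q1 ∪ Q2) ∩ (e Vi).1).Nonempty := by
        by_contra hemp
        rw [Set.not_nonempty_iff_eq_empty] at hemp
        rw [hemp, convexHull_empty] at h3
        rw [h3] at hVi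
        exact Set.not_nonempty_empty hVi
      obtain ⟨y, hy | hy, hyV⟩ := h4
      · left
        have h5 : IsExposed ℝ J (Q1 ∩ (e Vi).1) := hE1.inter (e Vi).2
        have h6 := hatom ⟨_, h5⟩ ⟨y, hy, hyV⟩ Set.inter_subset_right
        have h7 : (e Vi).1 ⊆ Q1 := by
          rw [← h6]
          exact Set.inter_subset_left
        exact (hmem ⟨Q1, hE1⟩).1 h7
      · right
        have h5 : IsExposed ℝ J (Q2 ∩ (e Vi).1) := hE2.inter (e Vi).2
        have h6 := hatom ⟨_, h5⟩ ⟨y, hy, hyV⟩ Set.inter_subset_right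
        have h7 : (e Vi).1 ⊆ Q2 := by
          rw [← h6]
          exact Set.inter_subset_left
        exact (hmem ⟨Q2, hE2⟩).1 h7
    · rintro ⟨h1, h2⟩
      obtain ⟨y, hy⟩ := hVi
      have h3 := (hmem ⟨Q1, hE1⟩).2 h1 hy
      have h4 := (hmem ⟨Q2, hE2⟩).2 h2 hy
      exact join_disj hQ1ne hQ2ne hd y h3 h4
  have hmono : ∀ k i j, i ∉ I k → j ∉ I k → (pt x i ∈ A'.1 ↔ pt x j ∈ A'.1) := by
    intro k i j hi hj
    have hi' : pt x i ∉ hull (pt x) (I k) := fun h1 => hi ((h.mem k i).1 h1)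
    have hj' : pt x j ∉ hull (pt x) (I k) := fun h1 => hj ((h.mem k j).1 h1)
    rcases hfacet k with h1 | h1
    · constructor
      · intro h2; exact absurd (h1 h2) hi'
      · intro h2; exact absurd (h1 h2) hj'
    · have h2 : pt x i ∉ B'.1 := fun h3 => hi' (h1 h3)
      have h3 : pt x j ∉ B'.1 := fun h3 => hj' (h1 h3)
      have h4 := (hv i).1
      have h5 := (hv j).1
      tauto
  have hall := hconn (fun i => pt x i ∈ A'.1) hmono
  obtain ⟨i, hi⟩ := nonempty_ind (pt x) A'.2 (hne' ⟨Q1, hE1⟩ hQ1ne)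
  obtain ⟨j, hj⟩ := nonempty_ind (pt x) B'.2 (hne' ⟨Q2, hE2⟩ hQ2ne)
  exact (hv j).2 ⟨(hall i j).1 hi, hj⟩

end Q142
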