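import Pool.Agent.Q61.MH.Stm

/-! Project MH, job TAIL. -/

set_option autoImplicit false

open Real

namespace Pool.Agent.Q142.MHT

open Pool.Agent.Q61.MH

theorem tail_pos (q : ℤ → ℝ) (hq : IsTarget q) (y : ℕ) :
    (∑' x : ℤ, ENNReal.ofReal (min (q x) (q (x + (2 * (y : ℤ) + 1))))) = 2 * T q y := by
  have e1 : (∑' w : ℕ, ENNReal.ofReal (min (q ((w : ℤ) - y))
      (q ((w : ℤ) - y + (2 * (y : ℤ) + 1))))) = T q y := by
    unfold T
    refine tsum_congr fun w => ?_
    have h1 : (w : ℤ) - y + (2 * y + 1) = w + y + 1 := by ring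
    rw [h1, min_eq_right (hq.unimodal _ _ ?_)]
    rw [abs_le, abs_of_nonneg (by positivity)]
    constructor <;> omega
  have e2 : (∑' w : ℕ, ENNReal.ofReal (min (q (-((w : ℤ) + 1) - y))
      (q (-((w : ℤ) + 1) - y + (2 * (y : ℤ) + 1))))) = T q y := by
    unfold T
    refine tsum_congr fun w => ?_
    have h1 : -((w : ℤ) + 1) - y + (2 * y + 1) = y - w := by ring
    have h2 : -((w : ℤ) + 1) - y = -(w + y + 1) := by ring
    rw [h1, h2, hq.symm, min_eq_left (hq.unimodal _ _ ?_)]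
    rw [abs_le, abs_of_nonneg (by positivity)]
    constructor <;> omega
  have e0 := (Equiv.subRight (y : ℤ)).tsum_eq
    (fun x : ℤ => ENNReal.ofReal (min (q x) (q (x + (2 * (y : ℤ) + 1)))))
  simp only [Equiv.subRight_apply] at e0
  have e3 := tsum_of_nat_of_neg_add_one
    (f := fun x : ℤ => ENNReal.ofReal (min (q (x - y)) (q (x - y + (2 * (y : ℤ) + 1)))))
    ENNReal.summable ENNReal.summable
  have e4 : T q y + T q y = 2 * T q y := (two_mul _).symm
  rw [← e0, e3, ← e4]
  exact congrArg₂ (· + ·) e1 e2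

theorem tail : S_tail := by
  intro q hq y z hz
  rcases hz with rfl | rfl
  · exact tail_pos q hq y
  · have e0 := (Equiv.neg ℤ).tsum_eq
      (fun x : ℤ => ENNReal.ofReal (min (q x) (q (x + -(2 * (y : ℤ) + 1)))))
    rw [← tail_pos q hq y, ← e0]
    refine tsum_congr fun x => ?_
    have h1 : -x + -(2 * (y : ℤ) + 1) = -(x + (2 * (y : ℤ) + 1)) := by ring
    show ENNReal.ofReal (min (q (-x)) (q (-x + -(2 * (y : ℤ) + 1)))) = _
    rw [h1, hq.symm, hq.symm]

end Pool.Agent.Q142.MHT
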