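import Pool.Agent.Q88.MT.Stm

/-! Project MT, job OUT: the Neumann series, pointwise. -/

set_option autoImplicit false

open Set Filter Topology

namespace Pool.Agent.Q142.MTO

open Pool.Agent.Q88.MT

section

variable {n : ℕ} (k : Fin n → ℤ)

theorem pt {u : X n → ℂ} (hu : Sq u) (x : X n) : ‖u x‖ ≤ nn u := by
  unfold nn
  refine Real.le_sqrt_of_sq_le ?_
  exact hu.le_tsum x fun y _ => sq_nonneg _

theorem nn_nonneg (u : X n → ℂ) : 0 ≤ nn u := Real.sqrt_nonneg _

theorem T_hasSum {f : ℕ → X n → ℂ} {U : X n → ℂ} (h : ∀ x, HasSum (fun m => f m x) (U x))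
    (y : X n) : HasSum (fun m => T k (f m) y) (T k U y) := by
  unfold T
  refine HasSum.mul_left _ (hasSum_sum fun π _ => ?_)
  unfold W
  split_ifs with hc
  · exact h _
  · exact hasSum_zero

theorem T_mul (c : ℂ) (u : X n → ℂ) (y : X n) : T k (fun x => c * u x) y = c * T k u y := by
  unfold T W
  rw [mul_left_comm, Finset.mul_sum (s := Finset.univ) (a := c)]
  congr 1
  refine Finset.sum_congr rfl fun π _ => ?_
  split_ifs
  · rfl
  · rw [mul_zero]

end

theorem out (h : S_bas) (h1 : S_bdd) (h2 : S_inv) : S_out := by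
  intro n k b l hl
  obtain ⟨hadd, hmul, hzero, -⟩ := h n
  obtain ⟨hinv, -, hlin⟩ := h2 n k b
  unfold Sp
  rw [Set.mem_ofPred_eq, not_not]
  intro v hv
  have hl0 : l ≠ 0 := by
    rintro rfl
    rw [norm_zero] at hl
    linarith
  obtain ⟨c, hc⟩ : ∃ c : ℂ, c = l⁻¹ := ⟨_, rfl⟩
  have hlc : l * c = 1 := by rw [hc]; exact mul_inv_cancel₀ hl0
  obtain ⟨r, hr⟩ : ∃ r : ℝ, r = ‖c‖ := ⟨_, rfl⟩
  have hr0 : 0 ≤ r := by rw [hr]; exact norm_nonneg _
  have hr1 : r < 1 := by
    rw [hr, hc, norm_inv]
    exact inv_lt_one_of_one_lt₀ hl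
  obtain ⟨a, ha⟩ : ∃ a : ℕ → X n → ℂ, a = fun m => (T k)^[m] v := ⟨_, rfl⟩
  have ha0 : a 0 = v := by rw [ha]; rfl
  have has : ∀ m, a (m + 1) = T k (a m) := fun m => by
    rw [ha]
    exact Function.iterate_succ_apply' (T k) m v
  have haM : ∀ m, a m ∈ M n b := by
    intro m
    induction m with
    | zero => rw [ha0]; exact hv
    | succ m ih => rw [has]; exact hinv _ ih
  have hann : ∀ m, nn (a m) ≤ nn v := by
    intro m
    induction m with
    | zero => rw [ha0]
    | succ m ih => rw [has]; exact ((h1 n k _ (haM m).1).2).trans ih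
  have hpt : ∀ m x, ‖c ^ (m + 1) * a m x‖ ≤ r ^ (m + 1) * nn v := by
    intro m x
    rw [norm_mul, norm_pow, ← hr]
    exact mul_le_mul_of_nonneg_left ((pt (haM m).1 x).trans (hann m)) (by positivity)
  have hgeo : Summable fun m : ℕ => r ^ (m + 1) * nn v :=
    ((summable_nat_add_iff 1).2 (summable_geometric_of_lt_one hr0 hr1)).mul_right _
  have hsum : ∀ x, Summable fun m => c ^ (m + 1) * a m x := fun x =>
    Summable.of_norm_bounded hgeo fun m => hpt m x
  obtain ⟨U, hU⟩ : ∃ U : X n → ℂ, U = fun x => ∑' m, c ^ (m + 1) * a m x := ⟨_, rfl⟩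
  have hUs : ∀ x, HasSum (fun m => c ^ (m + 1) * a m x) (U x) := fun x => by
    rw [hU]; exact (hsum x).hasSum
  -- the equation
  have heq : ∀ y, l * U y = v y + T k U y := by
    intro y
    have e1 := T_hasSum k (f := fun m x => c ^ (m + 1) * a m x) hUs y
    have e2 : (fun m => T k (fun x => c ^ (m + 1) * a m x) y) =
        fun m => l * (c ^ (m + 1 + 1) * a (m + 1) y) := by
      funext m
      rw [T_mul, has, pow_succ c (m + 1)]
      linear_combination (-(c ^ (m + 1) * T k (a m) y)) * hlc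
    rw [e2] at e1
    have e3 : HasSum (fun m => l * (c ^ (m + 1) * a m y)) (l * U y) := (hUs y).mul_left l
    have e4 := (hasSum_nat_add_iff' (f := fun m => l * (c ^ (m + 1) * a m y)) 1).2 e3
    have e5 := e1.unique e4
    rw [Finset.sum_range_one, zero_add, pow_one, ha0] at e5
    rw [e5]
    linear_combination (v y) * hlc
  -- membership
  have hUM : U ∈ M n b := by
    refine ⟨?_, fun π x => ?_⟩
    · obtain ⟨B, hB⟩ : ∃ B : ℝ, B = ∑' m : ℕ, r ^ (m + 1) * nn v := ⟨_, rfl⟩
      have hS : ∀ N : ℕ, Sq (fun x => ∑ m ∈ Finset.range N, c ^ (m + 1) * a m x) ∧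
          nn (fun x => ∑ m ∈ Finset.range N, c ^ (m + 1) * a m x) ≤
            ∑ m ∈ Finset.range N, r ^ (m + 1) * nn v := by
        intro N
        induction N with
        | zero =>
          simp only [Finset.range_zero, Finset.sum_empty]
          constructor
          · unfold Sq
            simp
          · unfold nn
            simp
        | succ N ih =>
          simp only [Finset.sum_range_succ]
          obtain ⟨g1, g2⟩ := hmul (c ^ (N + 1)) (a N) (haM N).1
          obtain ⟨g3, g4⟩ := hadd _ _ ih.1 g1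
          refine ⟨g3, g4.trans (add_le_add ih.2 ?_)⟩
          rw [g2, norm_pow, ← hr]
          exact mul_le_mul_of_nonneg_left (hann N) (by positivity)
      have hSB : ∀ N : ℕ, nn (fun x => ∑ m ∈ Finset.range N, c ^ (m + 1) * a m x) ≤ B := by
        intro N
        refine (hS N).2.trans ?_
        rw [hB]
        exact hgeo.sum_le_tsum _ fun m _ => mul_nonneg (by positivity) (nn_nonneg _)
      refine summable_of_sum_le (c := B ^ 2) (fun x => sq_nonneg _) fun F => ?_
      have hlim : Tendsto (fun N : ℕ => ∑ x ∈ F, ‖∑ m ∈ Finset.range N, c ^ (m + 1) * a m x‖ ^ 2)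
          atTop (𝓝 (∑ x ∈ F, ‖U x‖ ^ 2)) :=
        tendsto_finsetSum _ fun x _ => ((hUs x).tendsto_sum_nat.norm).pow 2
      refine le_of_tendsto' hlim fun N => ?_
      have q1 := (hS N).1.sum_le_tsum F fun x _ => sq_nonneg _
      refine q1.trans ?_
      have q2 : nn (fun x => ∑ m ∈ Finset.range N, c ^ (m + 1) * a m x) ^ 2 =
          ∑' x, ‖∑ m ∈ Finset.range N, c ^ (m + 1) * a m x‖ ^ 2 := by
        unfold nn
        exact Real.sq_sqrt (tsum_nonneg fun x => sq_nonneg _)
      rw [← q2]
      exact pow_le_pow_left₀ (nn_nonneg _) (hSB N) 2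
    · rw [hU]
      simp only
      rw [← tsum_mul_left]
      refine tsum_congr fun m => ?_
      rw [(haM m).2 π x]
      ring
  have hnegM : (fun x => U x + (-2 : ℂ) * U x) ∈ M n b := hlin U hUM U hUM (-2)
  have hneg : (fun x => U x + (-2 : ℂ) * U x) = fun x => (-1 : ℂ) * U x := by
    funext x; ring
  rw [hneg] at hnegM
  refine ⟨fun x => (-1 : ℂ) * U x, ⟨hnegM, ?_⟩, ?_⟩
  · funext y
    rw [T_mul]
    linear_combination heq y
  · rintro w ⟨hw, hTw⟩
    have hd := hlin w hw _ hnegM (-1)
    obtain ⟨D, hD⟩ : ∃ D : X n → ℂ, D = fun x => w x + (-1 : ℂ) * ((-1 : ℂ) * U x) := ⟨_, rfl⟩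
    rw [← hD] at hd
    have hDe : (fun y => l * D y) = T k D := by
      funext y
      have t1 : T k D y = T k w y + T k (fun x => (1 : ℂ) * U x) y := by
        have : D = fun x => w x + (1 : ℂ) * U x := by
          rw [hD]; funext x; ring
        rw [this, (h2 n k b).2.1]
        rw [T_mul]
      rw [t1, T_mul, hD]
      have t2 : T k w y - l * w y = v y := congrFun hTw y
      linear_combination heq y - t2
    have q1 := (hmul l D hd.1).2
    rw [hDe] at q1
    have q2 := (h1 n k D hd.1).2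
    rw [q1] at q2
    have q3 : nn D = 0 := by
      have := nn_nonneg D
      by_contra hne
      have hpos : 0 < nn D := lt_of_le_of_ne this (Ne.symm hne)
      nlinarith
    have q4 := hzero D hd.1 q3
    funext x
    have q5 := congrFun q4 x
    rw [hD] at q5
    simp only [Pi.zero_apply] at q5
    linear_combination q5

end Pool.Agent.Q142.MTO
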