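import Pool.Agent.Q88.MT.Stm

/-! Project MT, job ZER. -/

set_option autoImplicit false

open Set Filter Topology

namespace Pool.Agent.Q142.MTZ

open Pool.Agent.Q88.MT

theorem T_zero {n : ℕ} (k : Fin n → ℤ) : T k (0 : X n → ℂ) = 0 := by
  funext y
  unfold T W
  simp

theorem sum_le_of_finset (s : Finset ℕ) : ∑ i ∈ Finset.range s.card, i ≤ ∑ a ∈ s, a := by
  induction s using Finset.induction_on_max with
  | empty => simp
  | insert a s ha ih =>
    have hn : a ∉ s := fun h => lt_irrefl _ (ha a h)
    rw [Finset.card_insert_of_notMem hn, Finset.sum_insert hn, Finset.sum_range_succ]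
    have h1 : s ⊆ Finset.range a := fun x hx => Finset.mem_range.2 (ha x hx)
    have h2 := Finset.card_le_card h1
    rw [Finset.card_range] at h2
    omega

theorem sum_inj {n : ℕ} (x : X n) (hx : Function.Injective x) :
    (∑ j : Fin n, (j : ℤ)) ≤ ∑ j, (x j : ℤ) := by
  have h1 := sum_le_of_finset (Finset.univ.image x)
  rw [Finset.card_image_of_injective _ hx, Finset.sum_image (fun a _ b _ hab => hx hab),
    Finset.card_univ, Fintype.card_fin, Finset.sum_range] at h1
  exact_mod_cast h1

/-- the core argument -/
theorem core (h : S_hco) {n : ℕ} (k : Fin n → ℤ) (b : Bool) (hK : 0 < ∑ j, k j) (d : ℤ)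
    (v : X n → ℂ) (hv : v ∈ M n b) (hv0 : v ≠ 0) (hd : hc d v = v)
    (hlow : ∀ u ∈ M n b, ∀ x : X n, (∑ j, (x j : ℤ)) < d → u x = 0) : (0 : ℂ) ∈ Sp b k := by
  intro hall
  obtain ⟨u, ⟨hu, hTu⟩, -⟩ := hall v hv
  have hTu' : T k u = v := by
    rw [← hTu]
    funext y
    rw [zero_mul, sub_zero]
  have h1 := (h n k b).1 (d - ∑ j, k j) u
  have h2 : hc (d - ∑ j, k j) u = 0 := by
    funext x
    unfold hc
    split_ifs with hx
    · exact hlow u hu x (by rw [hx]; linarith)
    · rfl
  rw [sub_add_cancel, hTu', h2, T_zero, hd] at h1
  exact hv0 h1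

theorem zer (h : S_hco) : S_zer := by
  classical
  intro n k b hK
  cases b with
  | false =>
    refine core h k false hK 0 (fun x => if x = 0 then 1 else 0) ⟨?_, ?_⟩ ?_ ?_ ?_
    · refine summable_of_ne_finset_zero (s := {0}) fun x hx => ?_
      rw [Finset.mem_singleton] at hx
      simp [hx]
    · intro π x
      have h1 : (fun j => x (π j)) = 0 ↔ x = 0 := by
        constructor
        · intro h2
          funext j
          have := congrFun h2 (π.symm j)
          simpa using this
        · rintro rfl
          rfl
      unfold chi
      simp [h1]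
    · intro h0
      have := congrFun h0 0
      simp at this
    · funext x
      unfold hc
      by_cases hx : x = 0
      · subst hx
        simp
      · simp [hx]
    · intro u _ x hx
      exfalso
      have : 0 ≤ ∑ j, (x j : ℤ) := Finset.sum_nonneg fun j _ => Int.natCast_nonneg _
      linarith
  | true =>
    set v : X n → ℂ := fun x => ∑ σ : Equiv.Perm (Fin n),
      if x = (fun j => ((σ j : Fin n) : ℕ)) then ((Equiv.Perm.sign σ : ℤ) : ℂ) else 0 with hv
    have hsupp : ∀ x, v x ≠ 0 → ∃ σ : Equiv.Perm (Fin n), x = fun j => ((σ j : Fin n) : ℕ) := by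
      intro x hx
      by_contra hcon
      push Not at hcon
      refine hx ?_
      rw [hv]
      exact Finset.sum_eq_zero fun σ _ => if_neg (hcon σ)
    refine core h k true hK (∑ j : Fin n, (j : ℤ)) v ⟨?_, ?_⟩ ?_ ?_ ?_
    · refine summable_of_hasFiniteSupport ?_
      refine (Set.finite_range (fun σ : Equiv.Perm (Fin n) => (fun j => ((σ j : Fin n) : ℕ) :
        X n))).subset ?_
      intro x hx
      have hx' : v x ≠ 0 := by
        intro h0
        refine hx ?_
        show ‖v x‖ ^ 2 = 0
        rw [h0]
        simp
      obtain ⟨σ, hσ⟩ := hsupp x hx'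
      exact ⟨σ, hσ.symm⟩
    · intro π x
      rw [hv]
      simp only
      rw [← Equiv.sum_comp (Equiv.mulRight π), Finset.mul_sum]
      refine Finset.sum_congr rfl fun σ _ => ?_
      have h1 : ((fun j => x (π j)) = fun j => (((Equiv.mulRight π σ) j : Fin n) : ℕ)) ↔
          x = fun j => ((σ j : Fin n) : ℕ) := by
        constructor
        · intro h2
          funext j
          have := congrFun h2 (π.symm j)
          simpa using this
        · rintro rfl
          rfl
      rw [mul_ite, mul_zero]
      refine ite_congr (propext h1) (fun _ => ?_) (fun _ => rfl)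
      unfold chi
      rw [Equiv.coe_mulRight, map_mul]
      push_cast
      simp only [if_true]
      ring
    · intro h0
      have h1 := congrFun h0 (fun j => (j : ℕ))
      rw [hv] at h1
      simp only at h1
      rw [Finset.sum_eq_single 1] at h1
      · simp at h1
      · intro σ _ hσ
        refine if_neg fun h2 => hσ ?_
        ext j
        have := congrFun h2 j
        simpa using this.symm
      · intro h2
        exact absurd (Finset.mem_univ _) h2
    · funext x
      unfold hc
      split_ifs with hx
      · rfl
      · by_contra hne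
        obtain ⟨σ, rfl⟩ := hsupp x (fun h0 => hne h0.symm)
        exact hx (Equiv.sum_comp σ (fun j : Fin n => (j : ℤ)))
    · intro u hu x hx
      have hninj : ¬ Function.Injective x := fun hi => absurd (sum_inj x hi) (not_le.2 hx)
      rw [Function.not_injective_iff] at hninj
      obtain ⟨i, j, hij, hne⟩ := hninj
      have h1 := hu.2 (Equiv.swap i j) x
      have h2 : (fun m => x (Equiv.swap i j m)) = x := by
        funext m
        rw [Equiv.swap_apply_def]
        split_ifs with a b
        · rw [a, hij]
        · rw [b, hij]
        · rfl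
      rw [h2] at h1
      unfold chi at h1
      rw [Equiv.Perm.sign_swap hne] at h1
      simp only [if_true] at h1
      push_cast at h1
      have h3 : 2 * u x = 0 := by linear_combination h1
      simpa using h3

end Pool.Agent.Q142.MTZ
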