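import Mathlib

set_option autoImplicit false

noncomputable section

open Filter Topology

namespace Pool.Agent.Q142.NAQ

universe u

/-- The set `NA(X, Y)` of the bounded linear operators from `X` to `Y` that attain their norm:
`‖T x‖ = ‖T‖` for some `x` in the unit sphere of `X`. -/
def NA (𝕜 : Type*) (X Y : Type*) [RCLike 𝕜] [NormedAddCommGroup X] [NormedSpace 𝕜 X]
    [NormedAddCommGroup Y] [NormedSpace 𝕜 Y] : Set (X →L[𝕜] Y) :=
  {T | ∃ x : X, ‖x‖ = 1 ∧ ‖T x‖ = ‖T‖}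

/-- A subspace `M` of `X` is one-complemented if it is the range of a bounded linear projection
of norm at most one. -/
def OneComplemented {𝕜 X : Type*} [RCLike 𝕜] [NormedAddCommGroup X] [NormedSpace 𝕜 X]
    (M : Submodule 𝕜 X) : Prop :=
  ∃ P : X →L[𝕜] X, ‖P‖ ≤ 1 ∧ (∀ x, P x ∈ M) ∧ ∀ x ∈ M, P x = x

section ell1

variable {𝕜 : Type u} [RCLike 𝕜]

abbrev L1 (𝕜 : Type u) [RCLike 𝕜] (ι : Type u) := lp (fun _ : ι => 𝕜) 1

variable {ι : Type u} [DecidableEq ι]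

def e (i : ι) : L1 𝕜 ι := lp.single 1 i (1 : 𝕜)

lemma norm_e (i : ι) : ‖(e i : L1 𝕜 ι)‖ = 1 := by
  unfold e
  rw [lp.norm_single (by norm_num)]
  simp

omit [DecidableEq ι] in
lemma summable_norm' (a : L1 𝕜 ι) : Summable (fun i => ‖a i‖) := by
  have := (lp.memℓp a).summable (by norm_num)
  simpa using this

omit [DecidableEq ι] in
lemma norm_eq' (a : L1 𝕜 ι) : ‖a‖ = ∑' i, ‖a i‖ := by
  have := lp.norm_eq_tsum_rpow (by norm_num) a
  simpa using this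

lemma hasSum_e (a : L1 𝕜 ι) : HasSum (fun i => a i • (e i : L1 𝕜 ι)) a := by
  have h := lp.hasSum_single (p := 1) (by norm_num) a
  have h2 : (fun i => a i • (e i : L1 𝕜 ι)) = fun i => lp.single 1 i (a i) := by
    funext i
    unfold e
    rw [← lp.single_smul]
    simp
  rw [h2]
  exact h

variable {F : Type*} [NormedAddCommGroup F] [NormedSpace 𝕜 F]

lemma ext1 {f g : L1 𝕜 ι →L[𝕜] F} (h : ∀ i, f (e i) = g (e i)) : f = g := by
  ext a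
  have h1 := (hasSum_e a).mapL f
  have h2 := (hasSum_e a).mapL g
  simp only [map_smul, h] at h1 h2
  exact h1.unique h2

lemma bound1 (f : L1 𝕜 ι →L[𝕜] F) {C : ℝ} (h : ∀ i, ‖f (e i)‖ ≤ C) (a : L1 𝕜 ι) :
    ‖f a‖ ≤ C * ‖a‖ := by
  have h1 := (hasSum_e a).mapL f
  simp only [map_smul] at h1
  rw [← h1.tsum_eq, norm_eq', ← tsum_mul_left]
  have hs : Summable (fun i => C * ‖a i‖) := (summable_norm' a).mul_left C
  refine tsum_of_norm_bounded hs.hasSum ?_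
  intro i
  rw [norm_smul, mul_comm]
  exact mul_le_mul_of_nonneg_right (h i) (norm_nonneg _)

variable [CompleteSpace F]

def lift1 (w : ι → F) (C : ℝ) (hw : ∀ i, ‖w i‖ ≤ C) : L1 𝕜 ι →L[𝕜] F :=
  LinearMap.mkContinuous
    { toFun := fun a => ∑' i, a i • w i
      map_add' := by
        intro a b
        have hs : ∀ a : L1 𝕜 ι, Summable (fun i => a i • w i) := by
          intro a
          refine Summable.of_norm_bounded ((summable_norm' a).mul_left C) ?_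
          intro i
          rw [norm_smul, mul_comm]
          exact mul_le_mul_of_nonneg_right (hw i) (norm_nonneg _)
        rw [← (hs a).tsum_add (hs b)]
        simp [add_smul]
      map_smul' := by
        intro c a
        simp only [RingHom.id_apply]
        rw [← tsum_const_smul'']
        simp [mul_smul] } C (by
      intro a
      have hs : Summable (fun i => C * ‖a i‖) := (summable_norm' a).mul_left C
      rw [norm_eq', ← tsum_mul_left]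
      refine tsum_of_norm_bounded hs.hasSum ?_
      intro i
      rw [norm_smul, mul_comm]
      exact mul_le_mul_of_nonneg_right (hw i) (norm_nonneg _))

lemma lift1_e (w : ι → F) (C : ℝ) (hw : ∀ i, ‖w i‖ ≤ C) (i : ι) :
    lift1 (𝕜 := 𝕜) w C hw (e i) = w i := by
  show ∑' j, (e i : L1 𝕜 ι) j • w j = w i
  rw [tsum_eq_single i]
  · simp [e]
  · intro j hj
    simp [e, lp.single_apply, hj]

end ell1

section constr

open Classical

variable (𝕜 : Type u) [RCLike 𝕜] (E : Type u) [NormedAddCommGroup E] [NormedSpace 𝕜 E]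

abbrev S (E : Type u) [NormedAddCommGroup E] : Type u := {x : E // ‖x‖ = 1}

abbrev Lam := L1 𝕜 (S E × Bool)

def q2 : Lam 𝕜 E →L[𝕜] L1 𝕜 (S E) :=
  lift1 (fun i => if i.2 then e i.1 else - e i.1) 1 (by
    intro i
    split_ifs
    · rw [norm_e]
    · rw [norm_neg, norm_e])

lemma q2_e (s : S E) (b : Bool) : q2 𝕜 E (e (s, b)) = if b then e s else - e s := by
  unfold q2; rw [lift1_e]

variable [CompleteSpace E]

def q1 : Lam 𝕜 E →L[𝕜] E := lift1 (fun i => (i.1 : E)) 1 (fun i => le_of_eq i.1.2)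

lemma q1_e (s : S E) (b : Bool) : q1 𝕜 E (e (s, b)) = s := by
  unfold q1; rw [lift1_e]

def K : Submodule 𝕜 (Lam 𝕜 E) := (q1 𝕜 E).ker ⊓ (q2 𝕜 E).ker

instance : IsClosed (K 𝕜 E : Set (Lam 𝕜 E)) :=
  (q1 𝕜 E).isClosed_ker.inter (q2 𝕜 E).isClosed_ker

lemma mem_K (a : Lam 𝕜 E) : a ∈ K 𝕜 E ↔ q1 𝕜 E a = 0 ∧ q2 𝕜 E a = 0 := by
  unfold K
  rw [Submodule.mem_inf]
  rfl

abbrev X := Lam 𝕜 E ⧸ K 𝕜 E

def x (i : S E × Bool) : X 𝕜 E := (K 𝕜 E).mkQL (e i)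

lemma norm_x_le (i : S E × Bool) : ‖x 𝕜 E i‖ ≤ 1 := by
  have := Submodule.Quotient.norm_mk_le (K 𝕜 E) (e i)
  rw [norm_e] at this
  exact this

variable {𝕜 E}

lemma qbound {F : Type*} [NormedAddCommGroup F] [NormedSpace 𝕜 F] (T : X 𝕜 E →L[𝕜] F) {C : ℝ}
    (hC : 0 ≤ C) (h : ∀ i, ‖T (x 𝕜 E i)‖ ≤ C) (z : X 𝕜 E) : ‖T z‖ ≤ C * ‖z‖ := by
  have key : ∀ ε > 0, ‖T z‖ ≤ C * (‖z‖ + ε) := by
    intro ε hε
    obtain ⟨a, rfl, ha⟩ := Submodule.Quotient.norm_mk_lt z hε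
    have h1 := bound1 (T.comp (K 𝕜 E).mkQL) (C := C) (fun i => h i) a
    calc ‖T (Submodule.Quotient.mk a)‖ ≤ C * ‖a‖ := h1
      _ ≤ _ := mul_le_mul_of_nonneg_left ha.le hC
  refine le_of_forall_pos_le_add ?_
  intro ε hε
  have h2 := key (ε / (C + 1)) (by positivity)
  have h3 : C * (ε / (C + 1)) ≤ ε := by
    rw [← mul_div_assoc, div_le_iff₀ (by positivity)]
    nlinarith
  linarith [mul_add C ‖z‖ (ε / (C + 1))]

variable (𝕜 E)

def Q1 : X 𝕜 E →L[𝕜] E := (K 𝕜 E).liftQL (q1 𝕜 E) (by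
  intro a ha
  exact ((mem_K 𝕜 E a).1 ha).1)

def Q2 : X 𝕜 E →L[𝕜] L1 𝕜 (S E) := (K 𝕜 E).liftQL (q2 𝕜 E) (by
  intro a ha
  exact ((mem_K 𝕜 E a).1 ha).2)

lemma Q1_mk (a : Lam 𝕜 E) : Q1 𝕜 E (Submodule.Quotient.mk a) = q1 𝕜 E a := rfl
lemma Q2_mk (a : Lam 𝕜 E) : Q2 𝕜 E (Submodule.Quotient.mk a) = q2 𝕜 E a := rfl

lemma Q1_x (s : S E) (b : Bool) : Q1 𝕜 E (x 𝕜 E (s, b)) = s := q1_e 𝕜 E s b

lemma Q2_x (s : S E) (b : Bool) : Q2 𝕜 E (x 𝕜 E (s, b)) = if b then e s else - e s := q2_e 𝕜 E s b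

variable {𝕜 E} in
lemma inj_X {z w : X 𝕜 E} (h1 : Q1 𝕜 E z = Q1 𝕜 E w) (h2 : Q2 𝕜 E z = Q2 𝕜 E w) : z = w := by
  have : z - w = 0 := by
    obtain ⟨a, ha⟩ := Submodule.Quotient.mk_surjective (K 𝕜 E) (z - w)
    rw [← ha]
    rw [Submodule.Quotient.mk_eq_zero, mem_K]
    rw [← Q1_mk, ← Q2_mk, ha, map_sub, map_sub, h1, h2]
    simp
  exact sub_eq_zero.1 this

def sg : Lam 𝕜 E →L[𝕜] Lam 𝕜 E :=
  lift1 (fun i => e (i.1, !i.2)) 1 (fun i => (norm_e _).le)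

lemma sg_e (s : S E) (b : Bool) : sg 𝕜 E (e (s, b)) = e (s, !b) := by
  unfold sg; rw [lift1_e]

lemma q1_sg : (q1 𝕜 E).comp (sg 𝕜 E) = q1 𝕜 E := by
  apply ext1
  rintro ⟨s, b⟩
  simp [sg_e, q1_e]

lemma q2_sg : (q2 𝕜 E).comp (sg 𝕜 E) = - q2 𝕜 E := by
  apply ext1
  rintro ⟨s, b⟩
  cases b <;> simp [sg_e, q2_e]

def Sg : X 𝕜 E →L[𝕜] X 𝕜 E := (K 𝕜 E).liftQL ((K 𝕜 E).mkQL.comp (sg 𝕜 E)) (by
  intro a ha
  rw [mem_K] at ha
  show (K 𝕜 E).mkQL (sg 𝕜 E a) = 0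
  rw [Submodule.mkQL_apply, Submodule.mkQ_apply, Submodule.Quotient.mk_eq_zero, mem_K]
  have h1 := congrArg (fun f => f a) (q1_sg 𝕜 E)
  have h2 := congrArg (fun f => f a) (q2_sg 𝕜 E)
  simp only [ContinuousLinearMap.comp_apply, ContinuousLinearMap.neg_apply] at h1 h2
  rw [h1, h2, ha.1, ha.2]
  simp)

lemma Sg_x (s : S E) (b : Bool) : Sg 𝕜 E (x 𝕜 E (s, b)) = x 𝕜 E (s, !b) := by
  show (K 𝕜 E).mkQL (sg 𝕜 E (e (s, b))) = _
  rw [sg_e]; rfl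

lemma Q1_Sg (z : X 𝕜 E) : Q1 𝕜 E (Sg 𝕜 E z) = Q1 𝕜 E z := by
  obtain ⟨a, rfl⟩ := Submodule.Quotient.mk_surjective (K 𝕜 E) z
  exact congrArg (fun f => f a) (q1_sg 𝕜 E)

lemma Q2_Sg (z : X 𝕜 E) : Q2 𝕜 E (Sg 𝕜 E z) = - Q2 𝕜 E z := by
  obtain ⟨a, rfl⟩ := Submodule.Quotient.mk_surjective (K 𝕜 E) z
  exact congrArg (fun f => f a) (q2_sg 𝕜 E)

def X1 : Submodule 𝕜 (X 𝕜 E) := (Q2 𝕜 E).ker

lemma mem_X1 (z : X 𝕜 E) : z ∈ X1 𝕜 E ↔ Q2 𝕜 E z = 0 := Iff.rfl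

lemma isClosed_X1 : IsClosed (X1 𝕜 E : Set (X 𝕜 E)) := (Q2 𝕜 E).isClosed_ker

lemma oneComplemented_X1 : OneComplemented (X1 𝕜 E) := by
  refine ⟨(2⁻¹ : 𝕜) • (ContinuousLinearMap.id 𝕜 (X 𝕜 E) + Sg 𝕜 E), ?_, ?_, ?_⟩
  · refine ContinuousLinearMap.opNorm_le_bound _ zero_le_one ?_
    intro z
    refine qbound _ zero_le_one ?_ z
    rintro ⟨s, b⟩
    simp only [ContinuousLinearMap.smul_apply, ContinuousLinearMap.add_apply,
      ContinuousLinearMap.id_apply, Sg_x]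
    rw [norm_smul]
    have h1 := norm_add_le (x 𝕜 E (s, b)) (x 𝕜 E (s, !b))
    have h2 := norm_x_le 𝕜 E (s, b)
    have h3 := norm_x_le 𝕜 E (s, !b)
    have h4 : ‖(2⁻¹ : 𝕜)‖ = 1 / 2 := by simp
    rw [h4]
    linarith
  · intro z
    rw [mem_X1]
    simp [Q2_Sg]
  · intro z hz
    rw [mem_X1] at hz
    have hs : Sg 𝕜 E z = z := by
      apply inj_X
      · rw [Q1_Sg]
      · rw [Q2_Sg, hz]; simp
    simp only [ContinuousLinearMap.smul_apply, ContinuousLinearMap.add_apply,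
      ContinuousLinearMap.id_apply, hs]
    rw [← two_smul 𝕜 z, smul_smul]
    simp

lemma norm_Q1_le (z : X 𝕜 E) : ‖Q1 𝕜 E z‖ ≤ ‖z‖ := by
  have := qbound (Q1 𝕜 E) zero_le_one (fun i => by
    obtain ⟨s, b⟩ := i
    rw [Q1_x]; exact s.2.le) z
  simpa using this

/-- the preimage in X1 -/
lemma exists_pre (w : E) : ∃ z ∈ X1 𝕜 E, Q1 𝕜 E z = w ∧ ‖z‖ ≤ ‖w‖ := by
  by_cases hw : w = 0
  · exact ⟨0, Submodule.zero_mem _, by simp [hw], by simp⟩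
  · have hn : ‖w‖ ≠ 0 := norm_ne_zero_iff.2 hw
    have hn' : ((‖w‖ : ℝ) : 𝕜) ≠ 0 := by exact_mod_cast hn
    let s : S E := ⟨((‖w‖ : 𝕜)⁻¹) • w, by rw [norm_smul]; simp [hn]⟩
    have hs : (s : E) = ((‖w‖ : 𝕜)⁻¹) • w := rfl
    refine ⟨((‖w‖ : 𝕜) * 2⁻¹) • (x 𝕜 E (s, true) + x 𝕜 E (s, false)), ?_, ?_, ?_⟩
    · rw [mem_X1]
      simp [Q2_x]
    · simp only [map_smul, map_add, Q1_x]
      rw [hs, ← two_smul 𝕜, smul_smul, smul_smul]
      have : (‖w‖ : 𝕜) * 2⁻¹ * 2 * (‖w‖ : 𝕜)⁻¹ = 1 := by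
        field_simp
      rw [this, one_smul]
    · rw [norm_smul]
      have h1 := norm_add_le (x 𝕜 E (s, true)) (x 𝕜 E (s, false))
      have h2 := norm_x_le 𝕜 E (s, true)
      have h3 := norm_x_le 𝕜 E (s, false)
      have h4 : ‖((‖w‖ : 𝕜) * 2⁻¹)‖ = ‖w‖ / 2 := by
        rw [norm_mul]; simp; ring
      rw [h4]
      nlinarith [norm_nonneg w]

lemma norm_Q1_X1 (z : X 𝕜 E) (hz : z ∈ X1 𝕜 E) : ‖Q1 𝕜 E z‖ = ‖z‖ := by
  refine le_antisymm (norm_Q1_le 𝕜 E z) ?_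
  obtain ⟨y, hy, h1, h2⟩ := exists_pre 𝕜 E (Q1 𝕜 E z)
  have : y = z := by
    apply inj_X h1
    rw [mem_X1] at hy hz
    rw [hy, hz]
  rw [← this]
  rw [← this] at h2
  exact h2

def iso : X1 𝕜 E ≃ₗᵢ[𝕜] E :=
  LinearIsometryEquiv.ofSurjective
    { toLinearMap := (Q1 𝕜 E).toLinearMap.comp (X1 𝕜 E).subtype
      norm_map' := fun z => norm_Q1_X1 𝕜 E z z.2 }
    (by
      intro w
      obtain ⟨z, hz, h1, h2⟩ := exists_pre 𝕜 E w
      exact ⟨⟨z, hz⟩, h1⟩)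

/-- the functionals of property alpha -/
lemma exists_phi (i : S E × Bool) : ∃ φ : X 𝕜 E →L[𝕜] 𝕜, φ (x 𝕜 E i) = 1 ∧
    ∀ j, j ≠ i → ‖φ (x 𝕜 E j)‖ ≤ 1 / 2 := by
  obtain ⟨s, b⟩ := i
  have hs0 : ‖(s : E)‖ ≠ 0 := by
    rw [s.2]; exact one_ne_zero
  obtain ⟨g, hg1, hg2⟩ := exists_dual_vector 𝕜 (s : E) hs0
  let c : L1 𝕜 (S E) →L[𝕜] 𝕜 := lift1 (fun t => if t = s then 1 else 0) 1 (by
    intro t
    split_ifs <;> simp)
  have hc : ∀ t, c (e t) = if t = s then 1 else 0 := fun t => lift1_e _ _ _ t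
  refine ⟨(2⁻¹ : 𝕜) • (g.comp (Q1 𝕜 E)) + ((if b then 1 else -1) * 2⁻¹ : 𝕜) • (c.comp (Q2 𝕜 E)),
    ?_, ?_⟩
  · have hs1 : ‖(s : E)‖ = 1 := s.2
    simp only [ContinuousLinearMap.add_apply, ContinuousLinearMap.smul_apply,
      ContinuousLinearMap.comp_apply, Q1_x, Q2_x, hg2, hs1]
    cases b
    · simp [hc]; norm_num
    · simp [hc]; norm_num
  · rintro ⟨t, b'⟩ hne
    simp only [ContinuousLinearMap.add_apply, ContinuousLinearMap.smul_apply,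
      ContinuousLinearMap.comp_apply, Q1_x, Q2_x]
    have hgt : ‖g (t : E)‖ ≤ 1 := by
      have := g.le_opNorm (t : E)
      rw [hg1, t.2] at this
      simpa using this
    by_cases hts : t = s
    · subst hts
      have hb : b' ≠ b := fun h => hne (by rw [h])
      have ht1 : ‖(t : E)‖ = 1 := t.2
      rw [hg2, ht1]
      cases b <;> cases b' <;> simp_all
    · have : c (if b' = true then e t else - e t) = 0 := by
        split_ifs
        · rw [hc]; simp [hts]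
        · rw [map_neg, hc]; simp [hts]
      rw [this]
      simp only [smul_zero, add_zero, norm_smul]
      have h4 : ‖(2⁻¹ : 𝕜)‖ = 1 / 2 := by simp
      rw [h4]
      linarith

theorem dense_NA [Nontrivial E] (Y : Type*) [NormedAddCommGroup Y] [NormedSpace 𝕜 Y]
    (T : X 𝕜 E →L[𝕜] Y) {ε : ℝ} (hε : 0 < ε) : ∃ S ∈ NA 𝕜 (X 𝕜 E) Y, ‖S - T‖ < ε := by
  -- norm one vectors
  have hx1 : ∀ i, ∃ φ : X 𝕜 E →L[𝕜] 𝕜, ‖φ‖ ≤ 1 ∧ φ (x 𝕜 E i) = 1 ∧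
      ∀ j, j ≠ i → ‖φ (x 𝕜 E j)‖ ≤ 1 / 2 := by
    intro i
    obtain ⟨φ, h1, h2⟩ := exists_phi 𝕜 E i
    refine ⟨φ, ?_, h1, h2⟩
    refine ContinuousLinearMap.opNorm_le_bound _ zero_le_one ?_
    intro z
    refine qbound _ zero_le_one ?_ z
    intro j
    by_cases hj : j = i
    · rw [hj, h1]; simp
    · linarith [h2 j hj]
  have hnx : ∀ i, ‖x 𝕜 E i‖ = 1 := by
    intro i
    refine le_antisymm (norm_x_le 𝕜 E i) ?_
    obtain ⟨φ, h0, h1, -⟩ := hx1 i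
    have := φ.le_opNorm (x 𝕜 E i)
    rw [h1, norm_one] at this
    nlinarith [norm_nonneg (x 𝕜 E i)]
  by_cases hT : T = 0
  · subst hT
    obtain ⟨w, hw⟩ := exists_ne (0 : E)
    have hn : ‖w‖ ≠ 0 := norm_ne_zero_iff.2 hw
    let s : S E := ⟨((‖w‖ : 𝕜)⁻¹) • w, by rw [norm_smul]; simp [hn]⟩
    refine ⟨0, ⟨x 𝕜 E (s, true), hnx _, by simp⟩, by simpa using hε⟩
  · have hTn : 0 < ‖T‖ := by
      rcases (norm_nonneg T).eq_or_lt with h | h
      · refine absurd (ContinuousLinearMap.ext fun z => ?_) hT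
        have h1 := T.le_opNorm z
        rw [← h, zero_mul] at h1
        simpa using norm_le_zero_iff.1 h1
      · exact h
    obtain ⟨δ, hδ, hδε⟩ : ∃ δ : ℝ, 0 < δ ∧ δ * ‖T‖ < ε := by
      refine ⟨ε / (2 * ‖T‖), by positivity, ?_⟩
      have : ε / (2 * ‖T‖) * ‖T‖ = ε / 2 := by field_simp
      rw [this]; linarith
    obtain ⟨i, hi⟩ : ∃ i, ‖T‖ < (1 + δ / 2) * ‖T (x 𝕜 E i)‖ := by
      by_contra hcon
      push Not at hcon
      have h1 : ‖T‖ ≤ ‖T‖ / (1 + δ / 2) := by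
        refine ContinuousLinearMap.opNorm_le_bound _ (by positivity) ?_
        intro z
        refine qbound T (by positivity) ?_ z
        intro i
        rw [le_div_iff₀ (by positivity), mul_comm]
        exact hcon i
      rw [le_div_iff₀ (by positivity)] at h1
      nlinarith
    obtain ⟨φ, h0, h1, h2⟩ := hx1 i
    let R : X 𝕜 E →L[𝕜] Y := (δ : 𝕜) • φ.smulRight (T (x 𝕜 E i))
    have hR : ∀ z, R z = (δ : 𝕜) • (φ z • T (x 𝕜 E i)) := fun z => rfl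
    have hTx : ‖T (x 𝕜 E i)‖ ≤ ‖T‖ := by
      have := T.le_opNorm (x 𝕜 E i)
      rwa [hnx, mul_one] at this
    have hRn : ‖R‖ ≤ δ * ‖T‖ := by
      refine ContinuousLinearMap.opNorm_le_bound _ (by positivity) ?_
      intro z
      rw [hR, norm_smul, norm_smul]
      have h3 : ‖(δ : 𝕜)‖ = δ := by
        rw [RCLike.norm_ofReal, abs_of_pos hδ]
      rw [h3]
      have h4 : ‖φ z‖ ≤ ‖z‖ := by
        have := φ.le_opNorm z
        nlinarith [norm_nonneg z]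
      calc δ * (‖φ z‖ * ‖T (x 𝕜 E i)‖) ≤ δ * (‖z‖ * ‖T‖) := by gcongr
        _ = _ := by ring
    refine ⟨T + R, ⟨x 𝕜 E i, hnx i, ?_⟩, ?_⟩
    · have hSx : ‖(T + R) (x 𝕜 E i)‖ = (1 + δ) * ‖T (x 𝕜 E i)‖ := by
        rw [ContinuousLinearMap.add_apply, hR, h1, one_smul]
        have : T (x 𝕜 E i) + (δ : 𝕜) • T (x 𝕜 E i) = ((1 + δ : ℝ) : 𝕜) • T (x 𝕜 E i) := by
          push_cast
          rw [add_smul, one_smul]
        rw [this, norm_smul, RCLike.norm_ofReal, abs_of_pos (by positivity)]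
      refine le_antisymm ?_ ?_
      · have := (T + R).le_opNorm (x 𝕜 E i)
        rwa [hnx, mul_one] at this
      · rw [hSx]
        refine ContinuousLinearMap.opNorm_le_bound _ (by positivity) ?_
        intro z
        refine qbound _ (by positivity) ?_ z
        intro j
        by_cases hj : j = i
        · rw [hj, hSx]
        · rw [ContinuousLinearMap.add_apply, hR]
          have h5 : ‖T (x 𝕜 E j)‖ ≤ ‖T‖ := by
            have := T.le_opNorm (x 𝕜 E j)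
            rwa [hnx, mul_one] at this
          have h6 : ‖(δ : 𝕜) • φ (x 𝕜 E j) • T (x 𝕜 E i)‖ ≤ δ / 2 * ‖T (x 𝕜 E i)‖ := by
            rw [norm_smul, norm_smul, RCLike.norm_ofReal, abs_of_pos hδ]
            have := h2 j hj
            calc δ * (‖φ (x 𝕜 E j)‖ * ‖T (x 𝕜 E i)‖) ≤ δ * (1 / 2 * ‖T (x 𝕜 E i)‖) := by gcongr
              _ = _ := by ring
          calc _ ≤ ‖T (x 𝕜 E j)‖ + ‖(δ : 𝕜) • φ (x 𝕜 E j) • T (x 𝕜 E i)‖ := norm_add_le _ _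
            _ ≤ ‖T‖ + δ / 2 * ‖T (x 𝕜 E i)‖ := add_le_add h5 h6
            _ ≤ (1 + δ) * ‖T (x 𝕜 E i)‖ := by nlinarith
    · rw [add_sub_cancel_left]
      linarith

end constr

lemma dense_NA_iff {𝕜 X Y : Type*} [RCLike 𝕜] [NormedAddCommGroup X] [NormedSpace 𝕜 X]
    [NormedAddCommGroup Y] [NormedSpace 𝕜 Y] :
    Dense (NA 𝕜 X Y) ↔ ∀ T : X →L[𝕜] Y, ∀ ε > 0, ∃ S ∈ NA 𝕜 X Y, ‖S - T‖ < ε := by
  rw [Metric.dense_iff]
  constructor
  · intro h T ε hε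
    obtain ⟨S, h1, h2⟩ := h T ε hε
    exact ⟨S, h2, by rwa [mem_ball_iff_norm] at h1⟩
  · intro h T ε hε
    obtain ⟨S, h1, h2⟩ := h T ε hε
    exact ⟨S, by rwa [mem_ball_iff_norm], h1⟩

lemma transport {𝕜 E F Y : Type*} [RCLike 𝕜] [NormedAddCommGroup E] [NormedSpace 𝕜 E]
    [NormedAddCommGroup F] [NormedSpace 𝕜 F]
    [NormedAddCommGroup Y] [NormedSpace 𝕜 Y] (f : F ≃ₗᵢ[𝕜] E) (h : Dense (NA 𝕜 F Y)) :
    Dense (NA 𝕜 E Y) := by
  rw [dense_NA_iff] at h ⊢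
  intro T ε hε
  have hn : ∀ R : F →L[𝕜] Y, ‖R.comp (f.symm : E →L[𝕜] F)‖ = ‖R‖ := by
    intro R
    refine le_antisymm ?_ ?_
    · refine ContinuousLinearMap.opNorm_le_bound _ (norm_nonneg _) ?_
      intro z
      have := R.le_opNorm (f.symm z)
      rwa [f.symm.norm_map] at this
    · refine ContinuousLinearMap.opNorm_le_bound _ (norm_nonneg _) ?_
      intro z
      have := (R.comp (f.symm : E →L[𝕜] F)).le_opNorm (f z)
      rw [f.norm_map] at this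
      simpa using this
  obtain ⟨S, ⟨z, hz1, hz2⟩, h2⟩ := h (T.comp (f : F →L[𝕜] E)) ε hε
  refine ⟨S.comp (f.symm : E →L[𝕜] F), ⟨f z, by rw [f.norm_map, hz1], ?_⟩, ?_⟩
  · rw [hn, ← hz2]
    simp
  · have : S.comp (f.symm : E →L[𝕜] F) - T
        = (S - T.comp (f : F →L[𝕜] E)).comp (f.symm : E →L[𝕜] F) := by
      ext z
      simp
    rw [this, hn]
    exact h2

end Pool.Agent.Q142.NAQ
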