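import Pool.Agent.Q142.NAQ

set_option autoImplicit false

noncomputable section

open Filter Topology

namespace Pool.Agent.Q142.NAQ

universe u

section czero

variable (𝕜 : Type u) [RCLike 𝕜]

abbrev C0 := ZeroAtInftyContinuousMap ℕ 𝕜

variable {𝕜}

lemma c0_coe_le (f : C0 𝕜) (n : ℕ) : ‖f n‖ ≤ ‖f‖ := by
  rw [← ZeroAtInftyContinuousMap.norm_toBCF_eq_norm]
  exact f.toBCF.norm_coe_le_norm n

lemma c0_le {f : C0 𝕜} {C : ℝ} (hC : 0 ≤ C) (h : ∀ n, ‖f n‖ ≤ C) : ‖f‖ ≤ C := by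
  rw [← ZeroAtInftyContinuousMap.norm_toBCF_eq_norm]
  exact (BoundedContinuousFunction.norm_le hC).2 h

lemma c0_tendsto (f : C0 𝕜) : Tendsto f atTop (𝓝 0) := by
  have := f.zero_at_infty'
  rw [cocompact_eq_cofinite, Nat.cofinite_eq_atTop] at this
  exact this

variable (𝕜) in
def en (n : ℕ) : C0 𝕜 :=
  ⟨⟨Pi.single n 1, continuous_of_discreteTopology⟩, by
    rw [cocompact_eq_cofinite, Nat.cofinite_eq_atTop]
    refine tendsto_const_nhds.congr' ?_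
    filter_upwards [eventually_gt_atTop n] with m hm
    exact (Pi.single_eq_of_ne (M := fun _ : ℕ => 𝕜) hm.ne' (1 : 𝕜)).symm⟩

lemma en_apply (n m : ℕ) : en 𝕜 n m = if m = n then 1 else 0 := by
  show (Pi.single n (1 : 𝕜) : ℕ → 𝕜) m = _
  rw [Pi.single_apply]

lemma norm_en_le (n : ℕ) : ‖en 𝕜 n‖ ≤ 1 := by
  refine c0_le zero_le_one ?_
  intro m
  rw [en_apply]
  split_ifs <;> simp

lemma one_le_norm_en (n : ℕ) : 1 ≤ ‖en 𝕜 n‖ := by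
  have := c0_coe_le (en 𝕜 n) n
  rw [en_apply] at this
  simpa using this

abbrev H2 (𝕜 : Type u) [RCLike 𝕜] := lp (fun _ : ℕ => 𝕜) 2

lemma sumD (f : C0 𝕜) : Summable (fun n : ℕ => ‖((1 / 2 : 𝕜) ^ n) * f n‖ ^ (2 : ENNReal).toReal) := by
  have hg : Summable (fun n : ℕ => ‖f‖ ^ 2 * (1 / 4 : ℝ) ^ n) :=
    (summable_geometric_of_lt_one (by norm_num) (by norm_num)).mul_left _
  refine Summable.of_nonneg_of_le (fun n => by positivity) ?_ hg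
  intro n
  have h1 := c0_coe_le f n
  have h2 : ‖((1 / 2 : 𝕜) ^ n) * f n‖ = (1 / 2 : ℝ) ^ n * ‖f n‖ := by
    rw [norm_mul, norm_pow]; simp
  rw [h2]
  have h3 : (2 : ENNReal).toReal = ((2 : ℕ) : ℝ) := by simp
  rw [h3, Real.rpow_natCast, mul_pow, ← pow_mul, mul_comm n 2, pow_mul]
  have h4 : ((1 / 2 : ℝ) ^ 2) = 1 / 4 := by norm_num
  rw [h4, mul_comm]
  gcongr

def D : C0 𝕜 →L[𝕜] H2 𝕜 :=
  LinearMap.mkContinuous
    { toFun := fun f => ⟨fun n => ((1 / 2 : 𝕜) ^ n) * f n, memℓp_gen (sumD f)⟩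
      map_add' := by
        intro f g
        ext n
        show (1 / 2 : 𝕜) ^ n * (f n + g n) = (1 / 2 : 𝕜) ^ n * f n + (1 / 2 : 𝕜) ^ n * g n
        rw [mul_add]
      map_smul' := by
        intro c f
        ext n
        show (1 / 2 : 𝕜) ^ n * (c * f n) = c * ((1 / 2 : 𝕜) ^ n * f n)
        ring } 2 (by
      intro f
      refine lp.norm_le_of_tsum_le (by norm_num) (by positivity) ?_
      have hg : HasSum (fun n : ℕ => ‖f‖ ^ 2 * (1 / 4 : ℝ) ^ n) (‖f‖ ^ 2 * (1 - 1 / 4)⁻¹) :=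
        (hasSum_geometric_of_lt_one (by norm_num) (by norm_num)).mul_left _
      have h0 : ∑' n : ℕ, ‖((1 / 2 : 𝕜) ^ n) * f n‖ ^ (2 : ENNReal).toReal ≤
          ‖f‖ ^ 2 * (1 - 1 / 4)⁻¹ := by
        refine (sumD f).tsum_le_of_sum_le ?_ |>.trans le_rfl
        intro s
        refine (Finset.sum_le_sum ?_).trans (hg.summable.sum_le_tsum s (fun _ _ => by positivity)
          |>.trans hg.tsum_eq.le)
        intro n _
        have h1 := c0_coe_le f n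
        have h2 : ‖((1 / 2 : 𝕜) ^ n) * f n‖ = (1 / 2 : ℝ) ^ n * ‖f n‖ := by
          rw [norm_mul, norm_pow]; simp
        rw [h2]
        have h3 : (2 : ENNReal).toReal = ((2 : ℕ) : ℝ) := by simp
        rw [h3, Real.rpow_natCast, mul_pow, ← pow_mul, mul_comm n 2, pow_mul]
        have h4 : ((1 / 2 : ℝ) ^ 2) = 1 / 4 := by norm_num
        rw [h4, mul_comm]
        gcongr
      refine h0.trans ?_
      have h3 : (2 : ENNReal).toReal = ((2 : ℕ) : ℝ) := by simp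
      rw [h3, Real.rpow_natCast]
      nlinarith [sq_nonneg ‖f‖])

lemma D_apply (f : C0 𝕜) (n : ℕ) : (D f : H2 𝕜) n = ((1 / 2 : 𝕜) ^ n) * f n := rfl

lemma D_inj {f : C0 𝕜} (h : D f = 0) : f = 0 := by
  ext n
  have h1 := D_apply f n
  rw [h] at h1
  have h2 : ((1 / 2 : 𝕜) ^ n) ≠ 0 := pow_ne_zero _ (by norm_num)
  have h3 : ((1 / 2 : 𝕜) ^ n) * f n = 0 := h1.symm
  simpa [h2] using h3

abbrev W (𝕜 : Type u) [RCLike 𝕜] := WithLp 2 (C0 𝕜 × H2 𝕜)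

lemma conv (a b : W 𝕜) : 2 * ‖a‖ ^ 2 + 2 * ‖b.snd‖ ^ 2 ≤ ‖a + b‖ ^ 2 + ‖a - b‖ ^ 2 := by
  rw [WithLp.prod_norm_sq_eq_of_L2, WithLp.prod_norm_sq_eq_of_L2, WithLp.prod_norm_sq_eq_of_L2]
  have h1 := parallelogram_law_with_norm 𝕜 a.snd b.snd
  have h2 : ‖(2 : 𝕜) • a.fst‖ ≤ ‖a.fst + b.fst‖ + ‖a.fst - b.fst‖ := by
    have : (2 : 𝕜) • a.fst = (a.fst + b.fst) + (a.fst - b.fst) := by
      rw [two_smul 𝕜 a.fst]; abel
    rw [this]
    exact norm_add_le _ _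
  rw [norm_smul] at h2
  have h3 : ‖(2 : 𝕜)‖ = 2 := by simp
  rw [h3] at h2
  have e1 : (a + b).fst = a.fst + b.fst := rfl
  have e2 : (a + b).snd = a.snd + b.snd := rfl
  have e3 : (a - b).fst = a.fst - b.fst := rfl
  have e4 : (a - b).snd = a.snd - b.snd := rfl
  rw [e1, e2, e3, e4]
  nlinarith [sq_nonneg (‖a.fst + b.fst‖ - ‖a.fst - b.fst‖), norm_nonneg a.fst,
    norm_nonneg (a.fst + b.fst), norm_nonneg (a.fst - b.fst)]

def jj : C0 𝕜 →L[𝕜] W 𝕜 :=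
  (WithLp.prodContinuousLinearEquiv 2 𝕜 (C0 𝕜) (H2 𝕜)).symm.toContinuousLinearMap.comp
    ((ContinuousLinearMap.id 𝕜 (C0 𝕜)).prod D)

lemma jj_fst (f : C0 𝕜) : (jj f).fst = f := rfl
lemma jj_snd (f : C0 𝕜) : (jj f).snd = D f := rfl

lemma le_norm_jj (f : C0 𝕜) : ‖f‖ ≤ ‖jj f‖ := by
  have := WithLp.prod_norm_sq_eq_of_L2 (jj f)
  rw [jj_fst] at this
  refine le_of_sq_le_sq ?_ (norm_nonneg _)
  nlinarith [sq_nonneg ‖(jj f).snd‖]

variable (𝕜) in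
def Yc : Submodule 𝕜 (W 𝕜) := LinearMap.range (jj (𝕜 := 𝕜)).toLinearMap

lemma anti_jj : AntilipschitzWith 1 (jj (𝕜 := 𝕜)) := by
  refine AddMonoidHomClass.antilipschitz_of_bound _ ?_
  intro f
  simpa using le_norm_jj f

instance complete_Yc : CompleteSpace (Yc 𝕜) := by
  have h : IsClosed (Set.range (jj (𝕜 := 𝕜))) :=
    anti_jj.isClosed_range (jj (𝕜 := 𝕜)).uniformContinuous
  have h2 : IsClosed ((Yc 𝕜 : Submodule 𝕜 (W 𝕜)) : Set (W 𝕜)) := by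
    unfold Yc
    rw [LinearMap.coe_range]
    exact h
  exact h2.completeSpace_coe

variable (𝕜) in
def Tc : C0 𝕜 →L[𝕜] Yc 𝕜 :=
  (jj (𝕜 := 𝕜)).codRestrict (Yc 𝕜) (fun f => ⟨f, rfl⟩)

lemma le_norm_Tc (f : C0 𝕜) : ‖f‖ ≤ ‖Tc 𝕜 f‖ := le_norm_jj f

variable (𝕜) in
theorem not_dense_gen {E Y : Type*} [NormedAddCommGroup E] [NormedSpace 𝕜 E]
    [NormedAddCommGroup Y] [NormedSpace 𝕜 Y] (v : ℕ → E) (hv : ∀ n, ‖v n‖ ≤ 1)
    (hE : ∀ f : E, ‖f‖ = 1 → ∀ᶠ n in atTop, ∀ c : 𝕜, ‖c‖ ≤ 1 / 2 → ‖f + c • v n‖ ≤ 1)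
    (hY : ∀ a b : Y, ‖a + b‖ ≤ ‖a‖ → ‖a - b‖ ≤ ‖a‖ → b = 0)
    (T : E →L[𝕜] Y) (hT : ∀ n, 1 ≤ ‖T (v n)‖) : ¬ Dense (NA 𝕜 E Y) := by
  intro h
  rw [dense_NA_iff] at h
  obtain ⟨S, ⟨f, hf1, hf2⟩, hd⟩ := h T 1 one_pos
  obtain ⟨n, hn⟩ := (hE f hf1).exists
  have hS2 : ∀ c : 𝕜, ‖c‖ ≤ 1 / 2 → ‖S f + c • S (v n)‖ ≤ ‖S f‖ := by
    intro c hc
    rw [← map_smul, ← map_add, hf2]
    have := S.le_opNorm (f + c • v n)
    calc _ ≤ ‖S‖ * ‖f + c • v n‖ := this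
      _ ≤ ‖S‖ * 1 := mul_le_mul_of_nonneg_left (hn c hc) (norm_nonneg _)
      _ = _ := mul_one _
  have hp := hS2 (1 / 2) (by simp)
  have hm := hS2 (-(1 / 2)) (by simp)
  rw [neg_smul, ← sub_eq_add_neg] at hm
  have hb := hY _ _ hp hm
  have hSn : S (v n) = 0 := (smul_eq_zero.1 hb).resolve_left (by norm_num)
  have h1 := (S - T).le_opNorm (v n)
  have h2 : (S - T) (v n) = - T (v n) := by
    rw [ContinuousLinearMap.sub_apply, hSn, zero_sub]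
  rw [h2, norm_neg] at h1
  have h4 := hT n
  have h5 := hv n
  nlinarith [norm_nonneg (S - T)]

theorem not_dense_c0 : ¬ Dense (NA 𝕜 (C0 𝕜) (Yc 𝕜)) := by
  refine not_dense_gen 𝕜 (fun n => en 𝕜 n) (fun n => norm_en_le n) ?_ ?_ (Tc 𝕜) ?_
  · intro f hf1
    have h1 : ∀ᶠ n in atTop, ‖f n‖ < 1 / 2 := by
      have := (c0_tendsto f).norm
      rw [norm_zero] at this
      exact this.eventually (gt_mem_nhds (by norm_num))
    filter_upwards [h1] with n hn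
    intro c hc
    refine c0_le zero_le_one ?_
    intro m
    have e1 : (f + c • en 𝕜 n) m = f m + c * en 𝕜 n m := rfl
    rw [e1, en_apply]
    split_ifs with hm
    · rw [hm, mul_one]
      exact (norm_add_le _ _).trans (by linarith)
    · rw [mul_zero, add_zero]
      exact (c0_coe_le f m).trans hf1.le
  · intro a b hp hm
    have hp' : ‖(a : W 𝕜) + b‖ ≤ ‖(a : W 𝕜)‖ := hp
    have hm' : ‖(a : W 𝕜) - b‖ ≤ ‖(a : W 𝕜)‖ := hm
    have hc := conv (a : W 𝕜) b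
    have hb0 : ‖(b : W 𝕜).snd‖ ^ 2 ≤ 0 := by
      have h3 : ‖(a : W 𝕜) + b‖ ^ 2 ≤ ‖(a : W 𝕜)‖ ^ 2 := by gcongr
      have h4 : ‖(a : W 𝕜) - b‖ ^ 2 ≤ ‖(a : W 𝕜)‖ ^ 2 := by gcongr
      linarith
    have hb1 : (b : W 𝕜).snd = 0 := by
      have : ‖(b : W 𝕜).snd‖ = 0 :=
        pow_eq_zero_iff (two_ne_zero) |>.1 (le_antisymm hb0 (sq_nonneg _))
      exact norm_eq_zero.1 this
    obtain ⟨g, hg⟩ : ∃ g, jj (𝕜 := 𝕜) g = b := b.2
    have hg0 : g = 0 := by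
      apply D_inj
      rw [← jj_snd, hg, hb1]
    apply Subtype.ext
    rw [← hg, hg0, map_zero]
    rfl
  · intro n
    exact (one_le_norm_en n).trans (le_norm_Tc _)

end czero

instance (𝕜 : Type u) [RCLike 𝕜] : Nontrivial (C0 𝕜) :=
  ⟨en 𝕜 0, 0, fun h => by
    have := one_le_norm_en (𝕜 := 𝕜) 0
    rw [h, norm_zero] at this
    linarith⟩

end Pool.Agent.Q142.NAQ
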