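import Mathlib
import Pool.Agent.Q142.Expl
import Pool.Agent.Q142.OrbDefs

set_option autoImplicit false

/-!
# Boxes as orbit polytopes of the group of sign changes
-/

namespace Q142.Orb

open MeasureTheory Q142 InnerProductGeometry
open scoped MeasureTheory RealInnerProductSpace ContDiff

variable {k : ℕ}

/-- the real number of a sign -/
noncomputable def sg (u : ℤˣ) : ℝ := ((u : ℤ) : ℝ)

lemma sg_cases (u : ℤˣ) : sg u = 1 ∨ sg u = -1 := by
  rcases Int.units_eq_one_or u with h | h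
  · left; rw [h]; simp [sg]
  · right; rw [h]; simp [sg]

lemma sg_mul (u v : ℤˣ) : sg (u * v) = sg u * sg v := by simp [sg]

lemma sg_one : sg 1 = 1 := by simp [sg]

lemma sg_neg (u : ℤˣ) : sg (-u) = - sg u := by simp [sg]

lemma sg_sq (u : ℤˣ) : sg u * sg u = 1 := by
  rcases sg_cases u with h | h <;> rw [h] <;> norm_num

lemma sg_ne (u : ℤˣ) : sg u ≠ 0 := by
  rcases sg_cases u with h | h <;> rw [h] <;> norm_num

lemma sg_inj {u v : ℤˣ} (h : sg u = sg v) : u = v := by
  unfold sg at h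
  exact Units.ext (by exact_mod_cast h)

/-- the vector `(ε_i w_i)` -/
noncomputable def sw (ε : Fin k → ℤˣ) (w : Sp k) : Sp k := WithLp.toLp 2 fun i => sg (ε i) * w i

@[simp] lemma sw_apply (ε : Fin k → ℤˣ) (w : Sp k) (i : Fin k) : sw ε w i = sg (ε i) * w i := rfl

lemma sw_sw (ε δ : Fin k → ℤˣ) (w : Sp k) : sw ε (sw δ w) = sw (ε * δ) w := by
  ext i
  simp [sg_mul, mul_assoc]

lemma sw_one (w : Sp k) : sw 1 w = w := by
  ext i
  simp [sg_one]

lemma norm_sw (ε : Fin k → ℤˣ) (w : Sp k) : ‖sw ε w‖ = ‖w‖ := by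
  rw [EuclideanSpace.norm_eq, EuclideanSpace.norm_eq]
  congr 1
  apply Finset.sum_congr rfl
  intro i _
  rw [sw_apply, norm_mul]
  rcases sg_cases (ε i) with h | h <;> rw [h] <;> simp

/-- sign change as an isometry -/
noncomputable def iso (ε : Fin k → ℤˣ) : Sp k ≃ₗᵢ[ℝ] Sp k where
  toFun := sw ε
  invFun := sw ε
  map_add' x y := by
    ext i
    simp [mul_add]
  map_smul' c x := by
    ext i
    simp
    ring
  left_inv x := by
    show sw ε (sw ε x) = x
    rw [sw_sw]
    have : ε * ε = 1 := by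
      funext i
      simp
    rw [this, sw_one]
  right_inv x := by
    show sw ε (sw ε x) = x
    rw [sw_sw]
    have : ε * ε = 1 := by
      funext i
      simp
    rw [this, sw_one]
  norm_map' x := norm_sw ε x

lemma iso_apply (ε : Fin k → ℤˣ) (w : Sp k) : iso ε w = sw ε w := rfl

/-- the group of sign changes -/
noncomputable def signs (k : ℕ) : Subgroup (Sp k ≃ₗᵢ[ℝ] Sp k) where
  carrier := Set.range iso
  mul_mem' := by
    rintro _ _ ⟨ε, rfl⟩ ⟨δ, rfl⟩
    refine ⟨ε * δ, ?_⟩
    ext1 x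
    show sw (ε * δ) x = sw ε (sw δ x)
    rw [sw_sw]
  one_mem' := ⟨1, by
    ext1 x
    exact sw_one x⟩
  inv_mem' := by
    rintro _ ⟨ε, rfl⟩
    exact ⟨ε, by
      ext1 x
      rfl⟩

lemma finite_signs : Finite (signs k) := by
  have : (Set.range (iso : (Fin k → ℤˣ) → _)).Finite := Set.finite_range _
  exact this

lemma orbit_eq (w : Sp k) : {x | ∃ γ ∈ signs k, x = γ w} = Set.range fun ε => sw ε w := by
  ext x
  constructor
  · rintro ⟨_, ⟨ε, rfl⟩, rfl⟩
    exact ⟨ε, rfl⟩
  · rintro ⟨ε, rfl⟩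
    exact ⟨iso ε, ⟨ε, rfl⟩, rfl⟩

/-- the box -/
abbrev box (w : Sp k) : Set (Sp k) := orb (signs k) w

lemma box_eq (w : Sp k) : box w = convexHull ℝ (Set.range fun ε => sw ε w) := by
  unfold box orb
  rw [orbit_eq]

lemma mem_box (w : Sp k) (ε : Fin k → ℤˣ) : sw ε w ∈ box w := by
  rw [box_eq]
  exact subset_convexHull ℝ _ ⟨ε, rfl⟩

lemma self_mem_box (w : Sp k) : w ∈ box w := by
  have := mem_box w 1
  rwa [sw_one] at this

lemma abs_sw (ε : Fin k → ℤˣ) (w : Sp k) (i : Fin k) : |sw ε w i| = |w i| := by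
  rw [sw_apply, abs_mul]
  rcases sg_cases (ε i) with h | h <;> rw [h] <;> simp

/-- the faces of a box through its vertices -/
lemma face_box {w : Sp k} {F : Set (Sp k)} (hF : IsExposed ℝ (box w) F) (hne : F.Nonempty) :
    F = convexHull ℝ ((Set.range fun ε => sw ε w) ∩ F) := by
  rw [box_eq] at hF
  obtain ⟨l, M, -, -, h⟩ := face_data hF hne
  exact h

lemma vertex_mem {w v : Sp k} (hv : v ∈ vertices (box w)) : ∃ ε, v = sw ε w := by
  have h := face_box hv (Set.singleton_nonempty v)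
  have h2 : ((Set.range fun ε => sw ε w) ∩ {v}).Nonempty := by
    by_contra hne
    rw [Set.not_nonempty_iff_eq_empty] at hne
    rw [hne, convexHull_empty] at h
    exact Set.singleton_ne_empty _ h
  obtain ⟨_, ⟨ε, rfl⟩, hx⟩ := h2
  exact ⟨ε, (Set.mem_singleton_iff.1 hx).symm⟩

/-- exposing faces of a box by a functional -/
lemma exposed_box {w : Sp k} (l : StrongDual ℝ (Sp k)) (M : ℝ) (A : Set (Fin k → ℤˣ))
    (hA : A.Nonempty) (h1 : ∀ ε ∈ A, l (sw ε w) = M) (h2 : ∀ ε, ε ∉ A → l (sw ε w) < M) :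
    IsExposed ℝ (box w) (convexHull ℝ ((fun ε => sw ε w) '' A)) := by
  have hle : ∀ x ∈ box w, l x ≤ M := by
    rw [box_eq]
    apply le_on_hull
    rintro _ ⟨ε, rfl⟩
    by_cases h : ε ∈ A
    · exact (h1 ε h).le
    · exact (h2 ε h).le
  have hexp := exposed_le (box w) l M hle
  have hne : {x | x ∈ box w ∧ l x = M}.Nonempty := by
    obtain ⟨ε, hε⟩ := hA
    exact ⟨sw ε w, mem_box w ε, h1 ε hε⟩
  have h3 := face_box hexp hne
  have h4 : (Set.range fun ε => sw ε w) ∩ {x | x ∈ box w ∧ l x = M} =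
      (fun ε => sw ε w) '' A := by
    ext x
    constructor
    · rintro ⟨⟨ε, rfl⟩, _, hx⟩
      refine ⟨ε, ?_, rfl⟩
      by_contra h
      exact absurd hx (h2 ε h).ne
    · rintro ⟨ε, hε, rfl⟩
      exact ⟨⟨ε, rfl⟩, mem_box w ε, h1 ε hε⟩
  rw [h4] at h3
  rw [← h3]
  exact hexp

/-- the functional `x ↦ ∑_{i ∈ s} a_i x_i` -/
noncomputable def fn (s : Finset (Fin k)) (a : Fin k → ℝ) : StrongDual ℝ (Sp k) :=
  ∑ c ∈ s, a c • (EuclideanSpace.proj c : Sp k →L[ℝ] ℝ)

lemma fn_apply (s : Finset (Fin k)) (a : Fin k → ℝ) (x : Sp k) : fn s a x = ∑ c ∈ s, a c * x c := by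
  simp [fn]

/-- the faces of a box obtained by fixing the signs in `s` -/
lemma exposed_fix {w : Sp k} (hw : ∀ i, w i ≠ 0) (s : Finset (Fin k)) (δ : Fin k → ℤˣ) :
    IsExposed ℝ (box w) (convexHull ℝ ((fun ε => sw ε w) '' {ε | ∀ i ∈ s, ε i = δ i})) := by
  apply exposed_box (fn s fun i => sg (δ i) * w i) (∑ i ∈ s, w i ^ 2)
    {ε : Fin k → ℤˣ | ∀ i ∈ s, ε i = δ i} ⟨δ, fun i _ => rfl⟩
  · intro ε hε
    rw [fn_apply]
    apply Finset.sum_congr rfl
    intro i hi
    rw [sw_apply, hε i hi]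
    have := sg_sq (δ i)
    linear_combination (w i) ^ 2 * this
  · intro ε hε
    rw [fn_apply]
    have hε' : ∃ i ∈ s, ε i ≠ δ i := by
      by_contra h
      push Not at h
      exact hε h
    obtain ⟨i0, hi0, hne⟩ := hε'
    apply Finset.sum_lt_sum
    · intro i _
      rw [sw_apply]
      have hsq : 0 ≤ w i ^ 2 := sq_nonneg _
      rcases sg_cases (δ i) with h | h <;> rcases sg_cases (ε i) with h' | h' <;>
        rw [h, h'] <;> nlinarith
    · refine ⟨i0, hi0, ?_⟩
      rw [sw_apply]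
      have hsq : 0 < w i0 ^ 2 := by
        have := hw i0
        positivity
      rcases sg_cases (δ i0) with h | h <;> rcases sg_cases (ε i0) with h' | h'
      · exact absurd (sg_inj (h'.trans h.symm)) hne
      · rw [h, h']; nlinarith
      · rw [h, h']; nlinarith
      · exact absurd (sg_inj (h'.trans h.symm)) hne

lemma sw_injective {w : Sp k} (hw : ∀ i, w i ≠ 0) : Function.Injective fun ε => sw ε w := by
  intro ε δ h
  funext i
  have h2 : sw ε w i = sw δ w i := by
    have h' : sw ε w = sw δ w := h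
    rw [h']
  rw [sw_apply, sw_apply] at h2
  exact sg_inj (mul_right_cancel₀ (hw i) h2)

lemma mem_vertices {w : Sp k} (hw : ∀ i, w i ≠ 0) (ε : Fin k → ℤˣ) :
    sw ε w ∈ vertices (box w) := by
  have h := exposed_fix hw Finset.univ ε
  have h2 : {δ : Fin k → ℤˣ | ∀ i ∈ Finset.univ, δ i = ε i} = {ε} := by
    ext δ
    constructor
    · intro hδ
      funext i
      exact hδ i (Finset.mem_univ _)
    · rintro rfl i _
      rfl
  rw [h2, Set.image_singleton, convexHull_singleton] at h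
  exact h

lemma finite_vertices (w : Sp k) : (vertices (box w)).Finite := by
  apply (Set.finite_range fun ε : Fin k → ℤˣ => sw ε w).subset
  intro v hv
  obtain ⟨ε, rfl⟩ := vertex_mem hv
  exact ⟨ε, rfl⟩

/-- the signs that differ in exactly one place -/
def Adj (ε δ : Fin k → ℤˣ) : Prop := ∃ i, ε i ≠ δ i ∧ ∀ j, j ≠ i → ε j = δ j

lemma units_ne {u v w : ℤˣ} (h1 : u ≠ w) (h2 : v ≠ w) : u = v := by
  rcases Int.units_eq_one_or u with h | h <;> rcases Int.units_eq_one_or v with h' | h' <;>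
    rcases Int.units_eq_one_or w with h'' | h'' <;> simp_all

/-- edges of a box -/
lemma edge_of_adj {w : Sp k} (hw : ∀ i, w i ≠ 0) {ε δ : Fin k → ℤˣ} (h : Adj ε δ) :
    IsEdge (box w) (sw ε w) (sw δ w) := by
  obtain ⟨i, hi, hj⟩ := h
  refine ⟨fun h => hi (congrFun (sw_injective hw h) i), ?_⟩
  have h1 := exposed_fix hw (Finset.univ.erase i) ε
  have h2 : {η : Fin k → ℤˣ | ∀ j ∈ Finset.univ.erase i, η j = ε j} = {ε, δ} := by
    ext η
    constructor
    · intro hη
      by_cases hi' : η i = ε i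
      · left
        funext j
        by_cases hji : j = i
        · rw [hji, hi']
        · exact hη j (by simp [hji])
      · right
        funext j
        by_cases hji : j = i
        · rw [hji]
          exact units_ne hi' hi.symm
        · rw [hη j (by simp [hji]), hj j hji]
    · rintro (rfl | rfl)
      · intro j _
        rfl
      · intro j hj'
        exact (hj j (by simpa using hj')).symm
  rw [h2, Set.image_pair, convexHull_pair] at h1
  exact h1

lemma adj_of_edge {w : Sp k} (hw : ∀ i, w i ≠ 0) {ε δ : Fin k → ℤˣ}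
    (h : IsEdge (box w) (sw ε w) (sw δ w)) : Adj ε δ := by
  obtain ⟨hne, hexp⟩ := h
  have hne' : ∃ i, ε i ≠ δ i := by
    by_contra hcon
    push Not at hcon
    exact hne (by rw [funext hcon])
  obtain ⟨i, hi⟩ := hne'
  refine ⟨i, hi, ?_⟩
  by_contra hcon
  push Not at hcon
  obtain ⟨j, hji, hj⟩ := hcon
  -- swap the coordinate `i`
  have hmid : (1 / 2 : ℝ) • sw ε w + (1 / 2 : ℝ) • sw δ w =
      (1 / 2 : ℝ) • sw (Function.update ε i (δ i)) w +
        (1 / 2 : ℝ) • sw (Function.update δ i (ε i)) w := by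
    ext l
    by_cases hl : l = i
    · subst hl
      simp
      ring
    · simp [Function.update_of_ne hl]
  have hF : (1 / 2 : ℝ) • sw ε w + (1 / 2 : ℝ) • sw δ w ∈ segment ℝ (sw ε w) (sw δ w) :=
    ⟨1 / 2, 1 / 2, by norm_num, by norm_num, by norm_num, rfl⟩
  have hext := hexp.isExtreme
  have h3 := hext.2 (mem_box w (Function.update ε i (δ i))) (mem_box w (Function.update δ i (ε i)))
    hF (by
      rw [hmid]
      exact ⟨1 / 2, 1 / 2, by norm_num, by norm_num, by norm_num, rfl⟩)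
  obtain ⟨a, b, ha, hb, hab, h4⟩ := h3
  have h5 : ∀ l, a * (sg (ε l) * w l) + b * (sg (δ l) * w l) =
      sg (Function.update ε i (δ i) l) * w l := by
    intro l
    have := congrArg (fun v : Sp k => v l) h4
    simpa using this
  have h6 := h5 i
  have h7 := h5 j
  rw [Function.update_self] at h6
  rw [Function.update_of_ne hji] at h7
  have h8 : a * sg (ε i) + b * sg (δ i) = sg (δ i) := by
    apply mul_right_cancel₀ (hw i)
    linear_combination h6
  have h9 : a * sg (ε j) + b * sg (δ j) = sg (ε j) := by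
    apply mul_right_cancel₀ (hw j)
    linear_combination h7
  have hi' : sg (δ i) = - sg (ε i) := by
    rcases sg_cases (ε i) with h | h <;> rcases sg_cases (δ i) with h' | h'
    · exact absurd (sg_inj (h.trans h'.symm)) hi
    · rw [h, h']
    · rw [h, h']; norm_num
    · exact absurd (sg_inj (h.trans h'.symm)) hi
  have hj' : sg (δ j) = - sg (ε j) := by
    rcases sg_cases (ε j) with h | h <;> rcases sg_cases (δ j) with h' | h'
    · exact absurd (sg_inj (h.trans h'.symm)) hj
    · rw [h, h']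
    · rw [h, h']; norm_num
    · exact absurd (sg_inj (h.trans h'.symm)) hj
  rw [hi'] at h8
  rw [hj'] at h9
  have h10 : a - b = -1 := by
    apply mul_right_cancel₀ (sg_ne (ε i))
    linear_combination h8
  have h11 : a - b = 1 := by
    apply mul_right_cancel₀ (sg_ne (ε j))
    linear_combination h9
  linarith

lemma edge_iff {w : Sp k} (hw : ∀ i, w i ≠ 0) (ε δ : Fin k → ℤˣ) :
    IsEdge (box w) (sw ε w) (sw δ w) ↔ Adj ε δ := ⟨adj_of_edge hw, edge_of_adj hw⟩

end Q142.Orb
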