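import Mathlib
import Pool.Agent.Q142.Expl
import Pool.Agent.Q142.OrbDefs
import Pool.Agent.Q142.OrbBox

set_option autoImplicit false

namespace Q142.Orb

open MeasureTheory Q142 InnerProductGeometry
open scoped MeasureTheory RealInnerProductSpace ContDiff

lemma inner_eq {k : ℕ} (x y : Sp k) : ⟪x, y⟫ = ∑ c, x c * y c := by
  rw [PiLp.inner_apply]
  apply Finset.sum_congr rfl
  intro c _
  simp [mul_comm]

lemma sum3 {i j l : Fin 3} (hij : i ≠ j) (hil : i ≠ l) (hjl : j ≠ l) (f : Fin 3 → ℝ) :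
    ∑ c, f c = f i + f j + f l := by
  fin_cases i <;> fin_cases j <;> fin_cases l <;> simp_all [Fin.sum_univ_three] <;> ring

lemma polar_le {k : ℕ} {w : Sp k} {y : Sp k} (h : ∀ ε, ⟪sw ε w, y⟫ ≤ 1) : y ∈ polar (box w) := by
  intro x hx
  rw [box_eq] at hx
  have : convexHull ℝ (Set.range fun ε => sw ε w) ⊆ {x : Sp k | ⟪x, y⟫ ≤ 1} := by
    apply convexHull_min
    · rintro _ ⟨ε, rfl⟩
      exact h ε
    · have h2 : {x : Sp k | ⟪x, y⟫ ≤ 1} = {x : Sp k | (innerSL ℝ y) x ≤ 1} := by
        ext x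
        simp [real_inner_comm]
      rw [h2]
      exact convex_halfSpace_le ((innerSL ℝ y : Sp k →L[ℝ] ℝ).toLinearMap.isLinear) _
  exact this hx

lemma opp {u v : ℤˣ} (h : u ≠ v) : sg v = - sg u := by
  rcases sg_cases u with h' | h' <;> rcases sg_cases v with h'' | h''
  · exact absurd (sg_inj (h'.trans h''.symm)) h
  · rw [h', h'']
  · rw [h', h'']; norm_num
  · exact absurd (sg_inj (h'.trans h''.symm)) h

lemma dual_face {w : Sp 3} (hw : ∀ i, w i ≠ 0) {ε δ : Fin 3 → ℤˣ} {i j l : Fin 3}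
    (hij : i ≠ j) (hil : i ≠ l) (hjl : j ≠ l) (hi : ε i ≠ δ i) (hr : ∀ j, j ≠ i → ε j = δ j) :
    dualFace (box w) (sw ε w) (sw δ w) =
      segment ℝ (EuclideanSpace.single j (sw ε w j)⁻¹) (EuclideanSpace.single l (sw ε w l)⁻¹) := by
  have hs : ∀ c, sw ε w c ≠ 0 := fun c => by
    rw [sw_apply]
    exact mul_ne_zero (sg_ne _) (hw c)
  have hti : sw δ w i = - sw ε w i := by
    rw [sw_apply, sw_apply, opp hi]
    ring
  have htj : sw δ w j = sw ε w j := by rw [sw_apply, sw_apply, hr j hij.symm]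
  have htl : sw δ w l = sw ε w l := by rw [sw_apply, sw_apply, hr l hil.symm]
  have hsgn : ∀ η : Fin 3 → ℤˣ, ∀ c, sw η w c = sw ε w c ∨ sw η w c = - sw ε w c := by
    intro η c
    rw [sw_apply, sw_apply]
    by_cases h : ε c = η c
    · left; rw [h]
    · right; rw [opp h]; ring
  ext y
  constructor
  · rintro ⟨hy1, hy2, hy3⟩
    rw [inner_eq, sum3 hij hil hjl] at hy2 hy3
    rw [hti, htj, htl] at hy3
    have hyi : y i = 0 := by
      have h1 : sw ε w i * y i = 0 := by linarith
      rcases mul_eq_zero.1 h1 with h | h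
      · exact absurd h (hs i)
      · exact h
    rw [hyi, mul_zero, zero_add] at hy2
    have hj0 : 0 ≤ sw ε w j * y j := by
      have h1 := hy1 _ (mem_box w (Function.update ε j (- ε j)))
      rw [inner_eq, sum3 hij hil hjl] at h1
      simp only [sw_apply, Function.update_self, Function.update_of_ne hij,
        Function.update_of_ne hjl.symm, hyi, sg_neg] at h1 hy2 ⊢
      linarith
    have hl0 : 0 ≤ sw ε w l * y l := by
      have h1 := hy1 _ (mem_box w (Function.update ε l (- ε l)))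
      rw [inner_eq, sum3 hij hil hjl] at h1
      simp only [sw_apply, Function.update_self, Function.update_of_ne hil,
        Function.update_of_ne hjl, hyi, sg_neg] at h1 hy2 ⊢
      linarith
    refine ⟨sw ε w j * y j, sw ε w l * y l, hj0, hl0, hy2, ?_⟩
    ext c
    have hc : c = i ∨ c = j ∨ c = l := by
      revert hij hil hjl
      clear * -
      decide +revert
    have hsj := hs j
    have hsl := hs l
    rcases hc with rfl | rfl | rfl
    · simp [hyi, hij, hil]
    · simp only [PiLp.add_apply, PiLp.smul_apply, smul_eq_mul, PiLp.single_apply]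
      simp only [if_true, if_neg hjl]
      field_simp
      ring
    · simp only [PiLp.add_apply, PiLp.smul_apply, smul_eq_mul, PiLp.single_apply]
      simp only [if_true, if_neg hjl.symm]
      field_simp
      ring
  · rintro ⟨a, b, ha, hb, hab, rfl⟩
    have hval : ∀ x : Sp 3, ⟪x, a • (EuclideanSpace.single j (sw ε w j)⁻¹ : Sp 3) +
        b • (EuclideanSpace.single l (sw ε w l)⁻¹ : Sp 3)⟫ =
        a * (x j * (sw ε w j)⁻¹) + b * (x l * (sw ε w l)⁻¹) := by
      intro x
      rw [inner_eq, sum3 hij hil hjl]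
      simp only [PiLp.add_apply, PiLp.smul_apply, smul_eq_mul, PiLp.single_apply]
      simp only [if_true, if_neg hjl, if_neg hjl.symm, if_neg hij, if_neg hil]
      ring
    refine ⟨?_, ?_, ?_⟩
    · apply polar_le
      intro η
      rw [hval]
      have h1 : sw η w j * (sw ε w j)⁻¹ ≤ 1 := by
        rcases hsgn η j with h | h
        · rw [h, mul_inv_cancel₀ (hs j)]
        · rw [h, neg_mul, mul_inv_cancel₀ (hs j)]; norm_num
      have h2 : sw η w l * (sw ε w l)⁻¹ ≤ 1 := by
        rcases hsgn η l with h | h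
        · rw [h, mul_inv_cancel₀ (hs l)]
        · rw [h, neg_mul, mul_inv_cancel₀ (hs l)]; norm_num
      nlinarith
    · rw [hval, mul_inv_cancel₀ (hs j), mul_inv_cancel₀ (hs l)]
      linarith
    · rw [hval, htj, htl, mul_inv_cancel₀ (hs j), mul_inv_cancel₀ (hs l)]
      linarith

/-- the constant relating the two normalisations of length -/
noncomputable def kap : ℝ := ((Measure.addHaarScalarFactor
  (volume : Measure (EuclideanSpace ℝ (Fin 1))) (μH[(1 : ℕ)]) : NNReal) : ℝ)

lemma kap_pos : 0 < kap := by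
  unfold kap
  have := Measure.addHaarScalarFactor_volume_hausdorffMeasure_ne_zero 1
  positivity

lemma length_seg (x y : Sp 3) : (μHE[1] (segment ℝ x y)).toReal = kap * dist x y := by
  rw [Measure.euclideanHausdorffMeasure_def, Measure.smul_apply, ENNReal.smul_def, smul_eq_mul,
    ENNReal.toReal_mul]
  have h : (μH[((1 : ℕ) : ℝ)] : Measure (Sp 3)) (segment ℝ x y) = edist x y := by
    rw [Nat.cast_one, hausdorffMeasure_segment]
  rw [h, edist_dist, ENNReal.toReal_ofReal dist_nonneg]
  rfl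

lemma negM_adj {w : Sp 3} (hw : ∀ i, w i ≠ 0) {ε δ : Fin 3 → ℤˣ} (h : Adj ε δ) :
    negM (box w) (sw ε w) (sw δ w) = kap / (2 * |w 0 * w 1 * w 2|) := by
  have hedge := edge_of_adj hw h
  obtain ⟨i, hi, hr⟩ := h
  obtain ⟨j, l, hij, hil, hjl⟩ : ∃ j l : Fin 3, i ≠ j ∧ i ≠ l ∧ j ≠ l := by
    clear * -
    decide +revert
  unfold negM
  rw [if_pos hedge, dual_face hw hij hil hjl hi hr]
  rw [length_seg]
  have hs : ∀ c, sw ε w c ≠ 0 := fun c => by
    rw [sw_apply]
    exact mul_ne_zero (sg_ne _) (hw c)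
  have hti : sw δ w i = - sw ε w i := by
    rw [sw_apply, sw_apply, opp hi]
    ring
  have htj : sw δ w j = sw ε w j := by rw [sw_apply, sw_apply, hr j hij.symm]
  have htl : sw δ w l = sw ε w l := by rw [sw_apply, sw_apply, hr l hil.symm]
  set s := sw ε w with hs_def
  set t := sw δ w with ht_def
  have hsin : ‖s‖ * ‖t‖ * Real.sin (angle s t) =
      2 * |s i| * Real.sqrt (s j ^ 2 + s l ^ 2) := by
    have h1 := sin_angle_mul_norm_mul_norm s t
    rw [mul_comm, h1, inner_eq, inner_eq, inner_eq, sum3 hij hil hjl, sum3 hij hil hjl,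
      sum3 hij hil hjl, hti, htj, htl]
    have h2 : (s i * s i + s j * s j + s l * s l) * (-s i * -s i + s j * s j + s l * s l) -
        (s i * -s i + s j * s j + s l * s l) * (s i * -s i + s j * s j + s l * s l) =
        (2 * |s i|) ^ 2 * (s j ^ 2 + s l ^ 2) := by
      rw [mul_pow, sq_abs]
      ring
    rw [h2, Real.sqrt_mul (sq_nonneg _), Real.sqrt_sq (by positivity)]
  have hdist : dist (EuclideanSpace.single j (s j)⁻¹ : Sp 3) (EuclideanSpace.single l (s l)⁻¹) =
      Real.sqrt (s j ^ 2 + s l ^ 2) / (|s j| * |s l|) := by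
    rw [EuclideanSpace.dist_eq, sum3 hij hil hjl]
    simp only [PiLp.single_apply, if_true, if_neg hjl, if_neg hjl.symm, if_neg hij, if_neg hil]
    rw [Real.dist_eq, Real.dist_eq, Real.dist_eq, sq_abs, sq_abs, sq_abs]
    have h3 : (0 - 0) ^ 2 + ((s j)⁻¹ - 0) ^ 2 + (0 - (s l)⁻¹) ^ 2 =
        (s j ^ 2 + s l ^ 2) / (|s j| * |s l|) ^ 2 := by
      have hj := hs j
      have hl := hs l
      rw [mul_pow, sq_abs, sq_abs]
      field_simp
      ring
    rw [h3, Real.sqrt_div (by positivity), Real.sqrt_sq (by positivity)]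
  have hprod : |w 0 * w 1 * w 2| = |s i| * |s j| * |s l| := by
    have h4 : ∀ c, |s c| = |w c| := fun c => abs_sw ε w c
    rw [h4, h4, h4, abs_mul, abs_mul]
    clear * - hij hil hjl
    fin_cases i <;> fin_cases j <;> fin_cases l <;>
      first
      | exact absurd rfl hij
      | exact absurd rfl hil
      | exact absurd rfl hjl
      | (simp only [Fin.zero_eta, Fin.mk_one, Fin.reduceFinMk] <;> ring)
  rw [hsin, hdist, hprod]
  have h5 : 0 < Real.sqrt (s j ^ 2 + s l ^ 2) := by
    have := hs j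
    positivity
  have hi' := abs_pos.2 (hs i)
  have hj' := abs_pos.2 (hs j)
  have hl' := abs_pos.2 (hs l)
  field_simp

lemma negM_nadj {w : Sp 3} (hw : ∀ i, w i ≠ 0) {ε δ : Fin 3 → ℤˣ} (h : ¬ Adj ε δ) :
    negM (box w) (sw ε w) (sw δ w) = 0 := by
  unfold negM
  rw [if_neg]
  intro hE
  exact h (adj_of_edge hw hE)

instance adjDec (ε δ : Fin 3 → ℤˣ) : Decidable (Adj ε δ) := by
  unfold Adj
  infer_instance

/-- the vertices of a box are labelled by the signs -/
noncomputable def lab {w : Sp 3} (hw : ∀ i, w i ≠ 0) : (Fin 3 → ℤˣ) ≃ vertices (box w) :=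
  Equiv.ofBijective (fun ε => ⟨sw ε w, mem_vertices hw ε⟩) (by
    constructor
    · intro ε δ h
      exact sw_injective hw (congrArg Subtype.val h)
    · rintro ⟨v, hv⟩
      obtain ⟨ε, rfl⟩ := vertex_mem hv
      exact ⟨ε, rfl⟩)

lemma lab_coe {w : Sp 3} (hw : ∀ i, w i ≠ 0) (ε : Fin 3 → ℤˣ) : (lab hw ε : Sp 3) = sw ε w := rfl

/-- the random walk matrix of a cube graph -/
noncomputable def cubeWalk : Matrix (Fin 3 → ℤˣ) (Fin 3 → ℤˣ) ℝ :=
  fun ε δ => if Adj ε δ then 1 / 3 else 0

lemma card_adj : ∀ ε : Fin 3 → ℤˣ, (Finset.univ.filter fun δ => Adj ε δ).card = 3 := by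
  decide +kernel

lemma walk_eq {w : Sp 3} (hw : ∀ i, w i ≠ 0) [Fintype (vertices (box w))] (ε δ : Fin 3 → ℤˣ) :
    walk (box w) (lab hw ε) (lab hw δ) = cubeWalk ε δ := by
  unfold walk cubeWalk
  have hpos : 0 < kap / (2 * |w 0 * w 1 * w 2|) := by
    have h0 := hw 0
    have h1 := hw 1
    have h2 := hw 2
    have := kap_pos
    positivity
  have hterm : ∀ δ, negM (box w) (sw ε w) (sw δ w) =
      if Adj ε δ then kap / (2 * |w 0 * w 1 * w 2|) else 0 := by
    intro δ
    by_cases h : Adj ε δ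
    · rw [if_pos h, negM_adj hw h]
    · rw [if_neg h, negM_nadj hw h]
  have hsum : ∑ u : vertices (box w), negM (box w) (lab hw ε) u =
      3 * (kap / (2 * |w 0 * w 1 * w 2|)) := by
    rw [← (lab hw).sum_comp fun u => negM (box w) (lab hw ε) u]
    simp only [lab_coe, hterm]
    rw [← Finset.sum_filter, Finset.sum_const, card_adj]
    simp
  rw [hsum, lab_coe, lab_coe, hterm]
  generalize kap / (2 * |w 0 * w 1 * w 2|) = C at hpos
  by_cases h : Adj ε δ
  · rw [if_pos h, if_pos h]
    field_simp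
  · rw [if_neg h, if_neg h, zero_div]

/-- `λ₁` is the same for all boxes -/
lemma lam1_box {w : Sp 3} (hw : ∀ i, w i ≠ 0) :
    lam1 (box w) = (cubeWalk.charpoly.roots.sort (· ≥ ·)).getD 1 0 := by
  classical
  unfold lam1
  rw [dif_pos (finite_vertices w)]
  let _ := (finite_vertices w).fintype
  have h : Matrix.reindex (lab hw) (lab hw) cubeWalk = walk (box w) := by
    ext u v
    rw [Matrix.reindex_apply, Matrix.submatrix_apply, ← walk_eq hw]
    simp
  have h2 : (walk (box w)).charpoly = cubeWalk.charpoly := by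
    rw [← h]
    exact Matrix.charpoly_reindex _ _
  rw [← h2]

end Q142.Orb
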