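import Mathlib
import Pool.Agent.Q142.Expl
import Pool.Agent.Q142.OrbDefs
import Pool.Agent.Q142.OrbBox

set_option autoImplicit false

namespace Q142.Orb

open MeasureTheory Q142 InnerProductGeometry
open scoped MeasureTheory RealInnerProductSpace ContDiff

variable {k : ℕ}

lemma exposed_image (L : Sp k ≃L[ℝ] Sp k) {Q F : Set (Sp k)} (h : IsExposed ℝ Q F) :
    IsExposed ℝ (L '' Q) (L '' F) := by
  intro hne
  obtain ⟨l, hl⟩ := h (Set.image_nonempty.1 hne)
  refine ⟨l.comp (L.symm : Sp k →L[ℝ] Sp k), ?_⟩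
  rw [hl]
  ext x
  constructor
  · rintro ⟨y, ⟨hy1, hy2⟩, rfl⟩
    refine ⟨⟨y, hy1, rfl⟩, ?_⟩
    rintro _ ⟨z, hz, rfl⟩
    simpa using hy2 z hz
  · rintro ⟨⟨y, hy, rfl⟩, h2⟩
    refine ⟨y, ⟨hy, ?_⟩, rfl⟩
    intro z hz
    have := h2 (L z) ⟨z, hz, rfl⟩
    simpa using this

lemma image_symm (L : Sp k ≃L[ℝ] Sp k) (A : Set (Sp k)) : L.symm '' (L '' A) = A := by
  rw [Set.image_image]
  simp

lemma image_symm' (L : Sp k ≃L[ℝ] Sp k) (A : Set (Sp k)) : L '' (L.symm '' A) = A := by
  rw [Set.image_image]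
  simp

/-- linear isomorphisms preserve the face lattice -/
noncomputable def facesIso (L : Sp k ≃L[ℝ] Sp k) (Q : Set (Sp k)) :
    faces Q ≃o faces (L '' Q) where
  toFun F := ⟨L '' F.1, exposed_image L F.2⟩
  invFun F := ⟨L.symm '' F.1, by
    have h := exposed_image L.symm F.2
    rw [image_symm] at h
    exact h⟩
  left_inv F := Subtype.ext (image_symm L F.1)
  right_inv F := Subtype.ext (image_symm' L F.1)
  map_rel_iff' {F G} := by
    constructor
    · intro h
      have h2 : L '' F.1 ⊆ L '' G.1 := h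
      exact (Set.image_subset_image_iff L.injective).1 h2
    · intro h
      exact Set.image_mono h

/-- diagonal scaling -/
noncomputable def diagL (a : Fin k → ℝ) (ha : ∀ i, a i ≠ 0) : Sp k ≃L[ℝ] Sp k :=
  LinearEquiv.toContinuousLinearEquiv
    { toFun := fun x => WithLp.toLp 2 fun i => a i * x i
      invFun := fun x => WithLp.toLp 2 fun i => (a i)⁻¹ * x i
      map_add' := fun x y => by
        ext i
        simp [mul_add]
      map_smul' := fun c x => by
        ext i
        simp
        ring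
      left_inv := fun x => by
        ext i
        simp [ha i]
      right_inv := fun x => by
        ext i
        simp [ha i] }

lemma diagL_apply (a : Fin k → ℝ) (ha : ∀ i, a i ≠ 0) (x : Sp k) (i : Fin k) :
    diagL a ha x i = a i * x i := rfl

lemma diagL_box {w w0 : Sp k} (hw : ∀ i, w i ≠ 0) (hw0 : ∀ i, w0 i ≠ 0) :
    diagL (fun i => w0 i / w i) (fun i => div_ne_zero (hw0 i) (hw i)) '' box w = box w0 := by
  have h1 := (diagL (fun i => w0 i / w i) (fun i => div_ne_zero (hw0 i) (hw i))).toLinearMap.image_convexHull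
    (Set.range fun ε => sw ε w)
  rw [box_eq, box_eq]
  refine h1.trans ?_
  congr 1
  rw [← Set.range_comp]
  congr 1
  funext ε
  ext i
  show (w0 i / w i) * (sw ε w) i = sw ε w0 i
  rw [sw_apply, sw_apply]
  have := hw i
  field_simp

lemma box_type {w w0 : Sp k} (hw : ∀ i, w i ≠ 0) (hw0 : ∀ i, w0 i ≠ 0) :
    Nonempty (faces (box w) ≃o faces (box w0)) := by
  have h := facesIso (diagL (fun i => w0 i / w i) (fun i => div_ne_zero (hw0 i) (hw i))) (box w)
  rw [diagL_box hw hw0] at h
  exact ⟨h⟩

lemma dim_box (w : Sp k) : dim (box w) = k ↔ ∀ i, w i ≠ 0 := by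
  constructor
  · intro h i hi
    let f : Sp k →ₗ[ℝ] ℝ := (EuclideanSpace.proj i : Sp k →L[ℝ] ℝ).toLinearMap
    have hf : f ≠ 0 := by
      intro h0
      have : f (EuclideanSpace.single i 1) = 0 := by rw [h0]; rfl
      simp [f] at this
    have h1 := finrank_ker_lt f hf
    have h2 : vectorSpan ℝ (box w) ≤ LinearMap.ker f := by
      have h3 : box w ⊆ {x | f x = 0} := by
        rw [box_eq]
        apply convexHull_min
        · rintro _ ⟨ε, rfl⟩
          show sw ε w i = 0
          rw [sw_apply, hi, mul_zero]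
        · exact convex_hyperplane f.isLinear 0
      unfold vectorSpan
      rw [Submodule.span_le]
      rintro _ ⟨x, hx, y, hy, rfl⟩
      have hx' : f x = 0 := h3 hx
      have hy' : f y = 0 := h3 hy
      show f (x -ᵥ y) = 0
      rw [vsub_eq_sub, map_sub, hx', hy', sub_zero]
    have h4 := Submodule.finrank_mono h2
    unfold dim at h
    omega
  · intro hw
    have h1 : vectorSpan ℝ (box w) = ⊤ := by
      rw [eq_top_iff]
      intro x _
      have h2 : ∀ i, (EuclideanSpace.single i (1 : ℝ) : Sp k) ∈ vectorSpan ℝ (box w) := by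
        intro i
        have h3 : w -ᵥ sw (Function.update 1 i (-1)) w ∈ vectorSpan ℝ (box w) :=
          vsub_mem_vectorSpan ℝ (self_mem_box w) (mem_box w _)
        have h4 : (EuclideanSpace.single i (1 : ℝ) : Sp k) =
            (1 / (2 * w i)) • (w -ᵥ sw (Function.update 1 i (-1)) w) := by
          ext j
          rw [PiLp.smul_apply, vsub_eq_sub, PiLp.sub_apply, sw_apply]
          by_cases hj : j = i
          · subst hj
            rw [Function.update_self, sg_neg, sg_one]
            have := hw j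
            simp
            field_simp
            norm_num
          · rw [Function.update_of_ne hj]
            simp [sg_one, hj]
        rw [h4]
        exact Submodule.smul_mem _ _ h3
      have h5 : x = ∑ i, x i • (EuclideanSpace.single i (1 : ℝ) : Sp k) := by
        ext j
        simp [Pi.single_apply]
      rw [h5]
      exact Submodule.sum_mem _ fun i _ => Submodule.smul_mem _ _ (h2 i)
    unfold dim
    rw [h1, finrank_top]
    simp

/-- the points of the sphere off the coordinate hyperplanes -/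
def U (k : ℕ) (r : ℝ) : Set (Sp k) := {w | ‖w‖ = r ∧ ∀ i, w i ≠ 0}

lemma full_eq (r : ℝ) : full (signs k) r = U k r := by
  ext w
  unfold full U
  rw [Set.mem_ofPred_eq, Set.mem_ofPred_eq]
  rw [← dim_box w]

lemma cls_eq {r : ℝ} {w₀ : Sp k} (h : w₀ ∈ full (signs k) r) : cls (signs k) r w₀ = U k r := by
  unfold cls
  rw [full_eq] at h ⊢
  ext w
  constructor
  · rintro ⟨h1, -⟩
    exact h1
  · intro h1
    exact ⟨h1, box_type h1.2 h.2⟩

/-- the part of the sphere in the orthant of `w₀` -/
def O (r : ℝ) (w₀ : Sp k) : Set (Sp k) := {w | ‖w‖ = r ∧ ∀ i, 0 < w i * w₀ i}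

lemma O_pre {r : ℝ} (hr : 0 < r) (w₀ : Sp k) (hw₀ : w₀ ∈ U k r) : IsPreconnected (O r w₀) := by
  have h1 : IsPreconnected {w : Sp k | ∀ i, 0 < w i * w₀ i} := by
    apply Convex.isPreconnected
    intro x hx y hy a b ha hb hab i
    have hx' := hx i
    have hy' := hy i
    simp only [PiLp.add_apply, PiLp.smul_apply, smul_eq_mul]
    rcases eq_or_lt_of_le ha with h | h
    · have : b = 1 := by linarith
      rw [← h, this]
      linarith
    · nlinarith [mul_pos h hx', mul_nonneg hb hy'.le]
  have h2 : O r w₀ = (fun w : Sp k => (r / ‖w‖) • w) '' {w : Sp k | ∀ i, 0 < w i * w₀ i} := by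
    ext w
    constructor
    · rintro ⟨h3, h4⟩
      refine ⟨w, h4, ?_⟩
      show (r / ‖w‖) • w = w
      rw [h3, div_self hr.ne', one_smul]
    · rintro ⟨v, hv, rfl⟩
      have hv0 : v ≠ 0 := by
        intro h0
        by_cases hk : Nonempty (Fin k)
        · obtain ⟨i⟩ := hk
          have := hv i
          rw [h0] at this
          simp at this
        · have h5 : w₀ = 0 := by
            ext i
            exact absurd ⟨i⟩ hk
          have h6 := hw₀.1
          rw [h5, norm_zero] at h6
          linarith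
      have hn : 0 < ‖v‖ := norm_pos_iff.2 hv0
      refine ⟨?_, ?_⟩
      · show ‖(r / ‖v‖) • v‖ = r
        rw [norm_smul, norm_div, norm_norm, Real.norm_eq_abs, abs_of_pos hr]
        field_simp
      · intro i
        have := hv i
        show 0 < (r / ‖v‖) * v i * w₀ i
        rw [mul_assoc]
        positivity
  rw [h2]
  apply h1.image
  refine ContinuousOn.smul (f := fun w : Sp k => r / ‖w‖) (g := fun w : Sp k => w) ?_
    continuousOn_id
  refine ContinuousOn.div (f := fun _ : Sp k => r) (g := fun w : Sp k => ‖w‖)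
    continuousOn_const continuous_norm.continuousOn ?_
  intro v hv h0
  have hv0 : v = 0 := norm_eq_zero.1 h0
  by_cases hk : Nonempty (Fin k)
  · obtain ⟨i⟩ := hk
    have := hv i
    rw [hv0] at this
    simp at this
  · have h5 : w₀ = 0 := by
      ext i
      exact absurd ⟨i⟩ hk
    have h6 := hw₀.1
    rw [h5, norm_zero] at h6
    linarith

lemma comp_eq {r : ℝ} (hr : 0 < r) {w₀ : Sp k} (h : w₀ ∈ U k r) :
    connectedComponentIn (U k r) w₀ = O r w₀ := by
  apply Set.Subset.antisymm
  · intro w hw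
    have hpre := isPreconnected_connectedComponentIn (x := w₀) (F := U k r)
    have hsub := connectedComponentIn_subset (U k r) w₀
    have hw0 := mem_connectedComponentIn h
    refine ⟨(hsub hw).1, ?_⟩
    intro i
    by_contra hcon
    have hne : w i * w₀ i < 0 := by
      rcases (not_lt.1 hcon).lt_or_eq with h1 | h1
      · exact h1
      · rcases mul_eq_zero.1 h1 with h2 | h2
        · exact absurd h2 ((hsub hw).2 i)
        · exact absurd h2 (h.2 i)
    have hpos : 0 < w₀ i * w₀ i := mul_self_pos.2 (h.2 i)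
    have h3 := hpre.intermediate_value hw hw0 (f := fun w : Sp k => w i * w₀ i)
      (by fun_prop)
    have h4 : (0 : ℝ) ∈ Set.Icc (w i * w₀ i) (w₀ i * w₀ i) := ⟨hne.le, hpos.le⟩
    obtain ⟨v, hv, hv0⟩ := h3 h4
    rcases mul_eq_zero.1 hv0 with h2 | h2
    · exact (hsub hv).2 i h2
    · exact h.2 i h2
  · apply (O_pre hr w₀ h).subset_connectedComponentIn
    · exact ⟨h.1, fun i => mul_self_pos.2 (h.2 i)⟩
    · rintro w ⟨h1, h2⟩
      exact ⟨h1, fun i hi => by
        have := h2 i
        rw [hi, zero_mul] at this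
        exact lt_irrefl _ this⟩

/-- the squaring chart of an open orthant -/
noncomputable def sqChart (w₀ : Sp k) (h0 : ∀ i, w₀ i ≠ 0) :
    OpenPartialHomeomorph (Sp k) (Sp k) where
  toFun x := WithLp.toLp 2 fun i => x i ^ 2
  invFun y := WithLp.toLp 2 fun i => (w₀ i / |w₀ i|) * Real.sqrt (y i)
  source := {x | ∀ i, 0 < x i * w₀ i}
  target := {y | ∀ i, 0 < y i}
  map_source' := by
    intro x hx i
    show 0 < x i ^ 2
    have h1 : x i ≠ 0 := by
      intro h
      have := hx i
      rw [h, zero_mul] at this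
      exact lt_irrefl _ this
    positivity
  map_target' := by
    intro y hy i
    show 0 < (w₀ i / |w₀ i|) * Real.sqrt (y i) * w₀ i
    have h1 := h0 i
    have h2 : (w₀ i / |w₀ i|) * Real.sqrt (y i) * w₀ i = Real.sqrt (y i) * (w₀ i ^ 2 / |w₀ i|) := by
      ring
    rw [h2]
    have h3 := Real.sqrt_pos.2 (hy i)
    positivity
  left_inv' := by
    intro x hx
    ext i
    show (w₀ i / |w₀ i|) * Real.sqrt (x i ^ 2) = x i
    rw [Real.sqrt_sq_eq_abs]
    have h1 := hx i
    rcases lt_or_gt_of_ne (h0 i) with h | h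
    · have h2 : x i < 0 := by
        by_contra hc
        nlinarith
      rw [abs_of_neg h, abs_of_neg h2]
      have := h0 i
      field_simp
    · have h2 : 0 < x i := by
        by_contra hc
        nlinarith
      rw [abs_of_pos h, abs_of_pos h2]
      have := h0 i
      field_simp
  right_inv' := by
    intro y hy
    ext i
    show ((w₀ i / |w₀ i|) * Real.sqrt (y i)) ^ 2 = y i
    rw [mul_pow, Real.sq_sqrt (hy i).le, div_pow, sq_abs, div_self (pow_ne_zero _ (h0 i)), one_mul]
  open_source := by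
    have : {x : Sp k | ∀ i, 0 < x i * w₀ i} = ⋂ i, {x : Sp k | 0 < x i * w₀ i} := by
      ext x
      simp
    rw [this]
    apply isOpen_iInter_of_finite
    intro i
    exact isOpen_lt continuous_const (by fun_prop)
  open_target := by
    have : {x : Sp k | ∀ i, 0 < x i} = ⋂ i, {x : Sp k | 0 < x i} := by
      ext x
      simp
    rw [this]
    apply isOpen_iInter_of_finite
    intro i
    exact isOpen_lt continuous_const (by fun_prop)
  continuousOn_toFun := by
    apply Continuous.continuousOn
    fun_prop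
  continuousOn_invFun := by
    apply Continuous.continuousOn
    fun_prop

/-- an affine hyperplane -/
noncomputable def hyp (k : ℕ) (r : ℝ) : AffineSubspace ℝ (Sp k) where
  carrier := {y | ∑ i, y i = r ^ 2}
  smul_vsub_vadd_mem' := by
    intro c x y z hx hy hz
    show ∑ i, (c • (x -ᵥ y) +ᵥ z) i = r ^ 2
    have hx' : ∑ i, x i = r ^ 2 := hx
    have hy' : ∑ i, y i = r ^ 2 := hy
    have hz' : ∑ i, z i = r ^ 2 := hz
    simp only [vsub_eq_sub, vadd_eq_add, PiLp.add_apply, PiLp.smul_apply, PiLp.sub_apply,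
      smul_eq_mul]
    rw [Finset.sum_add_distrib, ← Finset.mul_sum, Finset.sum_sub_distrib, hx', hy', hz']
    ring

lemma sub_O {r : ℝ} (hr : 0 < r) {w₀ : Sp k} (h : w₀ ∈ U k r) : IsSubmanifold (O r w₀) := by
  intro p hp
  refine ⟨sqChart w₀ h.2, hyp k r, hp.2, ?_, ?_, ?_⟩
  · apply ContDiff.contDiffOn
    show ContDiff ℝ ∞ (fun x : Sp k => (WithLp.toLp 2 fun i => x i ^ 2 : Sp k))
    rw [contDiff_euclidean]
    intro i
    fun_prop
  · show ContDiffOn ℝ ∞ (fun y : Sp k =>
      (WithLp.toLp 2 fun i => (w₀ i / |w₀ i|) * Real.sqrt (y i) : Sp k)) {y | ∀ i, 0 < y i}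
    rw [contDiffOn_euclidean]
    intro i
    apply ContDiffOn.mul contDiffOn_const
    apply ContDiffOn.sqrt
    · fun_prop
    · intro y hy
      exact (hy i).ne'
  · ext y
    constructor
    · rintro ⟨x, ⟨hx1, hx2⟩, rfl⟩
      refine ⟨?_, (sqChart w₀ h.2).map_source hx2⟩
      show ∑ i, x i ^ 2 = r ^ 2
      have h1 := hx1.1
      rw [EuclideanSpace.norm_eq] at h1
      rw [← h1, Real.sq_sqrt (by positivity)]
      simp
    · rintro ⟨hy1, hy2⟩
      refine ⟨(sqChart w₀ h.2).symm y, ⟨⟨?_, ?_⟩, (sqChart w₀ h.2).map_target hy2⟩,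
        (sqChart w₀ h.2).right_inv hy2⟩
      · have h1 : ∑ i, y i = r ^ 2 := hy1
        rw [EuclideanSpace.norm_eq]
        have h2 : ∑ i, ‖((sqChart w₀ h.2).symm y) i‖ ^ 2 = r ^ 2 := by
          rw [← h1]
          apply Finset.sum_congr rfl
          intro i _
          have h3 : (sqChart w₀ h.2) ((sqChart w₀ h.2).symm y) i = y i := by
            rw [(sqChart w₀ h.2).right_inv hy2]
          have h4 : ((sqChart w₀ h.2).symm y) i ^ 2 = y i := h3
          rw [Real.norm_eq_abs, sq_abs, h4]
        rw [h2, Real.sqrt_sq hr.le]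
      · exact (sqChart w₀ h.2).map_target hy2

/-- the strata are the parts of the sphere in the open orthants -/
lemma stratum_iff {r : ℝ} (hr : 0 < r) (S : Set (Sp k)) :
    IsStratum (signs k) r S ↔ ∃ w₀ ∈ U k r, S = O r w₀ := by
  unfold IsStratum
  constructor
  · rintro ⟨w₀, h, rfl⟩
    rw [cls_eq h]
    rw [full_eq] at h
    exact ⟨w₀, h, comp_eq hr h⟩
  · rintro ⟨w₀, h, rfl⟩
    have h' : w₀ ∈ full (signs k) r := by
      rw [full_eq]
      exact h
    refine ⟨w₀, h', ?_⟩
    rw [cls_eq h', comp_eq hr h]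

lemma O_sub {r : ℝ} {w₀ w : Sp k} (hw : w ∈ O r w₀) : w ∈ U k r := by
  refine ⟨hw.1, fun i hi => ?_⟩
  have := hw.2 i
  rw [hi, zero_mul] at this
  exact lt_irrefl _ this

end Q142.Orb
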