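import Pool.Agent.Q82.QD.Stm

/-! Project QD, job ASY3: derivatives of `H`. -/

set_option autoImplicit false

open MeasureTheory Filter Topology Real Set

namespace Pool.Agent.Q82.QD

theorem asy3_f_bd {F : ℝ → ℝ} (hP : Prof F) {s : ℝ} (hs : 0 ≤ s) :
    0 < 6 * Real.exp (4 * F s) ∧ 6 * Real.exp (4 * F s) ≤ 96 / (1 + s) ^ 4 := by
  refine ⟨by positivity, ?_⟩
  have h1 := hP.2.2 s hs
  have hq : 0 ≤ qq * s := mul_nonneg (by unfold qq; norm_num) hs
  have hs1 : (0 : ℝ) < 1 + s := by linarith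
  have h2 : 4 * F s ≤ Real.log (16 / (1 + s) ^ 4) := by
    rw [Real.log_div (by norm_num) (by positivity), Real.log_pow]
    have h3 : Real.log 16 = 4 * Real.log 2 := by
      rw [show (16 : ℝ) = 2 ^ 4 by norm_num, Real.log_pow]; norm_num
    rw [h3]
    push_cast
    linarith
  calc 6 * Real.exp (4 * F s) ≤ 6 * Real.exp (Real.log (16 / (1 + s) ^ 4)) := by
        have := Real.exp_le_exp.2 h2
        linarith
    _ = 6 * (16 / (1 + s) ^ 4) := by rw [Real.exp_log (by positivity)]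
    _ = 96 / (1 + s) ^ 4 := by ring

theorem asy3_f_cont {F : ℝ → ℝ} (hP : Prof F) : Continuous fun σ => σ * (6 * Real.exp (4 * F σ)) := by
  have := hP.1
  fun_prop

theorem asy3_M_deriv {F : ℝ → ℝ} (hP : Prof F) (t : ℝ) :
    HasDerivAt (MM F) (t * (6 * Real.exp (4 * F t))) t :=
  ((asy3_f_cont hP).integral_hasStrictDerivAt 0 t).hasDerivAt

theorem asy3_M_cont {F : ℝ → ℝ} (hP : Prof F) : Continuous (MM F) :=
  continuous_iff_continuousAt.2 fun t => (asy3_M_deriv hP t).continuousAt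

theorem asy3_M_bd {F : ℝ → ℝ} (hP : Prof F) {t : ℝ} (ht : 0 ≤ t) : 0 ≤ MM F t ∧ MM F t ≤ 96 := by
  constructor
  · unfold MM
    refine intervalIntegral.integral_nonneg ht fun σ hσ => ?_
    exact mul_nonneg hσ.1 (asy3_f_bd hP hσ.1).1.le
  · have h0 : ∀ x ∈ uIcc 0 t, HasDerivAt (fun σ : ℝ => -(96 / (1 + σ))) (96 / (1 + x) ^ 2) x := by
      intro x hx
      rw [uIcc_of_le ht] at hx
      have hx1 : (1 + x) ≠ 0 := by have := hx.1; positivity
      have h1 : HasDerivAt (fun σ : ℝ => 1 + σ) 1 x := (hasDerivAt_id x).const_add 1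
      have h2 : HasDerivAt (fun σ : ℝ => -(96 / (1 + σ)))
          (-((0 * (1 + x) - 96 * 1) / (1 + x) ^ 2)) x :=
        ((hasDerivAt_const x (96 : ℝ)).div h1 hx1).neg
      have h3 : -((0 * (1 + x) - 96 * 1) / (1 + x) ^ 2) = 96 / (1 + x) ^ 2 := by ring
      rw [h3] at h2
      exact h2
    have hcont : ContinuousOn (fun σ : ℝ => 96 / (1 + σ) ^ 2) (uIcc 0 t) := by
      rw [uIcc_of_le ht]
      intro x hx
      have hx1 : (1 + x) ^ 2 ≠ 0 := by have := hx.1; positivity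
      exact (ContinuousAt.div (f := fun _ : ℝ => (96 : ℝ)) (g := fun σ : ℝ => (1 + σ) ^ 2)
        (by fun_prop) (by fun_prop) hx1).continuousWithinAt
    have h1 := intervalIntegral.integral_eq_sub_of_hasDerivAt h0 hcont.intervalIntegrable
    have h2 : MM F t ≤ ∫ σ in (0 : ℝ)..t, 96 / (1 + σ) ^ 2 := by
      unfold MM
      refine intervalIntegral.integral_mono_on ht ((asy3_f_cont hP).intervalIntegrable 0 t)
        hcont.intervalIntegrable fun σ hσ => ?_
      have hσ0 := hσ.1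
      calc σ * (6 * Real.exp (4 * F σ)) ≤ σ * (96 / (1 + σ) ^ 4) :=
            mul_le_mul_of_nonneg_left (asy3_f_bd hP hσ0).2 hσ0
        _ ≤ 96 / (1 + σ) ^ 2 := by
            rw [← mul_div_assoc, div_le_div_iff₀ (by positivity) (by positivity)]
            have h3 : σ ≤ (1 + σ) ^ 2 := by nlinarith
            have h4 : (0 : ℝ) ≤ (1 + σ) ^ 2 := by positivity
            nlinarith [mul_le_mul_of_nonneg_right h3 h4]
    rw [h1] at h2
    have h3 : (0 : ℝ) ≤ 96 / (1 + t) := by positivity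
    have h4 : (96 : ℝ) / (1 + 0) = 96 := by norm_num
    rw [h4] at h2
    linarith

noncomputable def asy3_m (F : ℝ → ℝ) (τ : ℝ) : ℝ := MM F τ / (4 * τ ^ 2)

theorem asy3_m_cont {F : ℝ → ℝ} (hP : Prof F) {τ : ℝ} (hτ : 0 < τ) :
    ContinuousAt (asy3_m F) τ := by
  unfold asy3_m
  have := (asy3_M_cont hP).continuousAt (x := τ)
  exact this.div (by fun_prop) (by positivity)

theorem asy3_m_bd {F : ℝ → ℝ} (hP : Prof F) {τ : ℝ} (hτ : 0 < τ) :
    0 ≤ asy3_m F τ ∧ asy3_m F τ ≤ 24 * τ ^ (-2 : ℝ) := by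
  obtain ⟨h1, h2⟩ := asy3_M_bd hP hτ.le
  have h3 : τ ^ (-2 : ℝ) = 1 / τ ^ 2 := by
    rw [Real.rpow_neg hτ.le, one_div]
    norm_num
  refine ⟨div_nonneg h1 (by positivity), ?_⟩
  rw [h3]
  unfold asy3_m
  rw [mul_one_div, div_le_div_iff₀ (by positivity) (by positivity)]
  have : (0 : ℝ) < τ ^ 2 := by positivity
  nlinarith

theorem asy3_m_int {F : ℝ → ℝ} (hP : Prof F) {t : ℝ} (ht : 0 < t) :
    IntegrableOn (asy3_m F) (Ioi t) := by
  have h1 : IntegrableOn (fun τ : ℝ => 24 * τ ^ (-2 : ℝ)) (Ioi t) :=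
    (integrableOn_Ioi_rpow_of_lt (by norm_num) ht).const_mul 24
  refine Integrable.mono' h1 ?_ ?_
  · refine ContinuousOn.aestronglyMeasurable (fun τ hτ => ?_) measurableSet_Ioi
    exact (asy3_m_cont hP (ht.trans hτ)).continuousWithinAt
  · refine (ae_restrict_iff' measurableSet_Ioi).2 (Filter.Eventually.of_forall fun τ hτ => ?_)
    obtain ⟨h2, h3⟩ := asy3_m_bd hP (ht.trans hτ)
    rw [Real.norm_eq_abs, abs_of_nonneg h2]
    exact h3

theorem asy3_R_bd {F : ℝ → ℝ} (hP : Prof F) {t : ℝ} (ht : 0 < t) :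
    0 ≤ Rr F t ∧ Rr F t ≤ 24 / t := by
  constructor
  · unfold Rr
    refine setIntegral_nonneg measurableSet_Ioi fun τ hτ => ?_
    exact (asy3_m_bd hP (ht.trans hτ)).1
  · have h1 : IntegrableOn (fun τ : ℝ => 24 * τ ^ (-2 : ℝ)) (Ioi t) :=
      (integrableOn_Ioi_rpow_of_lt (by norm_num) ht).const_mul 24
    have h2 : Rr F t ≤ ∫ τ in Ioi t, 24 * τ ^ (-2 : ℝ) :=
      setIntegral_mono_on (asy3_m_int hP ht) h1 measurableSet_Ioi fun τ hτ =>
        (asy3_m_bd hP (ht.trans hτ)).2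
    rw [integral_const_mul, integral_Ioi_rpow_of_lt (by norm_num) ht] at h2
    have h3 : -t ^ ((-2 : ℝ) + 1) / ((-2 : ℝ) + 1) = 1 / t := by
      rw [show ((-2 : ℝ) + 1) = -1 by norm_num, Real.rpow_neg_one]
      field_simp
    rw [h3] at h2
    rw [mul_one_div] at h2
    exact h2

theorem asy3_R_deriv {F : ℝ → ℝ} (hP : Prof F) {t : ℝ} (ht : 0 < t) :
    HasDerivAt (Rr F) (-(MM F t / (4 * t ^ 2))) t := by
  have hc : 0 < t / 2 := by positivity
  have hcont : ∀ x : ℝ, 0 < x → IntervalIntegrable (asy3_m F) volume (t / 2) x := by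
    intro x hx
    refine ContinuousOn.intervalIntegrable fun τ hτ => ?_
    have hτ0 : 0 < τ := lt_of_lt_of_le (lt_min hc hx) hτ.1
    exact (asy3_m_cont hP hτ0).continuousWithinAt
  have h1 : ∀ x : ℝ, 0 < x → Rr F x = Rr F (t / 2) - ∫ τ in (t / 2)..x, asy3_m F τ := by
    intro x hx
    have := intervalIntegral.integral_interval_add_Ioi' (f := asy3_m F) (μ := volume) (hcont x hx)
      (asy3_m_int hP hx)
    have e1 : Rr F x = ∫ τ in Ioi x, asy3_m F τ := rfl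
    have e2 : Rr F (t / 2) = ∫ τ in Ioi (t / 2), asy3_m F τ := rfl
    rw [e1, e2, ← this]
    ring
  have h2 : HasDerivAt (fun x => ∫ τ in (t / 2)..x, asy3_m F τ) (asy3_m F t) t := by
    refine intervalIntegral.integral_hasDerivAt_right (hcont t ht) ?_ (asy3_m_cont hP ht)
    refine ContinuousOn.stronglyMeasurableAtFilter (s := Ioi 0) isOpen_Ioi (fun τ hτ => ?_) t ht
    exact (asy3_m_cont hP hτ).continuousWithinAt
  have h3 := h2.const_sub (Rr F (t / 2))
  refine h3.congr_of_eventuallyEq ?_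
  filter_upwards [Ioi_mem_nhds ht] with x hx
  exact h1 x hx

theorem asy3_G_int {F : ℝ → ℝ} (hP : Prof F) {s : ℝ} (hs : 0 < s) :
    IntervalIntegrable (fun t => t / 4 * Rr F t) volume 0 s := by
  refine IntervalIntegrable.mono_fun' (g := fun _ => (6 : ℝ)) intervalIntegrable_const ?_ ?_
  · rw [uIoc_of_le hs.le]
    refine ContinuousOn.aestronglyMeasurable (fun τ hτ => ?_) measurableSet_Ioc
    have h1 := (asy3_R_deriv hP hτ.1).continuousAt
    exact (ContinuousAt.mul (by fun_prop) h1).continuousWithinAt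
  · rw [uIoc_of_le hs.le]
    refine (ae_restrict_iff' measurableSet_Ioc).2 (Filter.Eventually.of_forall fun τ hτ => ?_)
    obtain ⟨h2, h3⟩ := asy3_R_bd hP hτ.1
    have hτ0 : 0 < τ := hτ.1
    show ‖τ / 4 * Rr F τ‖ ≤ 6
    rw [Real.norm_eq_abs, abs_of_nonneg (by positivity)]
    rw [le_div_iff₀ hτ0] at h3
    linarith

theorem asy3_H_bd {F : ℝ → ℝ} (hP : Prof F) {s : ℝ} (hs : 0 < s) :
    0 ≤ Hh F s ∧ Hh F s ≤ 6 / s := by
  have h1 : 0 ≤ ∫ t in (0 : ℝ)..s, t / 4 * Rr F t := by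
    refine intervalIntegral.integral_nonneg_of_ae_restrict hs.le ?_
    rw [← MeasureTheory.restrict_Ioc_eq_restrict_Icc]
    refine (ae_restrict_iff' measurableSet_Ioc).2 (Filter.Eventually.of_forall fun τ hτ => ?_)
    have h2 := (asy3_R_bd hP hτ.1).1
    have hτ0 : 0 < τ := hτ.1
    show 0 ≤ τ / 4 * Rr F τ
    positivity
  have h2 : ∫ t in (0 : ℝ)..s, t / 4 * Rr F t ≤ ∫ _t in (0 : ℝ)..s, (6 : ℝ) := by
    rw [intervalIntegral.integral_of_le hs.le, intervalIntegral.integral_of_le hs.le]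
    refine setIntegral_mono_on ((intervalIntegrable_iff_integrableOn_Ioc_of_le hs.le).1
      (asy3_G_int hP hs)) ((intervalIntegrable_iff_integrableOn_Ioc_of_le hs.le).1
      intervalIntegrable_const) measurableSet_Ioc fun τ hτ => ?_
    have h3 := (asy3_R_bd hP hτ.1).2
    have hτ0 : 0 < τ := hτ.1
    rw [le_div_iff₀ hτ0] at h3
    linarith
  rw [intervalIntegral.integral_const, smul_eq_mul, sub_zero] at h2
  unfold Hh
  refine ⟨mul_nonneg (by positivity) h1, ?_⟩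
  calc (s ^ 2)⁻¹ * ∫ t in (0 : ℝ)..s, t / 4 * Rr F t ≤ (s ^ 2)⁻¹ * (s * 6) :=
        mul_le_mul_of_nonneg_left h2 (by positivity)
    _ = 6 / s := by field_simp

noncomputable def asy3_h1 (F : ℝ → ℝ) (s : ℝ) : ℝ := (Rr F s / 4 - 2 * Hh F s) / s

noncomputable def asy3_h2 (F : ℝ → ℝ) (s : ℝ) : ℝ :=
  -(MM F s / (16 * s ^ 3)) - 3 * asy3_h1 F s / s

noncomputable def asy3_h3 (F : ℝ → ℝ) (s : ℝ) : ℝ :=
  -(6 * Real.exp (4 * F s) / (16 * s ^ 2)) + 3 * MM F s / (16 * s ^ 4) - 3 * asy3_h2 F s / s +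
    3 * asy3_h1 F s / s ^ 2

theorem asy3_H_deriv {F : ℝ → ℝ} (hP : Prof F) {s : ℝ} (hs : 0 < s) :
    HasDerivAt (Hh F) (asy3_h1 F s) s := by
  have h2 : HasDerivAt (fun x => ∫ t in (0 : ℝ)..x, t / 4 * Rr F t) (s / 4 * Rr F s) s := by
    refine intervalIntegral.integral_hasDerivAt_right (asy3_G_int hP hs) ?_ ?_
    · refine ContinuousOn.stronglyMeasurableAtFilter (s := Ioi 0) isOpen_Ioi (fun τ hτ => ?_) s hs
      have h1 := (asy3_R_deriv hP (t := τ) hτ).continuousAt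
      exact (ContinuousAt.mul (by fun_prop) h1).continuousWithinAt
    · have h1 := (asy3_R_deriv hP hs).continuousAt
      exact ContinuousAt.mul (by fun_prop) h1
  have h3 : HasDerivAt (fun x : ℝ => (x ^ 2)⁻¹) (-(2 * s) / (s ^ 2) ^ 2) s := by
    have h4 : HasDerivAt (fun x : ℝ => x ^ 2) (2 * s) s := by
      simpa using hasDerivAt_pow 2 s
    exact h4.inv (by positivity)
  have h5 := h3.mul h2
  have h6 : HasDerivAt (Hh F) (-(2 * s) / (s ^ 2) ^ 2 * (∫ t in (0 : ℝ)..s, t / 4 * Rr F t) +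
      (s ^ 2)⁻¹ * (s / 4 * Rr F s)) s := h5
  convert h6 using 1
  unfold asy3_h1 Hh
  field_simp
  ring

theorem asy3_h1_deriv {F : ℝ → ℝ} (hP : Prof F) {s : ℝ} (hs : 0 < s) :
    HasDerivAt (asy3_h1 F) (asy3_h2 F s) s := by
  have h1 := ((asy3_R_deriv hP hs).div_const 4).sub ((asy3_H_deriv hP hs).const_mul 2)
  have h2 := h1.div (hasDerivAt_id s) hs.ne'
  have h3 : HasDerivAt (asy3_h1 F) (((-(MM F s / (4 * s ^ 2)) / 4 - 2 * asy3_h1 F s) * s -
      (Rr F s / 4 - 2 * Hh F s) * 1) / s ^ 2) s := h2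
  convert h3 using 1
  have h4 : Rr F s / 4 - 2 * Hh F s = asy3_h1 F s * s := by
    unfold asy3_h1; field_simp
  rw [h4]
  unfold asy3_h2
  field_simp
  ring

theorem asy3_h2_deriv {F : ℝ → ℝ} (hP : Prof F) {s : ℝ} (hs : 0 < s) :
    HasDerivAt (asy3_h2 F) (asy3_h3 F s) s := by
  have h0 : HasDerivAt (fun x : ℝ => 16 * x ^ 3) (16 * (3 * s ^ 2)) s := by
    have := (hasDerivAt_pow 3 s).const_mul (16 : ℝ)
    simpa using this
  have h1 := ((asy3_M_deriv hP s).div h0 (by positivity)).neg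
  have h2 := ((asy3_h1_deriv hP hs).const_mul 3).div (hasDerivAt_id s) hs.ne'
  have h3 := h1.sub h2
  have h4 : HasDerivAt (asy3_h2 F) (-((s * (6 * Real.exp (4 * F s)) * (16 * s ^ 3) -
      MM F s * (16 * (3 * s ^ 2))) / (16 * s ^ 3) ^ 2) -
      (3 * asy3_h2 F s * s - 3 * asy3_h1 F s * 1) / s ^ 2) s := h3
  convert h4 using 1
  unfold asy3_h3
  field_simp
  ring

theorem asy3 : S_ASY3 := by
  intro F hP
  refine ⟨258, by norm_num, fun j hj s hs => ?_⟩
  have hs0 : 0 < s := by linarith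
  have e1 : ∀ x : ℝ, 0 < x → iteratedDeriv 1 (Hh F) x = asy3_h1 F x := by
    intro x hx
    rw [iteratedDeriv_one]
    exact (asy3_H_deriv hP hx).deriv
  have e2 : ∀ x : ℝ, 0 < x → iteratedDeriv 2 (Hh F) x = asy3_h2 F x := by
    intro x hx
    rw [show (2 : ℕ) = 1 + 1 from rfl, iteratedDeriv_succ]
    have h : iteratedDeriv 1 (Hh F) =ᶠ[𝓝 x] asy3_h1 F := by
      filter_upwards [Ioi_mem_nhds hx] with y hy
      exact e1 y hy
    rw [h.deriv_eq]
    exact (asy3_h1_deriv hP hx).deriv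
  have e3 : ∀ x : ℝ, 0 < x → iteratedDeriv 3 (Hh F) x = asy3_h3 F x := by
    intro x hx
    rw [show (3 : ℕ) = 2 + 1 from rfl, iteratedDeriv_succ]
    have h : iteratedDeriv 2 (Hh F) =ᶠ[𝓝 x] asy3_h2 F := by
      filter_upwards [Ioi_mem_nhds hx] with y hy
      exact e2 y hy
    rw [h.deriv_eq]
    exact (asy3_h2_deriv hP hx).deriv
  obtain ⟨M0, M1⟩ := asy3_M_bd hP hs0.le
  obtain ⟨R0, R1⟩ := asy3_R_bd hP hs0
  obtain ⟨H0, H1⟩ := asy3_H_bd hP hs0
  obtain ⟨f0, f1⟩ := asy3_f_bd hP hs0.le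
  have f2 : 6 * Real.exp (4 * F s) ≤ 96 / s ^ 2 := by
    refine f1.trans (div_le_div_of_nonneg_left (by norm_num) (by positivity) ?_)
    have h1 : (1 : ℝ) ≤ (1 + s) ^ 2 := by nlinarith
    have h2 : s ^ 2 ≤ (1 + s) ^ 2 := by nlinarith
    calc s ^ 2 ≤ (1 + s) ^ 2 := h2
      _ ≤ (1 + s) ^ 2 * (1 + s) ^ 2 := le_mul_of_one_le_right (by positivity) h1
      _ = (1 + s) ^ 4 := by ring
  have b1 : |asy3_h1 F s| ≤ 18 / s ^ 2 := by
    unfold asy3_h1
    rw [abs_div, abs_of_pos hs0]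
    have h1 : |Rr F s / 4 - 2 * Hh F s| ≤ 18 / s := by
      have h2 : (24 : ℝ) / s = 4 * (6 / s) := by ring
      have h3 : (18 : ℝ) / s = 3 * (6 / s) := by ring
      rw [abs_le, h3]
      rw [h2] at R1
      constructor <;> linarith
    calc |Rr F s / 4 - 2 * Hh F s| / s ≤ (18 / s) / s := div_le_div_of_nonneg_right h1 hs0.le
      _ = 18 / s ^ 2 := by field_simp
  have b2 : |asy3_h2 F s| ≤ 60 / s ^ 3 := by
    unfold asy3_h2
    have h1 : |MM F s / (16 * s ^ 3)| ≤ 6 / s ^ 3 := by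
      rw [abs_of_nonneg (by positivity), div_le_div_iff₀ (by positivity) (by positivity)]
      have : (0 : ℝ) < s ^ 3 := by positivity
      nlinarith
    have h2 : |3 * asy3_h1 F s / s| ≤ 54 / s ^ 3 := by
      rw [abs_div, abs_mul, abs_of_pos hs0, abs_of_pos (by norm_num : (0 : ℝ) < 3)]
      calc 3 * |asy3_h1 F s| / s ≤ 3 * (18 / s ^ 2) / s := by gcongr
        _ = 54 / s ^ 3 := by field_simp; norm_num
    have h3 : (60 : ℝ) / s ^ 3 = 6 / s ^ 3 + 54 / s ^ 3 := by ring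
    rw [h3]
    rw [abs_le] at h1 h2 ⊢
    constructor <;> linarith [h1.1, h1.2, h2.1, h2.2]
  have b3 : |asy3_h3 F s| ≤ 258 / s ^ 4 := by
    unfold asy3_h3
    have h0 : |6 * Real.exp (4 * F s) / (16 * s ^ 2)| ≤ 6 / s ^ 4 := by
      rw [abs_of_pos (by positivity)]
      calc 6 * Real.exp (4 * F s) / (16 * s ^ 2) ≤ (96 / s ^ 2) / (16 * s ^ 2) := by gcongr
        _ = 6 / s ^ 4 := by field_simp; norm_num
    have h1 : |3 * MM F s / (16 * s ^ 4)| ≤ 18 / s ^ 4 := by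
      rw [abs_of_nonneg (by positivity), div_le_div_iff₀ (by positivity) (by positivity)]
      have : (0 : ℝ) < s ^ 4 := by positivity
      nlinarith
    have h2 : |3 * asy3_h2 F s / s| ≤ 180 / s ^ 4 := by
      rw [abs_div, abs_mul, abs_of_pos hs0, abs_of_pos (by norm_num : (0 : ℝ) < 3)]
      calc 3 * |asy3_h2 F s| / s ≤ 3 * (60 / s ^ 3) / s := by gcongr
        _ = 180 / s ^ 4 := by field_simp; norm_num
    have h3 : |3 * asy3_h1 F s / s ^ 2| ≤ 54 / s ^ 4 := by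
      rw [abs_div, abs_mul, abs_of_pos (by positivity : (0 : ℝ) < s ^ 2),
        abs_of_pos (by norm_num : (0 : ℝ) < 3)]
      calc 3 * |asy3_h1 F s| / s ^ 2 ≤ 3 * (18 / s ^ 2) / s ^ 2 := by gcongr
        _ = 54 / s ^ 4 := by field_simp; norm_num
    have h4 : (258 : ℝ) / s ^ 4 = 6 / s ^ 4 + 18 / s ^ 4 + 180 / s ^ 4 + 54 / s ^ 4 := by ring
    rw [h4]
    rw [abs_le] at h0 h1 h2 h3 ⊢
    constructor <;> linarith [h0.1, h0.2, h1.1, h1.2, h2.1, h2.2, h3.1, h3.2]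
  interval_cases j
  · rw [iteratedDeriv_zero, abs_of_nonneg H0]
    refine H1.trans ?_
    rw [show (0 + 1 : ℕ) = 1 from rfl, pow_one]
    exact div_le_div_of_nonneg_right (by norm_num) hs0.le
  · rw [e1 s hs0]
    refine b1.trans ?_
    exact div_le_div_of_nonneg_right (by norm_num) (by positivity)
  · rw [e2 s hs0]
    refine b2.trans ?_
    exact div_le_div_of_nonneg_right (by norm_num) (by positivity)
  · rw [e3 s hs0]
    exact b3

end Pool.Agent.Q82.QD
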