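import Pool.Agent.Q82.QD.Stm

/-! Project QD, job LSM: smoothness of `Lop f` on `[0,∞)`. -/

set_option autoImplicit false

open MeasureTheory Filter Topology Real Set

namespace Pool.Agent.Q82.QD

noncomputable def lsm_J (i : ℕ) (f : ℝ → ℝ) (t : ℝ) : ℝ := ∫ θ in (0 : ℝ)..1, θ ^ i * f (θ * t)

theorem lsm_J_cont (i : ℕ) {f : ℝ → ℝ} (hf : Continuous f) : Continuous (lsm_J i f) := by
  unfold lsm_J
  refine intervalIntegral.continuous_parametric_intervalIntegral_of_continuous' ?_ 0 1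
  unfold Function.uncurry
  fun_prop

theorem lsm_J_deriv (i : ℕ) {F g : ℝ → ℝ} (hg : Continuous g) (hF : ∀ x, HasDerivAt F (g x) x)
    (t : ℝ) : HasDerivAt (lsm_J i F) (lsm_J (i + 1) g t) t := by
  have hFc : Continuous F := continuous_iff_continuousAt.2 fun x => (hF x).continuousAt
  obtain ⟨M, hM⟩ := (isCompact_Icc (a := -(|t| + 1)) (b := |t| + 1)).exists_bound_of_continuousOn
    hg.continuousOn
  have h := intervalIntegral.hasDerivAt_integral_of_dominated_loc_of_deriv_le (𝕜 := ℝ) (μ := volume)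
    (a := (0 : ℝ)) (b := 1) (F := fun x θ => θ ^ i * F (θ * x))
    (F' := fun x θ => θ ^ (i + 1) * g (θ * x)) (x₀ := t) (s := Metric.ball t 1)
    (bound := fun _ => M) (Metric.ball_mem_nhds t one_pos)
    (Filter.Eventually.of_forall fun x => (by fun_prop : Continuous fun θ : ℝ =>
      θ ^ i * F (θ * x)).aestronglyMeasurable)
    ((by fun_prop : Continuous fun θ : ℝ => θ ^ i * F (θ * t)).intervalIntegrable 0 1)
    ((by fun_prop : Continuous fun θ : ℝ => θ ^ (i + 1) * g (θ * t)).aestronglyMeasurable)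
    (Filter.Eventually.of_forall fun θ hθ x hx => ?_)
    intervalIntegrable_const
    (Filter.Eventually.of_forall fun θ hθ x hx => ?_)
  · exact h.2
  · rw [uIoc_of_le zero_le_one] at hθ
    have hx' : |x - t| < 1 := by simpa [Real.dist_eq] using hx
    have hxt : |x| ≤ |t| + 1 := by
      have := abs_sub_abs_le_abs_sub x t
      linarith
    have hmem : θ * x ∈ Icc (-(|t| + 1)) (|t| + 1) := by
      rw [mem_Icc, ← abs_le, abs_mul, abs_of_pos hθ.1]
      calc θ * |x| ≤ 1 * |x| := mul_le_mul_of_nonneg_right hθ.2 (abs_nonneg x)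
        _ ≤ |t| + 1 := by linarith
    have hgb := hM _ hmem
    rw [norm_mul, norm_pow, Real.norm_eq_abs, abs_of_pos hθ.1]
    calc θ ^ (i + 1) * ‖g (θ * x)‖ ≤ 1 * ‖g (θ * x)‖ :=
          mul_le_mul_of_nonneg_right (pow_le_one₀ hθ.1.le hθ.2) (norm_nonneg _)
      _ ≤ M := by linarith
  · have h1 : HasDerivAt (fun x : ℝ => θ * x) θ x := by
      simpa using (hasDerivAt_id x).const_mul θ
    have h2 := (hF (θ * x)).comp x h1
    have h3 := h2.const_mul (θ ^ i)
    have h4 : θ ^ i * (g (θ * x) * θ) = θ ^ (i + 1) * g (θ * x) := by ring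
    rw [h4] at h3
    exact h3

/-- a continuously differentiable extension -/
theorem lsm_ext {f : ℝ → ℝ} (hf : Continuous f) {n : ℕ} (h : ContDiffOn ℝ (n + 1 : ℕ) f (Ici 0)) :
    ∃ F g : ℝ → ℝ, Continuous g ∧ ContDiffOn ℝ n g (Ici 0) ∧ (∀ x, HasDerivAt F (g x) x) ∧
      ∀ x, 0 ≤ x → F x = f x := by
  have hu := uniqueDiffOn_Ici (0 : ℝ)
  have h' : ContDiffOn ℝ ((n : WithTop ℕ∞) + 1) f (Ici 0) := by exact_mod_cast h
  obtain ⟨hd, -, hc⟩ := (contDiffOn_succ_iff_derivWithin hu).1 h'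
  set g : ℝ → ℝ := fun t => derivWithin f (Ici 0) (max t 0) with hg
  have hgc : Continuous g := by
    have h1 := hc.continuousOn
    refine h1.comp_continuous (by fun_prop : Continuous fun t : ℝ => max t 0) fun t => ?_
    exact le_max_right t 0
  have hge : ∀ x, 0 ≤ x → g x = derivWithin f (Ici 0) x := fun x hx => by
    simp only [hg, max_eq_left hx]
  have hgd : ContDiffOn ℝ n g (Ici 0) := hc.congr fun x hx => hge x hx
  refine ⟨fun t => f 0 + ∫ σ in (0 : ℝ)..t, g σ, g, hgc, hgd, fun x => ?_, fun x hx => ?_⟩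
  · exact (hgc.integral_hasStrictDerivAt 0 x).hasDerivAt.const_add (f 0)
  · have h1 : ∫ σ in (0 : ℝ)..x, g σ = f x - f 0 := by
      refine intervalIntegral.integral_eq_sub_of_hasDerivAt_of_le hx hf.continuousOn
        (fun y hy => ?_) (hgc.intervalIntegrable 0 x)
      have h2 := (hd y hy.1.le).hasDerivWithinAt
      rw [hge y hy.1.le]
      exact h2.hasDerivAt (Ici_mem_nhds hy.1)
    show f 0 + ∫ σ in (0 : ℝ)..x, g σ = f x
    rw [h1]; ring

theorem lsm_succ {f f' : ℝ → ℝ} {n : ℕ} (hf : ∀ x, 0 ≤ x → HasDerivWithinAt f (f' x) (Ici 0) x)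
    (hf' : ContDiffOn ℝ n f' (Ici 0)) : ContDiffOn ℝ (n + 1 : ℕ) f (Ici 0) := by
  have hu := uniqueDiffOn_Ici (0 : ℝ)
  have h : ContDiffOn ℝ ((n : WithTop ℕ∞) + 1) f (Ici 0) := by
    rw [contDiffOn_succ_iff_derivWithin hu]
    refine ⟨fun x hx => (hf x hx).differentiableWithinAt, ?_, ?_⟩
    · intro hn
      exact absurd hn (by simp)
    · exact hf'.congr fun x hx => (hf x hx).derivWithin (hu x hx)
  exact_mod_cast h

theorem lsm_J_smooth (n : ℕ) : ∀ (i : ℕ) (f : ℝ → ℝ), Continuous f → ContDiffOn ℝ n f (Ici 0) →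
    ContDiffOn ℝ n (lsm_J i f) (Ici 0) := by
  induction n with
  | zero =>
    intro i f hf _
    exact contDiffOn_zero.2 (lsm_J_cont i hf).continuousOn
  | succ n ih =>
    intro i f hf h
    obtain ⟨F, g, hgc, hgd, hF, hFe⟩ := lsm_ext hf h
    have h1 := ih (i + 1) g hgc hgd
    have heq : ∀ x, 0 ≤ x → lsm_J i f x = lsm_J i F x := by
      intro x hx
      unfold lsm_J
      refine intervalIntegral.integral_congr fun θ hθ => ?_
      rw [uIcc_of_le zero_le_one] at hθ
      show θ ^ i * f (θ * x) = θ ^ i * F (θ * x)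
      rw [hFe _ (mul_nonneg hθ.1 hx)]
    refine (lsm_succ (f := lsm_J i F) (f' := lsm_J (i + 1) g)
      (fun x _ => (lsm_J_deriv i hgc hF x).hasDerivWithinAt) h1).congr fun x hx => heq x hx

theorem lsm : S_LSM := by
  intro f hf n h
  have hJ := lsm_J_smooth n 1 f hf h
  have hk : ∀ t, ∫ θ in (0 : ℝ)..1, θ / 4 * f (θ * t) = 1 / 4 * lsm_J 1 f t := by
    intro t
    unfold lsm_J
    rw [← intervalIntegral.integral_const_mul]
    refine intervalIntegral.integral_congr fun θ _ => ?_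
    show θ / 4 * f (θ * t) = 1 / 4 * (θ ^ 1 * f (θ * t))
    ring
  have hc : Continuous fun t => 1 / 4 * lsm_J 1 f t := continuous_const.mul (lsm_J_cont 1 hf)
  have hL : Lop f = fun s => ∫ t in (0 : ℝ)..s, 1 / 4 * lsm_J 1 f t := by
    funext s
    unfold Lop
    exact intervalIntegral.integral_congr fun t _ => hk t
  rw [hL]
  refine lsm_succ (f' := fun t => 1 / 4 * lsm_J 1 f t)
    (fun x _ => ((hc.integral_hasStrictDerivAt 0 x).hasDerivAt).hasDerivWithinAt) ?_
  exact contDiffOn_const.mul hJ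

end Pool.Agent.Q82.QD
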