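import Pool.Agent.Q142.QGTop

set_option autoImplicit false

open Finset Topology

namespace Q142.QG

variable {U : Type} [Fintype U] [DecidableEq U]

/-- the corner simplex -/
def T (k : ℕ) : Set (EuclideanSpace ℝ (Fin k)) := {z | (∀ i, 0 ≤ z i) ∧ ∑ i, z i ≤ 1}

lemma T_convex (k : ℕ) : Convex ℝ (T k) := by
  intro x hx y hy a b ha hb hab
  refine ⟨fun i => ?_, ?_⟩
  · simp only [PiLp.add_apply, PiLp.smul_apply, smul_eq_mul]
    have := mul_nonneg ha (hx.1 i)
    have := mul_nonneg hb (hy.1 i)
    linarith
  · simp only [PiLp.add_apply, PiLp.smul_apply, smul_eq_mul, Finset.sum_add_distrib,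
      ← Finset.mul_sum]
    have := mul_le_mul_of_nonneg_left hx.2 ha
    have := mul_le_mul_of_nonneg_left hy.2 hb
    linarith

lemma T_closed (k : ℕ) : IsClosed (T k) := by
  have : T k = (⋂ i, {z : EuclideanSpace ℝ (Fin k) | 0 ≤ z i}) ∩ {z | ∑ i, z i ≤ 1} := by
    ext z
    simp [T]
  rw [this]
  refine IsClosed.inter (isClosed_iInter fun i => ?_) ?_
  · exact isClosed_le continuous_const (by fun_prop)
  · exact isClosed_le (by fun_prop) continuous_const

lemma T_bounded (k : ℕ) : Bornology.IsBounded (T k) := by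
  rw [isBounded_iff_forall_norm_le]
  refine ⟨Real.sqrt k, fun z hz => ?_⟩
  rw [EuclideanSpace.norm_eq]
  apply Real.sqrt_le_sqrt
  calc ∑ i, ‖z i‖ ^ 2 ≤ ∑ i : Fin k, (1 : ℝ) := by
        refine Finset.sum_le_sum fun i _ => ?_
        have h0 := hz.1 i
        have h1 : z i ≤ 1 :=
          le_trans (Finset.single_le_sum (f := fun i => z i) (fun j _ => hz.1 j)
            (Finset.mem_univ i)) hz.2
        rw [Real.norm_eq_abs, sq_abs]
        nlinarith
    _ = k := by simp

lemma T_interior (k : ℕ) :
    interior (T k) = {z | (∀ i, 0 < z i) ∧ ∑ i, z i < 1} := by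
  apply Set.Subset.antisymm
  · intro z hz
    have hz2 := mem_interior_iff_mem_nhds.1 hz
    let one : EuclideanSpace ℝ (Fin k) := WithLp.toLp 2 fun _ => 1
    have hone : ∀ i, one i = 1 := fun i => rfl
    have hc : Continuous fun t : ℝ => z + t • one := by fun_prop
    have h0 : z + (0 : ℝ) • one = z := by simp
    have h1 : ∀ᶠ t in nhds (0 : ℝ), z + t • one ∈ T k := by
      apply hc.continuousAt.eventually
      show ∀ᶠ y in nhds (z + (0 : ℝ) • one), y ∈ T k
      rw [h0]
      exact hz2
    rw [Metric.eventually_nhds_iff] at h1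
    obtain ⟨ε, hε, h2⟩ := h1
    have ha : z + (-(ε / 2)) • one ∈ T k := h2 (by
      rw [Real.dist_eq, sub_zero, abs_neg, abs_of_pos (by positivity)]
      linarith)
    have hb : z + (ε / 2) • one ∈ T k := h2 (by
      rw [Real.dist_eq, sub_zero, abs_of_pos (by positivity)]
      linarith)
    refine ⟨fun i => ?_, ?_⟩
    · have := ha.1 i
      simp only [PiLp.add_apply, PiLp.smul_apply, smul_eq_mul, hone, mul_one] at this
      linarith
    · have := hb.2
      simp only [PiLp.add_apply, PiLp.smul_apply, smul_eq_mul, hone, mul_one,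
        Finset.sum_add_distrib, Finset.sum_const, Finset.card_univ, Fintype.card_fin,
        nsmul_eq_mul] at this
      rcases Nat.eq_zero_or_pos k with hk | hk
      · subst hk
        simp
      · have : (1 : ℝ) ≤ k := by exact_mod_cast hk
        have : 0 < (k : ℝ) * (ε / 2) := by positivity
        linarith
  · apply interior_maximal
    · intro z hz
      exact ⟨fun i => (hz.1 i).le, hz.2.le⟩
    · have : {z : EuclideanSpace ℝ (Fin k) | (∀ i, 0 < z i) ∧ ∑ i, z i < 1} =
          (⋂ i, {z : EuclideanSpace ℝ (Fin k) | 0 < z i}) ∩ {z | ∑ i, z i < 1} := by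
        ext z
        simp
      rw [this]
      refine IsOpen.inter (isOpen_iInter_of_finite fun i => ?_) ?_
      · exact isOpen_lt continuous_const (by fun_prop)
      · exact isOpen_lt (by fun_prop) continuous_const

lemma T_interior_nonempty (k : ℕ) : (interior (T k)).Nonempty := by
  rw [T_interior]
  refine ⟨WithLp.toLp 2 fun _ => 1 / ((k : ℝ) + 1), fun i => ?_, ?_⟩
  · show 0 < 1 / ((k : ℝ) + 1)
    positivity
  · show ∑ i : Fin k, 1 / ((k : ℝ) + 1) < 1
    rw [Finset.sum_const, Finset.card_univ, Fintype.card_fin, nsmul_eq_mul, mul_one_div,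
      div_lt_one (by positivity)]
    linarith

theorem simplex (S : Finset U) (k : ℕ) (hS : S.card = k + 1) :
    ∃ φ : R (fun G => G ⊆ S) ≃ₜ Metric.closedBall (0 : EuclideanSpace ℝ (Fin k)) 1,
      ∀ x : R (fun G => G ⊆ S), ‖(φ x : EuclideanSpace ℝ (Fin k))‖ < 1 ↔
        ∀ u ∈ S, 0 < (x : U → ℝ) u := by
  have hne : S.Nonempty := by
    rw [← Finset.card_pos, hS]
    omega
  obtain ⟨s, hs⟩ := hne
  have hcard : (S.erase s).card = k := by
    rw [Finset.card_erase_of_mem hs, hS]
    rfl
  let e : S.erase s ≃ Fin k := (S.erase s).equivFinOfCardEq hcard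
  obtain ⟨h, h1, h2, -⟩ := exists_homeomorph_image_interior_closure_frontier_eq_unitBall
    (T_convex k) (T_interior_nonempty k) (T_bounded k)
  rw [(T_closed k).closure_eq] at h2
  let pr : (U → ℝ) → EuclideanSpace ℝ (Fin k) := fun x => WithLp.toLp 2 fun i => x (e.symm i)
  let inc : EuclideanSpace ℝ (Fin k) → (U → ℝ) := fun z u =>
    if u = s then 1 - ∑ i, z i else if hu : u ∈ S.erase s then z (e ⟨u, hu⟩) else 0
  have hprv : ∀ x i, pr x i = x (e.symm i) := fun x i => rfl
  have hsum : ∀ x : U → ℝ, ∑ i, pr x i = ∑ u ∈ S.erase s, x u := by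
    intro x
    simp only [hprv]
    rw [Equiv.sum_comp e.symm (fun u => x (u : U))]
    exact Finset.sum_coe_sort (S.erase s) x
  have hR : ∀ x ∈ R (fun G => G ⊆ S), x s + ∑ i, pr x i = 1 := by
    intro x hx
    rw [hsum, Finset.add_sum_erase _ _ hs, ← hx.2.1]
    apply Finset.sum_subset (Finset.subset_univ _)
    intro u _ hu
    by_contra h
    exact hu (hx.2.2 ((mem_supp x u).2 h))
  have hprT : ∀ x ∈ R (fun G => G ⊆ S), pr x ∈ T k := by
    intro x hx
    refine ⟨fun i => hx.1 _, ?_⟩
    have := hR x hx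
    have := hx.1 s
    linarith
  have hincsum : ∀ z : EuclideanSpace ℝ (Fin k), ∑ u ∈ S.erase s, inc z u = ∑ i, z i := by
    intro z
    rw [← Finset.sum_coe_sort, ← Equiv.sum_comp e]
    refine Finset.sum_congr rfl fun u _ => ?_
    have h3 : (u : U) ≠ s := (Finset.mem_erase.1 u.2).1
    simp only [inc, if_neg h3, dif_pos u.2]
  have hincR : ∀ z ∈ T k, inc z ∈ R (fun G => G ⊆ S) := by
    intro z hz
    refine ⟨fun u => ?_, ?_, ?_⟩
    · simp only [inc]
      split_ifs with h3 h4
      · have := hz.2
        linarith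
      · exact hz.1 _
      · exact le_rfl
    · rw [← Finset.sum_subset (Finset.subset_univ S), ← Finset.add_sum_erase _ _ hs, hincsum]
      · simp [inc]
      · intro u _ hu
        have h3 : u ≠ s := fun h => hu (h ▸ hs)
        have h4 : u ∉ S.erase s := fun h => hu (Finset.mem_of_mem_erase h)
        simp only [inc, if_neg h3, dif_neg h4]
    · intro u hu
      rw [mem_supp] at hu
      by_contra h5
      apply hu
      have h3 : u ≠ s := fun h => h5 (h ▸ hs)
      have h4 : u ∉ S.erase s := fun h => h5 (Finset.mem_of_mem_erase h)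
      simp only [inc, if_neg h3, dif_neg h4]
  have hip : ∀ x ∈ R (fun G => G ⊆ S), inc (pr x) = x := by
    intro x hx
    funext u
    simp only [inc]
    split_ifs with h3 h4
    · rw [h3]
      have := hR x hx
      linarith
    · rw [hprv, Equiv.symm_apply_apply]
    · by_contra h5
      have h6 : u ∈ S := hx.2.2 ((mem_supp x u).2 (Ne.symm h5))
      exact h4 (Finset.mem_erase.2 ⟨h3, h6⟩)
  have hpi : ∀ z : EuclideanSpace ℝ (Fin k), pr (inc z) = z := by
    intro z
    ext i
    rw [hprv]
    have h3 : ((e.symm i : S.erase s) : U) ≠ s := (Finset.mem_erase.1 (e.symm i).2).1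
    simp only [inc, if_neg h3, dif_pos (e.symm i).2]
    rw [Subtype.coe_eta, Equiv.apply_symm_apply]
  have cpr : Continuous pr := by
    apply (PiLp.continuous_toLp 2 _).comp
    fun_prop
  have cinc : Continuous inc := by
    refine continuous_pi fun u => ?_
    simp only [inc]
    split_ifs with h3 h4
    · fun_prop
    · fun_prop
    · exact continuous_const
  have hm1 : ∀ x ∈ R (fun G => G ⊆ S), h (pr x) ∈ Metric.closedBall (0 : EuclideanSpace ℝ (Fin k)) 1 := by
    intro x hx
    rw [← h2]
    exact ⟨_, hprT x hx, rfl⟩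
  have hm2 : ∀ w ∈ Metric.closedBall (0 : EuclideanSpace ℝ (Fin k)) 1,
      inc (h.symm w) ∈ R (fun G => G ⊆ S) := by
    intro w hw
    rw [← h2] at hw
    obtain ⟨z, hz, rfl⟩ := hw
    rw [Homeomorph.symm_apply_apply]
    exact hincR z hz
  refine ⟨{ toFun := fun x => ⟨h (pr x), hm1 x x.2⟩
            invFun := fun w => ⟨inc (h.symm w), hm2 w w.2⟩
            left_inv := fun x => Subtype.ext (by
              show inc (h.symm (h (pr x))) = x
              rw [Homeomorph.symm_apply_apply, hip x x.2])
            right_inv := fun w => Subtype.ext (by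
              show h (pr (inc (h.symm w))) = w
              rw [hpi, Homeomorph.apply_symm_apply])
            continuous_toFun :=
              ((h.continuous.comp cpr).comp continuous_subtype_val).subtype_mk _
            continuous_invFun :=
              ((cinc.comp h.symm.continuous).comp continuous_subtype_val).subtype_mk _ }, ?_⟩
  intro x
  show ‖h (pr x)‖ < 1 ↔ _
  rw [← mem_ball_zero_iff, ← h1, Function.Injective.mem_set_image h.injective, T_interior]
  have hx := hR x x.2
  constructor
  · rintro ⟨h3, h4⟩ u hu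
    by_cases hus : u = s
    · rw [hus]
      linarith
    · have h5 : u ∈ S.erase s := Finset.mem_erase.2 ⟨hus, hu⟩
      have := h3 (e ⟨u, h5⟩)
      rw [hprv, Equiv.symm_apply_apply] at this
      exact this
  · intro h3
    refine ⟨fun i => ?_, ?_⟩
    · rw [hprv]
      exact h3 _ (Finset.mem_of_mem_erase (e.symm i).2)
    · have := h3 s hs
      linarith

end Q142.QG
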