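import Mathlib

set_option autoImplicit false

open Finset Topology

namespace Q142.QG

variable {U : Type} [Fintype U] [DecidableEq U]

/-- support -/
noncomputable def supp (x : U → ℝ) : Finset U := univ.filter fun u => x u ≠ 0

lemma mem_supp (x : U → ℝ) (u : U) : u ∈ supp x ↔ x u ≠ 0 := by simp [supp]

/-- convex combinations whose support satisfies `P` -/
def R (P : Finset U → Prop) : Set (U → ℝ) := {x | (∀ u, 0 ≤ x u) ∧ ∑ u, x u = 1 ∧ P (supp x)}

lemma pos_iff {x : U → ℝ} (hx : ∀ u, 0 ≤ x u) (u : U) : 0 < x u ↔ u ∈ supp x := by
  rw [mem_supp]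
  exact ⟨fun h => h.ne', fun h => lt_of_le_of_ne (hx u) (Ne.symm h)⟩

/-- forward map of a stellar subdivision -/
noncomputable def fwd (b : U) (F : Finset U) (x : U → ℝ) : U → ℝ := fun u =>
  (if u = b then 0 else x u) + (if u ∈ F then x b / F.card else 0)

/-- backward map of a stellar subdivision -/
noncomputable def bwd (b : U) (F : Finset U) (hF : F.Nonempty) (y : U → ℝ) : U → ℝ := fun u =>
  y u + (if u = b then F.card * F.inf' hF y else 0) - (if u ∈ F then F.inf' hF y else 0)

lemma fwd_sum (b : U) (F : Finset U) (hF : F.Nonempty) (x : U → ℝ) :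
    ∑ u, fwd b F x u = ∑ u, x u := by
  have hc : (F.card : ℝ) ≠ 0 := by
    have := hF.card_pos
    positivity
  simp only [fwd, sum_add_distrib]
  rw [Finset.sum_ite_mem, Finset.univ_inter, Finset.sum_const, nsmul_eq_mul,
    mul_div_cancel₀ _ hc]
  have h1 : ∑ u, (if u = b then (0 : ℝ) else x u) = ∑ u, x u - x b := by
    have : ∀ u, (if u = b then (0 : ℝ) else x u) = x u - (if u = b then x b else 0) := by
      intro u
      by_cases h : u = b
      · simp [h]
      · simp [h]
    rw [Finset.sum_congr rfl fun u _ => this u, Finset.sum_sub_distrib]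
    simp
  rw [h1]
  ring

lemma bwd_sum (b : U) (F : Finset U) (hF : F.Nonempty) (y : U → ℝ) :
    ∑ u, bwd b F hF y u = ∑ u, y u := by
  simp only [bwd, sum_add_distrib, sum_sub_distrib]
  rw [Finset.sum_ite_mem, Finset.univ_inter, Finset.sum_const, nsmul_eq_mul]
  simp

theorem stellar (P Q : Finset U → Prop) (b : U) (F : Finset U) (hF : F.Nonempty) (hbF : b ∉ F)
    (P0 : ∀ S, P S → b ∉ S)
    (Q0 : ∀ S, Q S → ¬ F ⊆ S)
    (QP1 : ∀ S, Q S → b ∉ S → P S)
    (QP2 : ∀ S, Q S → b ∈ S → P (S.erase b ∪ F))
    (PQ1 : ∀ S, P S → ¬ F ⊆ S → Q S)
    (PQ2 : ∀ S, P S → F ⊆ S → ∀ A ⊆ F, A.Nonempty → Q (insert b (S \ A))) :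
    ∃ φ : R Q ≃ₜ R P, ∀ x : R Q, (φ x : U → ℝ) = fwd b F (x : U → ℝ) := by
  have hc : (0 : ℝ) < F.card := by
    have := hF.card_pos
    positivity
  have hf : ∀ x ∈ R Q, fwd b F x ∈ R P := by
    intro x hx
    obtain ⟨h0, h1, h2⟩ := hx
    have hnn : ∀ u, 0 ≤ fwd b F x u := by
      intro u
      have a1 : (0 : ℝ) ≤ if u = b then 0 else x u := by
        split_ifs
        · exact le_rfl
        · exact h0 u
      have a2 : (0 : ℝ) ≤ if u ∈ F then x b / F.card else 0 := by
        split_ifs
        · exact div_nonneg (h0 b) hc.le
        · exact le_rfl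
      exact add_nonneg a1 a2
    refine ⟨hnn, by rw [fwd_sum b F hF, h1], ?_⟩
    by_cases hb : b ∈ supp x
    · have : supp (fwd b F x) = (supp x).erase b ∪ F := by
        ext u
        rw [← pos_iff hnn, Finset.mem_union, Finset.mem_erase]
        have hxb := (pos_iff h0 b).2 hb
        constructor
        · intro h
          by_cases hu : u ∈ F
          · exact Or.inr hu
          · left
            simp only [fwd, if_neg hu, add_zero] at h
            by_cases hub : u = b
            · simp [hub] at h
            · rw [if_neg hub] at h
              exact ⟨hub, (pos_iff h0 u).1 h⟩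
        · rintro (⟨h3, h4⟩ | h3)
          · have := (pos_iff h0 u).2 h4
            simp only [fwd, if_neg h3]
            have a2 : (0 : ℝ) ≤ if u ∈ F then x b / F.card else 0 := by
              split_ifs
              · exact div_nonneg (h0 b) hc.le
              · exact le_rfl
            linarith
          · simp only [fwd, if_pos h3]
            have a1 : (0 : ℝ) ≤ if u = b then 0 else x u := by
              split_ifs
              · exact le_rfl
              · exact h0 u
            have := div_pos hxb hc
            linarith
      rw [this]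
      exact QP2 _ h2 hb
    · have hxb : x b = 0 := by
        by_contra h
        exact hb ((mem_supp x b).2 h)
      have : fwd b F x = x := by
        funext u
        simp only [fwd, hxb, zero_div, ite_self, add_zero]
        by_cases hub : u = b
        · rw [if_pos hub, hub, hxb]
        · rw [if_neg hub]
      rw [this]
      exact QP1 _ h2 hb
  have hg : ∀ y ∈ R P, bwd b F hF y ∈ R Q := by
    intro y hy
    obtain ⟨h0, h1, h2⟩ := hy
    have hyb : y b = 0 := by
      by_contra h
      exact P0 _ h2 ((mem_supp y b).2 h)
    have hm0 : 0 ≤ F.inf' hF y := by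
      rw [Finset.le_inf'_iff]
      exact fun u _ => h0 u
    have hmle : ∀ u ∈ F, F.inf' hF y ≤ y u := fun u hu => Finset.inf'_le _ hu
    have hval : ∀ u, bwd b F hF y u =
        if u = b then F.card * F.inf' hF y else if u ∈ F then y u - F.inf' hF y else y u := by
      intro u
      by_cases hub : u = b
      · subst hub
        simp [bwd, hyb, hbF]
      · by_cases huF : u ∈ F
        · simp [bwd, hub, huF]
        · simp [bwd, hub, huF]
    have hnn : ∀ u, 0 ≤ bwd b F hF y u := by
      intro u
      rw [hval]
      split_ifs with h3 h4
      · positivity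
      · exact sub_nonneg.2 (hmle u h4)
      · exact h0 u
    refine ⟨hnn, by rw [bwd_sum, h1], ?_⟩
    by_cases hFS : F ⊆ supp y
    · have hmpos : 0 < F.inf' hF y := by
        rw [Finset.lt_inf'_iff]
        exact fun u hu => (pos_iff h0 u).2 (hFS hu)
      have : supp (bwd b F hF y) =
          insert b (supp y \ (F.filter fun u => y u = F.inf' hF y)) := by
        ext u
        rw [mem_supp, hval, Finset.mem_insert, Finset.mem_sdiff, Finset.mem_filter, mem_supp]
        by_cases hub : u = b
        · simp only [hub, if_true, true_or, iff_true]
          positivity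
        · by_cases huF : u ∈ F
          · simp only [hub, huF, if_true, if_false, false_or, true_and]
            have := (mem_supp y u).1 (hFS huF)
            constructor
            · intro h
              exact ⟨this, fun h5 => h (by rw [h5, sub_self])⟩
            · rintro ⟨-, h5⟩ h
              exact h5 (by linarith)
          · simp [hub, huF]
      rw [this]
      refine PQ2 _ h2 hFS _ (Finset.filter_subset _ _) ?_
      obtain ⟨u, hu, hu2⟩ := Finset.exists_mem_eq_inf' hF y
      exact ⟨u, Finset.mem_filter.2 ⟨hu, hu2.symm⟩⟩
    · have hm : F.inf' hF y = 0 := by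
        obtain ⟨u, hu, hu2⟩ := Finset.not_subset.1 hFS
        have : y u = 0 := by
          by_contra h
          exact hu2 ((mem_supp y u).2 h)
        have := hmle u hu
        linarith
      have : bwd b F hF y = y := by
        funext u
        simp [bwd, hm]
      rw [this]
      exact PQ1 _ h2 hFS
  have hgf : ∀ x ∈ R Q, bwd b F hF (fwd b F x) = x := by
    intro x hx
    obtain ⟨h0, h1, h2⟩ := hx
    have hbv : fwd b F x b = 0 := by simp [fwd, hbF]
    have hFv : ∀ u ∈ F, fwd b F x u = x u + x b / F.card := by
      intro u hu
      have : u ≠ b := fun h => hbF (h ▸ hu)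
      simp [fwd, hu, this]
    have hm : F.inf' hF (fwd b F x) = x b / F.card := by
      apply le_antisymm
      · obtain ⟨u, hu, hu2⟩ := Finset.not_subset.1 (Q0 _ h2)
        have h3 : x u = 0 := by
          by_contra h
          exact hu2 ((mem_supp x u).2 h)
        have := Finset.inf'_le (fwd b F x) hu
        rw [hFv u hu, h3, zero_add] at this
        exact this
      · rw [Finset.le_inf'_iff]
        intro u hu
        rw [hFv u hu]
        have := h0 u
        linarith
    funext u
    simp only [bwd, hm]
    by_cases hub : u = b
    · subst hub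
      rw [hbv, if_pos rfl, if_neg hbF, mul_div_cancel₀ _ hc.ne']
      ring
    · rw [if_neg hub]
      by_cases hu : u ∈ F
      · rw [hFv u hu, if_pos hu]
        ring
      · rw [if_neg hu]
        simp [fwd, hub, hu]
  have hfg : ∀ y ∈ R P, fwd b F (bwd b F hF y) = y := by
    intro y hy
    obtain ⟨h0, h1, h2⟩ := hy
    have hyb : y b = 0 := by
      by_contra h
      exact P0 _ h2 ((mem_supp y b).2 h)
    have hb : bwd b F hF y b = F.card * F.inf' hF y := by
      simp [bwd, hyb, hbF]
    funext u
    simp only [fwd, hb]
    rw [mul_div_cancel_left₀ _ hc.ne']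
    by_cases hub : u = b
    · subst hub
      simp [hbF, hyb]
    · rw [if_neg hub]
      by_cases hu : u ∈ F
      · simp [bwd, hub, hu]
      · simp [bwd, hub, hu]
  have cf : Continuous (fwd b F) := by
    refine continuous_pi fun u => ?_
    refine Continuous.add ?_ ?_
    · by_cases h : u = b
      · simp only [if_pos h]
        exact continuous_const
      · simp only [if_neg h]
        exact continuous_apply u
    · by_cases h : u ∈ F
      · simp only [if_pos h]
        exact (continuous_apply b).div_const _
      · simp only [if_neg h]
        exact continuous_const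
  have ci : Continuous fun y : U → ℝ => F.inf' hF y := by
    have := Continuous.finset_inf'_apply (s := F) (f := fun (u : U) (y : U → ℝ) => y u) hF
      (fun u _ => continuous_apply u)
    exact this
  have cg : Continuous (bwd b F hF) := by
    refine continuous_pi fun u => ?_
    refine Continuous.sub (Continuous.add (continuous_apply u) ?_) ?_
    · by_cases h : u = b
      · simp only [if_pos h]
        exact continuous_const.mul ci
      · simp only [if_neg h]
        exact continuous_const
    · by_cases h : u ∈ F
      · simp only [if_pos h]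
        exact ci
      · simp only [if_neg h]
        exact continuous_const
  refine ⟨{ toFun := fun x => ⟨fwd b F x, hf x x.2⟩
            invFun := fun y => ⟨bwd b F hF y, hg y y.2⟩
            left_inv := fun x => Subtype.ext (hgf x x.2)
            right_inv := fun y => Subtype.ext (hfg y y.2)
            continuous_toFun := (cf.comp continuous_subtype_val).subtype_mk _
            continuous_invFun := (cg.comp continuous_subtype_val).subtype_mk _ }, fun x => rfl⟩

end Q142.QG
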