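import Pool.Agent.Q142.QGSimplex

set_option autoImplicit false
set_option linter.unusedSectionVars false

open Finset Polynomial

namespace Pool.Agent.Results.MP_230912_co.QuasiGeometric

/-- A finite simplicial complex with vertices in `U`; the empty set is a face. -/
structure SCx (U : Type) where
  faces : Finset (Finset U)
  empty_mem : ∅ ∈ faces
  down : ∀ F ∈ faces, ∀ G, G ⊆ F → G ∈ faces

section defs

variable {U V : Type} [Fintype U] [DecidableEq U] [Fintype V] [DecidableEq V]

/-- The restriction `Γ_W = σ⁻¹(2^W)` of `Γ` to `W`, as a set of faces. -/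
def restriction (Γ : SCx U) (σ : Finset U → Finset V) (W : Finset V) : Finset (Finset U) :=
  Γ.faces.filter fun G => σ G ⊆ W

/-- The geometric realization of the restriction `Γ_W`: the convex combinations of the vertices
of `Γ` that are supported on a face of `Γ_W`. -/
def body (Γ : SCx U) (σ : Finset U → Finset V) (W : Finset V) : Set (U → ℝ) :=
  {x | (∀ u, 0 ≤ x u) ∧ ∑ u, x u = 1 ∧
    ∃ G ∈ restriction Γ σ W, ∀ u, x u ≠ 0 → u ∈ G}

/-- `(Γ, σ)` is a topological subdivision of the simplex `2^V`. -/
structure IsTopSubdivision (Γ : SCx U) (σ : Finset U → Finset V) : Prop where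
  /-- `Γ_W` is a subcomplex of `Γ` -/
  subcomplex : ∀ (W : Finset V), ∀ G ∈ restriction Γ σ W, ∀ H, H ⊆ G → H ∈ restriction Γ σ W
  /-- the case `W = ∅`: `Γ_∅` is `{∅}`, the ball of dimension `-1` -/
  empty_face : ∀ G ∈ Γ.faces, (σ G = ∅ ↔ G = ∅)
  /-- for nonempty `W` the realization of `Γ_W` is homeomorphic to the ball of dimension
  `#W - 1`, and `σ⁻¹(W)` is the set of interior faces of `Γ_W`, the faces whose relative
  interior lies in the interior of the ball -/
  ball : ∀ W : Finset V, W.Nonempty →
    ∃ φ : body Γ σ W ≃ₜ Metric.closedBall (0 : EuclideanSpace ℝ (Fin (W.card - 1))) 1,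
      ∀ G ∈ restriction Γ σ W, G.Nonempty →
        (σ G = W ↔ ∀ y : body Γ σ W, (∀ u, 0 < (y : U → ℝ) u ↔ u ∈ G) →
          ‖(φ y : EuclideanSpace ℝ (Fin (W.card - 1)))‖ < 1)

/-- Quasi-geometric: no face `G` and no `W` with `#W < #G` are such that the carriers of all
vertices of `G` are contained in `W`. -/
def IsQuasiGeometric (Γ : SCx U) (σ : Finset U → Finset V) : Prop :=
  ¬ ∃ G ∈ Γ.faces, ∃ W : Finset V, W.card < G.card ∧ ∀ u ∈ G, σ {u} ⊆ W

/-- The dimension plus one of a complex given by its set of faces. -/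
def size (K : Finset (Finset U)) : ℕ := K.sup Finset.card

/-- The h-polynomial `∑_{i ≤ e} f_{i-1} x^i (1-x)^{e-i}` of a complex of dimension `e - 1`. -/
noncomputable def hPoly (K : Finset (Finset U)) : ℤ[X] :=
  ∑ i ∈ range (size K + 1),
    C ((K.filter fun G => G.card = i).card : ℤ) * X ^ i * (1 - X) ^ (size K - i)

/-- The local h-polynomial. -/
noncomputable def localH (Γ : SCx U) (σ : Finset U → Finset V) : ℤ[X] :=
  ∑ W : Finset V, (-1) ^ (Fintype.card V - W.card) * hPoly (restriction Γ σ W)

end defs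

/-! ### The subdivision -/

section construction

variable {V : Type} [Fintype V] [DecidableEq V]

/-- inclusion of the old vertices -/
def emb : V ↪ Option (Option V) := ⟨fun v => some (some v), fun _ _ h => by simpa using h⟩

/-- the vertex in the facet -/
def va : Option (Option V) := some none

/-- the interior vertex -/
def vb : Option (Option V) := none

/-- the facet -/
def FF (p : V) : Finset V := univ.erase p

/-- the second simplex -/
def TT (p : V) : Finset (Option (Option V)) := insert va ((FF p).map emb)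

/-- being a face -/
def IsFace (p : V) (G : Finset (Option (Option V))) : Prop :=
  ((vb ∈ G ∨ va ∈ G) → emb p ∉ G) ∧ ¬ TT p ⊆ G

instance (p : V) : DecidablePred (IsFace p) := fun G => by unfold IsFace; infer_instance

/-- the carrier map -/
def car (p : V) (G : Finset (Option (Option V))) : Finset V :=
  if vb ∈ G ∨ (FF p).map emb ⊆ G then univ
  else if va ∈ G then FF p else univ.filter fun v => emb v ∈ G

lemma mem_FF {p v : V} : v ∈ FF p ↔ v ≠ p := by simp [FF]

lemma emb_ne_a (v : V) : emb v ≠ (va : Option (Option V)) := by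
  show some (some v) ≠ some none
  simp
lemma emb_ne_b (v : V) : emb v ≠ (vb : Option (Option V)) := by
  show some (some v) ≠ none
  simp
lemma a_ne_b : (va : Option (Option V)) ≠ vb := by simp [va, vb]

lemma cases_u (u : Option (Option V)) : u = vb ∨ u = va ∨ ∃ v, u = emb v := by
  rcases u with _ | _ | v
  · exact Or.inl rfl
  · exact Or.inr (Or.inl rfl)
  · exact Or.inr (Or.inr ⟨v, rfl⟩)

lemma mem_mapF {p : V} {u : Option (Option V)} :
    u ∈ (FF p).map emb ↔ ∃ v, v ≠ p ∧ emb v = u := by
  simp [mem_map, mem_FF]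

lemma mem_TT {p : V} {u : Option (Option V)} : u ∈ TT p ↔ u ≠ vb ∧ u ≠ emb p := by
  rw [TT, mem_insert, mem_mapF]
  rcases cases_u u with rfl | rfl | ⟨v, rfl⟩
  · constructor
    · rintro (h | ⟨v, _, h⟩)
      · exact absurd h.symm a_ne_b
      · exact absurd h (emb_ne_b v)
    · exact fun h => absurd rfl h.1
  · exact ⟨fun _ => ⟨a_ne_b, (emb_ne_a p).symm⟩, fun _ => Or.inl rfl⟩
  · constructor
    · rintro (h | ⟨w, hw, h⟩)
      · exact absurd h (emb_ne_a v)
      · refine ⟨emb_ne_b v, fun h2 => hw ?_⟩
        exact emb.injective (h.trans h2)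
    · rintro ⟨-, h⟩
      exact Or.inr ⟨v, fun h2 => h (by rw [h2]), rfl⟩

/-- the complex -/
def cx (p : V) : SCx (Option (Option V)) where
  faces := univ.filter (IsFace p)
  empty_mem := by
    rw [mem_filter]
    refine ⟨mem_univ _, fun _ => notMem_empty _, fun h => ?_⟩
    exact notMem_empty _ (h (mem_insert_self _ _))
  down := by
    intro F hF G hG
    rw [mem_filter] at hF ⊢
    refine ⟨mem_univ _, fun h h2 => hF.2.1 ?_ (hG h2), fun h => hF.2.2 (h.trans hG)⟩
    exact h.imp (fun h => hG h) (fun h => hG h)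

lemma mem_faces {p : V} {G : Finset (Option (Option V))} : G ∈ (cx p).faces ↔ IsFace p G := by
  simp [cx]

lemma car_mono {p : V} {G H : Finset (Option (Option V))} (hG : IsFace p G) (hH : H ⊆ G) :
    car p H ⊆ car p G := by
  unfold car
  by_cases h1 : vb ∈ G ∨ (FF p).map emb ⊆ G
  · rw [if_pos h1]
    exact subset_univ _
  · have h2 : ¬ (vb ∈ H ∨ (FF p).map emb ⊆ H) := fun h =>
      h1 (h.imp (fun h => hH h) (fun h => h.trans hH))
    rw [if_neg h1, if_neg h2]
    by_cases h3 : va ∈ G
    · rw [if_pos h3]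
      by_cases h4 : va ∈ H
      · rw [if_pos h4]
      · rw [if_neg h4]
        intro v hv
        rw [mem_filter] at hv
        rw [mem_FF]
        rintro rfl
        exact hG.1 (Or.inr h3) (hH hv.2)
    · rw [if_neg h3, if_neg fun h => h3 (hH h)]
      intro v hv
      rw [mem_filter] at hv ⊢
      exact ⟨mem_univ _, hH hv.2⟩

/-- the property describing `Γ_W` -/
def PW (p : V) (W : Finset V) (S : Finset (Option (Option V))) : Prop :=
  IsFace p S ∧ car p S ⊆ W

lemma mem_restriction {p : V} {W : Finset V} {S : Finset (Option (Option V))} :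
    S ∈ restriction (cx p) (car p) W ↔ PW p W S := by
  rw [restriction, mem_filter, mem_faces, PW]

lemma PW_down {p : V} {W : Finset V} {S G : Finset (Option (Option V))} (h : PW p W S)
    (hG : G ⊆ S) : PW p W G :=
  ⟨mem_faces.1 ((cx p).down _ (mem_faces.2 h.1) _ hG), (car_mono h.1 hG).trans h.2⟩

lemma body_eq (p : V) (W : Finset V) : body (cx p) (car p) W = Q142.QG.R (PW p W) := by
  ext x
  constructor
  · rintro ⟨h0, h1, G, hG, h2⟩
    refine ⟨h0, h1, PW_down (mem_restriction.1 hG) fun u hu => h2 u ?_⟩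
    exact (Q142.QG.mem_supp x u).1 hu
  · rintro ⟨h0, h1, h2⟩
    exact ⟨h0, h1, _, mem_restriction.2 h2, fun u hu => (Q142.QG.mem_supp x u).2 hu⟩

lemma PW_univ {p : V} {S : Finset (Option (Option V))} : PW p univ S ↔ IsFace p S :=
  ⟨fun h => h.1, fun h => ⟨h, subset_univ _⟩⟩

lemma car_eq_univ {p : V} {S : Finset (Option (Option V))} :
    car p S = univ ↔ vb ∈ S ∨ (FF p).map emb ⊆ S := by
  unfold car
  by_cases h1 : vb ∈ S ∨ (FF p).map emb ⊆ S
  · simp [h1]
  · rw [if_neg h1]
    refine ⟨fun h => ?_, fun h => absurd h h1⟩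
    exfalso
    by_cases h3 : va ∈ S
    · rw [if_pos h3] at h
      have : p ∈ FF p := by rw [h]; exact mem_univ _
      exact (mem_FF.1 this) rfl
    · rw [if_neg h3] at h
      apply h1
      right
      intro u hu
      rw [mem_map] at hu
      obtain ⟨v, _, rfl⟩ := hu
      have : v ∈ univ.filter fun v => emb v ∈ S := by rw [h]; exact mem_univ _
      exact (mem_filter.1 this).2

lemma PW_F {p : V} {S : Finset (Option (Option V))} :
    PW p (FF p) S ↔ vb ∉ S ∧ emb p ∉ S ∧ ¬ (FF p).map emb ⊆ S := by
  constructor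
  · rintro ⟨h1, h2⟩
    have h3 : ¬ (vb ∈ S ∨ (FF p).map emb ⊆ S) := by
      intro h
      rw [car_eq_univ.2 h] at h2
      exact (mem_FF.1 (h2 (mem_univ p))) rfl
    push Not at h3
    refine ⟨h3.1, ?_, h3.2⟩
    intro h4
    by_cases h5 : va ∈ S
    · exact h1.1 (Or.inr h5) h4
    · have : car p S = univ.filter fun v => emb v ∈ S := by
        unfold car
        rw [if_neg (by push Not; exact h3), if_neg h5]
      rw [this] at h2
      exact (mem_FF.1 (h2 (mem_filter.2 ⟨mem_univ p, h4⟩))) rfl
  · rintro ⟨h1, h2, h3⟩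
    refine ⟨⟨fun _ => h2, fun h => h3 ((subset_insert _ _).trans h)⟩, ?_⟩
    unfold car
    rw [if_neg (by push Not; exact ⟨h1, h3⟩)]
    by_cases h5 : va ∈ S
    · rw [if_pos h5]
    · rw [if_neg h5]
      intro v hv
      rw [mem_filter] at hv
      rw [mem_FF]
      rintro rfl
      exact h2 hv.2

lemma sup_F {p : V} {W : Finset V} (h : FF p ⊆ W) : W = FF p ∨ W = univ := by
  by_cases hp : p ∈ W
  · right
    rw [eq_univ_iff_forall]
    intro v
    by_cases hv : v = p
    · rw [hv]; exact hp
    · exact h (mem_FF.2 hv)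
  · left
    apply subset_antisymm _ h
    intro v hv
    rw [mem_FF]
    rintro rfl
    exact hp hv

lemma PW_other {p : V} {W : Finset V} (hW1 : W ≠ univ) (hW2 : W ≠ FF p)
    {S : Finset (Option (Option V))} : PW p W S ↔ S ⊆ W.map emb := by
  have hF : ¬ FF p ⊆ W := fun h => (sup_F h).elim hW2 hW1
  constructor
  · rintro ⟨h1, h2⟩
    have h3 : ¬ (vb ∈ S ∨ (FF p).map emb ⊆ S) := by
      intro h
      rw [car_eq_univ.2 h] at h2
      exact hW1 (univ_subset_iff.1 h2)
    have h4 : va ∉ S := by
      intro h4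
      have : car p S = FF p := by
        unfold car
        rw [if_neg h3, if_pos h4]
      rw [this] at h2
      exact hF h2
    have : car p S = univ.filter fun v => emb v ∈ S := by
      unfold car
      rw [if_neg h3, if_neg h4]
    rw [this] at h2
    push Not at h3
    intro u hu
    rcases cases_u u with rfl | rfl | ⟨v, rfl⟩
    · exact absurd hu h3.1
    · exact absurd hu h4
    · exact mem_map_of_mem _ (h2 (mem_filter.2 ⟨mem_univ _, hu⟩))
  · intro h
    have hb : vb ∉ S := by
      intro h1
      obtain ⟨v, _, hv⟩ := mem_map.1 (h h1)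
      exact emb_ne_b v hv
    have ha : va ∉ S := by
      intro h1
      obtain ⟨v, _, hv⟩ := mem_map.1 (h h1)
      exact emb_ne_a v hv
    have h3 : ¬ (FF p).map emb ⊆ S := by
      intro h3
      exact hF ((Finset.map_subset_map).1 (h3.trans h))
    refine ⟨⟨fun h5 => (h5.elim hb ha).elim, fun h5 => ha (h5 (mem_insert_self _ _))⟩, ?_⟩
    unfold car
    rw [if_neg (by push Not; exact ⟨hb, h3⟩), if_neg ha]
    intro v hv
    rw [mem_filter] at hv
    exact (Finset.mem_map' emb).1 (h hv.2)

/-! ### Topology -/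

open Q142.QG in
/-- barycentre -/
lemma exists_supp {U : Type} [Fintype U] [DecidableEq U] (G : Finset U) (hG : G.Nonempty) :
    ∃ x : U → ℝ, (∀ u, 0 ≤ x u) ∧ ∑ u, x u = 1 ∧ ∀ u, 0 < x u ↔ u ∈ G := by
  have hc : (0 : ℝ) < G.card := by
    have := hG.card_pos
    positivity
  refine ⟨fun u => if u ∈ G then 1 / G.card else 0, fun u => ?_, ?_, fun u => ?_⟩
  · show (0 : ℝ) ≤ if u ∈ G then 1 / (G.card : ℝ) else 0
    split_ifs
    · positivity
    · exact le_rfl
  · show ∑ u, (if u ∈ G then 1 / (G.card : ℝ) else 0) = 1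
    rw [Finset.sum_ite_mem, Finset.univ_inter, Finset.sum_const, nsmul_eq_mul]
    field_simp
  · show (0 : ℝ) < (if u ∈ G then 1 / (G.card : ℝ) else 0) ↔ _
    by_cases h : u ∈ G
    · rw [if_pos h]
      exact ⟨fun _ => h, fun _ => by positivity⟩
    · rw [if_neg h]
      exact ⟨fun h => absurd h (lt_irrefl _), fun h2 => absurd h2 h⟩

open Q142.QG in
/-- reduction of the ball condition -/
lemma ball_of (p : V) (W : Finset V)
    (h : ∃ φ : R (PW p W) ≃ₜ Metric.closedBall (0 : EuclideanSpace ℝ (Fin (W.card - 1))) 1,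
      ∀ x : R (PW p W), ‖(φ x : EuclideanSpace ℝ (Fin (W.card - 1)))‖ < 1 ↔
        car p (supp (x : Option (Option V) → ℝ)) = W) :
    ∃ φ : body (cx p) (car p) W ≃ₜ
        Metric.closedBall (0 : EuclideanSpace ℝ (Fin (W.card - 1))) 1,
      ∀ G ∈ restriction (cx p) (car p) W, G.Nonempty →
        (car p G = W ↔ ∀ y : body (cx p) (car p) W, (∀ u, 0 < (y : Option (Option V) → ℝ) u ↔ u ∈ G) →
          ‖(φ y : EuclideanSpace ℝ (Fin (W.card - 1)))‖ < 1) := by
  rw [body_eq]
  obtain ⟨φ, hφ⟩ := h
  refine ⟨φ, fun G hG hne => ?_⟩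
  have key : ∀ y : R (PW p W), (∀ u, 0 < (y : Option (Option V) → ℝ) u ↔ u ∈ G) →
      supp (y : Option (Option V) → ℝ) = G := by
    intro y hy
    ext u
    rw [← pos_iff y.2.1, hy]
  constructor
  · intro h1 y hy
    rw [hφ, key y hy, h1]
  · intro h1
    obtain ⟨x, h2, h3, h4⟩ := exists_supp G hne
    have h5 : supp x = G := by
      ext u
      rw [← pos_iff h2, h4]
    have h6 : x ∈ R (PW p W) := ⟨h2, h3, by rw [h5]; exact mem_restriction.1 hG⟩
    have := (hφ ⟨x, h6⟩).1 (h1 ⟨x, h6⟩ h4)
    rw [key ⟨x, h6⟩ h4] at this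
    exact this

open Q142.QG in
lemma ball_other (p : V) (W : Finset V) (hW : W.Nonempty) (hW1 : W ≠ univ) (hW2 : W ≠ FF p) :
    ∃ φ : R (PW p W) ≃ₜ Metric.closedBall (0 : EuclideanSpace ℝ (Fin (W.card - 1))) 1,
      ∀ x : R (PW p W), ‖(φ x : EuclideanSpace ℝ (Fin (W.card - 1)))‖ < 1 ↔
        car p (supp (x : Option (Option V) → ℝ)) = W := by
  have hP : PW p W = fun S => S ⊆ W.map emb := by
    funext S
    exact propext (PW_other hW1 hW2)
  have hc : (W.map emb).card = (W.card - 1) + 1 := by
    rw [card_map]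
    have := hW.card_pos
    omega
  obtain ⟨φ, hφ⟩ := simplex (U := Option (Option V)) (W.map emb) _ hc
  rw [hP]
  refine ⟨φ, fun x => ?_⟩
  rw [hφ]
  have hx : supp (x : Option (Option V) → ℝ) ⊆ W.map emb := x.2.2.2
  have hPW : PW p W (supp (x : Option (Option V) → ℝ)) := (PW_other hW1 hW2).2 hx
  constructor
  · intro h
    have : supp (x : Option (Option V) → ℝ) = W.map emb :=
      subset_antisymm hx fun u hu => (pos_iff x.2.1 u).1 (h u hu)
    apply subset_antisymm hPW.2
    have h3 : ¬ (vb ∈ W.map emb ∨ (FF p).map emb ⊆ W.map emb) := by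
      intro h
      rw [this] at hPW
      have h4 := hPW.2
      rw [car_eq_univ.2 h] at h4
      exact hW1 (univ_subset_iff.1 h4)
    have h4 : va ∉ W.map emb := by
      intro h1
      obtain ⟨v, _, hv⟩ := mem_map.1 h1
      exact emb_ne_a v hv
    rw [this]
    unfold car
    rw [if_neg h3, if_neg h4]
    intro v hv
    exact mem_filter.2 ⟨mem_univ _, mem_map_of_mem _ hv⟩
  · intro h u hu
    rw [pos_iff x.2.1]
    obtain ⟨v, hv, rfl⟩ := mem_map.1 hu
    rw [← h] at hv
    have h3 : ¬ (vb ∈ supp (x : Option (Option V) → ℝ) ∨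
        (FF p).map emb ⊆ supp (x : Option (Option V) → ℝ)) := by
      intro h1
      rw [car_eq_univ.2 h1] at h
      exact hW1 h.symm
    have h4 : va ∉ supp (x : Option (Option V) → ℝ) := by
      intro h1
      obtain ⟨v, _, hv⟩ := mem_map.1 (hx h1)
      exact emb_ne_a v hv
    unfold car at hv
    rw [if_neg h3, if_neg h4] at hv
    exact (mem_filter.1 hv).2

lemma FF_card (p : V) : (FF p).card = Fintype.card V - 1 := by
  rw [FF, card_erase_of_mem (mem_univ _), card_univ]

open Q142.QG in
lemma ball_F (p : V) (hV : 2 ≤ Fintype.card V) :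
    ∃ φ : R (PW p (FF p)) ≃ₜ
        Metric.closedBall (0 : EuclideanSpace ℝ (Fin ((FF p).card - 1))) 1,
      ∀ x : R (PW p (FF p)), ‖(φ x : EuclideanSpace ℝ (Fin ((FF p).card - 1)))‖ < 1 ↔
        car p (supp (x : Option (Option V) → ℝ)) = FF p := by
  have hne : ((FF p).map emb).Nonempty := by
    rw [← card_pos, card_map, FF_card]
    omega
  have hc : ((FF p).map emb).card = ((FF p).card - 1) + 1 := by
    rw [card_map]
    have := FF_card p
    omega
  have ha : va ∉ (FF p).map emb := by
    intro h1
    obtain ⟨v, _, hv⟩ := mem_map.1 h1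
    exact emb_ne_a v hv
  have hb : vb ∉ (FF p).map emb := by
    intro h1
    obtain ⟨v, _, hv⟩ := mem_map.1 h1
    exact emb_ne_b v hv
  have hp : emb p ∉ (FF p).map emb := by
    intro h1
    exact (mem_FF.1 ((Finset.mem_map' emb).1 h1)) rfl
  obtain ⟨ψ, hψ⟩ := stellar (fun S => S ⊆ (FF p).map emb) (PW p (FF p)) va ((FF p).map emb)
    hne ha (fun S hS h => ha (hS h)) (fun S hS => (PW_F.1 hS).2.2)
    (by
      intro S hS h u hu
      obtain ⟨h1, h2, h3⟩ := PW_F.1 hS
      rcases cases_u u with rfl | rfl | ⟨v, rfl⟩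
      · exact absurd hu h1
      · exact absurd hu h
      · refine mem_map_of_mem _ (mem_FF.2 ?_)
        rintro rfl
        exact h2 hu)
    (by
      intro S hS h u hu
      obtain ⟨h1, h2, h3⟩ := PW_F.1 hS
      rcases mem_union.1 hu with hu | hu
      · obtain ⟨h4, h5⟩ := mem_erase.1 hu
        rcases cases_u u with rfl | rfl | ⟨v, rfl⟩
        · exact absurd h5 h1
        · exact absurd rfl h4
        · refine mem_map_of_mem _ (mem_FF.2 ?_)
          rintro rfl
          exact h2 h5
      · exact hu)
    (fun S hS h => PW_F.2 ⟨fun h1 => hb (hS h1), fun h1 => hp (hS h1), h⟩)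
    (by
      intro S hS h A hA hAne
      refine PW_F.2 ⟨?_, ?_, ?_⟩
      · intro h1
        rcases mem_insert.1 h1 with h1 | h1
        · exact a_ne_b h1.symm
        · exact hb (hS (mem_sdiff.1 h1).1)
      · intro h1
        rcases mem_insert.1 h1 with h1 | h1
        · exact emb_ne_a _ h1
        · exact hp (hS (mem_sdiff.1 h1).1)
      · intro h1
        obtain ⟨u, hu⟩ := hAne
        rcases mem_insert.1 (h1 (hA hu)) with h2 | h2
        · rw [h2] at hu
          exact ha (hA hu)
        · exact (mem_sdiff.1 h2).2 hu)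
  obtain ⟨φ, hφ⟩ := simplex (U := Option (Option V)) ((FF p).map emb) _ hc
  refine ⟨ψ.trans φ, fun x => ?_⟩
  show ‖(φ (ψ x) : EuclideanSpace ℝ (Fin ((FF p).card - 1)))‖ < 1 ↔ _
  rw [hφ, hψ]
  obtain ⟨h1, h2, h3⟩ := PW_F.1 x.2.2.2
  have hcar : car p (supp (x : Option (Option V) → ℝ)) = FF p ↔
      va ∈ supp (x : Option (Option V) → ℝ) := by
    unfold car
    rw [if_neg (by push Not; exact ⟨h1, h3⟩)]
    by_cases h5 : va ∈ supp (x : Option (Option V) → ℝ)
    · rw [if_pos h5]
      exact ⟨fun _ => h5, fun _ => rfl⟩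
    · rw [if_neg h5]
      refine ⟨fun h => ?_, fun h => absurd h h5⟩
      exfalso
      apply h3
      intro u hu
      obtain ⟨v, hv, rfl⟩ := mem_map.1 hu
      rw [← h] at hv
      exact (mem_filter.1 hv).2
  rw [hcar]
  have hx0 := x.2.1
  constructor
  · intro h
    by_contra h5
    apply h3
    intro u hu
    rw [← pos_iff hx0]
    have h6 := h u hu
    have h7 : (x : Option (Option V) → ℝ) va = 0 := by
      by_contra h8
      exact h5 ((mem_supp _ _).2 h8)
    have h8 : u ≠ va := fun h => ha (h ▸ hu)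
    simp only [fwd, h7, zero_div, ite_self, add_zero, if_neg h8] at h6
    exact h6
  · intro h u hu
    have h8 : u ≠ va := fun h => ha (h ▸ hu)
    simp only [fwd, if_neg h8, if_pos hu]
    have h9 := (pos_iff hx0 va).2 h
    have h10 := hx0 u
    have h11 : (0 : ℝ) < ((FF p).map (emb : V ↪ Option (Option V))).card := by
      have := hne.card_pos
      positivity
    have := div_pos h9 h11
    linarith

open Q142.QG in
lemma ball_univ (p : V) (hV : 2 ≤ Fintype.card V) :
    ∃ φ : R (PW p univ) ≃ₜ
        Metric.closedBall (0 : EuclideanSpace ℝ (Fin ((univ : Finset V).card - 1))) 1,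
      ∀ x : R (PW p univ), ‖(φ x : EuclideanSpace ℝ (Fin ((univ : Finset V).card - 1)))‖ < 1 ↔
        car p (supp (x : Option (Option V) → ℝ)) = univ := by
  obtain ⟨m, hm⟩ : ∃ m : V, m ≠ p := by
    have : Nontrivial V := Fintype.one_lt_card_iff_nontrivial.1 (by omega)
    exact exists_ne p
  have hmp : emb m ≠ emb p := fun h => hm (emb.injective h)
  set K : Finset (Option (Option V)) → Prop := fun S => vb ∉ S ∧ ¬ (va ∈ S ∧ emb p ∈ S) with hK
  set S0 : Finset (Option (Option V)) := (univ.erase vb).erase (emb m) with hS0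
  have hmS0 : ∀ u, u ∈ S0 ↔ u ≠ emb m ∧ u ≠ vb := by
    intro u
    rw [hS0, mem_erase, mem_erase]
    simp
  have hc : S0.card = ((univ : Finset V).card - 1) + 1 := by
    rw [hS0, card_erase_of_mem, card_erase_of_mem (mem_univ _), card_univ,
      Fintype.card_option, Fintype.card_option, card_univ]
    · omega
    · rw [mem_erase]
      exact ⟨emb_ne_b m, mem_univ _⟩
  have haT : va ∈ TT p := mem_insert_self _ _
  obtain ⟨ψ, hψ⟩ := stellar K (PW p univ) vb (TT p) ⟨va, haT⟩
    (fun h => (mem_TT.1 h).1 rfl) (fun S hS => hS.1) (fun S hS => (PW_univ.1 hS).2)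
    (fun S hS h => ⟨h, fun h2 => (PW_univ.1 hS).1 (Or.inr h2.1) h2.2⟩)
    (by
      intro S hS h
      refine ⟨?_, ?_⟩
      · intro h1
        rcases mem_union.1 h1 with h1 | h1
        · exact (mem_erase.1 h1).1 rfl
        · exact (mem_TT.1 h1).1 rfl
      · rintro ⟨-, h1⟩
        rcases mem_union.1 h1 with h1 | h1
        · exact (PW_univ.1 hS).1 (Or.inl h) (mem_erase.1 h1).2
        · exact (mem_TT.1 h1).2 rfl)
    (by
      intro S hS h
      refine PW_univ.2 ⟨?_, h⟩
      rintro (h1 | h1) h2
      · exact hS.1 h1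
      · exact hS.2 ⟨h1, h2⟩)
    (by
      intro S hS h A hA hAne
      refine PW_univ.2 ⟨?_, ?_⟩
      · rintro - h2
        rcases mem_insert.1 h2 with h2 | h2
        · exact emb_ne_b _ h2
        · exact hS.2 ⟨h haT, (mem_sdiff.1 h2).1⟩
      · intro h1
        obtain ⟨u, hu⟩ := hAne
        rcases mem_insert.1 (h1 (hA hu)) with h2 | h2
        · rw [h2] at hu
          exact (mem_TT.1 (hA hu)).1 rfl
        · exact (mem_sdiff.1 h2).2 hu)
  obtain ⟨ψ2, hψ2⟩ := stellar (fun S => S ⊆ S0) K (emb m) {va, emb p} ⟨va, by simp⟩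
    (by
      intro h
      rcases mem_insert.1 h with h | h
      · exact emb_ne_a _ h
      · exact hmp (mem_singleton.1 h))
    (fun S hS h => ((hmS0 _).1 (hS h)).1 rfl)
    (fun S hS h => hS.2 ⟨h (by simp), h (by simp)⟩)
    (by
      intro S hS h u hu
      rw [hmS0]
      refine ⟨?_, ?_⟩
      · rintro rfl
        exact h hu
      · rintro rfl
        exact hS.1 hu)
    (by
      intro S hS h u hu
      rw [hmS0]
      rcases mem_union.1 hu with h1 | h1
      · obtain ⟨h2, h3⟩ := mem_erase.1 h1
        refine ⟨h2, ?_⟩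
        rintro rfl
        exact hS.1 h3
      · rcases mem_insert.1 h1 with h1 | h1
        · rw [h1]
          exact ⟨(emb_ne_a m).symm, a_ne_b⟩
        · rw [mem_singleton.1 h1]
          exact ⟨hmp.symm, emb_ne_b p⟩)
    (by
      intro S hS h
      refine ⟨fun h1 => ((hmS0 _).1 (hS h1)).2 rfl, ?_⟩
      rintro ⟨h1, h2⟩
      apply h
      intro u hu
      rcases mem_insert.1 hu with h3 | h3
      · rw [h3]; exact h1
      · rw [mem_singleton.1 h3]; exact h2)
    (by
      intro S hS h A hA hAne
      refine ⟨?_, ?_⟩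
      · intro h1
        rcases mem_insert.1 h1 with h1 | h1
        · exact emb_ne_b _ h1.symm
        · exact ((hmS0 _).1 (hS (mem_sdiff.1 h1).1)).2 rfl
      · rintro ⟨h1, h2⟩
        obtain ⟨u, hu⟩ := hAne
        rcases mem_insert.1 (hA hu) with h3 | h3
        · rw [h3] at hu
          rcases mem_insert.1 h1 with h1 | h1
          · exact emb_ne_a _ h1.symm
          · exact (mem_sdiff.1 h1).2 hu
        · rw [mem_singleton.1 h3] at hu
          rcases mem_insert.1 h2 with h2 | h2
          · exact hmp h2.symm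
          · exact (mem_sdiff.1 h2).2 hu)
  obtain ⟨φ, hφ⟩ := simplex (U := Option (Option V)) S0 _ hc
  refine ⟨(ψ.trans ψ2).trans φ, fun x => ?_⟩
  show ‖(φ (ψ2 (ψ x)) : EuclideanSpace ℝ (Fin ((univ : Finset V).card - 1)))‖ < 1 ↔ _
  rw [hφ, hψ2, hψ, car_eq_univ]
  have hx0 := x.2.1
  have hxf := PW_univ.1 x.2.2.2
  have hT : (0 : ℝ) < (TT p).card := by
    have := card_pos.2 ⟨va, haT⟩
    positivity
  have hpr : (0 : ℝ) < ({va, emb p} : Finset (Option (Option V))).card := by
    have := card_pos.2 (⟨va, by simp⟩ : ({va, emb p} : Finset (Option (Option V))).Nonempty)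
    positivity
  set y := fwd vb (TT p) (x : Option (Option V) → ℝ) with hy
  have hxb0 : 0 ≤ (x : Option (Option V) → ℝ) vb / (TT p).card := div_nonneg (hx0 vb) hT.le
  have hyT : ∀ u ∈ TT p, y u = (x : Option (Option V) → ℝ) u +
      (x : Option (Option V) → ℝ) vb / (TT p).card := by
    intro u hu
    rw [hy]
    simp only [fwd, if_pos hu, if_neg (mem_TT.1 hu).1]
  have hyp : y (emb p) = (x : Option (Option V) → ℝ) (emb p) := by
    rw [hy]
    have h1 : emb p ∉ TT p := fun h => (mem_TT.1 h).2 rfl
    simp only [fwd, if_neg h1, if_neg (emb_ne_b p), add_zero]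
  have hmT : emb m ∈ TT p := mem_TT.2 ⟨emb_ne_b m, hmp⟩
  constructor
  · intro h
    by_contra hcon
    push Not at hcon
    obtain ⟨h1, h2⟩ := hcon
    have hxb : (x : Option (Option V) → ℝ) vb = 0 := by
      by_contra h8
      exact h1 ((mem_supp _ _).2 h8)
    rw [hxb, zero_div] at hyT
    apply h2
    intro u hu
    obtain ⟨v, hv, rfl⟩ := mem_map.1 hu
    rw [mem_FF] at hv
    rw [← pos_iff hx0]
    have hvT : emb v ∈ TT p := mem_TT.2 ⟨emb_ne_b v, fun h => hv (emb.injective h)⟩
    by_cases hvm : v = m
    · subst hvm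
      by_contra h5
      have h6 : (x : Option (Option V) → ℝ) (emb v) = 0 := le_antisymm (not_lt.1 h5) (hx0 _)
      have h7 := h va ((hmS0 _).2 ⟨(emb_ne_a v).symm, a_ne_b⟩)
      have h8 := h (emb p) ((hmS0 _).2 ⟨hmp.symm, emb_ne_b p⟩)
      simp only [fwd, if_neg (emb_ne_a v).symm, if_neg hmp.symm] at h7 h8
      rw [if_pos (by simp), hyT _ hvT, h6, hyT _ haT] at h7
      rw [if_pos (by simp), hyT _ hvT, h6, hyp] at h8
      have h9 : va ∈ supp (x : Option (Option V) → ℝ) := by
        rw [← pos_iff hx0]
        simpa using h7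
      have h10 : emb p ∈ supp (x : Option (Option V) → ℝ) := by
        rw [← pos_iff hx0]
        simpa using h8
      exact hxf.1 (Or.inr h9) h10
    · have h7 := h (emb v) ((hmS0 _).2 ⟨fun h => hvm (emb.injective h), emb_ne_b v⟩)
      have h8 : emb v ∉ ({va, emb p} : Finset (Option (Option V))) := by
        intro h8
        rcases mem_insert.1 h8 with h8 | h8
        · exact emb_ne_a _ h8
        · exact hv (emb.injective (mem_singleton.1 h8))
      have h9 : emb v ≠ emb m := fun h => hvm (emb.injective h)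
      simp only [fwd, if_neg h9, if_neg h8, add_zero] at h7
      rw [hyT _ hvT, add_zero] at h7
      exact h7
  · intro h u hu
    have hpos : ∀ v, v ≠ p → 0 < y (emb v) := by
      intro v hv
      have hvT : emb v ∈ TT p := mem_TT.2 ⟨emb_ne_b v, fun h => hv (emb.injective h)⟩
      rw [hyT _ hvT]
      rcases h with h | h
      · have h1 := (pos_iff hx0 vb).2 h
        have := div_pos h1 hT
        have := hx0 (emb v)
        linarith
      · have h1 := (pos_iff hx0 (emb v)).2 (h (mem_map_of_mem _ (mem_FF.2 hv)))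
        linarith
    have hya : 0 ≤ y va := by
      rw [hyT _ haT]
      have := hx0 va
      linarith
    have hyp0 : 0 ≤ y (emb p) := by
      rw [hyp]
      exact hx0 _
    have hym := div_pos (hpos m hm) hpr
    rw [hmS0] at hu
    rcases cases_u u with rfl | rfl | ⟨v, rfl⟩
    · exact absurd rfl hu.2
    · simp only [fwd, if_neg hu.1]
      rw [if_pos (by simp)]
      linarith
    · by_cases hvp : v = p
      · subst hvp
        simp only [fwd, if_neg hu.1]
        rw [if_pos (by simp)]
        linarith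
      · simp only [fwd, if_neg hu.1]
        have := hpos v hvp
        have h3 : (0 : ℝ) ≤ if emb v ∈ ({va, emb p} : Finset (Option (Option V))) then
            y (emb m) / ({va, emb p} : Finset (Option (Option V))).card else 0 := by
          split_ifs
          · exact hym.le
          · exact le_rfl
        linarith

theorem topSubdivision (p : V) (hV : 3 ≤ Fintype.card V) :
    IsTopSubdivision (cx p) (car p) where
  subcomplex := by
    intro W G hG H hH
    rw [mem_restriction] at hG ⊢
    exact PW_down hG hH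
  empty_face := by
    intro G hG
    have hFne : (FF p).Nonempty := by
      rw [← card_pos, FF_card]
      omega
    constructor
    · intro h
      by_contra hne
      unfold car at h
      split_ifs at h with h1 h2
      · have : p ∈ (∅ : Finset V) := by rw [← h]; exact mem_univ _
        exact notMem_empty _ this
      · exact hFne.ne_empty h
      · push Not at h1
        obtain ⟨u, hu⟩ := nonempty_iff_ne_empty.2 hne
        rcases cases_u u with rfl | rfl | ⟨v, rfl⟩
        · exact h1.1 hu
        · exact h2 hu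
        · have : v ∈ (∅ : Finset V) := by
            rw [← h]
            exact mem_filter.2 ⟨mem_univ _, hu⟩
          exact notMem_empty _ this
    · rintro rfl
      unfold car
      rw [if_neg, if_neg (notMem_empty _)]
      · simp
      · rintro (h | h)
        · exact notMem_empty _ h
        · rw [subset_empty, map_eq_empty] at h
          exact hFne.ne_empty h
  ball := by
    intro W hW
    apply ball_of
    by_cases h1 : W = univ
    · subst h1
      exact ball_univ p (by omega)
    · by_cases h2 : W = FF p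
      · subst h2
        exact ball_F p (by omega)
      · exact ball_other p W hW h1 h2

lemma TT_card (p : V) : (TT p).card = Fintype.card V := by
  have h1 : va ∉ (FF p).map emb := by
    intro h1
    obtain ⟨v, _, hv⟩ := mem_map.1 h1
    exact emb_ne_a v hv
  have : 0 < Fintype.card V := Fintype.card_pos_iff.2 ⟨p⟩
  rw [TT, card_insert_of_notMem h1, card_map, FF_card]
  omega

theorem quasiGeometric (p : V) (hV : 3 ≤ Fintype.card V) : IsQuasiGeometric (cx p) (car p) := by
  rintro ⟨G, hG, W, hlt, hW⟩
  rw [mem_faces] at hG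
  have hFc := FF_card p
  by_cases hb : vb ∈ G
  · -- carrier of `vb` is everything
    have h1 := hW vb hb
    have h2 : car p {vb} = univ := car_eq_univ.2 (Or.inl (mem_singleton_self _))
    rw [h2, univ_subset_iff] at h1
    have h3 : G.erase vb ⊂ TT p := by
      refine ⟨?_, ?_⟩
      · intro u hu
        obtain ⟨h4, h5⟩ := mem_erase.1 hu
        refine mem_TT.2 ⟨h4, ?_⟩
        rintro rfl
        exact hG.1 (Or.inl hb) h5
      · exact fun h => hG.2 (h.trans (erase_subset _ _))
    have h4 := card_lt_card h3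
    rw [card_erase_of_mem hb, TT_card] at h4
    rw [h1, card_univ] at hlt
    omega
  · by_cases ha : va ∈ G
    · have h1 := hW va ha
      have h2 : car p {va} = FF p := by
        unfold car
        rw [if_neg, if_pos (mem_singleton_self _)]
        rintro (h | h)
        · exact a_ne_b (mem_singleton.1 h).symm
        · have := card_le_card h
          rw [card_map, card_singleton] at this
          omega
      rw [h2] at h1
      have h3 : G ⊂ TT p := by
        refine ⟨?_, hG.2⟩
        intro u hu
        refine mem_TT.2 ⟨?_, ?_⟩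
        · rintro rfl
          exact hb hu
        · rintro rfl
          exact hG.1 (Or.inr ha) hu
      have h4 := card_lt_card h3
      have h5 := card_le_card h1
      rw [TT_card] at h4
      omega
    · have h3 : G ⊆ W.map emb := by
        intro u hu
        rcases cases_u u with rfl | rfl | ⟨v, rfl⟩
        · exact absurd hu hb
        · exact absurd hu ha
        · apply mem_map_of_mem
          have h1 := hW _ hu
          apply h1
          unfold car
          split_ifs with h4 h5
          · exact mem_univ _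
          · exact absurd (mem_singleton.1 h5).symm (emb_ne_a v)
          · exact mem_filter.2 ⟨mem_univ _, mem_singleton_self _⟩
      have := card_le_card h3
      rw [card_map] at this
      omega

/-! ### The local h-polynomial -/

lemma size_eq {U : Type} (K : Finset (Finset U)) (e : ℕ)
    (h1 : ∀ G ∈ K, G.card ≤ e) (h2 : ∃ G ∈ K, G.card = e) : size K = e := by
  apply le_antisymm
  · exact Finset.sup_le h1
  · obtain ⟨G, hG, rfl⟩ := h2
    exact Finset.le_sup (f := Finset.card) hG

lemma hPoly_eq {U : Type} [DecidableEq U] (K : Finset (Finset U)) (e : ℕ)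
    (h1 : ∀ G ∈ K, G.card ≤ e) (h2 : ∃ G ∈ K, G.card = e) :
    hPoly K = ∑ G ∈ K, (X : ℤ[X]) ^ G.card * (1 - X) ^ (e - G.card) := by
  unfold hPoly
  rw [size_eq K e h1 h2]
  rw [← Finset.sum_fiberwise_of_maps_to (s := K) (t := range (e + 1)) (g := Finset.card)
    (fun G hG => mem_range.2 (Nat.lt_succ_of_le (h1 G hG)))]
  refine Finset.sum_congr rfl fun i _ => ?_
  rw [Finset.sum_congr rfl (g := fun _ => (X : ℤ[X]) ^ i * (1 - X) ^ (e - i))
    (fun G hG => by rw [(mem_filter.1 hG).2])]
  rw [Finset.sum_const, nsmul_eq_mul, mul_assoc]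
  simp

lemma sum_simplex {U : Type} [DecidableEq U] (A : Finset U) :
    ∑ G ∈ A.powerset, (X : ℤ[X]) ^ G.card * (1 - X) ^ (A.card - G.card) = 1 := by
  rw [Finset.sum_pow_mul_eq_add_pow]
  simp

lemma sum_ssubsets {U : Type} [DecidableEq U] (A : Finset U) :
    ∑ G ∈ A.ssubsets, (X : ℤ[X]) ^ G.card * (1 - X) ^ (A.card - G.card) = 1 - X ^ A.card := by
  have h := sum_simplex A
  rw [← Finset.insert_erase (Finset.mem_powerset_self A), Finset.sum_insert
    (notMem_erase _ _)] at h
  rw [Nat.sub_self, pow_zero, mul_one] at h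
  unfold Finset.ssubsets
  linear_combination h

lemma one_sub_X_ne : (1 - X : ℤ[X]) ≠ 0 := by
  intro h
  have := congrArg (fun q => Polynomial.coeff q 0) h
  simp at this

lemma sum_ssubsets' {U : Type} [DecidableEq U] (A : Finset U) (n : ℕ) (hA : A.card = n + 1) :
    ∑ G ∈ A.ssubsets, (X : ℤ[X]) ^ G.card * (1 - X) ^ (n - G.card) =
      ∑ i ∈ range (n + 1), X ^ i := by
  have h1 := sum_ssubsets A
  have h2 : (1 - X) * ∑ G ∈ A.ssubsets, (X : ℤ[X]) ^ G.card * (1 - X) ^ (n - G.card) =
      ∑ G ∈ A.ssubsets, (X : ℤ[X]) ^ G.card * (1 - X) ^ (A.card - G.card) := by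
    rw [Finset.mul_sum]
    refine Finset.sum_congr rfl fun G hG => ?_
    have h3 := card_lt_card (Finset.mem_ssubsets.1 hG)
    have h4 : A.card - G.card = (n - G.card) + 1 := by omega
    rw [h4, pow_succ]
    ring
  have h3 : (1 - X) * ∑ i ∈ range (n + 1), (X : ℤ[X]) ^ i = 1 - X ^ (n + 1) := by
    rw [mul_comm, geom_sum_mul_neg]
  apply mul_left_cancel₀ one_sub_X_ne
  rw [h2, h1, h3, hA]

lemma h_other (p : V) (W : Finset V) (hW1 : W ≠ univ) (hW2 : W ≠ FF p) :
    hPoly (restriction (cx p) (car p) W) = 1 := by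
  have h1 : restriction (cx p) (car p) W = (W.map emb).powerset := by
    ext S
    rw [mem_restriction, PW_other hW1 hW2, mem_powerset]
  rw [h1, hPoly_eq _ (W.map emb).card (fun G hG => card_le_card (mem_powerset.1 hG))
    ⟨_, mem_powerset_self _, rfl⟩]
  exact sum_simplex _

lemma h_F (p : V) (n : ℕ) (hn : Fintype.card V = n + 2) :
    hPoly (restriction (cx p) (car p) (FF p)) = ∑ i ∈ range (n + 1), X ^ i := by
  set A := (FF p).map emb with hA
  have hAc : A.card = n + 1 := by
    rw [hA, card_map, FF_card]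
    omega
  have ha : va ∉ A := by
    intro h1
    obtain ⟨v, _, hv⟩ := mem_map.1 h1
    exact emb_ne_a v hv
  have hb : vb ∉ A := by
    intro h1
    obtain ⟨v, _, hv⟩ := mem_map.1 h1
    exact emb_ne_b v hv
  have hp : emb p ∉ A := by
    intro h1
    exact (mem_FF.1 ((Finset.mem_map' emb).1 h1)) rfl
  have hmA : ∀ u, u ≠ vb → u ≠ va → u ≠ emb p → u ∈ A := by
    intro u h1 h2 h3
    rcases cases_u u with rfl | rfl | ⟨v, rfl⟩
    · exact absurd rfl h1
    · exact absurd rfl h2
    · exact mem_map_of_mem _ (mem_FF.2 fun h => h3 (by rw [h]))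
  have h1 : restriction (cx p) (car p) (FF p) = A.ssubsets ∪ A.ssubsets.image (insert va) := by
    ext S
    rw [mem_restriction, PW_F, mem_union, mem_image, mem_ssubsets]
    constructor
    · rintro ⟨h1, h2, h3⟩
      by_cases h4 : va ∈ S
      · right
        refine ⟨S.erase va, ?_, insert_erase h4⟩
        rw [mem_ssubsets]
        refine ⟨fun u hu => ?_, fun h => h3 (h.trans (erase_subset _ _))⟩
        obtain ⟨h5, h6⟩ := mem_erase.1 hu
        refine hmA u ?_ h5 ?_
        · rintro rfl; exact h1 h6
        · rintro rfl; exact h2 h6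
      · left
        refine ⟨fun u hu => ?_, h3⟩
        refine hmA u ?_ ?_ ?_
        · rintro rfl; exact h1 hu
        · rintro rfl; exact h4 hu
        · rintro rfl; exact h2 hu
    · rintro (h | ⟨G, hG, rfl⟩)
      · exact ⟨fun h1 => hb (h.1 h1), fun h1 => hp (h.1 h1), h.2⟩
      · rw [mem_ssubsets] at hG
        refine ⟨fun h1 => ?_, fun h1 => ?_, fun h1 => ?_⟩
        · rcases mem_insert.1 h1 with h1 | h1
          · exact a_ne_b h1.symm
          · exact hb (hG.1 h1)
        · rcases mem_insert.1 h1 with h1 | h1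
          · exact emb_ne_a _ h1
          · exact hp (hG.1 h1)
        · apply hG.2
          intro u hu
          rcases mem_insert.1 (h1 hu) with h2 | h2
          · rw [h2] at hu
            exact absurd hu ha
          · exact h2
  have hcI : ∀ G ∈ A.ssubsets, (insert va G).card = G.card + 1 := by
    intro G hG
    exact card_insert_of_notMem fun h => ha ((mem_ssubsets.1 hG).1 h)
  have hlt : ∀ G ∈ A.ssubsets, G.card ≤ n := by
    intro G hG
    have := card_lt_card (mem_ssubsets.1 hG)
    omega
  have hdisj : Disjoint A.ssubsets (A.ssubsets.image (insert va)) := by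
    rw [Finset.disjoint_left]
    intro G hG hG2
    obtain ⟨H, hH, rfl⟩ := mem_image.1 hG2
    exact ha ((mem_ssubsets.1 hG).1 (mem_insert_self _ _))
  rw [h1, hPoly_eq _ (n + 1), Finset.sum_union hdisj, Finset.sum_image]
  · have h2 := sum_ssubsets' A n hAc
    have h3 : ∑ G ∈ A.ssubsets, (X : ℤ[X]) ^ G.card * (1 - X) ^ (n + 1 - G.card) =
        (1 - X) * ∑ G ∈ A.ssubsets, (X : ℤ[X]) ^ G.card * (1 - X) ^ (n - G.card) := by
      rw [Finset.mul_sum]
      refine Finset.sum_congr rfl fun G hG => ?_
      have h4 : n + 1 - G.card = (n - G.card) + 1 := by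
        have := hlt G hG
        omega
      rw [h4, pow_succ]
      ring
    have h4 : ∑ G ∈ A.ssubsets, (X : ℤ[X]) ^ (insert va G).card *
        (1 - X) ^ (n + 1 - (insert va G).card) =
        X * ∑ G ∈ A.ssubsets, (X : ℤ[X]) ^ G.card * (1 - X) ^ (n - G.card) := by
      rw [Finset.mul_sum]
      refine Finset.sum_congr rfl fun G hG => ?_
      rw [hcI G hG, Nat.add_sub_add_right, pow_succ]
      ring
    rw [h3, h4, h2]
    ring
  · intro G hG H hH hGH
    have h5 : va ∉ G := fun h => ha ((mem_ssubsets.1 hG).1 h)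
    have h6 : va ∉ H := fun h => ha ((mem_ssubsets.1 hH).1 h)
    rw [← erase_insert h5, ← erase_insert h6]
    exact congrArg (fun Z : Finset (Option (Option V)) => Finset.erase Z va) hGH
  · intro G hG
    rcases mem_union.1 hG with hG | hG
    · have := hlt G hG
      omega
    · obtain ⟨H, hH, rfl⟩ := mem_image.1 hG
      rw [hcI H hH]
      have := hlt H hH
      omega
  · obtain ⟨u, hu⟩ : A.Nonempty := by
      rw [← card_pos]
      omega
    have h5 : A.erase u ∈ A.ssubsets := mem_ssubsets.2 (erase_ssubset hu)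
    refine ⟨insert va (A.erase u), mem_union_right _ (mem_image_of_mem _ h5), ?_⟩
    rw [hcI _ h5, card_erase_of_mem hu]
    omega

lemma h_univ (p : V) (n : ℕ) (hn : Fintype.card V = n + 2) :
    hPoly (restriction (cx p) (car p) univ) =
      1 + X * (1 - X ^ (n + 1)) + X * ∑ i ∈ range (n + 2), X ^ i := by
  set A := (FF p).map emb with hA
  have hAc : A.card = n + 1 := by
    rw [hA, card_map, FF_card]
    omega
  have hTc : (TT p).card = n + 2 := by rw [TT_card, hn]
  have hVc : ((univ : Finset V).map emb).card = n + 2 := by rw [card_map, card_univ, hn]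
  have ha : va ∉ A := by
    intro h1
    obtain ⟨v, _, hv⟩ := mem_map.1 h1
    exact emb_ne_a v hv
  have hb : vb ∉ A := by
    intro h1
    obtain ⟨v, _, hv⟩ := mem_map.1 h1
    exact emb_ne_b v hv
  have haV : va ∉ (univ : Finset V).map emb := by
    intro h1
    obtain ⟨v, _, hv⟩ := mem_map.1 h1
    exact emb_ne_a v hv
  have hbV : vb ∉ (univ : Finset V).map emb := by
    intro h1
    obtain ⟨v, _, hv⟩ := mem_map.1 h1
    exact emb_ne_b v hv
  have hp : emb p ∉ A := by
    intro h1
    exact (mem_FF.1 ((Finset.mem_map' emb).1 h1)) rfl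
  have hmA : ∀ u, u ≠ vb → u ≠ va → u ≠ emb p → u ∈ A := by
    intro u h1 h2 h3
    rcases cases_u u with rfl | rfl | ⟨v, rfl⟩
    · exact absurd rfl h1
    · exact absurd rfl h2
    · exact mem_map_of_mem _ (mem_FF.2 fun h => h3 (by rw [h]))
  have h1 : restriction (cx p) (car p) univ =
      (((univ : Finset V).map emb).powerset ∪ A.ssubsets.image (insert va)) ∪
        (TT p).ssubsets.image (insert vb) := by
    ext S
    rw [mem_restriction, PW_univ, mem_union, mem_union, mem_image, mem_image, mem_powerset]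
    constructor
    · rintro ⟨h1, h2⟩
      by_cases h3 : vb ∈ S
      · right
        refine ⟨S.erase vb, ?_, insert_erase h3⟩
        rw [mem_ssubsets]
        refine ⟨fun u hu => ?_, fun h => h2 (h.trans (erase_subset _ _))⟩
        obtain ⟨h5, h6⟩ := mem_erase.1 hu
        refine mem_TT.2 ⟨h5, ?_⟩
        rintro rfl
        exact h1 (Or.inl h3) h6
      · left
        by_cases h4 : va ∈ S
        · right
          refine ⟨S.erase va, ?_, insert_erase h4⟩
          rw [mem_ssubsets]
          refine ⟨fun u hu => ?_, fun h => h2 ?_⟩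
          · obtain ⟨h5, h6⟩ := mem_erase.1 hu
            refine hmA u ?_ h5 ?_
            · rintro rfl; exact h3 h6
            · rintro rfl; exact h1 (Or.inr h4) h6
          · rw [← insert_erase h4]
            exact insert_subset_insert _ h
        · left
          intro u hu
          rcases cases_u u with rfl | rfl | ⟨v, rfl⟩
          · exact absurd hu h3
          · exact absurd hu h4
          · exact mem_map_of_mem _ (mem_univ _)
    · rintro ((h | ⟨G, hG, rfl⟩) | ⟨G, hG, rfl⟩)
      · exact ⟨fun h5 => (h5.elim (fun h5 => hbV (h h5)) (fun h5 => haV (h h5))).elim,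
          fun h5 => haV (h (h5 (mem_insert_self _ _)))⟩
      · rw [mem_ssubsets] at hG
        refine ⟨fun _ h1 => ?_, fun h1 => ?_⟩
        · rcases mem_insert.1 h1 with h1 | h1
          · exact emb_ne_a _ h1
          · exact hp (hG.1 h1)
        · apply hG.2
          intro u hu
          rcases mem_insert.1 (h1 (mem_insert_of_mem hu)) with h2 | h2
          · rw [h2] at hu
            exact absurd hu ha
          · exact h2
      · rw [mem_ssubsets] at hG
        refine ⟨fun _ h1 => ?_, fun h1 => ?_⟩
        · rcases mem_insert.1 h1 with h1 | h1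
          · exact emb_ne_b _ h1
          · exact (mem_TT.1 (hG.1 h1)).2 rfl
        · apply hG.2
          intro u hu
          rcases mem_insert.1 (h1 hu) with h2 | h2
          · rw [h2] at hu
            exact absurd rfl (mem_TT.1 hu).1
          · exact h2
  have hbT : vb ∉ TT p := fun h => (mem_TT.1 h).1 rfl
  have hcI : ∀ G ∈ A.ssubsets, (insert va G).card = G.card + 1 := by
    intro G hG
    exact card_insert_of_notMem fun h => ha ((mem_ssubsets.1 hG).1 h)
  have hcT : ∀ G ∈ (TT p).ssubsets, (insert vb G).card = G.card + 1 := by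
    intro G hG
    exact card_insert_of_notMem fun h => hbT ((mem_ssubsets.1 hG).1 h)
  have hltA : ∀ G ∈ A.ssubsets, G.card ≤ n := by
    intro G hG
    have := card_lt_card (mem_ssubsets.1 hG)
    omega
  have hltT : ∀ G ∈ (TT p).ssubsets, G.card ≤ n + 1 := by
    intro G hG
    have := card_lt_card (mem_ssubsets.1 hG)
    omega
  have hd1 : Disjoint ((univ : Finset V).map emb).powerset (A.ssubsets.image (insert va)) := by
    rw [Finset.disjoint_left]
    intro G hG hG2
    obtain ⟨H, hH, rfl⟩ := mem_image.1 hG2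
    exact haV ((mem_powerset.1 hG) (mem_insert_self _ _))
  have hd2 : Disjoint (((univ : Finset V).map emb).powerset ∪ A.ssubsets.image (insert va))
      ((TT p).ssubsets.image (insert vb)) := by
    rw [Finset.disjoint_left]
    intro G hG hG2
    obtain ⟨H, hH, rfl⟩ := mem_image.1 hG2
    rcases mem_union.1 hG with hG | hG
    · exact hbV ((mem_powerset.1 hG) (mem_insert_self _ _))
    · obtain ⟨G, hG, h3⟩ := mem_image.1 hG
      have h4 : vb ∈ insert va G := by rw [h3]; exact mem_insert_self _ _
      rcases mem_insert.1 h4 with h4 | h4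
      · exact a_ne_b h4.symm
      · exact hb ((mem_ssubsets.1 hG).1 h4)
  rw [h1, hPoly_eq _ (n + 2), Finset.sum_union hd2, Finset.sum_union hd1, Finset.sum_image,
    Finset.sum_image]
  · have e1 := sum_simplex ((univ : Finset V).map (emb : V ↪ Option (Option V)))
    rw [hVc] at e1
    have e2 := sum_ssubsets A
    rw [hAc] at e2
    have e3 := sum_ssubsets' (TT p) (n + 1) hTc
    have h4 : ∑ G ∈ A.ssubsets, (X : ℤ[X]) ^ (insert va G).card *
        (1 - X) ^ (n + 2 - (insert va G).card) =
        X * ∑ G ∈ A.ssubsets, (X : ℤ[X]) ^ G.card * (1 - X) ^ (n + 1 - G.card) := by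
      rw [Finset.mul_sum]
      refine Finset.sum_congr rfl fun G hG => ?_
      rw [hcI G hG]
      have h5 : n + 2 - (G.card + 1) = n + 1 - G.card := by omega
      rw [h5, pow_succ]
      ring
    have h5 : ∑ G ∈ (TT p).ssubsets, (X : ℤ[X]) ^ (insert vb G).card *
        (1 - X) ^ (n + 2 - (insert vb G).card) =
        X * ∑ G ∈ (TT p).ssubsets, (X : ℤ[X]) ^ G.card * (1 - X) ^ (n + 1 - G.card) := by
      rw [Finset.mul_sum]
      refine Finset.sum_congr rfl fun G hG => ?_
      rw [hcT G hG]
      have h5 : n + 2 - (G.card + 1) = n + 1 - G.card := by omega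
      rw [h5, pow_succ]
      ring
    rw [h4, h5, e1, e2, e3]
  · intro G hG H hH hGH
    have h5 : vb ∉ G := fun h => hbT ((mem_ssubsets.1 hG).1 h)
    have h6 : vb ∉ H := fun h => hbT ((mem_ssubsets.1 hH).1 h)
    rw [← erase_insert h5, ← erase_insert h6]
    exact congrArg (fun Z : Finset (Option (Option V)) => Finset.erase Z vb) hGH
  · intro G hG H hH hGH
    have h5 : va ∉ G := fun h => ha ((mem_ssubsets.1 hG).1 h)
    have h6 : va ∉ H := fun h => ha ((mem_ssubsets.1 hH).1 h)
    rw [← erase_insert h5, ← erase_insert h6]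
    exact congrArg (fun Z : Finset (Option (Option V)) => Finset.erase Z va) hGH
  · intro G hG
    rcases mem_union.1 hG with hG | hG
    · rcases mem_union.1 hG with hG | hG
      · have := card_le_card (mem_powerset.1 hG)
        omega
      · obtain ⟨H, hH, rfl⟩ := mem_image.1 hG
        rw [hcI H hH]
        have := hltA H hH
        omega
    · obtain ⟨H, hH, rfl⟩ := mem_image.1 hG
      rw [hcT H hH]
      have := hltT H hH
      omega
  · exact ⟨_, mem_union_left _ (mem_union_left _ (mem_powerset_self _)), hVc⟩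

lemma alt_sum (hV : 0 < Fintype.card V) :
    ∑ W : Finset V, (-1 : ℤ[X]) ^ (Fintype.card V - W.card) = 0 := by
  have h := Finset.sum_pow_mul_eq_add_pow (1 : ℤ[X]) (-1) (univ : Finset V)
  simp only [one_pow, one_mul, powerset_univ, card_univ] at h
  rw [h, add_neg_cancel, zero_pow hV.ne']

theorem local_h (p : V) (n : ℕ) (hn : Fintype.card V = n + 2) :
    localH (cx p) (car p) = X + X ^ (n + 1) := by
  have hFu : FF p ≠ univ := by
    intro h
    have : p ∈ FF p := by rw [h]; exact mem_univ _
    exact (mem_FF.1 this) rfl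
  have hterm : ∀ W : Finset V, (-1 : ℤ[X]) ^ (Fintype.card V - W.card) *
      hPoly (restriction (cx p) (car p) W) =
      (-1 : ℤ[X]) ^ (Fintype.card V - W.card) +
        ((if W = univ then hPoly (restriction (cx p) (car p) univ) - 1 else 0) +
          (if W = FF p then 1 - hPoly (restriction (cx p) (car p) (FF p)) else 0)) := by
    intro W
    by_cases h1 : W = univ
    · subst h1
      rw [if_pos rfl, if_neg hFu.symm, card_univ, Nat.sub_self, pow_zero]
      ring
    · by_cases h2 : W = FF p
      · subst h2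
        rw [if_neg h1, if_pos rfl, FF_card]
        have h3 : Fintype.card V - (Fintype.card V - 1) = 1 := by omega
        rw [h3]
        ring
      · rw [if_neg h1, if_neg h2, h_other p W h1 h2]
        ring
  unfold localH
  rw [Finset.sum_congr rfl fun W _ => hterm W, Finset.sum_add_distrib, Finset.sum_add_distrib,
    alt_sum (by omega), Finset.sum_ite_eq', Finset.sum_ite_eq', if_pos (mem_univ _),
    if_pos (mem_univ _), h_univ p n hn, h_F p n hn]
  have h4 : X * ∑ i ∈ range (n + 2), (X : ℤ[X]) ^ i =
      ∑ i ∈ range (n + 1), X ^ i + X ^ (n + 1) + X ^ (n + 2) - 1 := by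
    rw [Finset.mul_sum]
    have h5 : ∑ i ∈ range (n + 3), (X : ℤ[X]) ^ i =
        ∑ i ∈ range (n + 2), X * X ^ i + 1 := by
      rw [Finset.sum_range_succ', pow_zero]
      congr 1
      refine Finset.sum_congr rfl fun i _ => ?_
      rw [pow_succ]
      ring
    rw [Finset.sum_range_succ, Finset.sum_range_succ] at h5
    linear_combination -h5
  rw [h4]
  ring

end construction

/-- For every `d ≥ 4` there is a quasi-geometric subdivision of the simplex on `d` vertices with
local h-polynomial `x + x^{d-1}`; its local h-vector is not unimodal. -/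
theorem result (d : ℕ) (hd : 4 ≤ d) :
    ∃ (U : Type) (_ : Fintype U) (_ : DecidableEq U) (Γ : SCx U) (σ : Finset U → Finset (Fin d)),
      IsTopSubdivision Γ σ ∧ IsQuasiGeometric Γ σ ∧ localH Γ σ = X + X ^ (d - 1) ∧
        ∃ i, i < d / 2 ∧ (localH Γ σ).coeff (i + 1) < (localH Γ σ).coeff i := by
  have hc : Fintype.card (Fin d) = (d - 2) + 2 := by
    rw [Fintype.card_fin]
    omega
  have h0 : 0 < d := by omega
  have hl := local_h (⟨0, h0⟩ : Fin d) (d - 2) hc
  have h1 : d - 2 + 1 = d - 1 := by omega
  rw [h1] at hl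
  refine ⟨Option (Option (Fin d)), inferInstance, inferInstance, cx ⟨0, h0⟩, car ⟨0, h0⟩,
    topSubdivision _ (by rw [Fintype.card_fin]; omega),
    quasiGeometric _ (by rw [Fintype.card_fin]; omega), hl, 1, by omega, ?_⟩
  have e1 : (X + X ^ (d - 1) : ℤ[X]).coeff (1 + 1) = 0 := by
    rw [coeff_add, coeff_X, coeff_X_pow, if_neg (by norm_num), if_neg (by omega), add_zero]
  have e2 : (X + X ^ (d - 1) : ℤ[X]).coeff 1 = 1 := by
    rw [coeff_add, coeff_X, coeff_X_pow, if_pos rfl, if_neg (by omega), add_zero]
  rw [hl, e1, e2]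
  norm_num

end Pool.Agent.Results.MP_230912_co.QuasiGeometric
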