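import Pool.Agent.Q142.Expl

set_option autoImplicit false

namespace Q142

open Set Module

/-- `T` is a `d`-simplex in Euclidean `d`-space. -/
def IsSimplex {d : ℕ} (T : Set (Sp d)) : Prop :=
  ∃ v : Fin (d + 1) → Sp d, AffineIndependent ℝ v ∧ T = convexHull ℝ (Set.range v)

/-- The set `S` is a union of faces of `P` (the point set of a subcomplex of the complex of all
faces of `P`). -/
def IsUnionOfFaces {n : ℕ} (P S : Set (Sp n)) : Prop :=
  ∃ G : Set (Set (Sp n)), G ⊆ faces P ∧ S = ⋃₀ G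

/-- The image of the subset `S` of `P` under a map `ψ : P → T`. -/
def img {n : ℕ} {P T : Set (Sp n)} (ψ : P ≃ₜ T) (S : Set (Sp n)) : Set (Sp n) :=
  {y | ∃ x : P, (x : Sp n) ∈ S ∧ (ψ x : Sp n) = y}

/-- The preimage of the subset `K` of `T` under a map `ψ : P → T`. -/
def preimg {n : ℕ} {P T : Set (Sp n)} (ψ : P ≃ₜ T) (K : Set (Sp n)) : Set (Sp n) :=
  {x | ∃ y : P, (y : Sp n) = x ∧ (ψ y : Sp n) ∈ K}

/-- A refinement map: a homeomorphism of `P` onto the simplex `T` such that the preimage of every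
face of `T` is a union of faces of `P`. -/
def IsRefinementMap {n : ℕ} {P T : Set (Sp n)} (ψ : P ≃ₜ T) : Prop :=
  ∀ K ∈ faces T, IsUnionOfFaces P (preimg ψ K)

/-- A tower of faces `F 0 ⊂ F 1 ⊂ ⋯ ⊂ F d = P`, where `F i` is an `i`-dimensional face of `P`. -/
def IsTower {n : ℕ} (d : ℕ) (P : Set (Sp n)) (F : ℕ → Set (Sp n)) : Prop :=
  (∀ i ≤ d, F i ∈ faces P ∧ (F i).Nonempty ∧ dim (F i) = i) ∧ (∀ i < d, F i ⊆ F (i + 1)) ∧
    F d = P

section general

variable {n : ℕ}

lemma faces_finite {A : Set (Sp n)} (hA : A.Finite) : (faces (convexHull ℝ A)).Finite := by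
  have h1 : (Set.image (fun B => convexHull ℝ B) (𝒫 A) ∪ {∅}).Finite :=
    ((hA.finite_subsets).image _).union (Set.finite_singleton _)
  refine h1.subset fun F hF => ?_
  rcases Set.eq_empty_or_nonempty F with h | h
  · right; exact h
  · left
    obtain ⟨l, M, h2, h3, h4⟩ := face_data hF h
    exact ⟨A ∩ F, Set.inter_subset_left, h4.symm⟩

lemma exists_face_of_closure {A : Set (Sp n)} (hA : A.Finite) {G : Set (Set (Sp n))}
    (hG : G ⊆ faces (convexHull ℝ A)) {a : Sp n} (ha : a ∈ closure (⋃₀ G \ {a})) :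
    ∃ g ∈ G, a ∈ g ∧ ∃ x ∈ g, x ≠ a := by
  have hfin : G.Finite := (faces_finite hA).subset hG
  have h1 : ⋃₀ G \ {a} = ⋃ g ∈ G, (g \ {a}) := by
    ext x
    simp only [Set.mem_sdiff, Set.mem_sUnion, Set.mem_singleton_iff, Set.mem_iUnion, exists_prop]
    constructor
    · rintro ⟨⟨g, hg, hx⟩, hxa⟩; exact ⟨g, hg, hx, hxa⟩
    · rintro ⟨g, hg, hx, hxa⟩; exact ⟨⟨g, hg, hx⟩, hxa⟩
  rw [h1, hfin.closure_biUnion] at ha
  simp only [Set.mem_iUnion, exists_prop] at ha
  obtain ⟨g, hg, hag⟩ := ha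
  have hcl : IsClosed g := by
    have hP : IsClosed (convexHull ℝ A) := hA.isClosed_convexHull ℝ
    exact (hG hg).isClosed hP
  refine ⟨g, hg, ?_, ?_⟩
  · have := closure_mono (Set.sdiff_subset (s := g) (t := {a})) hag
    rwa [hcl.closure_eq] at this
  · have hne : (g \ {a}).Nonempty := by
      rw [Set.nonempty_iff_ne_empty]
      intro h
      rw [h, closure_empty] at hag
      exact hag
    obtain ⟨x, hx⟩ := hne
    exact ⟨x, hx.1, fun h => hx.2 h⟩

end general

section simplex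

variable {d : ℕ}

/-- A simplex described by an affine basis. -/
lemma simplex_basis {T : Set (Sp d)} (hT : IsSimplex T) :
    ∃ b : AffineBasis (Fin (d + 1)) ℝ (Sp d), T = convexHull ℝ (Set.range b) := by
  obtain ⟨v, hv, rfl⟩ := hT
  have h1 : affineSpan ℝ (Set.range v) = ⊤ := by
    rw [hv.affineSpan_eq_top_iff_card_eq_finrank_add_one]
    simp
  exact ⟨⟨v, hv, h1⟩, rfl⟩

variable (b : AffineBasis (Fin (d + 1)) ℝ (Sp d))

lemma mem_simplex {x : Sp d} : x ∈ convexHull ℝ (Set.range b) ↔ ∀ i, 0 ≤ b.coord i x := by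
  rw [AffineBasis.convexHull_eq_nonneg_coord]
  rfl

lemma vertex_mem (i : Fin (d + 1)) : b i ∈ convexHull ℝ (Set.range b) :=
  subset_convexHull ℝ _ ⟨i, rfl⟩

/-- Exposing with an affine function. -/
lemma exposed_of_affine {T : Set (Sp d)} (φ : Sp d →ᵃ[ℝ] ℝ) (c : ℝ) (h1 : ∀ x ∈ T, φ x ≤ c)
    {K : Set (Sp d)} (hK : K = {x | x ∈ T ∧ φ x = c}) : IsExposed ℝ T K := by
  intro hne
  refine ⟨LinearMap.toContinuousLinearMap φ.linear, ?_⟩
  have hφ : ∀ x, φ x = φ.linear x + φ 0 := fun x => by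
    have := congrFun φ.decomp x
    simpa using this
  obtain ⟨x0, hx0⟩ := hne
  rw [hK] at hx0
  ext x
  rw [hK]
  constructor
  · rintro ⟨hx, hxc⟩
    refine ⟨hx, fun y hy => ?_⟩
    have h2 := h1 y hy
    rw [← hxc, hφ y, hφ x] at h2
    simpa using h2
  · rintro ⟨hx, hmax⟩
    refine ⟨hx, le_antisymm (h1 x hx) ?_⟩
    have h2 := hmax x0 hx0.1
    have h3 : φ.linear x0 ≤ φ.linear x := by simpa using h2
    rw [← hx0.2, hφ x0, hφ x]
    linarith

lemma vertex_exposed (i : Fin (d + 1)) : IsExposed ℝ (convexHull ℝ (Set.range b)) {b i} := by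
  have hle : ∀ x ∈ convexHull ℝ (Set.range b), b.coord i x ≤ 1 := by
    intro x hx
    have h1 := b.sum_coord_apply_eq_one x
    rw [← h1]
    exact Finset.single_le_sum (f := fun j => b.coord j x) (fun j _ => (mem_simplex b).1 hx j)
      (Finset.mem_univ i)
  refine exposed_of_affine (b.coord i) 1 hle ?_
  ext x
  constructor
  · intro hx
    have hx' : x = b i := hx
    rw [hx']
    exact ⟨vertex_mem b i, by simp⟩
  · rintro ⟨hx, h1⟩
    have hs := b.sum_coord_apply_eq_one x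
    have h0 : ∀ j, j ≠ i → b.coord j x = 0 := by
      intro j hj
      rw [← Finset.add_sum_erase _ _ (Finset.mem_univ i), h1] at hs
      have h2 : ∑ k ∈ Finset.univ.erase i, b.coord k x = 0 := by linarith
      rw [Finset.sum_eq_zero_iff_of_nonneg (fun k _ => (mem_simplex b).1 hx k)] at h2
      exact h2 j (Finset.mem_erase.2 ⟨hj, Finset.mem_univ j⟩)
    show x = b i
    refine b.ext_elem fun j => ?_
    by_cases hj : j = i
    · rw [hj, h1]; simp
    · rw [h0 j hj, b.coord_apply_ne hj]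

lemma edge_mem (i j : Fin (d + 1)) {x : Sp d} (hx : x ∈ segment ℝ (b i) (b j)) :
    x ∈ convexHull ℝ (Set.range b) :=
  (convex_convexHull ℝ _).segment_subset (vertex_mem b i) (vertex_mem b j) hx

lemma edge_exposed {i j : Fin (d + 1)} (hij : i ≠ j) :
    IsExposed ℝ (convexHull ℝ (Set.range b)) (segment ℝ (b i) (b j)) := by
  have hpair : ∀ x ∈ convexHull ℝ (Set.range b), b.coord i x + b.coord j x
      + ∑ k ∈ (Finset.univ.erase i).erase j, b.coord k x = 1 := by
    intro x hx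
    have h1 := b.sum_coord_apply_eq_one x
    rw [← Finset.add_sum_erase _ _ (Finset.mem_univ i),
      ← Finset.add_sum_erase _ _ (Finset.mem_erase.2 ⟨hij.symm, Finset.mem_univ j⟩)] at h1
    linarith
  have hle : ∀ x ∈ convexHull ℝ (Set.range b), (b.coord i + b.coord j) x ≤ 1 := by
    intro x hx
    have h1 := hpair x hx
    have h2 : 0 ≤ ∑ k ∈ (Finset.univ.erase i).erase j, b.coord k x :=
      Finset.sum_nonneg fun k _ => (mem_simplex b).1 hx k
    show b.coord i x + b.coord j x ≤ 1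
    linarith
  refine exposed_of_affine (b.coord i + b.coord j) 1 hle ?_
  ext x
  constructor
  · intro hx
    refine ⟨edge_mem b i j hx, ?_⟩
    obtain ⟨s, t, hs, ht, hst, rfl⟩ := hx
    have e1 : ∀ k, b.coord k (s • b i + t • b j) = s * b.coord k (b i) + t * b.coord k (b j) := by
      intro k
      exact Convex.combo_affine_apply hst
    show b.coord i _ + b.coord j _ = 1
    rw [e1, e1, b.coord_apply_eq, b.coord_apply_eq, b.coord_apply_ne hij, b.coord_apply_ne hij.symm]
    linarith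
  · rintro ⟨hx, h1⟩
    have h1' : b.coord i x + b.coord j x = 1 := h1
    have h2 := hpair x hx
    have h3 : ∑ k ∈ (Finset.univ.erase i).erase j, b.coord k x = 0 := by linarith
    rw [Finset.sum_eq_zero_iff_of_nonneg (fun k _ => (mem_simplex b).1 hx k)] at h3
    have h4 : ∑ k, b.coord k x • b k = x := b.linear_combination_coord_eq_self x
    refine ⟨b.coord i x, b.coord j x, (mem_simplex b).1 hx i, (mem_simplex b).1 hx j, h1', ?_⟩
    rw [← Finset.add_sum_erase _ _ (Finset.mem_univ i),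
      ← Finset.add_sum_erase _ _ (Finset.mem_erase.2 ⟨hij.symm, Finset.mem_univ j⟩),
      Finset.sum_eq_zero (fun k hk => by rw [h3 k hk, zero_smul]), add_zero] at h4
    exact h4

/-- The key step: if the vertex `a` of `P` is mapped to the vertex `b i` of the simplex, then the
preimage of the edge from `b i` to `b j` contains every point `W` which lies in all faces of `P`
that contain `a` and meet the facet `Fd` in `a` only. -/
lemma key {A : Set (Sp d)} (hA : A.Finite)
    (ψ : (convexHull ℝ A : Set (Sp d)) ≃ₜ (convexHull ℝ (Set.range b) : Set (Sp d)))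
    (hψ : IsRefinementMap ψ) {Fd : Set (Sp d)} (hFd : img ψ Fd ∈ faces (convexHull ℝ (Set.range b)))
    {a V : (convexHull ℝ A : Set (Sp d))} {i j : Fin (d + 1)} (hij : i ≠ j)
    (hai : (ψ a : Sp d) = b i) (hVj : (ψ V : Sp d) = b j) (haF : (a : Sp d) ∈ Fd)
    (hVF : (V : Sp d) ∉ Fd) (W : Sp d)
    (hW : ∀ G ∈ faces (convexHull ℝ A), (a : Sp d) ∈ G → (∃ x ∈ G, x ≠ (a : Sp d)) →
      (∀ x ∈ G, x ∈ Fd → x = a) → W ∈ G) :
    ∃ w : (convexHull ℝ A : Set (Sp d)), (w : Sp d) = W ∧ (ψ w : Sp d) ∈ segment ℝ (b i) (b j) := by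
  obtain ⟨G, hG, hS⟩ := hψ _ (edge_exposed b hij)
  have hbij : b i ≠ b j := fun h => hij (b.ind.injective h)
  -- `a` is a limit point of the preimage of the edge
  have hlim : (a : Sp d) ∈ closure (⋃₀ G \ {(a : Sp d)}) := by
    rw [← hS]
    have hmem : ∀ m : ℕ, AffineMap.lineMap (b i) (b j) ((1 : ℝ) / ((m : ℝ) + 1)) ∈
        segment ℝ (b i) (b j) := by
      intro m
      rw [segment_eq_image_lineMap]
      refine ⟨_, ⟨by positivity, ?_⟩, rfl⟩
      rw [div_le_one (by positivity)]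
      linarith [Nat.cast_nonneg (α := ℝ) m]
    let y : ℕ → (convexHull ℝ (Set.range b) : Set (Sp d)) := fun m => ⟨_, edge_mem b i j (hmem m)⟩
    have hy : Filter.Tendsto y Filter.atTop (nhds (ψ a)) := by
      rw [tendsto_subtype_rng, hai]
      have h1 : Filter.Tendsto (fun m : ℕ => (1 : ℝ) / ((m : ℝ) + 1)) Filter.atTop (nhds 0) :=
        tendsto_one_div_add_atTop_nhds_zero_nat
      have h2 : Continuous (fun t : ℝ => AffineMap.lineMap (b i) (b j) t) :=
        AffineMap.lineMap_continuous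
      have h3 := (h2.tendsto 0).comp h1
      rw [AffineMap.lineMap_apply_zero] at h3
      exact h3
    have hx : Filter.Tendsto (fun m => ((ψ.symm (y m) : (convexHull ℝ A : Set (Sp d))) : Sp d))
        Filter.atTop (nhds (a : Sp d)) := by
      have h1 := (ψ.symm.continuous.tendsto (ψ a)).comp hy
      rw [ψ.symm_apply_apply] at h1
      exact (continuous_subtype_val.tendsto a).comp h1
    refine mem_closure_of_tendsto hx (Filter.Eventually.of_forall fun m => ⟨?_, ?_⟩)
    · exact ⟨ψ.symm (y m), rfl, by rw [ψ.apply_symm_apply]; exact hmem m⟩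
    · intro h
      have h1 : ψ.symm (y m) = a := Subtype.ext h
      have h2 : y m = ψ a := by rw [← h1, ψ.apply_symm_apply]
      have h3 : AffineMap.lineMap (b i) (b j) ((1 : ℝ) / ((m : ℝ) + 1)) = b i := by
        have h2' := congrArg Subtype.val h2
        rw [hai] at h2'
        exact h2'
      have h4 : ((1 : ℝ) / ((m : ℝ) + 1)) ≠ 0 := by positivity
      rw [AffineMap.lineMap_apply, vsub_eq_sub, vadd_eq_add] at h3
      have h5 : ((1 : ℝ) / ((m : ℝ) + 1)) • (b j - b i) = 0 := by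
        have := h3
        rwa [add_eq_right] at this
      rcases smul_eq_zero.1 h5 with h6 | h6
      · exact h4 h6
      · exact hbij (sub_eq_zero.1 h6).symm
  obtain ⟨g, hg, hag, hgne⟩ := exists_face_of_closure hA hG hlim
  have hgS : ∀ x ∈ g, ∃ y : (convexHull ℝ A : Set (Sp d)), (y : Sp d) = x ∧
      (ψ y : Sp d) ∈ segment ℝ (b i) (b j) := by
    intro x hx
    have : x ∈ preimg ψ (segment ℝ (b i) (b j)) := by
      rw [hS]; exact ⟨g, hg, hx⟩
    exact this
  refine hgS W (hW g (hG hg) hag hgne ?_)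
  intro x hx hxF
  obtain ⟨y, rfl, hy⟩ := hgS x hx
  -- the image of the facet meets the edge in `b i` only
  obtain ⟨l, M, h1, h2, -⟩ := face_data (A := Set.range b) hFd ⟨ψ a, a, haF, rfl⟩
  have hK : ∀ z : (convexHull ℝ A : Set (Sp d)), l (ψ z : Sp d) = M ↔ (z : Sp d) ∈ Fd := by
    intro z
    constructor
    · intro hz
      have : (ψ z : Sp d) ∈ img ψ Fd := by rw [h2]; exact ⟨(ψ z).2, hz⟩
      obtain ⟨z', hz', h3⟩ := this
      have h4 : z' = z := ψ.injective (Subtype.ext h3)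
      rwa [← h4]
    · intro hz
      have : (ψ z : Sp d) ∈ img ψ Fd := ⟨z, hz, rfl⟩
      rw [h2] at this
      exact this.2
  have ha' : l (b i) = M := by rw [← hai]; exact (hK a).2 haF
  have hV' : l (b j) < M := by
    refine lt_of_le_of_ne (h1 _ (vertex_mem b j)) fun h => hVF ?_
    rw [← hVj] at h
    exact (hK V).1 h
  have hy' : l (ψ y : Sp d) = M := (hK y).2 hxF
  obtain ⟨s, t, hs, ht, hst, h3⟩ := hy
  have h4 : t = 0 := by
    rw [← h3, map_add, map_smul, map_smul, ha', smul_eq_mul, smul_eq_mul] at hy'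
    by_contra h5
    have ht' : 0 < t := lt_of_le_of_ne ht (Ne.symm h5)
    have h6 : t * l (b j) < t * M := mul_lt_mul_of_pos_left hV' ht'
    have h7 : s * M + t * M = M := by rw [← add_mul, hst, one_mul]
    linarith
  have h5 : (ψ y : Sp d) = ψ a := by
    rw [hai, ← h3, h4, zero_smul, add_zero, show s = 1 by linarith, one_smul]
  have h6 : y = a := ψ.injective (Subtype.ext h5)
  rw [h6]

/-- A point of the simplex that is the image of a vertex of `P`, as a face, is one of the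
`b i`. -/
lemma eq_basis_of_exposed {y : Sp d} (hy : IsExposed ℝ (convexHull ℝ (Set.range b)) {y}) :
    ∃ i, y = b i := by
  have h1 : y ∈ (convexHull ℝ (Set.range b)).extremePoints ℝ :=
    isExtreme_singleton.1 hy.isExtreme
  obtain ⟨i, hi⟩ := extremePoints_convexHull_subset h1
  exact ⟨i, hi.symm⟩

/-- Both ends of the edge of the tower are mapped to vertices of the simplex. -/
lemma end_vertex {A : Set (Sp d)}
    (ψ : (convexHull ℝ A : Set (Sp d)) ≃ₜ (convexHull ℝ (Set.range b) : Set (Sp d)))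
    (hψ : IsRefinementMap ψ) {a c : (convexHull ℝ A : Set (Sp d))} (hac : a ≠ c)
    (h1 : img ψ (segment ℝ (a : Sp d) c) ∈ faces (convexHull ℝ (Set.range b))) :
    ∃ i, (ψ c : Sp d) = b i := by
  by_contra hcon
  push Not at hcon
  obtain ⟨l, M, -, -, h2⟩ := face_data (A := Set.range b) h1
    ⟨ψ a, a, left_mem_segment ℝ _ _, rfl⟩
  have h3 : Set.range b ∩ img ψ (segment ℝ (a : Sp d) c) ⊆ {(ψ a : Sp d)} := by
    rintro _ ⟨⟨k, rfl⟩, ⟨x, hx, hxk⟩⟩
    obtain ⟨G, hG, hS⟩ := hψ _ (vertex_exposed b k)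
    have hxS : (x : Sp d) ∈ preimg ψ {b k} := ⟨x, rfl, hxk⟩
    have hSx : ∀ z ∈ preimg ψ {b k}, z = (x : Sp d) := by
      rintro z ⟨y, rfl, hy⟩
      have h4 : y = x := ψ.injective (Subtype.ext (by rw [hxk]; exact hy))
      rw [h4]
    rw [hS] at hxS hSx
    obtain ⟨g, hg, hxg⟩ := hxS
    have hgx : g = {(x : Sp d)} := by
      apply Set.Subset.antisymm
      · intro z hz; exact hSx z ⟨g, hg, hz⟩
      · rintro z rfl; exact hxg
    have hexp : IsExposed ℝ (convexHull ℝ A) {(x : Sp d)} := hgx ▸ hG hg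
    have hext : (x : Sp d) ∈ (convexHull ℝ A).extremePoints ℝ :=
      isExtreme_singleton.1 hexp.isExtreme
    rw [mem_extremePoints_iff_left] at hext
    have hxa : (x : Sp d) = a ∨ (x : Sp d) = c := by
      by_contra h5
      push Not at h5
      have h6 : (x : Sp d) ∈ openSegment ℝ (a : Sp d) c :=
        mem_openSegment_of_ne_left_right h5.1.symm h5.2.symm hx
      exact h5.1 (hext.2 a a.2 c c.2 h6).symm
    rcases hxa with h5 | h5
    · rw [← hxk]
      have : x = a := Subtype.ext h5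
      rw [this]; rfl
    · exfalso
      have : x = c := Subtype.ext h5
      exact hcon k (this ▸ hxk)
  have h4 : (ψ c : Sp d) ∈ img ψ (segment ℝ (a : Sp d) c) := ⟨c, right_mem_segment ℝ _ _, rfl⟩
  rw [h2] at h4
  have h5 := convexHull_mono h3 h4
  rw [convexHull_singleton] at h5
  have h6 : c = a := ψ.injective (Subtype.ext h5)
  exact hac h6.symm

/-- The obstruction. -/
theorem obstruction {A : Set (Sp d)} (hA : A.Finite) {Fd : Set (Sp d)} (a c V : Sp d)
    (haP : a ∈ convexHull ℝ A) (hcP : c ∈ convexHull ℝ A) (hVP : V ∈ convexHull ℝ A)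
    (hac : a ≠ c) (haF : a ∈ Fd) (hcF : c ∈ Fd) (hVF : V ∉ Fd) (W : Sp d) (hWV : W ≠ V)
    (hWa : ∀ G ∈ faces (convexHull ℝ A), a ∈ G → (∃ x ∈ G, x ≠ a) →
      (∀ x ∈ G, x ∈ Fd → x = a) → W ∈ G)
    (hWc : ∀ G ∈ faces (convexHull ℝ A), c ∈ G → (∃ x ∈ G, x ≠ c) →
      (∀ x ∈ G, x ∈ Fd → x = c) → W ∈ G)
    {T : Set (Sp d)} (hT : IsSimplex T) (ψ : (convexHull ℝ A : Set (Sp d)) ≃ₜ T)
    (hψ : IsRefinementMap ψ) (hV : img ψ {V} ∈ faces T) (h0 : img ψ {a} ∈ faces T)
    (h1 : img ψ (segment ℝ a c) ∈ faces T) (hd : img ψ Fd ∈ faces T) : False := by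
  obtain ⟨b, rfl⟩ := simplex_basis hT
  have himg : ∀ x : (convexHull ℝ A : Set (Sp d)), img ψ {(x : Sp d)} = {(ψ x : Sp d)} := by
    intro x
    ext y
    constructor
    · rintro ⟨z, hz, rfl⟩
      have : z = x := Subtype.ext hz
      rw [this]; rfl
    · rintro rfl
      exact ⟨x, rfl, rfl⟩
  obtain ⟨j, hj⟩ := eq_basis_of_exposed b (y := (ψ ⟨V, hVP⟩ : Sp d)) (by
    rw [← himg ⟨V, hVP⟩]; exact hV)
  obtain ⟨i, hi⟩ := eq_basis_of_exposed b (y := (ψ ⟨a, haP⟩ : Sp d)) (by
    rw [← himg ⟨a, haP⟩]; exact h0)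
  obtain ⟨k, hk⟩ := end_vertex b ψ hψ (a := ⟨a, haP⟩) (c := ⟨c, hcP⟩)
    (fun h => hac (congrArg Subtype.val h)) h1
  have hne : ∀ {x y : (convexHull ℝ A : Set (Sp d))} {p q : Fin (d + 1)},
      (ψ x : Sp d) = b p → (ψ y : Sp d) = b q → x ≠ y → p ≠ q := by
    intro x y p q hx hy hxy hpq
    apply hxy
    apply ψ.injective
    apply Subtype.ext
    rw [hx, hy, hpq]
  have hij : i ≠ j := hne hi hj (fun h => hVF (by
    have h' : a = V := congrArg Subtype.val h
    rw [← h']; exact haF))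
  have hkj : k ≠ j := hne hk hj (fun h => hVF (by
    have h' : c = V := congrArg Subtype.val h
    rw [← h']; exact hcF))
  have hik : i ≠ k := hne hi hk (fun h => hac (congrArg Subtype.val h))
  obtain ⟨w1, hw1, hs1⟩ := key b hA ψ hψ hd hij hi hj haF hVF W hWa
  obtain ⟨w2, hw2, hs2⟩ := key b hA ψ hψ hd hkj hk hj hcF hVF W hWc
  have hw : w1 = w2 := Subtype.ext (hw1.trans hw2.symm)
  subst hw
  have hcoord : b.coord i (ψ w1 : Sp d) = 0 := by
    obtain ⟨s, t, hs, ht, hst, h3⟩ := hs2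
    rw [← h3, Convex.combo_affine_apply hst, b.coord_apply_ne hik, b.coord_apply_ne hij]
    simp
  obtain ⟨s, t, hs, ht, hst, h3⟩ := hs1
  have h4 : s = 0 := by
    rw [← h3, Convex.combo_affine_apply hst, b.coord_apply_eq, b.coord_apply_ne hij] at hcoord
    simpa using hcoord
  have h5 : (ψ w1 : Sp d) = ψ ⟨V, hVP⟩ := by
    rw [hj, ← h3, h4, zero_smul, zero_add, show t = 1 by linarith, one_smul]
  have h6 : w1 = ⟨V, hVP⟩ := ψ.injective (Subtype.ext h5)
  exact hWV (by rw [← hw1, h6])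

end simplex

end Q142
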