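import Pool.Agent.Q142.Refine

set_option autoImplicit false

namespace Q142

open Set Module
open scoped Pointwise

namespace Prism

variable (m : ℕ)

/-- The unit vectors. -/
noncomputable def e (j : Fin (m + 3)) : Sp (m + 3) := EuclideanSpace.single j (1 : ℝ)

lemma e_apply (j k : Fin (m + 3)) : e m j k = if k = j then 1 else 0 := by
  rw [e]; exact PiLp.single_apply ..

/-- The vertices of the prism over the simplex with the vertices `0` and `e j`, `j ≠ 1`. -/
def verts : Set (Sp (m + 3)) := insert 0 {x | ∃ j : Fin (m + 3), j ≠ 1 ∧ x = e m j} + {0, e m 1}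

lemma verts_finite : (verts m).Finite := by
  refine Set.Finite.add (Set.Finite.insert _ ?_) (by simp)
  have : {x | ∃ j : Fin (m + 3), j ≠ 1 ∧ x = e m j} ⊆ Set.range (e m) := by
    rintro x ⟨j, -, rfl⟩; exact ⟨j, rfl⟩
  exact (Set.finite_range _).subset this

/-- The prism. -/
def P : Set (Sp (m + 3)) := convexHull ℝ (verts m)

/-- The inequalities of the prism. -/
def H : Set (Sp (m + 3)) :=
  {x | (∀ j, 0 ≤ x j) ∧ ∑ j ∈ Finset.univ.erase 1, x j ≤ 1 ∧ x 1 ≤ 1}

lemma sum_e (j : Fin (m + 3)) (hj : j ≠ 1) : ∑ k ∈ Finset.univ.erase 1, e m j k = 1 := by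
  simp only [e_apply]
  rw [Finset.sum_ite_eq' (Finset.univ.erase 1) j]
  simp [hj]

lemma H_convex : Convex ℝ (H m) := by
  rintro x ⟨hx0, hx1, hx2⟩ y ⟨hy0, hy1, hy2⟩ a b ha hb hab
  refine ⟨fun j => ?_, ?_, ?_⟩
  · have := mul_nonneg ha (hx0 j)
    have := mul_nonneg hb (hy0 j)
    show 0 ≤ a * x j + b * y j
    linarith
  · show ∑ j ∈ Finset.univ.erase 1, (a * x j + b * y j) ≤ 1
    rw [Finset.sum_add_distrib, ← Finset.mul_sum, ← Finset.mul_sum]
    have h1 := mul_le_mul_of_nonneg_left hx1 ha
    have h2 := mul_le_mul_of_nonneg_left hy1 hb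
    linarith
  · show a * x 1 + b * y 1 ≤ 1
    have h1 := mul_le_mul_of_nonneg_left hx2 ha
    have h2 := mul_le_mul_of_nonneg_left hy2 hb
    linarith

lemma verts_subset : verts m ⊆ H m := by
  rintro x ⟨y, hy, z, hz, rfl⟩
  have hy' : (∀ j, 0 ≤ y j) ∧ ∑ j ∈ Finset.univ.erase 1, y j ≤ 1 ∧ y 1 = 0 := by
    rcases hy with rfl | ⟨j, hj, rfl⟩
    · refine ⟨fun j => le_of_eq rfl, ?_, rfl⟩
      simp
    · refine ⟨fun k => ?_, (sum_e m j hj).le, ?_⟩
      · rw [e_apply]; split_ifs <;> norm_num
      · rw [e_apply, if_neg hj.symm]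
  have hz' : (∀ j, 0 ≤ z j) ∧ (∀ j, j ≠ 1 → z j = 0) ∧ z 1 ≤ 1 := by
    rcases hz with rfl | rfl
    · refine ⟨fun j => le_of_eq rfl, fun j _ => rfl, ?_⟩
      show (0 : ℝ) ≤ 1
      norm_num
    · refine ⟨fun k => ?_, fun k hk => ?_, ?_⟩
      · rw [e_apply]; split_ifs <;> norm_num
      · rw [e_apply, if_neg hk]
      · rw [e_apply, if_pos rfl]
  refine ⟨fun j => add_nonneg (hy'.1 j) (hz'.1 j), ?_, ?_⟩
  · show ∑ j ∈ Finset.univ.erase 1, (y j + z j) ≤ 1
    rw [Finset.sum_add_distrib, Finset.sum_eq_zero (f := fun j => z j)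
      (fun j hj => hz'.2.1 j (Finset.ne_of_mem_erase hj)), add_zero]
    exact hy'.2.1
  · show y 1 + z 1 ≤ 1
    rw [hy'.2.2, zero_add]
    exact hz'.2.2

lemma sum_single (x : Sp (m + 3)) : ∑ j, x j • e m j = x := by
  ext k
  rw [WithLp.ofLp_sum, Finset.sum_apply]
  simp only [PiLp.smul_apply, e_apply, smul_eq_mul, mul_ite, mul_one, mul_zero]
  rw [Finset.sum_ite_eq]
  simp

lemma P_eq : P m = H m := by
  apply Set.Subset.antisymm
  · exact convexHull_min (verts_subset m) (H_convex m)
  · rintro x ⟨h0, h1, h2⟩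
    rw [P, verts, convexHull_add]
    refine ⟨∑ j ∈ Finset.univ.erase 1, x j • e m j, ?_, x 1 • e m 1, ?_, ?_⟩
    · have h3 := (convex_convexHull ℝ (insert 0 {x | ∃ j : Fin (m + 3), j ≠ 1 ∧ x = e m j})).sum_mem
        (t := Finset.univ)
        (w := Function.update (fun j => x j) 1 (1 - ∑ j ∈ Finset.univ.erase 1, x j))
        (z := Function.update (e m) 1 0) ?_ ?_ ?_
      · rw [← Finset.add_sum_erase _ _ (Finset.mem_univ 1)] at h3
        simp only [Function.update_self, smul_zero, zero_add] at h3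
        rw [Finset.sum_congr rfl (g := fun j => x j • e m j)] at h3
        · exact h3
        · intro j hj
          rw [Function.update_of_ne (Finset.ne_of_mem_erase hj),
            Function.update_of_ne (Finset.ne_of_mem_erase hj)]
      · intro j _
        by_cases hj : j = 1
        · subst hj
          rw [Function.update_self]
          linarith
        · rw [Function.update_of_ne hj]
          exact h0 j
      · have h4 : ∑ j ∈ Finset.univ.erase 1, Function.update (fun j => x j) 1
            (1 - ∑ j ∈ Finset.univ.erase 1, x j) j = ∑ j ∈ Finset.univ.erase 1, x j := by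
          refine Finset.sum_congr rfl fun j hj => ?_
          rw [Function.update_of_ne (Finset.ne_of_mem_erase hj)]
        rw [← Finset.add_sum_erase _ _ (Finset.mem_univ 1), Function.update_self, h4]
        ring
      · intro j _
        by_cases hj : j = 1
        · subst hj
          rw [Function.update_self]
          exact subset_convexHull ℝ _ (Or.inl rfl)
        · rw [Function.update_of_ne hj]
          exact subset_convexHull ℝ _ (Or.inr ⟨j, hj, rfl⟩)
    · rw [convexHull_pair]
      refine ⟨1 - x 1, x 1, by linarith, h0 1, by ring, ?_⟩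
      rw [smul_zero, zero_add]
    · show (∑ j ∈ Finset.univ.erase 1, x j • e m j) + x 1 • e m 1 = x
      have h4 := Finset.add_sum_erase Finset.univ (fun j => x j • e m j) (Finset.mem_univ 1)
      have h5 := sum_single m x
      exact (add_comm (∑ j ∈ Finset.univ.erase 1, x j • e m j) (x 1 • e m 1)).trans (h4.trans h5)

lemma e_mem (j : Fin (m + 3)) : e m j ∈ P m := by
  rw [P_eq]
  by_cases hj : j = 1
  · subst hj
    refine ⟨fun k => ?_, ?_, ?_⟩
    · rw [e_apply]; split_ifs <;> norm_num
    · rw [Finset.sum_eq_zero]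
      · norm_num
      · intro k hk
        rw [e_apply, if_neg (Finset.ne_of_mem_erase hk)]
    · rw [e_apply, if_pos rfl]
  · refine ⟨fun k => ?_, (sum_e m j hj).le, ?_⟩
    · rw [e_apply]; split_ifs <;> norm_num
    · rw [e_apply, if_neg (Ne.symm hj)]
      norm_num

lemma zero_mem : (0 : Sp (m + 3)) ∈ P m := by
  rw [P_eq]
  refine ⟨fun k => le_of_eq rfl, ?_, ?_⟩
  · simp
  · show (0 : ℝ) ≤ 1
    norm_num

lemma e_add_mem (j : Fin (m + 3)) (hj : j ≠ 1) : e m j + e m 1 ∈ P m := by
  rw [P_eq]
  refine ⟨fun k => ?_, ?_, ?_⟩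
  · show 0 ≤ e m j k + e m 1 k
    rw [e_apply, e_apply]; split_ifs <;> norm_num
  · show ∑ k ∈ Finset.univ.erase 1, (e m j k + e m 1 k) ≤ 1
    rw [Finset.sum_add_distrib, sum_e m j hj, Finset.sum_eq_zero (f := fun k => e m 1 k)]
    · norm_num
    · intro k hk
      show e m 1 k = 0
      rw [e_apply, if_neg (Finset.ne_of_mem_erase hk)]
  · show e m j 1 + e m 1 1 ≤ 1
    rw [e_apply, e_apply, if_neg (Ne.symm hj), if_pos rfl]
    norm_num

/-- The tower: `F k` is the face of the prism in which the coordinates with index `≥ k` vanish. -/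
def F (k : ℕ) : Set (Sp (m + 3)) := {x | x ∈ P m ∧ ∀ j : Fin (m + 3), k ≤ (j : ℕ) → x j = 0}

lemma nonneg_of_mem {x : Sp (m + 3)} (hx : x ∈ P m) (j : Fin (m + 3)) : 0 ≤ x j := by
  rw [P_eq] at hx
  exact hx.1 j

/-- Minus the sum of the coordinates with index `≥ k`. -/
noncomputable def lk (k : ℕ) : StrongDual ℝ (Sp (m + 3)) :=
  - ∑ j ∈ Finset.univ.filter (fun j : Fin (m + 3) => k ≤ (j : ℕ)), EuclideanSpace.proj j

lemma lk_apply (k : ℕ) (x : Sp (m + 3)) :
    lk m k x = - ∑ j ∈ Finset.univ.filter (fun j : Fin (m + 3) => k ≤ (j : ℕ)), x j := by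
  rw [lk, neg_apply, sum_apply]
  rfl

lemma F_face (k : ℕ) : F m k ∈ faces (P m) := by
  have h1 : ∀ x ∈ P m, lk m k x ≤ 0 := by
    intro x hx
    rw [lk_apply]
    have := Finset.sum_nonneg (s := Finset.univ.filter (fun j : Fin (m + 3) => k ≤ (j : ℕ)))
      (f := fun j => x j) (fun j _ => nonneg_of_mem m hx j)
    linarith
  have h2 := exposed_le (P m) (lk m k) 0 h1
  have h3 : F m k = {x | x ∈ P m ∧ lk m k x = 0} := by
    ext x
    constructor
    · rintro ⟨hx, h⟩
      refine ⟨hx, ?_⟩
      rw [lk_apply, Finset.sum_eq_zero, neg_zero]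
      intro j hj
      exact h j (Finset.mem_filter.1 hj).2
    · rintro ⟨hx, h⟩
      refine ⟨hx, fun j hj => ?_⟩
      rw [lk_apply, neg_eq_zero, Finset.sum_eq_zero_iff_of_nonneg
        (fun j _ => nonneg_of_mem m hx j)] at h
      exact h j (Finset.mem_filter.2 ⟨Finset.mem_univ _, hj⟩)
  rw [h3]
  exact h2

lemma F_nonempty (k : ℕ) : (F m k).Nonempty := ⟨0, zero_mem m, fun _ _ => rfl⟩

lemma F_vectorSpan (k : ℕ) (hk : k ≤ m + 3) :
    vectorSpan ℝ (F m k) = Submodule.span ℝ (Set.range fun j : Fin k => e m (Fin.castLE hk j)) := by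
  apply le_antisymm
  · rw [vectorSpan, Submodule.span_le]
    have key : ∀ x ∈ F m k, x ∈ Submodule.span ℝ (Set.range fun j : Fin k => e m (Fin.castLE hk j)) := by
      rintro x ⟨hx, h⟩
      rw [← sum_single m x]
      refine Submodule.sum_mem _ fun j _ => ?_
      by_cases hj : k ≤ (j : ℕ)
      · rw [h j hj, zero_smul]; exact Submodule.zero_mem _
      · push Not at hj
        exact Submodule.smul_mem _ _ (Submodule.subset_span ⟨⟨j, hj⟩, rfl⟩)
    rintro _ ⟨x, hx, y, hy, rfl⟩
    exact Submodule.sub_mem _ (key x hx) (key y hy)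
  · rw [Submodule.span_le]
    rintro _ ⟨j, rfl⟩
    have h1 : e m (Fin.castLE hk j) ∈ F m k := by
      refine ⟨e_mem m _, fun i hi => ?_⟩
      rw [e_apply, if_neg]
      intro h
      have := congrArg Fin.val h
      simp at this
      have := j.2
      omega
    have h0 : (0 : Sp (m + 3)) ∈ F m k := ⟨zero_mem m, fun _ _ => rfl⟩
    have := vsub_mem_vectorSpan ℝ h1 h0
    rwa [vsub_eq_sub, sub_zero] at this

lemma e_linInd : LinearIndependent ℝ (e m) := by
  have h1 := (EuclideanSpace.basisFun (Fin (m + 3)) ℝ).toBasis.linearIndependent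
  have h2 : ⇑(EuclideanSpace.basisFun (Fin (m + 3)) ℝ).toBasis = e m := by
    ext j
    simp [e]
  rwa [h2] at h1

lemma F_dim (k : ℕ) (hk : k ≤ m + 3) : dim (F m k) = k := by
  rw [dim, F_vectorSpan m k hk, finrank_span_eq_card]
  · simp
  · exact (e_linInd m).comp _ (Fin.castLE_injective hk)

lemma F_top : F m (m + 3) = P m := by
  ext x
  constructor
  · exact fun h => h.1
  · intro h
    exact ⟨h, fun j hj => absurd j.2 (by omega)⟩

lemma tower : IsTower (m + 3) (P m) (F m) :=
  ⟨fun i hi => ⟨F_face m i, F_nonempty m i, F_dim m i hi⟩,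
    fun i _ x hx => ⟨hx.1, fun j hj => hx.2 j (by omega)⟩, F_top m⟩

/-- The vertex `V`. -/
noncomputable def V : Sp (m + 3) := e m (Fin.last (m + 2)) + e m 1

lemma last_ne_one : Fin.last (m + 2) ≠ (1 : Fin (m + 3)) := by
  intro h
  have := congrArg Fin.val h
  simp at this

lemma last_ne_zero : Fin.last (m + 2) ≠ (0 : Fin (m + 3)) := by
  intro h
  have := congrArg Fin.val h
  simp at this

lemma V_vertex : V m ∈ vertices (P m) := by
  have hle : ∀ x ∈ P m, x (Fin.last (m + 2)) + x 1 ≤ 2 := by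
    intro x hx
    rw [P_eq] at hx
    have h1 : x (Fin.last (m + 2)) ≤ ∑ j ∈ Finset.univ.erase 1, x j :=
      Finset.single_le_sum (f := fun j => x j) (fun j _ => hx.1 j)
        (Finset.mem_erase.2 ⟨last_ne_one m, Finset.mem_univ _⟩)
    linarith [hx.2.1, hx.2.2]
  let l : StrongDual ℝ (Sp (m + 3)) :=
    EuclideanSpace.proj (Fin.last (m + 2)) + EuclideanSpace.proj 1
  have hl : ∀ x, l x = x (Fin.last (m + 2)) + x 1 := fun x => rfl
  have h2 := exposed_le (P m) l 2 (fun x hx => by rw [hl]; exact hle x hx)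
  have h3 : {V m} = {x | x ∈ P m ∧ l x = 2} := by
    ext x
    constructor
    · intro hx
      have hx' : x = V m := hx
      rw [hx']
      refine ⟨e_add_mem m _ (last_ne_one m), ?_⟩
      rw [hl]
      show (e m (Fin.last (m + 2)) (Fin.last (m + 2)) + e m 1 (Fin.last (m + 2))) +
        (e m (Fin.last (m + 2)) 1 + e m 1 1) = 2
      rw [e_apply, e_apply, e_apply, e_apply, if_pos rfl, if_neg (last_ne_one m),
        if_neg (last_ne_one m).symm, if_pos rfl]
      norm_num
    · rintro ⟨hx, hx2⟩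
      rw [hl] at hx2
      rw [P_eq] at hx
      have hmem : Fin.last (m + 2) ∈ (Finset.univ.erase 1 : Finset (Fin (m + 3))) :=
        Finset.mem_erase.2 ⟨last_ne_one m, Finset.mem_univ _⟩
      have hs := hx.2.1
      rw [← Finset.add_sum_erase _ _ hmem] at hs
      have h0 : 0 ≤ ∑ j ∈ (Finset.univ.erase 1).erase (Fin.last (m + 2)), x j :=
        Finset.sum_nonneg fun j _ => hx.1 j
      have h4 : ∑ j ∈ (Finset.univ.erase 1).erase (Fin.last (m + 2)), x j = 0 := by
        linarith [hx.2.2]
      rw [Finset.sum_eq_zero_iff_of_nonneg (fun j _ => hx.1 j)] at h4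
      have h5 : x (Fin.last (m + 2)) = 1 := by linarith [hx.2.2]
      have h6 : x 1 = 1 := by linarith
      show x = V m
      ext k
      show x k = e m (Fin.last (m + 2)) k + e m 1 k
      rw [e_apply, e_apply]
      by_cases h7 : k = Fin.last (m + 2)
      · rw [if_pos h7, h7, if_neg (last_ne_one m), h5]; norm_num
      · by_cases h8 : k = 1
        · rw [if_neg h7, if_pos h8, h8, h6]; norm_num
        · rw [if_neg h7, if_neg h8, h4 k (Finset.mem_erase.2 ⟨h7, Finset.mem_erase.2
            ⟨h8, Finset.mem_univ _⟩⟩)]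
          norm_num
  show IsExposed ℝ (P m) {V m}
  rw [h3]
  exact h2

lemma V_notMem : V m ∉ F m (m + 2) := by
  rintro ⟨-, h⟩
  have h1 := h (Fin.last (m + 2)) (by simp)
  have h2 : V m (Fin.last (m + 2)) = e m (Fin.last (m + 2)) (Fin.last (m + 2)) +
    e m 1 (Fin.last (m + 2)) := rfl
  rw [h2, e_apply, e_apply, if_pos rfl, if_neg (last_ne_one m)] at h1
  norm_num at h1

lemma F_zero : F m 0 = {0} := by
  ext x
  constructor
  · rintro ⟨-, h⟩
    show x = 0
    ext j
    exact h j (Nat.zero_le _)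
  · intro h
    have h' : x = 0 := h
    rw [h']
    exact ⟨zero_mem m, fun _ _ => rfl⟩

lemma F_one : F m 1 = segment ℝ 0 (e m 0) := by
  ext x
  constructor
  · rintro ⟨hx, h⟩
    have h01 : (0 : Fin (m + 3)) ≠ 1 := by
      intro h
      have := congrArg Fin.val h
      simp at this
    have hx' := hx
    rw [P_eq] at hx'
    have h1 : x 0 ≤ 1 := by
      refine le_trans ?_ hx'.2.1
      exact Finset.single_le_sum (f := fun j => x j) (fun j _ => hx'.1 j)
        (Finset.mem_erase.2 ⟨h01, Finset.mem_univ _⟩)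
    refine ⟨1 - x 0, x 0, by linarith, hx'.1 0, by ring, ?_⟩
    rw [smul_zero, zero_add]
    ext j
    show x 0 * e m 0 j = x j
    rw [e_apply]
    by_cases hj : j = 0
    · rw [if_pos hj, hj, mul_one]
    · rw [if_neg hj, mul_zero, h j]
      have : (j : ℕ) ≠ 0 := fun h => hj (Fin.ext h)
      omega
  · rintro ⟨s, t, hs, ht, hst, rfl⟩
    refine ⟨(convex_convexHull ℝ _) (zero_mem m) (e_mem m 0) hs ht hst, fun j hj => ?_⟩
    show s * 0 + t * e m 0 j = 0
    rw [e_apply, if_neg, mul_zero, mul_zero, add_zero]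
    intro h
    rw [h] at hj
    simp at hj

/-- A face that contains `a` and another point contains one of the neighbours of `a`. -/
lemma cone_prop {a : Sp (m + 3)} (w : Fin (m + 3) → Sp (m + 3)) (hw : ∀ i, w i ∈ P m)
    (hc : ∀ x ∈ P m, ∃ c : Fin (m + 3) → ℝ, (∀ i, 0 ≤ c i) ∧ x - a = ∑ i, c i • (w i - a))
    {G : Set (Sp (m + 3))} (hG : G ∈ faces (P m)) (ha : a ∈ G) (hx : ∃ x ∈ G, x ≠ a) :
    ∃ i, w i ∈ G ∧ w i ≠ a := by
  obtain ⟨l, M, h1, h2, -⟩ := face_data (A := verts m) hG ⟨a, ha⟩
  obtain ⟨x, hxG, hxa⟩ := hx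
  have hla : l a = M := by rw [h2] at ha; exact ha.2
  have hxG' := hxG
  rw [h2] at hxG'
  obtain ⟨c, hc0, hc1⟩ := hc x hxG'.1
  have h3 : ∑ i, c i * (l (w i) - M) = 0 := by
    have h4 : l (x - a) = ∑ i, c i * (l (w i) - M) := by
      rw [hc1, map_sum]
      refine Finset.sum_congr rfl fun i _ => ?_
      rw [map_smul, map_sub, hla, smul_eq_mul]
    rw [← h4, map_sub, hxG'.2, hla, sub_self]
  have h4 : ∀ i, c i * (l (w i) - M) = 0 := by
    have h5 : ∑ i, -(c i * (l (w i) - M)) = 0 := by rw [Finset.sum_neg_distrib, h3, neg_zero]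
    rw [Finset.sum_eq_zero_iff_of_nonneg] at h5
    · intro i
      have := h5 i (Finset.mem_univ i)
      linarith
    · intro i _
      have := mul_nonneg (hc0 i) (sub_nonneg.2 (h1 _ (hw i)))
      nlinarith
  have h5 : ∃ i, c i • (w i - a) ≠ 0 := by
    by_contra hcon
    push Not at hcon
    apply hxa
    rw [← sub_eq_zero, hc1]
    exact Finset.sum_eq_zero fun i _ => hcon i
  obtain ⟨i, hi⟩ := h5
  refine ⟨i, ?_, ?_⟩
  · rw [h2]
    refine ⟨hw i, ?_⟩
    rcases mul_eq_zero.1 (h4 i) with h6 | h6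
    · exact absurd (by rw [h6, zero_smul]) hi
    · linarith
  · intro h6
    exact hi (by rw [h6, sub_self, smul_zero])

lemma W_zero {G : Set (Sp (m + 3))} (hG : G ∈ faces (P m)) (ha : (0 : Sp (m + 3)) ∈ G)
    (hx : ∃ x ∈ G, x ≠ (0 : Sp (m + 3))) (hF : ∀ x ∈ G, x ∈ F m (m + 2) → x = 0) :
    e m (Fin.last (m + 2)) ∈ G := by
  obtain ⟨i, hi, hi0⟩ := cone_prop m (e m) (e_mem m) (fun x hx => ⟨fun i => x i,
    fun i => nonneg_of_mem m hx i, by
      simp only [sub_zero]
      exact (sum_single m x).symm⟩) hG ha hx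
  by_cases h : i = Fin.last (m + 2)
  · rwa [h] at hi
  · exfalso
    apply hi0
    apply hF _ hi
    refine ⟨e_mem m i, fun j hj => ?_⟩
    rw [e_apply, if_neg]
    intro h2
    rw [h2] at hj
    apply h
    apply Fin.ext
    have := i.2
    simp only [Fin.val_last]
    omega

lemma W_e {G : Set (Sp (m + 3))} (hG : G ∈ faces (P m)) (ha : e m 0 ∈ G)
    (hx : ∃ x ∈ G, x ≠ e m 0) (hF : ∀ x ∈ G, x ∈ F m (m + 2) → x = e m 0) :
    e m (Fin.last (m + 2)) ∈ G := by
  have h01 : (0 : Fin (m + 3)) ≠ 1 := by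
    intro h
    have := congrArg Fin.val h
    simp at this
  let w : Fin (m + 3) → Sp (m + 3) := fun i =>
    if i = 0 then 0 else if i = 1 then e m 0 + e m 1 else e m i
  have hw : ∀ i, w i ∈ P m := by
    intro i
    show (if i = 0 then 0 else if i = 1 then e m 0 + e m 1 else e m i) ∈ P m
    split_ifs
    · exact zero_mem m
    · exact e_add_mem m 0 h01
    · exact e_mem m i
  obtain ⟨i, hi, hi0⟩ := cone_prop m w hw (fun x hx => by
    refine ⟨Function.update (fun i => x i) 0 (1 - ∑ j ∈ Finset.univ.erase 1, x j), ?_, ?_⟩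
    · intro i
      have hx' := hx
      rw [P_eq] at hx'
      by_cases hi : i = 0
      · rw [hi, Function.update_self]
        linarith [hx'.2.1]
      · rw [Function.update_of_ne hi]
        exact hx'.1 i
    · have ht : ∀ i, Function.update (fun i => x i) 0 (1 - ∑ j ∈ Finset.univ.erase 1, x j) i •
          (w i - e m 0) = x i • e m i - ((if i = 1 then 0 else x i) +
            (if i = 0 then 1 - ∑ j ∈ Finset.univ.erase 1, x j else 0)) • e m 0 := by
        intro i
        by_cases hi : i = 0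
        · subst hi
          rw [Function.update_self, if_neg h01, if_pos rfl]
          have : w 0 = 0 := if_pos rfl
          rw [this]
          module
        · by_cases hi1 : i = 1
          · subst hi1
            rw [Function.update_of_ne hi, if_pos rfl, if_neg hi]
            have : w 1 = e m 0 + e m 1 := by
              show (if (1 : Fin (m + 3)) = 0 then (0 : Sp (m + 3)) else
                if (1 : Fin (m + 3)) = 1 then e m 0 + e m 1 else e m 1) = _
              rw [if_neg hi, if_pos rfl]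
            rw [this]
            module
          · rw [Function.update_of_ne hi, if_neg hi1, if_neg hi]
            have : w i = e m i := by
              show (if i = 0 then (0 : Sp (m + 3)) else
                if i = 1 then e m 0 + e m 1 else e m i) = _
              rw [if_neg hi, if_neg hi1]
            rw [this]
            module
      have hsum : ∑ i : Fin (m + 3), ((if i = 1 then 0 else x i) +
            (if i = 0 then 1 - ∑ j ∈ Finset.univ.erase 1, x j else 0)) = 1 := by
        rw [Finset.sum_add_distrib, Finset.sum_ite_eq' Finset.univ (0 : Fin (m + 3)),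
          if_pos (Finset.mem_univ _)]
        have h7 : ∑ i : Fin (m + 3), (if i = 1 then 0 else x i) =
            ∑ j ∈ Finset.univ.erase 1, x j := by
          rw [← Finset.add_sum_erase _ _ (Finset.mem_univ 1), if_pos rfl, zero_add]
          refine Finset.sum_congr rfl fun j hj => ?_
          rw [if_neg (Finset.ne_of_mem_erase hj)]
        rw [h7]
        ring
      rw [Finset.sum_congr rfl (fun i _ => ht i), Finset.sum_sub_distrib, ← Finset.sum_smul,
        sum_single, hsum, one_smul]) hG ha hx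
  by_cases h : i = Fin.last (m + 2)
  · have : w i = e m (Fin.last (m + 2)) := by
      show (if i = 0 then 0 else if i = 1 then e m 0 + e m 1 else e m i) = _
      rw [h, if_neg (last_ne_zero m), if_neg (last_ne_one m)]
    rwa [this] at hi
  · exfalso
    apply hi0
    apply hF _ hi
    refine ⟨hw i, fun j hj => ?_⟩
    have hj' : j = Fin.last (m + 2) := by
      apply Fin.ext
      have := j.2
      simp only [Fin.val_last]
      omega
    rw [hj']
    show (if i = 0 then (0 : Sp (m + 3)) else if i = 1 then e m 0 + e m 1 else e m i)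
      (Fin.last (m + 2)) = 0
    split_ifs
    · rfl
    · show e m 0 (Fin.last (m + 2)) + e m 1 (Fin.last (m + 2)) = 0
      rw [e_apply, e_apply, if_neg (last_ne_zero m), if_neg (last_ne_one m), add_zero]
    · rw [e_apply, if_neg (fun h' => h h'.symm)]

end Prism

end Q142
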