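import Mathlib
import Pool.Agent.Q16.SQ.Stm3
set_option autoImplicit false
noncomputable section
open Pool.Agent.Helper549.Tri Q16.SQ

namespace Pool.Agent.Q142.SQC4

theorem dist_sq_lineMap (A B C : E2) (t : ℝ) :
    dist A (AffineMap.lineMap B C t) ^ 2 =
      (1 - t) * dist A B ^ 2 + t * dist A C ^ 2 - t * (1 - t) * dist B C ^ 2 := by
  rw [dist_eq_norm, dist_eq_norm, dist_eq_norm, dist_eq_norm]
  have h : A - AffineMap.lineMap B C t = (1 - t) • (A - B) + t • (A - C) := by
    rw [AffineMap.lineMap_apply_module]; module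
  have h2 : B - C = (A - C) - (A - B) := by abel
  rw [h, h2, norm_add_sq_real, norm_sub_sq_real (A - C) (A - B), norm_smul, norm_smul,
    real_inner_smul_left, real_inner_smul_right, real_inner_comm (A - B) (A - C), mul_pow, mul_pow,
    Real.norm_eq_abs, Real.norm_eq_abs, sq_abs, sq_abs]
  ring

/-- job C4 -/
theorem t_C4 (h1 : S_EQU) (h2 : S_GLUE) (h3 : S_TRIK) (h4 : S_SPLIT) : S_C4 := by
  intro e a b c he ha hb hc habc r hr A B C hABC hBC hAC hAB
  have ha' : (0 : ℝ) < a := by exact_mod_cast ha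
  have hb' : (0 : ℝ) < b := by exact_mod_cast hb
  have hc' : (0 : ℝ) < c := by exact_mod_cast hc
  have hab : (0 : ℝ) < a + b := by linarith
  have hsq : (c : ℝ) ^ 2 = (a : ℝ) ^ 2 + a * b + (b : ℝ) ^ 2 := by exact_mod_cast habc
  have hrpos : 0 < r := by rw [hr]; positivity
  set t : ℝ := b / (a + b) with ht
  have ht0 : 0 < t := by positivity
  have ht1 : t < 1 := by rw [ht, div_lt_one hab]; linarith
  have h1t : 1 - t = a / (a + b) := by rw [ht]; field_simp; ring
  set D : E2 := AffineMap.lineMap B C t with hD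
  obtain ⟨hi1, hi2, hun, hdis⟩ := h4 ![A, B, C] hABC t ht0 ht1
  have e0 : (![A, B, C] : Fin 3 → E2) 0 = A := rfl
  have e1 : (![A, B, C] : Fin 3 → E2) 1 = B := rfl
  have e2 : (![A, B, C] : Fin 3 → E2) 2 = C := rfl
  rw [e0, e1, e2] at hun hdis
  rw [e0, e1, e2] at hi1 hi2
  -- the three distances
  have hBD : dist B D = e * (r * b) := by
    rw [hD, dist_left_lineMap, hBC, Real.norm_eq_abs, abs_of_pos ht0, ht]
    field_simp
  have hCD : dist C D = e * (r * a) := by
    rw [hD, dist_comm, dist_lineMap_right, hBC, Real.norm_eq_abs, abs_of_pos (by linarith), h1t]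
    field_simp
  have hAD : dist A D = e * (r * b) := by
    have h5 : dist A D ^ 2 = (e * (r * b)) ^ 2 := by
      rw [hD, dist_sq_lineMap, hAB, hAC, hBC, h1t, ht]
      have : (e * (r * (c : ℝ))) ^ 2 = e ^ 2 * r ^ 2 * ((a : ℝ) ^ 2 + a * b + (b : ℝ) ^ 2) := by
        rw [← hsq]; ring
      rw [this]
      field_simp
      ring
    have h6 : 0 ≤ e * (r * (b : ℝ)) := by positivity
    exact (sq_eq_sq₀ dist_nonneg h6).mp h5
  have hun' : TriOf A B C = TriOf A B D ∪ TriOf A C D := by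
    rw [TriOf, TriOf, TriOf, hun]
  rw [hun']
  refine h2 _ _ _ _ _ ?_ ?_ hdis
  · -- the equilateral triangle
    have hL : e * (r * (b : ℝ)) = e * (3 * ((a : ℝ) + b) * ((1 : ℕ) : ℝ) * a * (b : ℝ) ^ 2) := by
      rw [hr]; push_cast; ring
    refine h1 e a b c 1 he ha hb hc one_pos habc A B D ?_ ?_ ?_
    · rw [hBD, hL]
    · rw [hAD, hL]
    · rw [hAB, hL]
  · -- r times the tile
    refine h3 _ _ _ (3 * (a + b) * a * b) (by positivity) A C D hi2 ?_
    have hk : (((3 * (a + b) * a * b : ℕ)) : ℝ) = r := by rw [hr]; push_cast; ring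
    rw [hk, hCD, hAD, hAC]
    left
    refine ⟨?_, ?_, ?_⟩ <;> ring

end Pool.Agent.Q142.SQC4
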