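import Mathlib
import Pool.Agent.Q142.Expl

set_option autoImplicit false

namespace Q142

variable {n : ℕ}

lemma mem_of_vertex {P : Set (Sp n)} {v : Sp n} (hv : v ∈ vertices P) : v ∈ P :=
  IsExposed.subset hv rfl

/-- a vertex is the unique maximizer of some functional -/
lemma vertex_functional {P : Set (Sp n)} {v : Sp n} (hv : v ∈ vertices P) :
    ∃ l : StrongDual ℝ (Sp n), ∀ y ∈ P, y ≠ v → l y < l v := by
  obtain ⟨l, hl⟩ := hv (Set.singleton_nonempty v)
  have hvm : v ∈ {x | x ∈ P ∧ ∀ y ∈ P, l y ≤ l x} := by
    rw [← hl]; rfl
  refine ⟨l, fun y hy hne => ?_⟩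
  refine lt_of_le_of_ne (hvm.2 y hy) fun h => hne ?_
  have : y ∈ ({v} : Set (Sp n)) := by
    rw [hl]
    exact ⟨hy, fun z hz => by rw [h]; exact hvm.2 z hz⟩
  exact this

lemma vertex_of_functional {P : Set (Sp n)} {v : Sp n} (hv : v ∈ P) (l : StrongDual ℝ (Sp n))
    (h : ∀ y ∈ P, y ≠ v → l y < l v) : v ∈ vertices P := by
  intro _
  refine ⟨l, ?_⟩
  ext y
  constructor
  · rintro rfl
    refine ⟨hv, fun z hz => ?_⟩
    by_cases hzy : z = y
    · rw [hzy]
    · exact (h z hz hzy).le
  · rintro ⟨hy, hy'⟩
    by_contra hne
    exact absurd (hy' v hv) (not_le.2 (h y hy hne))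

/-- a polytope is the convex hull of its (finitely many) vertices -/
lemma polytope_vertices {P : Set (Sp n)} (hP : IsPolytope P) :
    (vertices P).Finite ∧ convexHull ℝ (vertices P) = P := by
  classical
  obtain ⟨S0, hS0⟩ := hP
  have hex : ∃ k, ∃ S : Finset (Sp n), S.card = k ∧ P = convexHull ℝ (S : Set (Sp n)) :=
    ⟨_, S0, rfl, hS0⟩
  obtain ⟨S, hScard, hS⟩ := Nat.find_spec hex
  have hmin : ∀ T : Finset (Sp n), P = convexHull ℝ (T : Set (Sp n)) → S.card ≤ T.card := by
    intro T hT
    rw [hScard]
    exact Nat.find_min' hex ⟨T, rfl, hT⟩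
  have hvS : ∀ v ∈ S, v ∈ vertices P := by
    intro v hv
    have hnot : v ∉ convexHull ℝ ((S.erase v : Finset (Sp n)) : Set (Sp n)) := by
      intro hmem
      have : P = convexHull ℝ ((S.erase v : Finset (Sp n)) : Set (Sp n)) := by
        rw [hS]
        apply Set.Subset.antisymm
        · apply convexHull_min _ (convex_convexHull ℝ _)
          intro w hw
          by_cases hwv : w = v
          · rw [hwv]; exact hmem
          · exact subset_convexHull ℝ _ (by
              simp only [Finset.coe_erase, Set.mem_sdiff, Set.mem_singleton_iff]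
              exact ⟨hw, hwv⟩)
        · apply convexHull_mono
          simp
      have h1 := hmin _ this
      have h2 := Finset.card_erase_lt_of_mem hv
      omega
    have hcl : IsClosed (convexHull ℝ ((S.erase v : Finset (Sp n)) : Set (Sp n))) :=
      ((S.erase v).finite_toSet.isCompact_convexHull (𝕜 := ℝ)).isClosed
    obtain ⟨l, u, h1, h2⟩ := geometric_hahn_banach_closed_point (convex_convexHull ℝ _) hcl hnot
    apply vertex_of_functional (l := l)
    · rw [hS]; exact subset_convexHull ℝ _ hv
    · -- every point of `P` is a combination of `v` and a point of the smaller hull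
      intro y hy hne
      have hle : P ⊆ {y | l y < l v ∨ y = v} := by
        rw [hS]
        apply convexHull_min
        · intro w hw
          by_cases hwv : w = v
          · right; exact hwv
          · left
            exact (h1 w (subset_convexHull ℝ _ (by
              simp only [Finset.coe_erase, Set.mem_sdiff, Set.mem_singleton_iff]
              exact ⟨hw, hwv⟩))).trans h2
        · intro x hx y hy a b ha hb hab
          have hlin : l (a • x + b • y) = a * l x + b * l y := by
            rw [map_add, map_smul, map_smul]; rfl
          rcases eq_or_lt_of_le ha with ha0 | ha0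
          · have hb1 : b = 1 := by linarith
            rw [← ha0, hb1, zero_smul, one_smul, zero_add]
            exact hy
          · rcases eq_or_lt_of_le hb with hb0 | hb0
            · have ha1 : a = 1 := by linarith
              rw [← hb0, ha1, zero_smul, one_smul, add_zero]
              exact hx
            · rcases hx with hx | hx
              · left
                rw [hlin]
                have hy' : l y ≤ l v := by
                  rcases hy with hy | hy
                  · exact hy.le
                  · rw [hy]
                have h3 := mul_lt_mul_of_pos_left hx ha0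
                have h4 := mul_le_mul_of_nonneg_left hy' hb
                have h5 : a * l v + b * l v = l v := by rw [← add_mul, hab, one_mul]
                linarith
              · rcases hy with hy | hy
                · left
                  rw [hlin, hx]
                  have h4 := mul_lt_mul_of_pos_left hy hb0
                  have h5 : a * l v + b * l v = l v := by rw [← add_mul, hab, one_mul]
                  linarith
                · right
                  rw [hx, hy, ← add_smul, hab, one_smul]
      rcases hle hy with h | h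
      · exact h
      · exact absurd h hne
  have hSv : vertices P ⊆ (S : Set (Sp n)) := by
    intro v hv
    by_contra hvS'
    obtain ⟨l, hl⟩ := vertex_functional hv
    have hvP : v ∈ P := mem_of_vertex hv
    have hlt : ∀ w ∈ S, l w < l v := by
      intro w hw
      apply hl w
      · rw [hS]; exact subset_convexHull ℝ _ hw
      · rintro rfl; exact hvS' hw
    rw [hS] at hvP
    have : convexHull ℝ (S : Set (Sp n)) ⊆ {y | l y < l v} := by
      apply convexHull_min
      · exact fun w hw => hlt w hw
      · exact convex_halfSpace_lt (l.toLinearMap.isLinear) _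
    exact lt_irrefl _ (show l v < l v from this hvP)
  have heq : vertices P = (S : Set (Sp n)) := Set.Subset.antisymm hSv (fun v hv => hvS v hv)
  rw [heq]
  exact ⟨S.finite_toSet, hS.symm⟩

lemma dim_le_of_ncard {A : Set (Sp n)} (hA : A.Finite) {k : ℕ} (h : A.ncard ≤ k + 1) :
    dim (convexHull ℝ A) ≤ k := by
  unfold dim
  rw [← direction_affineSpan, affineSpan_convexHull, direction_affineSpan]
  rcases A.eq_empty_or_nonempty with h0 | h0
  · rw [h0, vectorSpan_empty, finrank_bot]
    exact Nat.zero_le _
  · have h1 : 0 < A.ncard := (Set.ncard_pos hA).2 h0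
    obtain ⟨c, hc⟩ : ∃ c, A.ncard = c + 1 := ⟨A.ncard - 1, by omega⟩
    have := hA.fintype
    have h2 := finrank_vectorSpan_range_le ℝ (fun x : A => (x : Sp n)) (n := c) (by
      rw [← hc, Set.ncard_eq_toFinset_card', Set.toFinset_card])
    rw [Subtype.range_coe] at h2
    omega

/-- an isometry preserving `P` permutes its faces -/
lemma exposed_image {P F : Set (Sp n)} (A : Sp n ≃ₗᵢ[ℝ] Sp n) (hA : A '' P = P)
    (hF : IsExposed ℝ P F) : IsExposed ℝ P (A '' F) := by
  intro hne
  have hne' : F.Nonempty := by
    rwa [Set.image_nonempty] at hne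
  obtain ⟨l, hl⟩ := hF hne'
  refine ⟨l.comp (A.symm.toContinuousLinearEquiv : Sp n →L[ℝ] Sp n), ?_⟩
  have hsymm : ∀ y ∈ P, A.symm y ∈ P := by
    intro y hy
    rw [← hA] at hy
    obtain ⟨z, hz, rfl⟩ := hy
    rwa [A.symm_apply_apply]
  have himg : ∀ y ∈ P, A y ∈ P := by
    intro y hy
    rw [← hA]
    exact ⟨y, hy, rfl⟩
  ext y
  constructor
  · rintro ⟨x, hx, rfl⟩
    rw [hl] at hx
    refine ⟨himg x hx.1, fun z hz => ?_⟩
    have := hx.2 (A.symm z) (hsymm z hz)
    simpa using this
  · rintro ⟨hy, hy'⟩
    refine ⟨A.symm y, ?_, A.apply_symm_apply y⟩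
    rw [hl]
    refine ⟨hsymm y hy, fun z hz => ?_⟩
    have := hy' (A z) (himg z hz)
    simpa using this

lemma vertex_image {P : Set (Sp n)} (A : Sp n ≃ₗᵢ[ℝ] Sp n) (hA : A '' P = P) {v : Sp n}
    (hv : v ∈ vertices P) : A v ∈ vertices P := by
  have := exposed_image A hA hv
  rw [Set.image_singleton] at this
  exact this

end Q142
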